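import Pool.Agent.CH4.Defs
import Pool.Agent.CHS.Basic

/-!
# CH4/Basic: degrees in `G_W` for `Good4`, and first consequences of `Prob`

The proofs of `two_of_mem4`, `deg_add_two4` are those of `CHS/Basic`.
-/

set_option autoImplicit false

namespace Pool.Agent.CH4
open Finset Pool.Agent.CHS

variable {V : Type} [Fintype V] [DecidableEq V] {m : SQ V} {c : V → ℕ} {W A B : Finset V}

theorem Zall_notin4 (hW : Good4 m c W) (v : V) (hv : v ∈ Zall m W) : v ∉ W := by
  obtain ⟨h, hh, w, hw, hne, rfl⟩ := (mem_Zall m W v).1 hv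
  exact hW.indep h hh w hw (Ne.symm hne)

theorem two_of_mem4 (hW : Good4 m c W) (v : V) (hv : v ∈ Zall m W) :
    (W.filter (fun h => v ∈ Zs m W h)).card = 2 := by
  obtain ⟨h, hh, w, hw, hne, hv'⟩ := (mem_Zall m W v).1 hv
  have : W.filter (fun h => v ∈ Zs m W h) = {h, w} := by
    ext t
    simp only [Finset.mem_filter, Finset.mem_insert, Finset.mem_singleton, mem_Zs]
    constructor
    · rintro ⟨ht, w', hw', hne', he⟩
      rcases hW.zdist t ht w' hw' h hh w hw (Ne.symm hne') (Ne.symm hne) (he.trans hv'.symm) with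
        ⟨h1, -⟩ | ⟨h1, -⟩
      · exact Or.inl h1
      · exact Or.inr h1
    · rintro (rfl | rfl)
      · exact ⟨hh, w, hw, hne, hv'⟩
      · exact ⟨hw, h, hh, Ne.symm hne, by rw [m.comm]; exact hv'⟩
  rw [this, Finset.card_pair (Ne.symm hne)]

/-- The number of the `w ∈ W` with `m.mul v w ∈ W`, for `v ∈ Zall`. -/
theorem deg_add_two4 (hW : Good4 m c W) (v : V) (hz : v ∈ Zall m W) :
    (univ.filter (fun u => adj m W v u)).card + 2 = W.card := by
  have hv := Zall_notin4 hW v hz
  rw [nb_eq m W v hv, Finset.card_image_of_injective _ (mul_inj m v), ← two_of_mem4 hW v hz]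
  have h1 : (W.filter (fun w => m.mul v w ∉ W)).card + (W.filter (fun w => m.mul v w ∈ W)).card
      = W.card := by
    rw [add_comm]
    exact Finset.card_filter_add_card_filter_not (s := W) (fun w => m.mul v w ∈ W)
  rw [← h1]
  congr 2
  apply Finset.filter_congr
  intro w hw
  rw [mem_Zs]
  constructor
  · rintro ⟨w', hw', hne, h⟩
    have : m.mul v w = w' := by
      rw [m.comm, ← h, m.inv]
    rw [this]; exact hw'
  · intro h
    refine ⟨m.mul v w, h, ?_, ?_⟩
    · intro h'
      have := m.inv w v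
      rw [m.comm w v, h', m.idem] at this
      rw [this] at hw
      exact hv hw
    · rw [m.comm v w]; exact m.inv w v

/-- At most two of the points `m.mul v w`, `w ∈ W`, lie in `W`, if `v ∉ W`. -/
theorem inW_le_two4 (hW : Good4 m c W) (v : V) (hv : v ∉ W) :
    (W.filter (fun w => m.mul v w ∈ W)).card ≤ 2 := by
  have h1 : (W.filter (fun w => m.mul v w ∉ W)).card + (W.filter (fun w => m.mul v w ∈ W)).card
      = W.card := by
    rw [add_comm]
    exact Finset.card_filter_add_card_filter_not (s := W) (fun w => m.mul v w ∈ W)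
  have h2 : (univ.filter (fun u => adj m W v u)).card = (W.filter (fun w => m.mul v w ∉ W)).card := by
    rw [nb_eq m W v hv, Finset.card_image_of_injective _ (mul_inj m v)]
  by_cases hz : v ∈ Zall m W
  · have := deg_add_two4 hW v hz
    omega
  · have := deg_eq m W v hv hz
    omega

/-- A union bound which does not need `W`: `|Zall| ≤ |W|²`. -/
theorem Zall_card_le (m : SQ V) (W : Finset V) : (Zall m W).card ≤ W.card * W.card := by
  unfold Zall
  refine (Finset.card_biUnion_le_card_mul _ _ W.card (fun h _ => ?_))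
  unfold Zs
  exact Finset.card_image_le.trans (Finset.card_le_card (Finset.erase_subset _ _))

namespace PartAB
variable (hP : PartAB c W A B)
include hP

theorem disj : Disjoint A B := by
  rw [Finset.disjoint_left]
  intro v h1 h2
  have h3 := ((hP.memA v).1 h1).2
  have h4 := ((hP.memB v).1 h2).2
  omega

theorem union : A ∪ B = univ \ W := by
  ext v
  rw [mem_union, hP.memA, hP.memB, mem_sdiff]
  constructor
  · rintro (⟨h, -⟩ | ⟨h, -⟩) <;> exact ⟨mem_univ v, h⟩
  · rintro ⟨-, h⟩
    rcases lt_or_ge (c v) 2 with h2 | h2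
    · exact Or.inl ⟨h, h2⟩
    · exact Or.inr ⟨h, h2⟩

theorem AW {v : V} (hv : v ∈ A) : v ∉ W := ((hP.memA v).1 hv).1

theorem BW {v : V} (hv : v ∈ B) : v ∉ W := ((hP.memB v).1 hv).1

theorem AorB {v : V} (hv : v ∉ W) : v ∈ A ∨ v ∈ B := by
  rcases lt_or_ge (c v) 2 with h2 | h2
  · exact Or.inl ((hP.memA v).2 ⟨hv, h2⟩)
  · exact Or.inr ((hP.memB v).2 ⟨hv, h2⟩)

theorem card : A.card + B.card + W.card = Fintype.card V := by
  rw [← Finset.card_union_of_disjoint hP.disj, hP.union, ← Finset.card_univ]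
  exact Finset.card_sdiff_add_card_eq_card (Finset.subset_univ W)

/-- cross pairs of points outside `W` in terms of the colours -/
theorem cross_iff {u v : V} (hu : u ∉ W) (hv : v ∉ W) :
    cross A B u v ↔ (c u < 2 ∧ 2 ≤ c v) ∨ (2 ≤ c u ∧ c v < 2) := by
  unfold cross
  rw [hP.memA, hP.memA, hP.memB, hP.memB]
  constructor
  · rintro (⟨⟨-, h1⟩, -, h2⟩ | ⟨⟨-, h1⟩, -, h2⟩)
    · exact Or.inl ⟨h1, h2⟩
    · exact Or.inr ⟨h1, h2⟩
  · rintro (⟨h1, h2⟩ | ⟨h1, h2⟩)
    · exact Or.inl ⟨⟨hu, h1⟩, hv, h2⟩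
    · exact Or.inr ⟨⟨hu, h1⟩, hv, h2⟩

/-- cross pairs are not monochromatic -/
theorem cross_ne {u v : V} (h : cross A B u v) : c v ≠ c u := by
  rcases h with ⟨h1, h2⟩ | ⟨h1, h2⟩
  · have := ((hP.memA u).1 h1).2
    have := ((hP.memB v).1 h2).2
    omega
  · have := ((hP.memB u).1 h1).2
    have := ((hP.memA v).1 h2).2
    omega

end PartAB

namespace Prob
variable {G : V → V → Prop} [DecidableRel G] {M : V → Finset V} (hP : Prob m c W A B G M)
include hP

theorem notin {u v : V} (h : G u v) : u ∉ W ∧ v ∉ W := ⟨(hP.sub u v h).1, (hP.sub u v h).2.1⟩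

theorem irrefl (u : V) : ¬ G u u := fun h => (hP.sub u u h).2.2.1 rfl

/-- `|A|` and `|B|` differ by at most `3 |W|` (if `W` is not empty). -/
theorem AB_close (hne : W.Nonempty) : A.card ≤ B.card + 3 * W.card ∧
    B.card ≤ A.card + 3 * W.card := by
  obtain ⟨h, hh⟩ := hne
  have h1 := hP.bal h hh
  have h2 := hP.Mcard h hh
  have h3 : A.card ≤ (A \ M h).card + (M h).card := by
    have := Finset.card_le_card (Finset.subset_union_left (s₁ := A) (s₂ := M h))
    rw [← Finset.sdiff_union_self_eq_union] at this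
    exact this.trans (Finset.card_union_le _ _)
  have h4 : B.card ≤ (B \ M h).card + (M h).card := by
    have := Finset.card_le_card (Finset.subset_union_left (s₁ := B) (s₂ := M h))
    rw [← Finset.sdiff_union_self_eq_union] at this
    exact this.trans (Finset.card_union_le _ _)
  have h5 : (A \ M h).card ≤ A.card := Finset.card_le_card Finset.sdiff_subset
  have h6 : (B \ M h).card ≤ B.card := Finset.card_le_card Finset.sdiff_subset
  omega

theorem deg_le (v : V) : (univ.filter (fun u => G v u)).card ≤ W.card := by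
  refine le_trans (Finset.card_le_card ?_) (Pool.Agent.CHS.deg_le m W v)
  intro u hu
  rw [mem_filter] at hu ⊢
  exact ⟨hu.1, hP.sub v u hu.2⟩

end Prob

end Pool.Agent.CH4
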