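import Pool.Agent.CH4.Basic
import Pool.Agent.CHS.HallExp

/-!
# CH4/Cmp: completing a partial matching of a colour by pool edges (as `CHS/Complete`)

`b` is a matching of `G` avoiding `M h`, covering equally many points of `A` and of `B`.
`DA`, `DB` = points of `A`, `B` outside `M h` with `b u = u`.  `b` fixes the points of `M h`, so
`|DA| = |A \ M h| - #{u ∈ A : b u ≠ u} = |B \ M h| - #{u ∈ B : b u ≠ u} = |DB|` (`Prob.bal`), and
`|DB| ≤ #{u ∈ B : b u = u}`.  Apply `hallExp` (with `hP.expand`) and let `f u = b u` if `b u ≠ u`,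
`f u = g u` for `u ∈ DA`, the inverse of `g` on `DB`, and `f u = u` on `W ∪ M h`.
Copy the proof of `CHS/Complete`.
-/

set_option autoImplicit false

namespace Pool.Agent.CH4
open Finset Pool.Agent.CHS

theorem complete4 {V : Type} [Fintype V] [DecidableEq V] (m : SQ V) (c : V → ℕ)
    (W A B : Finset V) (G : V → V → Prop) [DecidableRel G] (M : V → Finset V)
    (hP : Prob m c W A B G M) (h : V) (hh : h ∈ W)
    (b : V → V) (hb1 : ∀ u, b (b u) = u)
    (hb2 : ∀ u, b u ≠ u → G u (b u) ∧ u ∉ M h)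
    (hbal : (A.filter (fun u => b u ≠ u)).card = (B.filter (fun u => b u ≠ u)).card)
    (P : V → V → Prop) [DecidableRel P] (hP1 : ∀ u v, P u v → P v u)
    (hP2 : ∀ u v, P u v → G u v ∧ cross A B u v) (τ : ℝ)
    (hτ : (W.card : ℝ) * (B.filter (fun u => b u = u)).card / (2 * Fintype.card V)
      + (1 / 10 ^ 7) * W.card < τ)
    (hdeg : ∀ v ∉ W, v ∉ M h → b v = v →
      τ ≤ ((univ.filter (fun u => P v u ∧ b u = u ∧ u ∉ M h)).card : ℝ)) :
    ∃ f : V → V, Mat4 W G M h f ∧ (∀ u, b u ≠ u → f u = b u) ∧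
      (∀ u, b u = u → f u ≠ u → P u (f u)) := by
  classical
  have hAB : ∀ u, u ∈ A → u ∈ B → False := fun u h1 h2 => (disjoint_left.1 hP.part.disj) h1 h2
  have hmem : ∀ u, (u ∈ A ∨ u ∈ B) ↔ u ∉ W := by
    intro u
    rw [← mem_union, hP.part.union, mem_sdiff]
    simp
  have hAW : ∀ u, u ∈ A → u ∉ W := fun u hu => (hmem u).1 (Or.inl hu)
  have hBW : ∀ u, u ∈ B → u ∉ W := fun u hu => (hmem u).1 (Or.inr hu)
  have hbZ : ∀ u, u ∈ M h → b u = u := by
    intro u hu
    by_contra hne
    exact (hb2 u hne).2 hu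
  have hbW : ∀ u, u ∈ W → b u = u := by
    intro u hu
    by_contra hne
    exact (hP.notin (hb2 u hne).1).1 hu
  set DA := A.filter (fun u => b u = u ∧ u ∉ M h) with hDA
  set DB := B.filter (fun u => b u = u ∧ u ∉ M h) with hDB
  have memA : ∀ u, u ∈ DA ↔ u ∈ A ∧ b u = u ∧ u ∉ M h := fun u => by
    rw [hDA, mem_filter]
  have memB : ∀ u, u ∈ DB ↔ u ∈ B ∧ b u = u ∧ u ∉ M h := fun u => by
    rw [hDB, mem_filter]
  have key : ∀ X : Finset V, (X.filter (fun u => b u = u ∧ u ∉ M h)).card +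
      (X.filter (fun u => b u ≠ u)).card = (X \ M h).card := by
    intro X
    rw [← card_union_of_disjoint]
    · congr 1
      ext u
      rw [mem_union, mem_filter, mem_filter, mem_sdiff]
      constructor
      · rintro (⟨h1, _, h3⟩ | ⟨h1, h2⟩)
        · exact ⟨h1, h3⟩
        · exact ⟨h1, (hb2 u h2).2⟩
      · rintro ⟨h1, h2⟩
        by_cases h3 : b u = u
        · exact Or.inl ⟨h1, h3, h2⟩
        · exact Or.inr ⟨h1, h3⟩
    · rw [disjoint_left]
      intro u h1 h2
      exact (mem_filter.1 h2).2 (mem_filter.1 h1).2.1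
  have hcard : DA.card = DB.card := by
    have e1 := key A
    have e2 := key B
    have e3 := hP.bal h hh
    rw [hDA, hDB]
    omega
  have hle : (DA.card : ℝ) ≤ ((B.filter (fun u => b u = u)).card : ℝ) := by
    rw [hcard]
    norm_cast
    refine card_le_card fun u hu => ?_
    rw [mem_filter]
    exact ⟨((memB u).1 hu).1, ((memB u).1 hu).2.1⟩
  obtain ⟨g, hg1, hg2⟩ := hallExp m W hP.expand P
    (fun u v huv => (hP.sub u v (hP2 u v huv).1).2.2.2) DA DB
    hcard τ (by
      refine lt_of_le_of_lt ?_ hτ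
      have hn : (0 : ℝ) ≤ 2 * Fintype.card V := by positivity
      have : (W.card : ℝ) * DA.card / (2 * Fintype.card V) ≤
          (W.card : ℝ) * (B.filter (fun u => b u = u)).card / (2 * Fintype.card V) :=
        div_le_div_of_nonneg_right (mul_le_mul_of_nonneg_left hle (Nat.cast_nonneg _)) hn
      linarith) (by
      intro u hu
      obtain ⟨h1, h2, h3⟩ := (memA u).1 hu
      refine (hdeg u (hAW u h1) h3 h2).trans ?_
      norm_cast
      refine card_le_card ?_
      intro v hv
      rw [mem_filter] at hv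
      obtain ⟨-, h4, h5, h6⟩ := hv
      rw [mem_filter, memB]
      refine ⟨⟨?_, h5, h6⟩, h4⟩
      rcases (hP2 u v h4).2 with h7 | h7
      · exact h7.2
      · exact (hAB u h1 h7.1).elim) (by
      intro v hv
      obtain ⟨h1, h2, h3⟩ := (memB v).1 hv
      refine (hdeg v (hBW v h1) h3 h2).trans ?_
      norm_cast
      refine card_le_card ?_
      intro u hu
      rw [mem_filter] at hu
      obtain ⟨-, h4, h5, h6⟩ := hu
      rw [mem_filter, memA]
      refine ⟨⟨?_, h5, h6⟩, hP1 _ _ h4⟩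
      rcases (hP2 v u h4).2 with h7 | h7
      · exact (hAB v h7.1 h1).elim
      · exact h7.2)
  have hsurj : ∀ v ∈ DB, ∃ u ∈ DA, g u = v := by
    have h1 : DA.image g = DB := by
      apply eq_of_subset_of_card_le
      · intro v hv
        obtain ⟨u, hu, rfl⟩ := mem_image.1 hv
        exact (hg2 u hu).1
      · rw [card_image_of_injOn hg1, hcard]
    intro v hv
    rw [← h1] at hv
    obtain ⟨u, hu, hv⟩ := mem_image.1 hv
    exact ⟨u, hu, hv⟩
  choose! g' hg'1 hg'2 using hsurj
  have hg'g : ∀ u ∈ DA, g' (g u) = u := by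
    intro u hu
    have h1 := (hg2 u hu).1
    exact hg1 (hg'1 _ h1) hu (hg'2 _ h1)
  have nAB : ∀ u, u ∈ DB → u ∉ DA := fun u h1 h2 => hAB u ((memA u).1 h2).1 ((memB u).1 h1).1
  set f : V → V := fun u => if b u ≠ u then b u else if u ∈ DA then g u else
    if u ∈ DB then g' u else u with hf
  have f1 : ∀ u, b u ≠ u → f u = b u := by
    intro u hu
    simp only [hf]
    rw [if_pos hu]
  have f2 : ∀ u, u ∈ DA → f u = g u := by
    intro u hu
    simp only [hf]
    rw [if_neg (not_not.2 ((memA u).1 hu).2.1), if_pos hu]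
  have f3 : ∀ u, u ∈ DB → f u = g' u := by
    intro u hu
    simp only [hf]
    rw [if_neg (not_not.2 ((memB u).1 hu).2.1), if_neg (nAB u hu), if_pos hu]
  have f4 : ∀ u, b u = u → u ∉ DA → u ∉ DB → f u = u := by
    intro u h1 h2 h3
    simp only [hf]
    rw [if_neg (not_not.2 h1), if_neg h2, if_neg h3]
  have hPf : ∀ u, b u = u → f u ≠ u → P u (f u) := by
    intro u h1 h2
    by_cases h3 : u ∈ DA
    · rw [f2 u h3]
      exact (hg2 u h3).2
    by_cases h4 : u ∈ DB
    · rw [f3 u h4]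
      have h5 := (hg2 _ (hg'1 u h4)).2
      rw [hg'2 u h4] at h5
      exact hP1 _ _ h5
    exact absurd (f4 u h1 h3 h4) h2
  refine ⟨f, ⟨?_, ?_, ?_⟩, f1, hPf⟩
  · intro u
    by_cases h1 : b u = u
    · by_cases h3 : u ∈ DA
      · rw [f2 u h3, f3 _ (hg2 u h3).1, hg'g u h3]
      by_cases h4 : u ∈ DB
      · rw [f3 u h4, f2 _ (hg'1 u h4), hg'2 u h4]
      rw [f4 u h1 h3 h4, f4 u h1 h3 h4]
    · have h2 : b (b u) ≠ b u := by
        rw [hb1]
        exact fun h => h1 h.symm
      rw [f1 u h1, f1 _ h2, hb1]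
  · intro u
    constructor
    · intro h1
      by_contra h2
      push Not at h2
      obtain ⟨h2, h3⟩ := h2
      by_cases h4 : b u = u
      · rcases (hmem u).2 h2 with h5 | h5
        · have h6 : u ∈ DA := (memA u).2 ⟨h5, h4, h3⟩
          rw [f2 u h6] at h1
          have h7 := (hg2 u h6).1
          rw [h1] at h7
          exact nAB u h7 h6
        · have h6 : u ∈ DB := (memB u).2 ⟨h5, h4, h3⟩
          rw [f3 u h6] at h1
          have h7 := hg'1 u h6
          rw [h1] at h7
          exact nAB u h6 h7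
      · rw [f1 u h4] at h1
        exact h4 h1
    · rintro (h1 | h1)
      · exact f4 u (hbW u h1) (fun h2 => hAW u ((memA u).1 h2).1 h1)
          (fun h2 => hBW u ((memB u).1 h2).1 h1)
      · exact f4 u (hbZ u h1) (fun h2 => ((memA u).1 h2).2.2 h1)
          (fun h2 => ((memB u).1 h2).2.2 h1)
  · intro u h1
    by_cases h2 : b u = u
    · exact (hP2 _ _ (hPf u h2 h1)).1
    · rw [f1 u h2]
      exact (hb2 u h2).1

end Pool.Agent.CH4
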