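import Pool.Agent.CHS.Defs

/-!
# CH4: all chromatic numbers from 4 upwards (MP_87880a_co)

Pushes the chain of `CHS` down to colourings with four classes; result: for all large `n` the
chromatic spectrum `C(n)` is an interval (no quotation).  Overview.

`V` has `n` points, `c : V → {0,1,2,3}` is the target colouring, four classes of about `n/4`
points.  `W` is a random set of `r` points, `r^10 ≤ n ≤ 2 r^10`, `adj m W` the graph `G_W` (see
`CHS/Defs`).  The partition is aligned with the colouring: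
`A = {v ∉ W : c v ≤ 1}`, `B = {v ∉ W : c v ≥ 2}`.
So pairs between `A` and `B` are never monochromatic.  The inside pairs split into two graphs of
degree about `r/4`: the pairs of the types `00, 11, 23` may be used by all colours `h ∈ W` with
`c h ≥ 2`, and the pairs of the types `01, 22, 33` by all colours `h ∈ W` with `c h ≤ 1`.

Third points of the pairs of `W` are relabelled statically by a bijection `lam` from the pairs of
`W` to `Zall m W`.  `Q ⊆ W` (about `0.255 r` points, about `0.01 r` of them with `c = 0`, the others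
with `c ≥ 2`) are the colours treated in the last step (`Fin4`), `TB` a set of points `t` with
`c t = 1`, chosen such that `|A| + 1 + 2 |TB| = |B| + r` exactly.  See `Lab4`.

For `h ∈ W` the matching of `h` has to miss exactly the points `Zl W lam h = {lam h w}`.  For
`h ∉ Q` the numbers of points in `A` and in `B` to be covered differ by `2 (β_h - |TB|)`, where `β_h` is
the number of labels `lam h w` in `B`.  This is repaired by a matching `d h` of at most `r` reserved
inside pairs (pairwise far apart, not monochromatic), `Res`.  After removing all reserved pairs from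
`G_W` we have a graph `G` and for every `h ∈ W` a missed set `M h` with `|A \ M h| = |B \ M h|`:
structure `Prob`.  The steps `Cmp`, `Step1`, `S1ind`, `S1`, `S2a`, `S2b` are those of `CHS` for
`Prob`.
-/

set_option autoImplicit false

namespace Pool.Agent.CH4
open Finset Pool.Agent.CHS

section
variable {V : Type} [Fintype V] [DecidableEq V]

/-- The properties of the random set `W`. -/
structure Good4 (m : SQ V) (c : V → ℕ) (W : Finset V) : Prop where
  indep : ∀ x ∈ W, ∀ y ∈ W, x ≠ y → m.mul x y ∉ W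
  zdist : ∀ x ∈ W, ∀ y ∈ W, ∀ x' ∈ W, ∀ y' ∈ W, x ≠ y → x' ≠ y' →
    m.mul x y = m.mul x' y' → (x = x' ∧ y = y') ∨ (x = y' ∧ y = x')
  zdeg : ∀ v ∉ W, (univ.filter (fun u => adj m W v u ∧ u ∈ Zall m W)).card ≤ 6
  hit : ∀ v, ∀ i < 4, |((W.filter (fun w => c (m.mul v w) = i)).card : ℝ) - (W.card : ℝ) / 4|
    ≤ (1 / 10 ^ 14) * W.card
  own : ∀ i < 4, |((W.filter (fun w => c w = i)).card : ℝ) - (W.card : ℝ) / 4|
    ≤ (1 / 10 ^ 14) * W.card
  expand : ∀ X Y : Finset V,
    (((X ×ˢ Y).filter (fun q => m.mul q.1 q.2 ∈ W)).card : ℝ) ≤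
      (W.card : ℝ) / Fintype.card V * (X.card * Y.card)
        + (1 / 10 ^ 7) * W.card * Real.sqrt (X.card * Y.card)

/-- The sizes: `W` has `r` points, `r^10 ≤ n ≤ 2 r^10`, four colours, classes of about `n/4`. -/
structure Sz (c : V → ℕ) (W : Finset V) (r : ℕ) : Prop where
  Wr : W.card = r
  n1 : r ^ 10 ≤ Fintype.card V
  n2 : Fintype.card V ≤ 2 * r ^ 10
  c4 : ∀ v, c v < 4
  cls : ∀ i < 4, |((univ.filter (fun v => c v = i)).card : ℝ) - (Fintype.card V : ℝ) / 4| ≤ 4 * r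

/-- The labels at `h`. -/
def Zl (W : Finset V) (lam : V → V → V) (h : V) : Finset V := (W.erase h).image (lam h)

/-- The static relabelling. -/
structure Lab4 (m : SQ V) (c : V → ℕ) (W Q TB : Finset V) (lam : V → V → V) : Prop where
  Qsub : Q ⊆ W
  Q1 : ∀ s ∈ Q, c s ≠ 1
  TBsub : TB ⊆ W \ Q
  TB1 : ∀ t ∈ TB, c t = 1
  symm : ∀ x y, lam x y = lam y x
  mem : ∀ x ∈ W, ∀ y ∈ W, x ≠ y → lam x y ∈ Zall m W
  inj : ∀ x ∈ W, ∀ y ∈ W, ∀ x' ∈ W, ∀ y' ∈ W, x ≠ y → x' ≠ y' →
    lam x y = lam x' y' → (x = x' ∧ y = y') ∨ (x = y' ∧ y = x')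
  surj : ∀ v ∈ Zall m W, ∃ x ∈ W, ∃ y ∈ W, x ≠ y ∧ lam x y = v
  lA : ∀ s ∈ Q, ∀ t ∈ W \ Q, t ∉ TB → c (lam s t) < 2
  lB : ∀ s ∈ Q, ∀ t ∈ TB, 2 ≤ c (lam s t)
  lQ : ∀ s ∈ Q, ∀ s' ∈ Q, s ≠ s' → c (lam s s') = 1
  l0 : ∀ s ∈ Q, ∀ t ∈ W \ Q, c t = 0 → c (lam s t) = 1
  lW : ∀ t ∈ W \ Q, ∀ t' ∈ W \ Q, t ≠ t' → c t = c t' → c (lam t t') ≠ c t

/-- `A`, `B` are the points outside `W` of the colours `0, 1` and `2, 3`. -/
structure PartAB (c : V → ℕ) (W A B : Finset V) : Prop where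
  c4 : ∀ v, c v < 4
  memA : ∀ v, v ∈ A ↔ v ∉ W ∧ c v < 2
  memB : ∀ v, v ∈ B ↔ v ∉ W ∧ 2 ≤ c v

/-- The reserved matchings `d h` (involutions; moved points are matched). -/
structure Res (m : SQ V) (c : V → ℕ) (W Q A B : Finset V) (lam d : V → V → V) : Prop where
  inv : ∀ h u, d h (d h u) = u
  edge : ∀ h ∈ W, ∀ u, d h u ≠ u → adj m W u (d h u) ∧ ¬ cross A B u (d h u) ∧
    c (d h u) ≠ c u ∧ u ∉ Zall m W
  disj : ∀ h ∈ W, ∀ h' ∈ W, h ≠ h' → ∀ u, d h u ≠ u → d h' u = u
  Qfix : ∀ s ∈ Q, ∀ u, d s u = u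
  small : ∀ h ∈ W, (univ.filter (fun u => d h u ≠ u)).card ≤ 2 * W.card
  far : ∀ v ∉ W, (univ.filter (fun u => adj m W v u ∧ ∃ h ∈ W, d h u ≠ u)).card ≤ 2
  bal : ∀ h ∈ W, (A.filter (fun u => u ∉ Zl W lam h ∧ d h u = u)).card =
    (B.filter (fun u => u ∉ Zl W lam h ∧ d h u = u)).card

/-- The graph `G_W` without the reserved pairs. -/
def gad (m : SQ V) (W : Finset V) (d : V → V → V) (u v : V) : Prop :=
  adj m W u v ∧ ∀ h ∈ W, d h u ≠ v

instance (m : SQ V) (W : Finset V) (d : V → V → V) : DecidableRel (gad m W d) := by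
  intro u v; unfold gad; infer_instance

/-- The missed sets. -/
def ms (W : Finset V) (lam d : V → V → V) (h : V) : Finset V :=
  Zl W lam h ∪ univ.filter (fun u => d h u ≠ u)

/-- The decomposition problem: find for every `h ∈ W` a matching of `G` covering exactly the points
outside `W` and `M h`, such that every edge of `G` is used exactly once. -/
structure Prob (m : SQ V) (c : V → ℕ) (W A B : Finset V) (G : V → V → Prop) [DecidableRel G]
    (M : V → Finset V) : Prop where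
  part : PartAB c W A B
  symm : ∀ u v, G u v → G v u
  sub : ∀ u v, G u v → adj m W u v
  MW : ∀ h ∈ W, ∀ v ∈ M h, v ∉ W
  Mcard : ∀ h ∈ W, (M h).card ≤ 3 * W.card
  Mtwo : ∀ v, (W.filter (fun h => v ∈ M h)).card ≤ 2
  bal : ∀ h ∈ W, (A \ M h).card = (B \ M h).card
  deg : ∀ v ∉ W, (univ.filter (fun u => G v u)).card + (W.filter (fun h => v ∈ M h)).card = W.card
  mdeg : ∀ v ∉ W, (univ.filter (fun u => G v u ∧ u ∈ W.biUnion M)).card ≤ 8
  cdeg : ∀ v ∉ W, ∀ i < 4, |((univ.filter (fun u => G v u ∧ c u = i)).card : ℝ) -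
    (W.card : ℝ) / 4| ≤ (1 / 10 ^ 13) * W.card
  expand : ∀ X Y : Finset V,
    (((X ×ˢ Y).filter (fun q => m.mul q.1 q.2 ∈ W)).card : ℝ) ≤
      (W.card : ℝ) / Fintype.card V * (X.card * Y.card)
        + (1 / 10 ^ 7) * W.card * Real.sqrt (X.card * Y.card)

/-- `f` is a matching of `G` covering exactly the points outside `W` and `M h`. -/
structure Mat4 (W : Finset V) (G : V → V → Prop) (M : V → Finset V) (h : V) (f : V → V) :
    Prop where
  inv : ∀ u, f (f u) = u
  fix : ∀ u, f u = u ↔ (u ∈ W ∨ u ∈ M h)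
  edge : ∀ u, f u ≠ u → G u (f u)

/-- The colours `h ∈ H` have been given pairwise disjoint matchings `f h`. -/
structure State4 (W : Finset V) (G : V → V → Prop) (M : V → Finset V) (H : Finset V)
    (f : V → V → V) : Prop where
  sub : H ⊆ W
  mat : ∀ h ∈ H, Mat4 W G M h (f h)
  disj : ∀ h ∈ H, ∀ h' ∈ H, h ≠ h' → ∀ u, f h u = f h' u → f h u = u

/-- The output of stage 1; `T` is the set of the colours which may be used. -/
structure Stage14 (c : V → ℕ) (W A B : Finset V) (G : V → V → Prop) [DecidableRel G]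
    (M : V → Finset V) (T H : Finset V) (f : V → V → V) : Prop where
  st : State4 W G M H f
  sub : H ⊆ T
  hcard : (4999 / 10000 : ℝ) * W.card ≤ H.card
  good : ∀ h ∈ H, ∀ u, f h u ≠ u → ¬ (c (f h u) = c u ∧ c u = c h)
  usage : ∀ v ∉ W, ((H.filter (fun h => cross A B v (f h v))).card : ℝ) ≤ (1 / 10000) * W.card
  left : ∀ v ∉ W, ((univ.filter (fun u => G v u ∧ ¬ used H f v u ∧
    ¬ cross A B v u)).card : ℝ) ≤ (1 / 20000) * W.card
  bal : ((A ×ˢ A).filter (fun q => G q.1 q.2 ∧ ¬ used H f q.1 q.2)).card =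
    ((B ×ˢ B).filter (fun q => G q.1 q.2 ∧ ¬ used H f q.1 q.2)).card

/-- The base matchings of stage 2. -/
structure Base4 (c : V → ℕ) (W A B : Finset V) (G : V → V → Prop) [DecidableRel G]
    (M : V → Finset V) (H : Finset V) (f : V → V → V) (H2 : Finset V) (b : V → V → V) :
    Prop where
  inv : ∀ h ∈ H2, ∀ u, b h (b h u) = u
  edge : ∀ h ∈ H2, ∀ u, b h u ≠ u → G u (b h u) ∧ ¬ used H f u (b h u) ∧
    ¬ cross A B u (b h u) ∧ u ∉ M h
  good : ∀ h ∈ H2, ∀ u, b h u ≠ u → ¬ (c (b h u) = c u ∧ c u = c h)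
  disj : ∀ h ∈ H2, ∀ h' ∈ H2, h ≠ h' → ∀ u, b h u = b h' u → b h u = u
  bal : ∀ h ∈ H2, (A.filter (fun u => b h u ≠ u)).card = (B.filter (fun u => b h u ≠ u)).card
  cover : ∀ u v, G u v → ¬ used H f u v → ¬ cross A B u v → ∃ h ∈ H2, b h u = v
  fair : ∀ h ∈ H2, ∀ v ∉ W, ((univ.filter (fun u => G v u ∧ b h u ≠ u)).card : ℝ)
    ≤ (W.card : ℝ) / 300

/-- The output of stage 2. -/
structure Stage24 (c : V → ℕ) (W A B : Finset V) (G : V → V → Prop) (M : V → Finset V)
    (H : Finset V) (f : V → V → V) : Prop where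
  st : State4 W G M H f
  good : ∀ h ∈ H, ∀ u, f h u ≠ u → ¬ (c (f h u) = c u ∧ c u = c h)
  rest : ∀ u v, G u v → ¬ used H f u v → cross A B u v

end

end Pool.Agent.CH4
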