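import Pool.Agent.CH4.Basic

/-!
# CH4/Edges: the numbers of inside edges of `A` and of `B` are equal

By `Prob.deg` the sum of the degrees over `v ∈ A` is `∑_{v ∈ A} #{h ∈ W : v ∉ M h} = ∑ h ∈ W, |A \ M h|`,
the same for `B`; they are equal by `Prob.bal`.  The sum over `A` is the number of ordered inside pairs
in `A` plus the number of edges between `A` and `B` (every neighbour of `v ∉ W` is in `A` or in `B`,
`PartAB`), the same for `B`.
-/

set_option autoImplicit false

namespace Pool.Agent.CH4
open Finset Pool.Agent.CHS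

theorem edges4 {V : Type} [Fintype V] [DecidableEq V] {m : SQ V} {c : V → ℕ}
    {W A B : Finset V} {G : V → V → Prop} [DecidableRel G] {M : V → Finset V}
    (hP : Prob m c W A B G M) :
    ((A ×ˢ A).filter (fun q => G q.1 q.2)).card =
      ((B ×ˢ B).filter (fun q => G q.1 q.2)).card := by
  have hdeg : ∀ v, (univ.filter (fun u => G v u)).card =
      (A.filter (fun u => G v u)).card + (B.filter (fun u => G v u)).card := by
    intro v
    rw [← Finset.card_union_of_disjoint]
    · congr 1
      ext u
      simp only [Finset.mem_filter, Finset.mem_univ, true_and, Finset.mem_union]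
      constructor
      · intro h
        rcases hP.part.AorB (hP.notin h).2 with h' | h'
        · exact Or.inl ⟨h', h⟩
        · exact Or.inr ⟨h', h⟩
      · rintro (h | h) <;> exact h.2
    · exact Disjoint.mono (Finset.filter_subset _ _) (Finset.filter_subset _ _) hP.part.disj
  have hprod : ∀ S T : Finset V, ((S ×ˢ T).filter (fun q => G q.1 q.2)).card =
      ∑ v ∈ S, (T.filter (fun u => G v u)).card := by
    intro S T
    rw [Finset.card_filter, Finset.sum_product]
    refine Finset.sum_congr rfl (fun v _ => ?_)
    rw [Finset.card_filter]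
  have hsymm : ((A ×ˢ B).filter (fun q => G q.1 q.2)).card =
      ((B ×ˢ A).filter (fun q => G q.1 q.2)).card := by
    refine Finset.card_nbij' Prod.swap Prod.swap ?_ ?_ ?_ ?_
    · intro q hq
      obtain ⟨h1, h2⟩ := Finset.mem_filter.1 hq
      obtain ⟨h3, h4⟩ := Finset.mem_product.1 h1
      exact Finset.mem_filter.2 ⟨Finset.mem_product.2 ⟨h4, h3⟩, hP.symm _ _ h2⟩
    · intro q hq
      obtain ⟨h1, h2⟩ := Finset.mem_filter.1 hq
      obtain ⟨h3, h4⟩ := Finset.mem_product.1 h1
      exact Finset.mem_filter.2 ⟨Finset.mem_product.2 ⟨h4, h3⟩, hP.symm _ _ h2⟩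
    · intro q _; rfl
    · intro q _; rfl
  -- sums of the degrees
  have hs : ∀ S : Finset V, (∀ v ∈ S, v ∉ W) →
      ∑ v ∈ S, (univ.filter (fun u => G v u)).card = ∑ h ∈ W, (S \ M h).card := by
    intro S hS
    have h1 : ∀ v ∈ S, (univ.filter (fun u => G v u)).card =
        (W.filter (fun h => v ∉ M h)).card := by
      intro v hv
      have h2 := hP.deg v (hS v hv)
      have h3 : (W.filter (fun h => v ∈ M h)).card + (W.filter (fun h => v ∉ M h)).card = W.card :=
        Finset.card_filter_add_card_filter_not (s := W) (fun h => v ∈ M h)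
      omega
    rw [Finset.sum_congr rfl h1]
    simp_rw [Finset.card_filter]
    rw [Finset.sum_comm]
    refine Finset.sum_congr rfl fun h _ => ?_
    rw [← Finset.card_filter]
    congr 1
    ext v
    rw [Finset.mem_filter, Finset.mem_sdiff]
  have hsA := hs A (fun v hv => hP.part.AW hv)
  have hsB := hs B (fun v hv => hP.part.BW hv)
  have hAB : ∑ h ∈ W, (A \ M h).card = ∑ h ∈ W, (B \ M h).card :=
    Finset.sum_congr rfl fun h hh => hP.bal h hh
  have eA : ∑ v ∈ A, (univ.filter (fun u => G v u)).card =
      ((A ×ˢ A).filter (fun q => G q.1 q.2)).card +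
        ((A ×ˢ B).filter (fun q => G q.1 q.2)).card := by
    rw [hprod A A, hprod A B, ← Finset.sum_add_distrib]
    exact Finset.sum_congr rfl (fun v _ => hdeg v)
  have eB : ∑ v ∈ B, (univ.filter (fun u => G v u)).card =
      ((B ×ˢ A).filter (fun q => G q.1 q.2)).card +
        ((B ×ˢ B).filter (fun q => G q.1 q.2)).card := by
    rw [hprod B A, hprod B B, ← Finset.sum_add_distrib]
    exact Finset.sum_congr rfl (fun v _ => hdeg v)
  omega

end Pool.Agent.CH4
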