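import Mathlib

/-!
# CH4/Hits: the number of hits of random points in fixed targets

`n = card V`, `ω : Fin s → V` uniformly random, `X = #{i : ω i ∈ T}`, `p = |T| / n`, `0 < ε ≤ 1` without
loss of generality, `λ = ± ε/2`.  `∑ ω exp (λ (X - s p)) = n^s (exp(-λ p) (1 + p (exp λ - 1)))^s ≤
n^s exp (s p (exp λ - 1 - λ)) ≤ n^s exp (s λ²)` (`|λ| ≤ 1`, `Real.add_one_le_exp`,
`exp λ - 1 - λ ≤ λ²`), so the number of the `ω` with `|X - s p| > ε s` is at most
`2 n^s exp (-ε² s / 2 + ε² s / 4) = 2 n^s exp (-ε² s / 4)`.  The sum over the at most `20 (s+1)^10`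
targets is at most `n^s / 10` for large `s`.
Sums over all functions `Fin s → V` of products: `Finset.prod_univ_sum`, `Fintype.piFinset_univ`.
-/

set_option autoImplicit false

namespace Pool.Agent.CH4
open Finset

/-- the exponential moment of the number of hits -/
theorem hits_moment {V : Type} [Fintype V] [DecidableEq V] (hV : 0 < Fintype.card V)
    (T : Finset V) {l : ℝ} (hl : |l| ≤ 1) (s : ℕ) :
    ∑ ω : Fin s → V, Real.exp (l * (((univ.filter (fun i => ω i ∈ T)).card : ℝ) -
      s * ((T.card : ℝ) / Fintype.card V))) ≤ (Fintype.card V : ℝ) ^ s * Real.exp (s * l ^ 2) := by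
  have hn : (0 : ℝ) < Fintype.card V := by exact_mod_cast hV
  set n : ℝ := (Fintype.card V : ℝ) with hnd
  set p : ℝ := (T.card : ℝ) / n with hp
  have hp0 : 0 ≤ p := by positivity
  have hp1 : p ≤ 1 := by
    rw [hp, div_le_one hn, hnd]
    exact_mod_cast card_le_univ T
  have e1 : ∀ ω : Fin s → V, Real.exp (l * (((univ.filter (fun i => ω i ∈ T)).card : ℝ) - s * p)) =
      ∏ i, Real.exp (l * ((if ω i ∈ T then 1 else 0) - p)) := by
    intro ω
    rw [← Real.exp_sum]
    congr 1
    rw [← mul_sum, sum_sub_distrib]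
    congr 2
    · rw [card_filter]
      push_cast
      rfl
    · simp
  simp only [e1]
  have e2 : ∑ ω : Fin s → V, ∏ i, Real.exp (l * ((if ω i ∈ T then 1 else 0) - p)) =
      (∑ v : V, Real.exp (l * ((if v ∈ T then 1 else 0) - p))) ^ s := by
    have h := Finset.prod_univ_sum (fun _ : Fin s => (univ : Finset V))
      (fun _ v => Real.exp (l * ((if v ∈ T then (1 : ℝ) else 0) - p)))
    rw [Fintype.piFinset_univ] at h
    rw [← h, prod_const, card_univ, Fintype.card_fin]
  rw [e2]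
  have h1 : ∑ v : V, Real.exp (l * ((if v ∈ T then 1 else 0) - p)) ≤ n * Real.exp (l ^ 2) := by
    have hb : ∀ v : V, Real.exp (l * ((if v ∈ T then 1 else 0) - p)) ≤
        1 + l * ((if v ∈ T then 1 else 0) - p) + l ^ 2 := by
      intro v
      set y : ℝ := (if v ∈ T then 1 else 0) - p with hy
      have hy1 : |y| ≤ 1 := by
        rw [hy, abs_le]
        split_ifs <;> constructor <;> linarith
      have h2 : |l * y| ≤ 1 := by
        rw [abs_mul]
        exact mul_le_one₀ hl (abs_nonneg _) hy1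
      have h3 := (abs_le.1 (Real.abs_exp_sub_one_sub_id_le h2)).2
      have h4 : (l * y) ^ 2 ≤ l ^ 2 := by
        have h5 : y ^ 2 ≤ 1 := (sq_le_one_iff_abs_le_one y).2 hy1
        rw [mul_pow]
        nlinarith [sq_nonneg l]
      linarith
    have hsum : ∑ v : V, ((if v ∈ T then (1 : ℝ) else 0) - p) = 0 := by
      rw [sum_sub_distrib, sum_const, card_univ, nsmul_eq_mul, ← hnd, hp, mul_div_cancel₀ _ hn.ne']
      simp
    calc ∑ v : V, Real.exp (l * ((if v ∈ T then 1 else 0) - p))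
        ≤ ∑ v : V, (1 + l * ((if v ∈ T then 1 else 0) - p) + l ^ 2) := sum_le_sum fun v _ => hb v
      _ = n + l * ∑ v : V, ((if v ∈ T then (1 : ℝ) else 0) - p) + n * l ^ 2 := by
          rw [sum_add_distrib, sum_add_distrib, ← mul_sum, sum_const, sum_const, card_univ,
            nsmul_eq_mul, nsmul_eq_mul, mul_one]
      _ = n * (l ^ 2 + 1) := by rw [hsum]; ring
      _ ≤ n * Real.exp (l ^ 2) := mul_le_mul_of_nonneg_left (Real.add_one_le_exp _) hn.le
  have h0 : 0 ≤ ∑ v : V, Real.exp (l * ((if v ∈ T then 1 else 0) - p)) :=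
    sum_nonneg fun v _ => (Real.exp_pos _).le
  calc (∑ v : V, Real.exp (l * ((if v ∈ T then 1 else 0) - p))) ^ s
      ≤ (n * Real.exp (l ^ 2)) ^ s := pow_le_pow_left₀ h0 h1 s
    _ = n ^ s * Real.exp (s * l ^ 2) := by rw [mul_pow, ← Real.exp_nat_mul]

open Classical in
/-- one target -/
theorem hits_one {V : Type} [Fintype V] [DecidableEq V] (hV : 0 < Fintype.card V)
    (T : Finset V) {e : ℝ} (he : 0 < e) (he1 : e ≤ 1) (s : ℕ) :
    ((univ.filter (fun ω : Fin s → V => e * s <
        |((univ.filter (fun i => ω i ∈ T)).card : ℝ) - s * ((T.card : ℝ) / Fintype.card V)|)).card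
        : ℝ) ≤ 2 * (Fintype.card V : ℝ) ^ s * Real.exp (-(e ^ 2 / 4) * s) := by
  set Y : (Fin s → V) → ℝ := fun ω => ((univ.filter (fun i => ω i ∈ T)).card : ℝ) -
    s * ((T.card : ℝ) / Fintype.card V) with hY
  have half : ∀ l : ℝ, |l| = e / 2 → ((univ.filter (fun ω : Fin s → V => e * s * (e / 2) <
      l * Y ω)).card : ℝ) ≤ (Fintype.card V : ℝ) ^ s * Real.exp (-(e ^ 2 / 4) * s) := by
    intro l hl
    have h1 := hits_moment hV T (l := l) (by rw [hl]; linarith) s
    have h2 : ((univ.filter (fun ω : Fin s → V => e * s * (e / 2) < l * Y ω)).card : ℝ) *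
        Real.exp (e * s * (e / 2)) ≤ ∑ ω : Fin s → V, Real.exp (l * Y ω) := by
      calc _ = ∑ ω ∈ univ.filter (fun ω : Fin s → V => e * s * (e / 2) < l * Y ω),
            Real.exp (e * s * (e / 2)) := by rw [sum_const, nsmul_eq_mul]
        _ ≤ ∑ ω ∈ univ.filter (fun ω : Fin s → V => e * s * (e / 2) < l * Y ω),
            Real.exp (l * Y ω) := sum_le_sum fun ω hω => by
              rw [mem_filter] at hω
              exact Real.exp_le_exp.2 hω.2.le
        _ ≤ _ := sum_le_sum_of_subset_of_nonneg (filter_subset _ _)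
            fun ω _ _ => (Real.exp_pos _).le
    have h3 : l ^ 2 = e ^ 2 / 4 := by
      rw [← sq_abs, hl]
      ring
    have h4 := h2.trans h1
    rw [h3, ← le_div_iff₀ (Real.exp_pos _), mul_div_assoc, ← Real.exp_sub] at h4
    refine h4.trans (le_of_eq ?_)
    congr 2
    ring
  have hsub : univ.filter (fun ω : Fin s → V => e * s < |Y ω|) ⊆
      univ.filter (fun ω : Fin s → V => e * s * (e / 2) < (e / 2) * Y ω) ∪
      univ.filter (fun ω : Fin s → V => e * s * (e / 2) < (-(e / 2)) * Y ω) := by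
    intro ω hω
    rw [mem_filter] at hω
    rw [mem_union, mem_filter, mem_filter]
    rcases lt_abs.1 hω.2 with h | h
    · left
      refine ⟨mem_univ _, ?_⟩
      nlinarith
    · right
      refine ⟨mem_univ _, ?_⟩
      nlinarith
  have hc := (card_le_card hsub).trans (card_union_le _ _)
  have h1 := half (e / 2) (abs_of_pos (by positivity))
  have h2 := half (-(e / 2)) (by rw [abs_neg, abs_of_pos (by positivity)])
  have h3 : ((univ.filter (fun ω : Fin s → V => e * s < |Y ω|)).card : ℝ) ≤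
      ((univ.filter (fun ω : Fin s → V => e * s * (e / 2) < (e / 2) * Y ω)).card : ℝ) +
      ((univ.filter (fun ω : Fin s → V => e * s * (e / 2) < (-(e / 2)) * Y ω)).card : ℝ) := by
    exact_mod_cast hc
  calc _ ≤ _ := h3
    _ ≤ _ := add_le_add h1 h2
    _ = _ := by ring

theorem hits_decay {c : ℝ} (hc : 0 < c) : ∃ s0 : ℕ, ∀ s ≥ s0,
    20 * ((s : ℝ) + 1) ^ 10 * (2 * Real.exp (-c * s)) ≤ 1 / 10 := by
  have h1 := Real.tendsto_pow_mul_exp_neg_atTop_nhds_zero 10
  have h2 : Filter.Tendsto (fun s : ℕ => c * ((s : ℝ) + 1)) Filter.atTop Filter.atTop :=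
    Filter.Tendsto.const_mul_atTop hc
      (Filter.tendsto_atTop_add_const_right _ _ tendsto_natCast_atTop_atTop)
  have h3 := h1.comp h2
  have hd : (0 : ℝ) < c ^ 10 * Real.exp (-c) / 400 := by positivity
  have h4 := (h3.eventually (gt_mem_nhds hd))
  obtain ⟨s0, hs0⟩ := Filter.eventually_atTop.1 h4
  refine ⟨s0, fun s hs => ?_⟩
  have h5 := hs0 s hs
  simp only [Function.comp] at h5
  rw [mul_pow] at h5
  have h6 : Real.exp (-(c * ((s : ℝ) + 1))) = Real.exp (-c) * Real.exp (-c * s) := by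
    rw [← Real.exp_add]
    congr 1
    ring
  rw [h6] at h5
  have h7 : c ^ 10 * Real.exp (-c) * (((s : ℝ) + 1) ^ 10 * Real.exp (-c * s)) <
      c ^ 10 * Real.exp (-c) * (1 / 400) := by
    calc _ = c ^ 10 * ((s : ℝ) + 1) ^ 10 * (Real.exp (-c) * Real.exp (-c * s)) := by ring
      _ < _ := h5
      _ = _ := by ring
  have h8 := lt_of_mul_lt_mul_left h7 (by positivity)
  linarith

open Classical in
theorem hits (ε : ℝ) (hε : 0 < ε) : ∃ s0 : ℕ, ∀ s ≥ s0, ∀ (V : Type) [Fintype V] [DecidableEq V],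
    0 < Fintype.card V → ∀ (J : Type) [Fintype J], Fintype.card J ≤ 20 * (s + 1) ^ 10 →
    ∀ (T : J → Finset V),
    ((univ.filter (fun ω : Fin s → V => ¬ ∀ j,
        |((univ.filter (fun i => ω i ∈ T j)).card : ℝ) - s * ((T j).card / Fintype.card V)|
          ≤ ε * s)).card : ℝ)
      ≤ (1 / 10) * (Fintype.card V : ℝ) ^ s := by
  set e : ℝ := min ε 1 with he
  have he0 : 0 < e := lt_min hε one_pos
  have he1 : e ≤ 1 := min_le_right _ _
  have hee : e ≤ ε := min_le_left _ _
  obtain ⟨s0, hs0⟩ := hits_decay (c := e ^ 2 / 4) (by positivity)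
  refine ⟨s0, fun s hs V _ _ hV J _ hJ T => ?_⟩
  have hsub : univ.filter (fun ω : Fin s → V => ¬ ∀ j,
        |((univ.filter (fun i => ω i ∈ T j)).card : ℝ) - s * ((T j).card / Fintype.card V)|
          ≤ ε * s) ⊆ (univ : Finset J).biUnion fun j => univ.filter (fun ω : Fin s → V => e * s <
        |((univ.filter (fun i => ω i ∈ T j)).card : ℝ) -
          s * (((T j).card : ℝ) / Fintype.card V)|) := by
    intro ω hω
    rw [mem_filter] at hω
    have h1 := hω.2
    push Not at h1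
    obtain ⟨j, hj⟩ := h1
    rw [mem_biUnion]
    refine ⟨j, mem_univ _, ?_⟩
    rw [mem_filter]
    refine ⟨mem_univ _, lt_of_le_of_lt ?_ hj⟩
    exact mul_le_mul_of_nonneg_right hee (Nat.cast_nonneg _)
  have h1 := (card_le_card hsub).trans card_biUnion_le
  have h2 : ((univ.filter (fun ω : Fin s → V => ¬ ∀ j,
        |((univ.filter (fun i => ω i ∈ T j)).card : ℝ) - s * ((T j).card / Fintype.card V)|
          ≤ ε * s)).card : ℝ) ≤ ∑ j : J, 2 * (Fintype.card V : ℝ) ^ s *
            Real.exp (-(e ^ 2 / 4) * s) := by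
    refine le_trans ((Nat.cast_le (α := ℝ)).2 h1) ?_
    rw [Nat.cast_sum]
    exact sum_le_sum fun j _ => hits_one hV (T j) he0 he1 s
  refine h2.trans ?_
  rw [sum_const, card_univ, nsmul_eq_mul]
  have h3 := hs0 s hs
  have h4 : (Fintype.card J : ℝ) ≤ 20 * ((s : ℝ) + 1) ^ 10 := by exact_mod_cast hJ
  have h5 : (0 : ℝ) ≤ (Fintype.card V : ℝ) ^ s := by positivity
  calc (Fintype.card J : ℝ) * (2 * (Fintype.card V : ℝ) ^ s * Real.exp (-(e ^ 2 / 4) * s))
      = (Fintype.card J : ℝ) * (2 * Real.exp (-(e ^ 2 / 4) * s)) * (Fintype.card V : ℝ) ^ s := by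
        ring
    _ ≤ 20 * ((s : ℝ) + 1) ^ 10 * (2 * Real.exp (-(e ^ 2 / 4) * s)) *
        (Fintype.card V : ℝ) ^ s := by
        refine mul_le_mul_of_nonneg_right (mul_le_mul_of_nonneg_right h4 ?_) h5
        positivity
    _ ≤ 1 / 10 * (Fintype.card V : ℝ) ^ s := mul_le_mul_of_nonneg_right h3 h5

end Pool.Agent.CH4
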