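import Pool.Agent.CHS.GWa
import Pool.Agent.CHS.GWc
import Pool.Agent.CHS.GWd
import Pool.Agent.CH4.Defs
import Pool.Agent.CH4.Hits

/-!
# CH4/ExW: existence of a good set `W` containing `a`

As `CHS/ExW` (copy its proof).  `s = r - 1`, `w = Fin.cons a ω`, `ω : Fin s → V`.
Use `gwa` with an injective colouring `c₀` (e.g. `c₀ v = Fintype.equivFin V v`; its classes have at most
one element and `(s+1)^4 ≤ 2 n`), `gwc`, `gwd`, and `hits` with `ε = 10⁻¹⁵` and the `4 n + 4` targets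
`T (v, i) = {w : c (m v w) = i}` (the same size as the colour class `i`, since `m.mul v` is a
bijection), `T i = {w : c w = i}`.  They exclude at most `4/10` of all `ω`.
`W` = the set of the values of `w`, `w` injective, `|W| = r`.  `indep`, `zdist` from `BasicP`; `zdeg`, `expand`
as in `CHS/ExW`.  `hit`: `#{w ∈ W : c (m v w) = i}` is `#{j : Fin s : ω j ∈ T (v, i)}` or this number `+ 1`;
`|T|/n = 1/4 ± 4 r / n`, so `|# - r/4| ≤ 1 + ε s + 1/4 + 4 r s / n ≤ 10⁻¹⁴ r` for large `r`.  The same for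
`own`.
-/

set_option autoImplicit false

namespace Pool.Agent.CH4
open Finset Pool.Agent.CHS

private theorem pick {α : Type} [Fintype α] [DecidableEq α] {N : ℝ}
    (hN : (Fintype.card α : ℝ) = N) (hN0 : 0 < N) (B1 B2 B3 B4 : Finset α)
    (h1 : (B1.card : ℝ) ≤ 1 / 10 * N) (h2 : (B2.card : ℝ) ≤ 1 / 10 * N)
    (h3 : (B3.card : ℝ) ≤ 1 / 10 * N) (h4 : (B4.card : ℝ) ≤ 1 / 10 * N) :
    ∃ x, x ∉ B1 ∧ x ∉ B2 ∧ x ∉ B3 ∧ x ∉ B4 := by
  by_contra hcon
  push Not at hcon
  have hsub : (univ : Finset α) ⊆ B1 ∪ (B2 ∪ (B3 ∪ B4)) := by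
    intro x _
    simp only [mem_union]
    by_contra h
    push Not at h
    exact h.2.2.2 (hcon x h.1 h.2.1 h.2.2.1)
  have hc := card_le_card hsub
  have hc' := hc.trans ((card_union_le _ _).trans (Nat.add_le_add_left ((card_union_le _ _).trans
    (Nat.add_le_add_left (card_union_le _ _) _)) _))
  rw [card_univ] at hc'
  have : (Fintype.card α : ℝ) ≤ B1.card + (B2.card + (B3.card + B4.card)) := by
    exact_mod_cast hc'
  rw [hN] at this
  linarith

/-- from hits of `ω` to hits of `W` -/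
private theorem hit_num {x y t N S C : ℝ} (hS : 10 ^ 15 ≤ S + 1) (hS0 : 0 ≤ S)
    (hN : (S + 1) ^ 10 ≤ N) (hx : |x - S * (t / N)| ≤ 1 / 10 ^ 15 * S)
    (hxy : x ≤ y) (hyx : y ≤ x + 1) (ht : |t - N / 4| ≤ 4 * (S + 1)) (hC : C = S + 1) :
    |y - C / 4| ≤ (1 / 10 ^ 14) * C := by
  subst hC
  have hN0 : 0 < N := lt_of_lt_of_le (by positivity) hN
  have h1 : |S * (t / N) - S / 4| ≤ 4 := by
    have e1 : S * (t / N) - S / 4 = S * (t - N / 4) / N := by
      field_simp
    rw [e1, abs_div, abs_mul, abs_of_nonneg hS0, abs_of_pos hN0, div_le_iff₀ hN0]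
    calc S * |t - N / 4| ≤ S * (4 * (S + 1)) := mul_le_mul_of_nonneg_left ht hS0
      _ ≤ 4 * (S + 1) ^ 2 := by nlinarith
      _ ≤ 4 * (S + 1) ^ 10 := by
          refine mul_le_mul_of_nonneg_left ?_ (by norm_num)
          exact pow_le_pow_right₀ (by linarith) (by norm_num)
      _ ≤ 4 * N := by linarith
  rw [abs_le] at hx h1 ⊢
  norm_num at hS hx h1 ⊢
  constructor <;> linarith

private theorem core {V : Type} [Fintype V] [DecidableEq V] (m : SQ V) (c c₀ : V → ℕ)
    (a : V) {s : ℕ} (ω : Fin s → V) (w : Fin (s + 1) → V) (w0 : w 0 = a)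
    (wsucc : ∀ i : Fin s, w i.succ = ω i) (hB : BasicP m c₀ w)
    (hn1 : (s + 1) ^ 10 ≤ Fintype.card V)
    (hcls : ∀ i < 4, |((univ.filter (fun v => c v = i)).card : ℝ) - (Fintype.card V : ℝ) / 4| ≤
      4 * ((s : ℝ) + 1))
    (h2 : ∀ v i, i < 4 → |((univ.filter (fun j => c (m.mul v (ω j)) = i)).card : ℝ) -
      s * (((univ.filter (fun x => c (m.mul v x) = i)).card : ℝ) / Fintype.card V)| ≤
        1 / 10 ^ 15 * s)
    (h3 : ∀ i, i < 4 → |((univ.filter (fun j => c (ω j) = i)).card : ℝ) -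
      s * (((univ.filter (fun x => c x = i)).card : ℝ) / Fintype.card V)| ≤
        1 / 10 ^ 15 * s)
    (h4 : ∀ v, (∀ i, w i ≠ v) → ∀ S : Finset (Fin (s + 1)), (∀ i ∈ S, ∃ j k : Fin (s + 1), j ≠ k ∧
      m.mul v (w i) = m.mul (w j) (w k)) → S.card ≤ 6)
    (h5 : ∀ X Y : Finset V,
      ((∑ i, ((X ×ˢ Y).filter (fun q => m.mul q.1 q.2 = ω i)).card : ℕ) : ℝ) ≤
          (s : ℝ) / Fintype.card V * (X.card * Y.card)
            + (1 / (2 * 10 ^ 7)) * s * Real.sqrt (X.card * Y.card))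
    (hs : (10 ^ 15 : ℝ) ≤ s + 1) : ∃ W : Finset V, a ∈ W ∧ W.card = s + 1 ∧ Good4 m c W := by
  obtain ⟨hB1, hB2, hB3⟩ := hB
  have hinj : Function.Injective w := by
    intro i j h
    by_contra hne
    exact (hB1 i j hne).1 h
  obtain ⟨W, hW⟩ : ∃ W : Finset V, W = univ.image w := ⟨_, rfl⟩
  have hmem : ∀ x, x ∈ W ↔ ∃ i, w i = x := by
    intro x
    rw [hW, mem_image]
    simp
  have hcard : W.card = s + 1 := by
    rw [hW, card_image_of_injective _ hinj, card_univ, Fintype.card_fin]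
  have hmul : ∀ v, Function.Injective (m.mul v) := by
    intro v x y h
    rw [← m.inv v x, h, m.inv]
  have hfil : ∀ (g : V → ℕ) (i : ℕ), (W.filter (fun x => g x = i)).card =
      (if g a = i then 1 else 0) + (univ.filter (fun j : Fin s => g (ω j) = i)).card := by
    intro g i
    have e1 : W.filter (fun x => g x = i) =
        (univ.filter (fun j : Fin (s + 1) => g (w j) = i)).image w := by
      ext x
      rw [mem_filter, mem_image, hmem]
      constructor
      · rintro ⟨⟨j, rfl⟩, h⟩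
        exact ⟨j, by rw [mem_filter]; exact ⟨mem_univ _, h⟩, rfl⟩
      · rintro ⟨j, hj, rfl⟩
        rw [mem_filter] at hj
        exact ⟨⟨j, rfl⟩, hj.2⟩
    rw [e1, card_image_of_injective _ hinj, Fin.card_filter_univ_succ']
    simp only [w0, wsucc]
  have hn1' : ((s : ℝ) + 1) ^ 10 ≤ (Fintype.card V : ℝ) := by exact_mod_cast hn1
  refine ⟨W, (hmem a).2 ⟨0, w0⟩, hcard, ?_, ?_, ?_, ?_, ?_, ?_⟩
  · intro x hx y hy hxy hxyW
    obtain ⟨i, rfl⟩ := (hmem x).1 hx
    obtain ⟨j, rfl⟩ := (hmem y).1 hy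
    obtain ⟨k, hk⟩ := (hmem _).1 hxyW
    exact hB2 i j k (fun h => hxy (by rw [h])) hk.symm
  · intro x hx y hy x' hx' y' hy' hxy hxy' h
    obtain ⟨i, rfl⟩ := (hmem x).1 hx
    obtain ⟨j, rfl⟩ := (hmem y).1 hy
    obtain ⟨k, rfl⟩ := (hmem x').1 hx'
    obtain ⟨l, rfl⟩ := (hmem y').1 hy'
    rcases hB3 i j k l (fun h => hxy (by rw [h])) (fun h => hxy' (by rw [h])) h with
      ⟨h1, h2⟩ | ⟨h1, h2⟩
    · left; rw [h1, h2]; exact ⟨rfl, rfl⟩
    · right; rw [h1, h2]; exact ⟨rfl, rfl⟩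
  · intro v hv
    have hvw : ∀ i, w i ≠ v := fun i h => hv ((hmem v).2 ⟨i, h⟩)
    classical
    have hsub : (univ.filter (fun u => adj m W v u ∧ u ∈ Zall m W)) ⊆
        (univ.filter (fun i : Fin (s + 1) => ∃ j k : Fin (s + 1), j ≠ k ∧
          m.mul v (w i) = m.mul (w j) (w k))).image (fun i => m.mul v (w i)) := by
      intro u hu
      rw [mem_filter] at hu
      obtain ⟨-, ⟨-, -, -, hm⟩, hc⟩ := hu
      obtain ⟨i, hi⟩ := (hmem _).1 hm
      rw [mem_image]
      have hu' : m.mul v (w i) = u := by rw [hi, m.inv]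
      refine ⟨i, ?_, hu'⟩
      rw [mem_filter]
      refine ⟨mem_univ _, ?_⟩
      unfold Zall Zs at hc
      rw [mem_biUnion] at hc
      obtain ⟨h, hh, hu2⟩ := hc
      rw [mem_image] at hu2
      obtain ⟨h', hh', hu3⟩ := hu2
      rw [mem_erase] at hh'
      obtain ⟨j, hj⟩ := (hmem _).1 hh
      obtain ⟨k, hk⟩ := (hmem _).1 hh'.2
      refine ⟨j, k, ?_, ?_⟩
      · intro hjk
        apply hh'.1
        rw [← hk, ← hj, hjk]
      · rw [hu', hj, hk, hu3]
    refine (card_le_card hsub).trans (card_image_le.trans ?_)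
    refine h4 v hvw _ ?_
    intro i hi
    rw [mem_filter] at hi
    exact hi.2
  · intro v i hi
    have e1 := hfil (fun x => c (m.mul v x)) i
    have e2 : (univ.filter (fun x => c (m.mul v x) = i)).card =
        (univ.filter (fun x => c x = i)).card := by
      rw [← card_image_of_injective (univ.filter (fun x => c (m.mul v x) = i)) (hmul v)]
      congr 1
      ext x
      rw [mem_image, mem_filter]
      constructor
      · rintro ⟨y, hy, rfl⟩
        rw [mem_filter] at hy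
        exact ⟨mem_univ _, hy.2⟩
      · rintro ⟨-, h⟩
        refine ⟨m.mul v x, ?_, m.inv v x⟩
        rw [mem_filter, m.inv]
        exact ⟨mem_univ _, h⟩
    have h6 := h2 v i hi
    rw [e2] at h6
    refine hit_num hs (Nat.cast_nonneg s) hn1' h6 ?_ ?_ (hcls i hi) (by rw [hcard]; push_cast; rfl)
    · rw [e1]
      push_cast
      split_ifs <;> linarith
    · rw [e1]
      push_cast
      split_ifs <;> linarith
  · intro i hi
    have e1 := hfil c i
    refine hit_num hs (Nat.cast_nonneg s) hn1' (h3 i hi) ?_ ?_ (hcls i hi)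
      (by rw [hcard]; push_cast; rfl)
    · rw [e1]
      push_cast
      split_ifs <;> linarith
    · rw [e1]
      push_cast
      split_ifs <;> linarith
  · intro X Y
    have hsub : ((X ×ˢ Y).filter (fun q => m.mul q.1 q.2 ∈ W)) ⊆
        univ.biUnion (fun i : Fin (s + 1) => (X ×ˢ Y).filter (fun q => m.mul q.1 q.2 = w i)) := by
      intro q hq
      rw [mem_filter] at hq
      obtain ⟨i, hi⟩ := (hmem _).1 hq.2
      rw [mem_biUnion]
      refine ⟨i, mem_univ _, ?_⟩
      rw [mem_filter]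
      exact ⟨hq.1, hi.symm⟩
    have h1 := (card_le_card hsub).trans card_biUnion_le
    rw [Fin.sum_univ_succ] at h1
    simp only [w0, wsucc] at h1
    have ha1 : ((X ×ˢ Y).filter (fun q => m.mul q.1 q.2 = a)).card ≤ X.card := by
      apply card_le_card_of_injOn Prod.fst
      · intro q hq
        rw [mem_coe, mem_filter, mem_product] at hq
        exact hq.1.1
      · intro q hq q' hq' h
        rw [mem_coe, mem_filter] at hq hq'
        have e1 : q.2 = m.mul q.1 a := by rw [← hq.2, m.inv]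
        have e2 : q'.2 = m.mul q'.1 a := by rw [← hq'.2, m.inv]
        exact Prod.ext h (by rw [e1, e2, h])
    have ha2 : ((X ×ˢ Y).filter (fun q => m.mul q.1 q.2 = a)).card ≤ Y.card := by
      apply card_le_card_of_injOn Prod.snd
      · intro q hq
        rw [mem_coe, mem_filter, mem_product] at hq
        exact hq.1.2
      · intro q hq q' hq' h
        rw [mem_coe, mem_filter] at hq hq'
        have e1 : q.1 = m.mul q.2 a := by rw [← hq.2, m.comm q.1 q.2, m.inv]
        have e2 : q'.1 = m.mul q'.2 a := by rw [← hq'.2, m.comm q'.1 q'.2, m.inv]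
        exact Prod.ext (by rw [e1, e2, h]) h
    have hR0 := Real.sqrt_nonneg ((X.card : ℝ) * Y.card)
    have ha3 : (((X ×ˢ Y).filter (fun q => m.mul q.1 q.2 = a)).card : ℝ) ≤
        Real.sqrt ((X.card : ℝ) * Y.card) := by
      apply Real.le_sqrt_of_sq_le
      rw [sq]
      exact mul_le_mul (by exact_mod_cast ha1) (by exact_mod_cast ha2) (Nat.cast_nonneg _)
        (Nat.cast_nonneg _)
    have h5' := h5 X Y
    have h1' : (((X ×ˢ Y).filter (fun q => m.mul q.1 q.2 ∈ W)).card : ℝ) ≤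
        (((X ×ˢ Y).filter (fun q => m.mul q.1 q.2 = a)).card : ℝ) +
          ((∑ i, ((X ×ˢ Y).filter (fun q => m.mul q.1 q.2 = ω i)).card : ℕ) : ℝ) := by
      exact_mod_cast h1
    rw [hcard]
    push_cast at h1' h5' ⊢
    have h6 : (s : ℝ) / Fintype.card V * (X.card * Y.card) ≤
        ((s : ℝ) + 1) / Fintype.card V * (X.card * Y.card) := by
      apply mul_le_mul_of_nonneg_right _ (by positivity)
      apply div_le_div_of_nonneg_right _ (Nat.cast_nonneg _)
      linarith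
    have h7 : Real.sqrt ((X.card : ℝ) * Y.card) +
        (1 / (2 * 10 ^ 7)) * s * Real.sqrt ((X.card : ℝ) * Y.card) ≤
        (1 / 10 ^ 7) * ((s : ℝ) + 1) * Real.sqrt ((X.card : ℝ) * Y.card) := by
      have h8 : (1 : ℝ) + (1 / (2 * 10 ^ 7)) * s ≤ (1 / 10 ^ 7) * ((s : ℝ) + 1) := by
        norm_num at hs ⊢
        linarith
      have := mul_le_mul_of_nonneg_right h8 hR0
      linarith
    linarith

theorem exW4 : ∃ r0 : ℕ, ∀ r ≥ r0, ∀ (V : Type) [Fintype V] [DecidableEq V],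
    r ^ 10 ≤ Fintype.card V → Fintype.card V ≤ 2 * r ^ 10 → ∀ (m : SQ V) (c : V → ℕ),
    (∀ v, c v < 4) →
    (∀ i < 4, |((univ.filter (fun v => c v = i)).card : ℝ) - (Fintype.card V : ℝ) / 4| ≤ 4 * r) →
    ∀ a : V, ∃ W : Finset V, a ∈ W ∧ Sz c W r ∧ Good4 m c W := by
  classical
  obtain ⟨sa, ha⟩ := gwa
  obtain ⟨sc, hc⟩ := gwc
  obtain ⟨sd, hd⟩ := gwd
  obtain ⟨sh, hh⟩ := hits (1 / 10 ^ 15) (by positivity)
  refine ⟨sa + sc + sd + sh + 10 ^ 15 + 1, ?_⟩
  intro r hr V _ _ hn1 hn2 m c hc4 hcls a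
  obtain ⟨s, rfl⟩ : ∃ s, r = s + 1 := ⟨r - 1, by omega⟩
  have hn0 : 0 < Fintype.card V := Fintype.card_pos_iff.2 ⟨a⟩
  obtain ⟨c₀, hc₀⟩ : ∃ c₀ : V → ℕ, Function.Injective c₀ :=
    ⟨fun v => (Fintype.equivFin V v : ℕ), fun x y h =>
      (Fintype.equivFin V).injective (Fin.val_injective h)⟩
  have hcl : ∀ j, (univ.filter (fun v => c₀ v = j)).card * (s + 1) ^ 4 ≤
      2 * Fintype.card V := by
    intro j
    have h1 : (univ.filter (fun v => c₀ v = j)).card ≤ 1 := by
      rw [card_le_one]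
      intro x hx y hy
      rw [mem_filter] at hx hy
      exact hc₀ (hx.2.trans hy.2.symm)
    calc (univ.filter (fun v => c₀ v = j)).card * (s + 1) ^ 4
        ≤ 1 * (s + 1) ^ 4 := Nat.mul_le_mul_right _ h1
      _ ≤ 2 * (s + 1) ^ 10 := by
          rw [one_mul]
          have : (s + 1) ^ 4 ≤ (s + 1) ^ 10 := Nat.pow_le_pow_right (by omega) (by norm_num)
          omega
      _ ≤ 2 * Fintype.card V := Nat.mul_le_mul_left _ hn1
  let T : (V × Fin 4) ⊕ Fin 4 → Finset V := fun j => match j with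
    | Sum.inl q => univ.filter (fun x => c (m.mul q.1 x) = (q.2 : ℕ))
    | Sum.inr i => univ.filter (fun x => c x = (i : ℕ))
  have hJ : Fintype.card ((V × Fin 4) ⊕ Fin 4) ≤ 20 * (s + 1) ^ 10 := by
    rw [Fintype.card_sum, Fintype.card_prod, Fintype.card_fin]
    have : 1 ≤ (s + 1) ^ 10 := Nat.one_le_pow _ _ (by omega)
    omega
  have g1 := ha s (by omega) V hn1 m c₀ a (by intro j; convert hcl j using 3)
  have g2 := hh s (by omega) V hn0 ((V × Fin 4) ⊕ Fin 4) hJ T
  have g4 := hc s (by omega) V hn1 m a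
  have g5 := hd s (by omega) V hn2 m
  have hN : (Fintype.card (Fin s → V) : ℝ) = (Fintype.card V : ℝ) ^ s := by
    rw [Fintype.card_fun, Fintype.card_fin]
    push_cast
    rfl
  have hN0 : (0 : ℝ) < (Fintype.card V : ℝ) ^ s := by positivity
  obtain ⟨ω, b1, b2, b4, b5⟩ := pick hN hN0 _ _ _ _ g1 g2 g4 g5
  simp only [mem_filter, mem_univ, true_and, not_not] at b1 b2 b4 b5
  have hcls' : ∀ i < 4, |((univ.filter (fun v => c v = i)).card : ℝ) -
      (Fintype.card V : ℝ) / 4| ≤ 4 * ((s : ℝ) + 1) := by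
    intro i hi
    have h1 := hcls i hi
    push_cast at h1
    convert h1 using 5
  obtain ⟨W, hW1, hW2, hW3⟩ := core m c c₀ a ω (Fin.cons a ω) rfl (fun i => rfl) b1 hn1 hcls'
    (by
      intro v i hi
      have h1 := b2 (Sum.inl (v, ⟨i, hi⟩))
      simp only [T, mem_filter, mem_univ, true_and] at h1
      convert h1 using 5)
    (by
      intro i hi
      have h1 := b2 (Sum.inr ⟨i, hi⟩)
      simp only [T, mem_filter, mem_univ, true_and] at h1
      convert h1 using 5)
    (by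
      intro v hv S hS
      refine le_trans (card_le_card ?_) (b4 v hv)
      intro i hi
      rw [mem_filter]
      exact ⟨mem_univ _, hS i hi⟩) b5
    (by
      have : 10 ^ 15 ≤ s + 1 := by omega
      exact_mod_cast this)
  exact ⟨W, hW1, ⟨hW2, hn1, hn2, hc4, fun i hi => by convert hcls i hi using 5⟩, hW3⟩

end Pool.Agent.CH4
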