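import Pool.Agent.CH4.Basic

/-!
# CH4/Far: many pairs far apart from each other

Induction over finite sets `S ⊆ univ` of indices (the functions `x`, `y` are changed at one new index at
a time).  Let `U` be the set of the at most `2 r²` points chosen so far,
`F = W ∪ Zall ∪ U ∪ N(N(U))` (`N` = neighbours in `G_W`, every point has at most `r`, `CHS.deg_le`):
`|F| ≤ r + r² + 2 r² + 2 r⁴ ≤ 6 r⁴` (`Zall_card_le`), `|N(F)| ≤ 6 r⁵`.  The colour class `τ j` has at
least `n/4 - 4 r > 12 r⁵` points, so it has a point `x j ∉ F ∪ N(F)`.  By `hit` (with `r/4 - 10⁻¹⁴ r > 2`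
and `inW_le_two4`) `x j` has a neighbour `y j = m (x j) w ∉ W` of colour `τ j + 1`, and `y j ∉ F` since
`x j ∉ N(F)`.
`far`: two neighbours of `v` in the final set belong to the same pair (for the one chosen later would
be in `N(N(U))`), so there are at most 2.
-/

set_option autoImplicit false

namespace Pool.Agent.CH4
open Finset Pool.Agent.CHS

section
variable {V : Type} [Fintype V] [DecidableEq V] {m : SQ V} {c : V → ℕ} {W : Finset V}

/-- neighbours of the points of `X` -/
private def nbr (m : SQ V) (W X : Finset V) : Finset V :=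
  X.biUnion fun v => univ.filter fun u => adj m W v u

private theorem mem_nbr {X : Finset V} {u : V} : u ∈ nbr m W X ↔ ∃ v ∈ X, adj m W v u := by
  unfold nbr
  simp

private theorem nbr_card (X : Finset V) : (nbr m W X).card ≤ X.card * W.card :=
  card_biUnion_le_card_mul _ _ _ (fun v _ => deg_le m W v)

private theorem far1 {r : ℕ} (hr : 16 ≤ r) (hS : Sz c W r) (hW : Good4 m c W) {F : Finset V}
    (hWF : W ⊆ F) (hF : F.card ≤ 6 * r ^ 4) {t : ℕ} (ht : t = 0 ∨ t = 2) :
    ∃ x y, adj m W x y ∧ c x = t ∧ c y = t + 1 ∧ x ∉ F ∧ y ∉ F := by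
  have hWr := hS.Wr
  -- the point `x`
  obtain ⟨x, hx, hxF⟩ : ∃ x ∈ univ.filter (fun v => c v = t), x ∉ F ∪ nbr m W F := by
    apply exists_mem_notMem_of_card_lt_card
    have h1 : (F ∪ nbr m W F).card ≤ 6 * r ^ 4 + 6 * r ^ 4 * r := by
      refine (card_union_le _ _).trans (add_le_add hF ((nbr_card F).trans ?_))
      rw [hWr]
      exact Nat.mul_le_mul_right r hF
    have h2 := (abs_le.1 (hS.cls t (by omega))).1
    have h3 : (r : ℝ) ^ 10 ≤ Fintype.card V := by exact_mod_cast hS.n1
    have h4 : (16 : ℝ) ≤ r := by exact_mod_cast hr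
    have h5 : ((F ∪ nbr m W F).card : ℝ) ≤ 6 * r ^ 4 + 6 * r ^ 4 * r := by exact_mod_cast h1
    have h6 : (6 * r ^ 4 + 6 * r ^ 4 * r : ℝ) < (r : ℝ) ^ 10 / 4 - 4 * r := by
      have e1 : (1 : ℝ) ≤ r := by linarith
      have e2 : (r : ℝ) ≤ r ^ 5 := by
        have := pow_le_pow_right₀ e1 (show 1 ≤ 5 by norm_num)
        rwa [pow_one] at this
      have e3 : (r : ℝ) ^ 4 ≤ r ^ 5 := pow_le_pow_right₀ e1 (by norm_num)
      have e4 : (16 : ℝ) ^ 5 ≤ r ^ 5 := pow_le_pow_left₀ (by norm_num) h4 5
      have e5 : (r : ℝ) ^ 10 = r ^ 5 * r ^ 5 := by ring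
      have e6 : (r : ℝ) ^ 4 * r = r ^ 5 := by ring
      have e7 : (0 : ℝ) < r ^ 5 := by positivity
      have e8 : (16 : ℝ) ^ 5 * r ^ 5 ≤ r ^ 5 * r ^ 5 := mul_le_mul_of_nonneg_right e4 e7.le
      rw [e5, mul_assoc, e6]
      norm_num at e8
      linarith
    have h7 : ((F ∪ nbr m W F).card : ℝ) < ((univ.filter (fun v => c v = t)).card : ℝ) := by
      linarith
    exact_mod_cast h7
  rw [mem_filter] at hx
  rw [mem_union, not_or] at hxF
  have hxW : x ∉ W := fun h => hxF.1 (hWF h)
  -- the point `y`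
  obtain ⟨w, hw, hwn⟩ : ∃ w ∈ W.filter (fun w => c (m.mul x w) = t + 1),
      w ∉ W.filter (fun w => m.mul x w ∈ W) := by
    apply exists_mem_notMem_of_card_lt_card
    refine lt_of_le_of_lt (inW_le_two4 hW x hxW) ?_
    have h1 := (abs_le.1 (hW.hit x (t + 1) (by omega))).1
    rw [hWr] at h1
    have h4 : (16 : ℝ) ≤ r := by exact_mod_cast hr
    have h5 : (2 : ℝ) < ((W.filter (fun w => c (m.mul x w) = t + 1)).card : ℝ) := by
      linarith
    exact_mod_cast h5
  rw [mem_filter] at hw hwn
  have hyW : m.mul x w ∉ W := fun h => hwn ⟨hw.1, h⟩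
  have hxy : adj m W x (m.mul x w) := by
    refine ⟨hxW, hyW, ?_, ?_⟩
    · intro h
      have h1 := m.inv x w
      rw [← h, m.idem] at h1
      rw [h1] at hxW
      exact hxW hw.1
    · rw [m.inv]
      exact hw.1
  refine ⟨x, m.mul x w, hxy, hx.2, hw.2, hxF.1, fun h => hxF.2 ?_⟩
  rw [mem_nbr]
  exact ⟨_, h, adj_symm _ _ _ _ hxy⟩

/-- `a` and `b` are distinct and have no common neighbour -/
private def Fr (m : SQ V) (W : Finset V) (a b : V) : Prop :=
  a ≠ b ∧ ∀ v, adj m W v a → ¬ adj m W v b

omit [Fintype V] [DecidableEq V] in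
private theorem Fr.symm {a b : V} (h : Fr m W a b) : Fr m W b a :=
  ⟨h.1.symm, fun v h1 h2 => h.2 v h2 h1⟩

end

open Classical in
theorem farEx : ∃ r0 : ℕ, ∀ r ≥ r0, ∀ (V : Type) [Fintype V] [DecidableEq V] (m : SQ V)
    (c : V → ℕ) (W : Finset V), Sz c W r → Good4 m c W →
    ∀ (ι : Type) [Fintype ι] [DecidableEq ι], Fintype.card ι ≤ r ^ 2 → ∀ τ : ι → ℕ,
    (∀ j, τ j = 0 ∨ τ j = 2) →
    ∃ x y : ι → V,
      (∀ j, adj m W (x j) (y j) ∧ c (x j) = τ j ∧ c (y j) = τ j + 1 ∧ x j ∉ Zall m W ∧
        y j ∉ Zall m W) ∧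
      (∀ i j, i ≠ j → x i ≠ x j ∧ y i ≠ y j) ∧
      (∀ v ∉ W, (univ.filter (fun u => adj m W v u ∧ ∃ j, u = x j ∨ u = y j)).card ≤ 2) := by
  refine ⟨16, fun r hr V _ _ m c W hS hW ι _ _ hι τ hτ => ?_⟩
  have hV : 0 < Fintype.card V := lt_of_lt_of_le (by positivity) hS.n1
  have hVn : Nonempty V := Fintype.card_pos_iff.1 hV
  have key : ∀ S : Finset ι, ∃ x y : ι → V,
      (∀ j ∈ S, adj m W (x j) (y j) ∧ c (x j) = τ j ∧ c (y j) = τ j + 1 ∧ x j ∉ Zall m W ∧
        y j ∉ Zall m W) ∧
      (∀ i ∈ S, ∀ j ∈ S, i ≠ j → Fr m W (x i) (x j) ∧ Fr m W (x i) (y j) ∧ Fr m W (y i) (x j) ∧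
        Fr m W (y i) (y j)) := by
    intro S
    induction S using Finset.induction_on with
    | empty =>
      exact ⟨fun _ => hVn.some, fun _ => hVn.some, fun j hj => absurd hj (notMem_empty j),
        fun j hj => absurd hj (notMem_empty j)⟩
    | insert j0 S hj0 ih =>
      obtain ⟨x, y, h1, h2⟩ := ih
      obtain ⟨U, hU⟩ : ∃ U : Finset V, U = S.image x ∪ S.image y := ⟨_, rfl⟩
      have hUc : U.card ≤ 2 * r ^ 2 := by
        have e1 : S.card ≤ r ^ 2 := (card_le_univ S).trans hι
        have e2 := card_union_le (S.image x) (S.image y)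
        have e3 := card_image_le (s := S) (f := x)
        have e4 := card_image_le (s := S) (f := y)
        rw [hU]
        omega
      obtain ⟨F, hF⟩ : ∃ F : Finset V, F = W ∪ (Zall m W ∪ (U ∪ nbr m W (nbr m W U))) :=
        ⟨_, rfl⟩
      have hFc : F.card ≤ 6 * r ^ 4 := by
        have e1 : (nbr m W (nbr m W U)).card ≤ 2 * r ^ 2 * r * r := by
          refine (nbr_card _).trans ?_
          rw [hS.Wr]
          refine Nat.mul_le_mul_right r ((nbr_card _).trans ?_)
          rw [hS.Wr]
          exact Nat.mul_le_mul_right r hUc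
        have e2 : (Zall m W).card ≤ r * r := by
          have := Zall_card_le m W
          rwa [hS.Wr] at this
        have e3 := card_union_le W (Zall m W ∪ (U ∪ nbr m W (nbr m W U)))
        have e4 := card_union_le (Zall m W) (U ∪ nbr m W (nbr m W U))
        have e5 := card_union_le U (nbr m W (nbr m W U))
        have e6 := hS.Wr
        have e7 : F.card ≤ r + (r * r + (2 * r ^ 2 + 2 * r ^ 2 * r * r)) := by
          rw [hF]
          omega
        refine e7.trans ?_
        have f1 : 1 ≤ r := by omega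
        have f2 : r ≤ r ^ 4 := by
          have := Nat.pow_le_pow_right f1 (show 1 ≤ 4 by norm_num)
          rwa [pow_one] at this
        have f3 : r ^ 2 ≤ r ^ 4 := Nat.pow_le_pow_right f1 (by norm_num)
        have f4 : 2 * r ^ 2 * r * r = 2 * r ^ 4 := by ring
        have f5 : r * r = r ^ 2 := by ring
        rw [f4, f5]
        omega
      obtain ⟨a, b, hab, ha, hb, haF, hbF⟩ := far1 hr hS hW (F := F)
        (by rw [hF]; exact subset_union_left) hFc (hτ j0)
      have hfr : ∀ z, z ∉ F → ∀ i ∈ S, Fr m W z (x i) ∧ Fr m W z (y i) := by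
        intro z hz i hi
        rw [hF, mem_union, mem_union, mem_union, not_or, not_or, not_or] at hz
        have g1 : ∀ u ∈ U, Fr m W z u := by
          intro u hu
          refine ⟨fun h => hz.2.2.1 (h ▸ hu), fun v k1 k2 => hz.2.2.2 ?_⟩
          rw [mem_nbr]
          refine ⟨v, ?_, k1⟩
          rw [mem_nbr]
          exact ⟨u, hu, adj_symm _ _ _ _ k2⟩
        rw [hU] at g1
        exact ⟨g1 _ (mem_union_left _ (mem_image_of_mem x hi)),
          g1 _ (mem_union_right _ (mem_image_of_mem y hi))⟩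
      have hne : ∀ i ∈ S, i ≠ j0 := fun i hi h => hj0 (h ▸ hi)
      refine ⟨Function.update x j0 a, Function.update y j0 b, ?_, ?_⟩
      · intro j hj
        rcases mem_insert.1 hj with rfl | hj
        · rw [Function.update_self, Function.update_self]
          rw [hF, mem_union, mem_union, not_or, not_or] at haF hbF
          exact ⟨hab, ha, hb, haF.2.1, hbF.2.1⟩
        · rw [Function.update_of_ne (hne j hj), Function.update_of_ne (hne j hj)]
          exact h1 j hj
      · intro i hi j hj hij
        rcases mem_insert.1 hi with hi' | hi'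
        · rcases mem_insert.1 hj with hj' | hj'
          · exact absurd (hi'.trans hj'.symm) hij
          · rw [hi', Function.update_self, Function.update_self, Function.update_of_ne (hne j hj'),
              Function.update_of_ne (hne j hj')]
            exact ⟨(hfr a haF j hj').1, (hfr a haF j hj').2, (hfr b hbF j hj').1,
              (hfr b hbF j hj').2⟩
        · rcases mem_insert.1 hj with hj' | hj'
          · rw [hj', Function.update_self, Function.update_self, Function.update_of_ne (hne i hi'),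
              Function.update_of_ne (hne i hi')]
            exact ⟨(hfr a haF i hi').1.symm, (hfr b hbF i hi').1.symm, (hfr a haF i hi').2.symm,
              (hfr b hbF i hi').2.symm⟩
          · rw [Function.update_of_ne (hne i hi'), Function.update_of_ne (hne i hi'),
              Function.update_of_ne (hne j hj'), Function.update_of_ne (hne j hj')]
            exact h2 i hi' j hj' hij
  obtain ⟨x, y, h1, h2⟩ := key univ
  refine ⟨x, y, fun j => h1 j (mem_univ j), fun i j hij => ?_, fun v _ => ?_⟩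
  · obtain ⟨k1, -, -, k4⟩ := h2 i (mem_univ i) j (mem_univ j) hij
    exact ⟨k1.1, k4.1⟩
  · by_cases hne : ∃ j, adj m W v (x j) ∨ adj m W v (y j)
    · obtain ⟨j, hj⟩ := hne
      refine (card_le_card (t := {x j, y j}) ?_).trans card_le_two
      intro u hu
      rw [mem_filter] at hu
      obtain ⟨-, hvu, i, hi⟩ := hu
      rw [mem_insert, mem_singleton]
      by_cases hij : i = j
      · subst hij
        exact hi
      · exfalso
        obtain ⟨k1, k2, k3, k4⟩ := h2 i (mem_univ i) j (mem_univ j) hij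
        rcases hi with rfl | rfl
        · rcases hj with hj | hj
          · exact k1.2 v hvu hj
          · exact k2.2 v hvu hj
        · rcases hj with hj | hj
          · exact k3.2 v hvu hj
          · exact k4.2 v hvu hj
    · have he : univ.filter (fun u => adj m W v u ∧ ∃ j, u = x j ∨ u = y j) = ∅ := by
        apply filter_eq_empty_iff.2
        rintro u - ⟨hvu, j, rfl | rfl⟩
        · exact hne ⟨j, Or.inl hvu⟩
        · exact hne ⟨j, Or.inr hvu⟩
      rw [he, card_empty]
      omega

end Pool.Agent.CH4
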