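import Mathlib
import Pool.Agent.CHS.Finish

/-!
# CH4/Fin4a: one colour of the exact decomposition

`F` is a bipartite graph between `A` and `B`, `q ≥ 1`.  `TA`, `TB` index groups of size `q` in `A`, respectively
in `B`.  All degrees are `q`, except `q - 1` on the groups and `q - 2` on `Z2 ⊆ A`, `|Z2| = q(q-1)/2`.  Then
there is a matching `g` (an involution) of `F`-edges missing exactly: one point `z t` of every group,
and `q - 1` points `Z' ⊆ Z2`.

Proof.  Counting edges from both sides: `q |A| - q |TA| - q (q-1) = q |B| - q |TB|`, so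
`|A| + |TB| = |B| + |TA| + (q - 1)`.  Hall's theorem (`Finset.all_card_le_biUnion_card_iff_exists_injective`)
for the left points `A ⊔ TB` with the targets in `B ⊔ TA ⊔ Fin (q-1)`:
`t(a) = {b ∈ B : F a b} ∪ {t ∈ TA : a ∈ grp t} ∪ (Fin (q-1) if a ∈ Z2)` for `a ∈ A`,
`t(t) = grp t ⊆ B` for `t ∈ TB`.
For a finite set `X` of left points write `X₂ = X ∩ Z2`; every point of `X \ X₂` has exactly `q`
targets in `B ⊔ TA`, every point of `X₂` has `q - 2`, and every element of `B ⊔ TA` is a target of at
most `q` left points (`b ∈ B`: degree `q`, or degree `q - 1` and the one group containing `b`; `t ∈ TA`: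
`|grp t| = q`).  So the number `N` of targets of `X` in `B ⊔ TA` satisfies `q N ≥ q |X| - 2 |X₂|`.
If `X₂ = ∅`: `N ≥ |X|`.  Otherwise `q N ≥ q |X| - 2 |Z2| = q |X| - q (q-1)`, so `N ≥ |X| - (q-1)` and the
`q - 1` dummies give `≥ |X|`.
The injection is a bijection onto `B ⊔ TA ⊔ Fin (q-1)` by counting.  `g` exchanges `a ∈ A` and `b ∈ B` if
`a` is sent to `b`; the point of `A` sent to `t ∈ TA` is `z t`, the point of `B` to which `t ∈ TB` is sent is
`z t`, and `Z'` are the points sent to dummies.
-/

set_option autoImplicit false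

namespace Pool.Agent.CH4
open Finset

/-- The targets. -/
def relF4 {κ V : Type} (F : V → V → Prop) (grp : κ → Finset V) : V ⊕ κ → V ⊕ κ → Prop
  | .inl a, .inl b => F a b
  | .inl a, .inr t => a ∈ grp t
  | .inr t, .inl b => b ∈ grp t
  | .inr _, .inr _ => False

theorem cardDisjF4 {α β : Type} (s : Finset α) (t : Finset β) (P : α ⊕ β → Prop)
    [DecidablePred P] : ((s.disjSum t).filter P).card =
      (s.filter (fun a => P (Sum.inl a))).card + (t.filter (fun b => P (Sum.inr b))).card := by
  rw [Finset.card_filter, Finset.card_filter, Finset.card_filter, Finset.sum_disjSum]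

theorem cflF4 {α : Type} (s : Finset α) (P Q : α → Prop) [DecidablePred P] [DecidablePred Q]
    (h : ∀ a ∈ s, P a ↔ Q a) : (s.filter P).card = (s.filter Q).card :=
  congrArg Finset.card (Finset.filter_congr h)

/-- At most one group contains a given point. -/
theorem card_groupsF4 {κ V : Type} [DecidableEq V] (T : Finset κ) (grp : κ → Finset V)
    (hd : ∀ t ∈ T, ∀ t' ∈ T, t ≠ t' → Disjoint (grp t) (grp t')) (u : V) {t : κ} (ht : t ∈ T)
    (hu : u ∈ grp t) : (T.filter (fun t => u ∈ grp t)).card = 1 := by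
  rw [Finset.card_eq_one]
  refine ⟨t, ?_⟩
  ext t'
  rw [Finset.mem_filter, Finset.mem_singleton]
  constructor
  · rintro ⟨h1, h2⟩
    by_contra hne
    exact Finset.disjoint_left.1 (hd t' h1 t ht hne) h2 hu
  · rintro rfl
    exact ⟨ht, hu⟩

theorem card_groupsF4_zero {κ V : Type} [DecidableEq V] (T : Finset κ) (grp : κ → Finset V) (u : V)
    (h : ∀ t ∈ T, u ∉ grp t) : (T.filter (fun t => u ∈ grp t)).card = 0 := by
  rw [Finset.card_eq_zero, Finset.filter_eq_empty_iff]
  exact fun {t} ht => h t ht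

theorem fin4a {κ V : Type} [DecidableEq κ] [DecidableEq V] [Nonempty V] (A B : Finset V)
    (hAB : Disjoint A B) (F : V → V → Prop) [DecidableRel F] (q : ℕ) (hq : 1 ≤ q)
    (TA TB : Finset κ) (grp : κ → Finset V) (Z2 : Finset V) (hT : Disjoint TA TB)
    (hA : ∀ t ∈ TA, grp t ⊆ A) (hB : ∀ t ∈ TB, grp t ⊆ B)
    (hg : ∀ t ∈ TA ∪ TB, (grp t).card = q)
    (hd : ∀ t ∈ TA ∪ TB, ∀ t' ∈ TA ∪ TB, t ≠ t' → Disjoint (grp t) (grp t'))
    (hZ : Z2 ⊆ A) (hZg : ∀ t ∈ TA, Disjoint Z2 (grp t)) (hZc : 2 * Z2.card + q = q * q)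
    (dB : ∀ b ∈ B, (∀ t ∈ TB, b ∉ grp t) → (A.filter (fun a => F a b)).card = q)
    (dB1 : ∀ t ∈ TB, ∀ b ∈ grp t, (A.filter (fun a => F a b)).card + 1 = q)
    (dA : ∀ a ∈ A, (∀ t ∈ TA, a ∉ grp t) → a ∉ Z2 → (B.filter (fun b => F a b)).card = q)
    (dA1 : ∀ t ∈ TA, ∀ a ∈ grp t, (B.filter (fun b => F a b)).card + 1 = q)
    (dA2 : ∀ a ∈ Z2, (B.filter (fun b => F a b)).card + 2 = q) :
    ∃ (g : V → V) (z : κ → V) (Z' : Finset V),
      (∀ u, g (g u) = u) ∧
      (∀ u, g u ≠ u → (u ∈ A ∧ g u ∈ B ∧ F u (g u)) ∨ (u ∈ B ∧ g u ∈ A ∧ F (g u) u)) ∧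
      (∀ t ∈ TA ∪ TB, z t ∈ grp t) ∧ Z' ⊆ Z2 ∧ Z'.card + 1 = q ∧
      (∀ u ∈ A ∪ B, g u = u ↔ (u ∈ Z' ∨ ∃ t ∈ TA ∪ TB, z t = u)) := by
  classical
  have hABd : ∀ x, x ∈ A → x ∈ B → False := fun x h1 h2 => Finset.disjoint_left.1 hAB h1 h2
  have hZcard : (Z2.map (Function.Embedding.inl (β := κ))).card = Z2.card := Finset.card_map _
  obtain ⟨g0, hg1, hg2, hg3, hg4⟩ := Pool.Agent.CHS.hall_step (α := V ⊕ κ) (γ := V ⊕ κ)
    (A.disjSum TB) (B.disjSum TA) (relF4 F grp) (Z2.map Function.Embedding.inl) q hq (by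
      intro x hx
      rw [Finset.mem_map] at hx
      obtain ⟨a, ha, rfl⟩ := hx
      exact Finset.inl_mem_disjSum.2 (hZ ha)) (by rw [hZcard]; exact hZc) (by
      intro y hy
      rw [cardDisjF4]
      rcases y with b | t
      · have hb : b ∈ B := Finset.inl_mem_disjSum.1 hy
        rw [cflF4 A (fun a => relF4 F grp (Sum.inl a) (Sum.inl b)) (fun a => F a b)
          (fun _ _ => Iff.rfl), cflF4 TB (fun t => relF4 F grp (Sum.inr t) (Sum.inl b))
            (fun t => b ∈ grp t) (fun _ _ => Iff.rfl)]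
        by_cases h : ∃ t ∈ TB, b ∈ grp t
        · obtain ⟨t, ht, hbt⟩ := h
          rw [card_groupsF4 TB grp (fun t ht t' ht' => hd t (Finset.mem_union_right _ ht) t'
            (Finset.mem_union_right _ ht')) b ht hbt]
          convert dB1 t ht b hbt
        · push Not at h
          rw [card_groupsF4_zero TB grp b h, add_zero]
          convert dB b hb h
      · have ht : t ∈ TA := Finset.inr_mem_disjSum.1 hy
        have h1 : (A.filter (fun a => relF4 F grp (Sum.inl a) (Sum.inr t))) = grp t := by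
          ext a
          rw [Finset.mem_filter]
          exact ⟨fun h => h.2, fun h => ⟨hA t ht h, h⟩⟩
        have h2 : (TB.filter (fun b => relF4 F grp (Sum.inr b) (Sum.inr t))) = ∅ := by
          rw [Finset.filter_eq_empty_iff]
          exact fun _ _ h => h
        rw [h1, h2, Finset.card_empty, add_zero]
        exact hg t (Finset.mem_union_left _ ht)) (by
      intro x hx hxZ
      rw [cardDisjF4]
      rcases x with a | t
      · have ha : a ∈ A := Finset.inl_mem_disjSum.1 hx
        have haZ : a ∉ Z2 := fun h => hxZ (Finset.mem_map.2 ⟨a, h, rfl⟩)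
        rw [cflF4 B (fun b => relF4 F grp (Sum.inl a) (Sum.inl b)) (fun b => F a b)
          (fun _ _ => Iff.rfl), cflF4 TA (fun t => relF4 F grp (Sum.inl a) (Sum.inr t))
            (fun t => a ∈ grp t) (fun _ _ => Iff.rfl)]
        by_cases h : ∃ t ∈ TA, a ∈ grp t
        · obtain ⟨t, ht, hat⟩ := h
          rw [card_groupsF4 TA grp (fun t ht t' ht' => hd t (Finset.mem_union_left _ ht) t'
            (Finset.mem_union_left _ ht')) a ht hat]
          convert dA1 t ht a hat
        · push Not at h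
          rw [card_groupsF4_zero TA grp a h, add_zero]
          convert dA a ha h haZ
      · have ht : t ∈ TB := Finset.inr_mem_disjSum.1 hx
        have h1 : (B.filter (fun b => relF4 F grp (Sum.inr t) (Sum.inl b))) = grp t := by
          ext a
          rw [Finset.mem_filter]
          exact ⟨fun h => h.2, fun h => ⟨hB t ht h, h⟩⟩
        have h2 : (TA.filter (fun b => relF4 F grp (Sum.inr t) (Sum.inr b))) = ∅ := by
          rw [Finset.filter_eq_empty_iff]
          exact fun _ _ h => h
        rw [h1, h2, Finset.card_empty, add_zero]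
        exact hg t (Finset.mem_union_right _ ht)) (by
      intro x hx
      rw [cardDisjF4]
      obtain ⟨a, ha, rfl⟩ := Finset.mem_map.1 hx
      rw [cflF4 B (fun b => relF4 F grp (Function.Embedding.inl a) (Sum.inl b)) (fun b => F a b)
        (fun _ _ => Iff.rfl), cflF4 TA (fun t => relF4 F grp (Function.Embedding.inl a) (Sum.inr t))
          (fun t => a ∈ grp t) (fun _ _ => Iff.rfl)]
      rw [card_groupsF4_zero TA grp a (fun t ht h => Finset.disjoint_left.1 (hZg t ht) ha h), add_zero]
      convert dA2 a ha)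
  -- the facts on `g0`
  have hinlA : ∀ y ∈ B.disjSum TA, ∀ a, g0 y = Sum.inl a → a ∈ A := by
    intro y hy a h
    have h1 := (hg1 y hy).1
    rw [h] at h1
    exact Finset.inl_mem_disjSum.1 h1
  have hBY : ∀ b ∈ B, (Sum.inl b : V ⊕ κ) ∈ B.disjSum TA := fun b hb => Finset.inl_mem_disjSum.2 hb
  have hTY : ∀ t ∈ TA, (Sum.inr t : V ⊕ κ) ∈ B.disjSum TA := fun b hb => Finset.inr_mem_disjSum.2 hb
  -- the matching relation
  let R : V → V → Prop := fun u v => (v ∈ B ∧ g0 (Sum.inl v) = Sum.inl u) ∨
    (u ∈ B ∧ g0 (Sum.inl u) = Sum.inl v)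
  have hRs : ∀ u v, R u v → R v u := by
    rintro u v (h | h)
    · exact Or.inr h
    · exact Or.inl h
  have hRf : ∀ u v v', R u v → R u v' → v = v' := by
    rintro u v v' (⟨h1, h2⟩ | ⟨h1, h2⟩) (⟨h3, h4⟩ | ⟨h3, h4⟩)
    · exact Sum.inl_injective (hg2 _ (hBY v h1) _ (hBY v' h3) (h2.trans h4.symm))
    · exact (hABd u (hinlA _ (hBY v h1) u h2) h3).elim
    · exact (hABd u (hinlA _ (hBY v' h3) u h4) h1).elim
    · exact Sum.inl_injective (h2.symm.trans h4)
  let g : V → V := fun u => if h : ∃ v, R u v then h.choose else u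
  have hgR : ∀ u v, R u v → g u = v := by
    intro u v h
    have hex : ∃ v, R u v := ⟨v, h⟩
    have e : g u = hex.choose := dif_pos hex
    rw [e]
    exact hRf u _ _ hex.choose_spec h
  have hgN : ∀ u, (∀ v, ¬ R u v) → g u = u := by
    intro u h
    exact dif_neg (fun ⟨v, hv⟩ => h v hv)
  have hgne : ∀ u, g u ≠ u → R u (g u) := by
    intro u h
    by_cases hex : ∃ v, R u v
    · obtain ⟨v, hv⟩ := hex
      rw [hgR u v hv]
      exact hv
    · push Not at hex
      exact absurd (hgN u hex) h
  have hRA : ∀ u v, u ∈ A → R u v → v ∈ B ∧ g0 (Sum.inl v) = Sum.inl u := by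
    rintro u v hu (h | h)
    · exact h
    · exact (hABd u hu h.1).elim
  have hRB : ∀ u v, u ∈ B → R u v → g0 (Sum.inl u) = Sum.inl v := by
    rintro u v hu (h | h)
    · exact (hABd u (hinlA _ (hBY v h.1) u h.2) hu).elim
    · exact h.2
  have hRne : ∀ u v, R u v → v ≠ u := by
    rintro u v h rfl
    rcases h with h | h <;> exact hABd v (hinlA _ (hBY v h.1) v h.2) h.1
  -- the points of the groups
  have hzex : ∀ t, ∃ x, t ∈ TA ∪ TB → (t ∈ TA ∧ g0 (Sum.inr t) = Sum.inl x) ∨
      (t ∈ TB ∧ x ∈ B ∧ g0 (Sum.inl x) = Sum.inr t) := by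
    intro t
    by_cases ht : t ∈ TA
    · have h1 := (hg1 _ (hTY t ht)).2
      rcases h2 : g0 (Sum.inr t) with x | x
      · exact ⟨x, fun _ => Or.inl ⟨ht, rfl⟩⟩
      · rw [h2] at h1
        exact h1.elim
    · by_cases ht' : t ∈ TB
      · obtain ⟨y, hy, h1⟩ := hg3 (Sum.inr t) (Finset.inr_mem_disjSum.2 ht') (by
          intro h
          obtain ⟨a, _, h2⟩ := Finset.mem_map.1 h
          exact absurd h2 (by simp))
        rcases y with b | t'
        · exact ⟨b, fun _ => Or.inr ⟨ht', Finset.inl_mem_disjSum.1 hy, h1⟩⟩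
        · have h3 := (hg1 _ hy).2
          rw [h1] at h3
          exact h3.elim
      · exact ⟨Classical.arbitrary V, fun h => ((Finset.mem_union.1 h).elim ht ht').elim⟩
  choose z hz using hzex
  have hzA : ∀ t ∈ TA, g0 (Sum.inr t) = Sum.inl (z t) := by
    intro t ht
    rcases hz t (Finset.mem_union_left _ ht) with h | h
    · exact h.2
    · exact (Finset.disjoint_left.1 hT ht h.1).elim
  have hzB : ∀ t ∈ TB, z t ∈ B ∧ g0 (Sum.inl (z t)) = Sum.inr t := by
    intro t ht
    rcases hz t (Finset.mem_union_right _ ht) with h | h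
    · exact (Finset.disjoint_left.1 hT h.1 ht).elim
    · exact h.2
  -- the missed points of `Z2`
  let Z' : Finset V := A.filter (fun a => ∀ y ∈ B.disjSum TA, g0 y ≠ Sum.inl a)
  have hZ'2 : Z' ⊆ Z2 := by
    intro a ha
    obtain ⟨h1, h2⟩ := Finset.mem_filter.1 ha
    by_contra h3
    obtain ⟨y, hy, h4⟩ := hg3 (Sum.inl a) (Finset.inl_mem_disjSum.2 h1) (by
      intro h
      obtain ⟨a', ha', h5⟩ := Finset.mem_map.1 h
      have h6 : a' = a := Sum.inl_injective h5
      exact h3 (h6 ▸ ha'))
    exact h2 y hy h4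
  have hZ'c : Z'.card + 1 = q := by
    have h1 : A.disjSum TB = (B.disjSum TA).image g0 ∪ Z'.map Function.Embedding.inl := by
      ext x
      rw [Finset.mem_union, Finset.mem_image, Finset.mem_map]
      constructor
      · intro hx
        by_cases h : ∃ y ∈ B.disjSum TA, g0 y = x
        · exact Or.inl h
        · right
          push Not at h
          rcases x with a | t
          · exact ⟨a, Finset.mem_filter.2 ⟨Finset.inl_mem_disjSum.1 hx, h⟩, rfl⟩
          · obtain ⟨y, hy, h2⟩ := hg3 (Sum.inr t) hx (by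
              intro h'
              obtain ⟨a, _, h2⟩ := Finset.mem_map.1 h'
              exact absurd h2 (by simp))
            exact absurd h2 (h y hy)
      · rintro (⟨y, hy, rfl⟩ | ⟨a, ha, rfl⟩)
        · exact (hg1 y hy).1
        · exact Finset.inl_mem_disjSum.2 (Finset.mem_filter.1 ha).1
    have h2 : Disjoint ((B.disjSum TA).image g0) (Z'.map Function.Embedding.inl) := by
      rw [Finset.disjoint_left]
      intro x hx hx'
      obtain ⟨y, hy, rfl⟩ := Finset.mem_image.1 hx
      obtain ⟨a, ha, h3⟩ := Finset.mem_map.1 hx'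
      exact (Finset.mem_filter.1 ha).2 y hy h3.symm
    have h3 : ((B.disjSum TA).image g0).card = (B.disjSum TA).card := by
      apply Finset.card_image_of_injOn
      intro x hx y hy hxy
      exact hg2 x hx y hy hxy
    rw [h1, Finset.card_union_of_disjoint h2, h3, Finset.card_map] at hg4
    omega
  refine ⟨g, z, Z', ?_, ?_, ?_, hZ'2, hZ'c, ?_⟩
  · intro u
    by_cases h : ∃ v, R u v
    · obtain ⟨v, hv⟩ := h
      rw [hgR u v hv, hgR v u (hRs u v hv)]
    · push Not at h
      rw [hgN u h, hgN u h]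
  · intro u hu
    rcases hgne u hu with ⟨h1, h2⟩ | ⟨h1, h2⟩
    · left
      have h3 := (hg1 _ (hBY _ h1)).2
      rw [h2] at h3
      exact ⟨hinlA _ (hBY _ h1) u h2, h1, h3⟩
    · right
      have h3 := (hg1 _ (hBY _ h1)).2
      rw [h2] at h3
      exact ⟨h1, hinlA _ (hBY _ h1) _ h2, h3⟩
  · intro t ht
    rcases Finset.mem_union.1 ht with ht | ht
    · have h3 := (hg1 _ (hTY t ht)).2
      rw [hzA t ht] at h3
      exact h3
    · obtain ⟨h1, h2⟩ := hzB t ht
      have h3 := (hg1 _ (hBY _ h1)).2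
      rw [h2] at h3
      exact h3
  · intro u hu
    rcases Finset.mem_union.1 hu with hu | hu
    · constructor
      · intro h1
        by_cases h2 : u ∈ Z'
        · exact Or.inl h2
        · right
          have h3 : ¬ ∀ y ∈ B.disjSum TA, g0 y ≠ Sum.inl u := fun h =>
            h2 (Finset.mem_filter.2 ⟨hu, h⟩)
          push Not at h3
          obtain ⟨y, hy, h4⟩ := h3
          rcases y with b | t
          · have h5 : R u b := Or.inl ⟨Finset.inl_mem_disjSum.1 hy, h4⟩
            exact absurd ((hgR u b h5).symm.trans h1) (hRne u b h5)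
          · have ht : t ∈ TA := Finset.inr_mem_disjSum.1 hy
            refine ⟨t, Finset.mem_union_left _ ht, ?_⟩
            exact Sum.inl_injective ((hzA t ht).symm.trans h4)
      · rintro (h1 | ⟨t, ht, h1⟩)
        · apply hgN
          intro v hv
          obtain ⟨h2, h3⟩ := hRA u v hu hv
          exact (Finset.mem_filter.1 h1).2 _ (hBY v h2) h3
        · rcases Finset.mem_union.1 ht with ht | ht
          · apply hgN
            intro v hv
            obtain ⟨h2, h3⟩ := hRA u v hu hv
            have h4 := hzA t ht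
            rw [h1] at h4
            exact absurd (hg2 _ (hBY v h2) _ (hTY t ht) (h3.trans h4.symm)) (by simp)
          · have h2 := (hzB t ht).1
            rw [h1] at h2
            exact (hABd u hu h2).elim
    · constructor
      · intro h1
        right
        rcases h2 : g0 (Sum.inl u) with a | t
        · have h5 : R u a := Or.inr ⟨hu, h2⟩
          exact absurd ((hgR u a h5).symm.trans h1) (hRne u a h5)
        · have h3 := (hg1 _ (hBY u hu)).1
          rw [h2] at h3
          have ht : t ∈ TB := Finset.inr_mem_disjSum.1 h3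
          obtain ⟨h4, h5⟩ := hzB t ht
          refine ⟨t, Finset.mem_union_right _ ht, ?_⟩
          exact Sum.inl_injective (hg2 _ (hBY _ h4) _ (hBY u hu) (h5.trans h2.symm))
      · rintro (h1 | ⟨t, ht, h1⟩)
        · exact (hABd u (Finset.mem_filter.1 h1).1 hu).elim
        · rcases Finset.mem_union.1 ht with ht | ht
          · have h4 := hzA t ht
            rw [h1] at h4
            exact (hABd u (hinlA _ (hTY t ht) u h4) hu).elim
          · apply hgN
            intro v hv
            have h2 := hRB u v hu hv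
            have h3 := (hzB t ht).2
            rw [h1, h2] at h3
            exact absurd h3 (by simp)

end Pool.Agent.CH4
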