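import Pool.Agent.CH4.Fin4a

/-!
# CH4/Fin4b: exact decomposition of the last bipartite graph (as `CHS/Finish`, groups on both sides)

`F` is a bipartite graph between `A` and `B`, `Q` the set of the remaining colours, `q = |Q|`.
All degrees are `q`, except `q - 1` on the groups `grp t ⊆ A` (`t ∈ TA`), `grp t ⊆ B` (`t ∈ TB`), each of
size `q`, and `q - 2` on `Z2 ⊆ A` (of size `q(q-1)/2`).  Then `F` decomposes into `q` matchings `g s`
(involutions), such that every group has exactly one point `z s t` missed by the colour `s`, and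
every pair `s ≠ s'` of colours has exactly one point `z s s'` of `Z2` missed by exactly these two
colours.

Proof.  Induction on `q` (generalising `F`, `Q`, `TA`, `grp`, `Z2`).  `q = 0`: `Z2 = ∅`, the groups are empty,
`TA = TB = ∅` is not needed: `F` has no edges since all degrees are 0 (a point of a group does not
exist).  `q ≥ 1`: choose `s ∈ Q`, take `g`, `z`, `Z'` from `fin4a`.  Remove the edges of `g` from `F`
(`F' a b := F a b ∧ g a ≠ b`), remove `s` from `Q`, put `s` into `TA` with `grp' s = Z'`, replace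
`grp t` by `grp t \ {z t}` and `Z2` by `Z2 \ Z'`.  The hypotheses hold for `q - 1`: a point of
`grp t \ {z t}` had degree `q - 1` and loses one: `q - 2 = (q-1) - 1`; the point `z t` had degree
`q - 1` and keeps it: it is now ordinary; a point of `Z'` had degree `q - 2` and keeps it:
`(q-1) - 1`; a point of `Z2 \ Z'` loses one: `q - 3 = (q-1) - 2`; ordinary points lose one.
`2 |Z2 \ Z'| = q (q-1) - 2 (q-1) = (q-1)(q-2)`.
From the family `g'`, `z'` of the induction put `g s := g`, `g s' := g' s'` (`s' ≠ s`), `z s t := z t`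
(`t ∈ TA ∪ TB`), `z s s' = z s' s := z' s' s` (the value for the new group) for `s' ∈ Q \ {s}`, otherwise
`z'`.  Last clause for `s' ∈ Q \ {s}`, `u ∈ A ∪ B`: `g' s' u = u` iff `z' s' t = u` for some
`t ∈ (Q \ {s}) ∪ (TA ∪ {s}) ∪ TB`, `t ≠ s'`.  For `s`: `g u = u` iff `u ∈ Z'` or `u = z t`; `Z'` has `q - 1`
points and `s' ↦ z' s' s ∈ Z'` is injective on the `q - 1` elements `s'` of `Q \ {s}`, so it is onto `Z'`.
-/

set_option autoImplicit false

namespace Pool.Agent.CH4
open Finset

/-- degrees after removing the edges of a matching -/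
private theorem deg_eqMN {V : Type} [DecidableEq V] (X : Finset V) (P P' : V → Prop)
    [DecidablePred P] [DecidablePred P'] (h : ∀ x ∈ X, (P' x ↔ P x)) :
    (X.filter P').card = (X.filter P).card := by
  congr 1
  exact Finset.filter_congr h

private theorem deg_succMN {V : Type} [DecidableEq V] (X : Finset V) (P P' : V → Prop)
    [DecidablePred P] [DecidablePred P'] {y : V} (hy : y ∈ X) (hPy : P y)
    (h : ∀ x ∈ X, (P' x ↔ (P x ∧ x ≠ y))) :
    (X.filter P').card + 1 = (X.filter P).card := by
  have e : X.filter P' = (X.filter P).erase y := by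
    ext x
    rw [Finset.mem_filter, Finset.mem_erase, Finset.mem_filter]
    constructor
    · rintro ⟨h1, h2⟩
      have h3 := (h x h1).1 h2
      exact ⟨h3.2, h1, h3.1⟩
    · rintro ⟨h1, h2, h3⟩
      exact ⟨h2, (h x h2).2 ⟨h3, h1⟩⟩
  rw [e]
  exact Finset.card_erase_add_one (Finset.mem_filter.2 ⟨hy, hPy⟩)

theorem fin4b {κ V : Type} [DecidableEq κ] [DecidableEq V] [Nonempty V] (A B : Finset V)
    (hAB : Disjoint A B) (TB : Finset κ) :
    ∀ (q : ℕ) (F : V → V → Prop) [DecidableRel F] (Q TA : Finset κ) (grp : κ → Finset V)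
      (Z2 : Finset V), Q.card = q →
      Disjoint Q TA → Disjoint Q TB → Disjoint TA TB →
      (∀ t ∈ TA, grp t ⊆ A) → (∀ t ∈ TB, grp t ⊆ B) → (∀ t ∈ TA ∪ TB, (grp t).card = q) →
      (∀ t ∈ TA ∪ TB, ∀ t' ∈ TA ∪ TB, t ≠ t' → Disjoint (grp t) (grp t')) →
      Z2 ⊆ A → (∀ t ∈ TA, Disjoint Z2 (grp t)) → 2 * Z2.card + q = q * q →
      (∀ b ∈ B, (∀ t ∈ TB, b ∉ grp t) → (A.filter (fun a => F a b)).card = q) →
      (∀ t ∈ TB, ∀ b ∈ grp t, (A.filter (fun a => F a b)).card + 1 = q) →
      (∀ a ∈ A, (∀ t ∈ TA, a ∉ grp t) → a ∉ Z2 → (B.filter (fun b => F a b)).card = q) →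
      (∀ t ∈ TA, ∀ a ∈ grp t, (B.filter (fun b => F a b)).card + 1 = q) →
      (∀ a ∈ Z2, (B.filter (fun b => F a b)).card + 2 = q) →
      ∃ (g : κ → V → V) (z : κ → κ → V),
        (∀ s ∈ Q, ∀ u, g s (g s u) = u) ∧
        (∀ s ∈ Q, ∀ u, g s u ≠ u →
          (u ∈ A ∧ g s u ∈ B ∧ F u (g s u)) ∨ (u ∈ B ∧ g s u ∈ A ∧ F (g s u) u)) ∧
        (∀ s ∈ Q, ∀ s' ∈ Q, s ≠ s' → ∀ u, g s u = g s' u → g s u = u) ∧
        (∀ a ∈ A, ∀ b ∈ B, F a b → ∃ s ∈ Q, g s a = b) ∧
        (∀ s ∈ Q, ∀ t ∈ TA ∪ TB, z s t ∈ grp t) ∧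
        (∀ s ∈ Q, ∀ s' ∈ Q, s ≠ s' → z s s' ∈ Z2 ∧ z s s' = z s' s) ∧
        (∀ s ∈ Q, ∀ s' ∈ Q, ∀ t ∈ TA ∪ TB, z s t = z s' t → s = s') ∧
        (∀ s ∈ Q, ∀ s' ∈ Q, ∀ t ∈ Q, ∀ t' ∈ Q, s ≠ s' → t ≠ t' → z s s' = z t t' →
          (s = t ∧ s' = t') ∨ (s = t' ∧ s' = t)) ∧
        (∀ s ∈ Q, ∀ u ∈ A ∪ B, g s u = u ↔ ∃ t ∈ Q ∪ TA ∪ TB, t ≠ s ∧ z s t = u) := by
  intro q
  induction q with
  | zero =>
    intro F _ Q TA grp Z2 hQ _ _ _ _ _ hgc _ _ _ _ dB _ _ _ _
    have hQ0 : Q = ∅ := Finset.card_eq_zero.1 hQ
    subst hQ0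
    refine ⟨fun _ u => u, fun _ _ => Classical.arbitrary V, ?_, ?_, ?_, ?_, ?_, ?_, ?_, ?_, ?_⟩
    · intro s hs
      exact absurd hs (Finset.notMem_empty s)
    · intro s hs
      exact absurd hs (Finset.notMem_empty s)
    · intro s hs
      exact absurd hs (Finset.notMem_empty s)
    · intro a ha b hb hF
      exfalso
      have h1 := dB b hb (fun t ht hbt => by
        have h2 := hgc t (Finset.mem_union_right _ ht)
        rw [Finset.card_eq_zero] at h2
        rw [h2] at hbt
        exact Finset.notMem_empty b hbt)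
      rw [Finset.card_eq_zero] at h1
      have h2 : a ∈ A.filter (fun a => F a b) := Finset.mem_filter.2 ⟨ha, hF⟩
      rw [h1] at h2
      exact Finset.notMem_empty a h2
    · intro s hs
      exact absurd hs (Finset.notMem_empty s)
    · intro s hs
      exact absurd hs (Finset.notMem_empty s)
    · intro s hs
      exact absurd hs (Finset.notMem_empty s)
    · intro s hs
      exact absurd hs (Finset.notMem_empty s)
    · intro s hs
      exact absurd hs (Finset.notMem_empty s)
  | succ q ih =>
    intro F _ Q TA grp Z2 hQ hQA hQB hTT hgA hgB hgc hgd hZA hZg hZc dB dB1 dA dA1 dA2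
    obtain ⟨s, hsQ⟩ : Q.Nonempty := by
      rw [← Finset.card_pos, hQ]
      exact Nat.succ_pos q
    obtain ⟨g0, z0, Z', hg1, hg2, hz0, hZ'Z, hZ'c, hfix⟩ :=
      fin4a A B hAB F (q + 1) (Nat.succ_pos q) TA TB grp Z2 hTT hgA hgB hgc hgd hZA hZg hZc
        dB dB1 dA dA1 dA2
    have hZ'c' : Z'.card = q := by omega
    have hsA : s ∉ TA := fun h => Finset.disjoint_left.1 hQA hsQ h
    have hsB : s ∉ TB := fun h => Finset.disjoint_left.1 hQB hsQ h
    have hAB' : ∀ u, u ∈ A → u ∈ B → False := fun u h1 h2 => Finset.disjoint_left.1 hAB h1 h2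
    have hZ'A : ∀ u ∈ Z', u ∈ A := fun u hu => hZA (hZ'Z hu)
    have hneA : ∀ t ∈ TA, t ≠ s := fun t ht h => hsA (h ▸ ht)
    have hneB : ∀ t ∈ TB, t ≠ s := fun t ht h => hsB (h ▸ ht)
    have hneU : ∀ t ∈ TA ∪ TB, t ≠ s := fun t ht => by
      rcases Finset.mem_union.1 ht with h | h
      · exact hneA t h
      · exact hneB t h
    -- fixed points
    have fixB : ∀ b ∈ B, (g0 b = b ↔ ∃ t ∈ TB, z0 t = b) := by
      intro b hb
      rw [hfix b (Finset.mem_union_right _ hb)]
      constructor
      · rintro (h | ⟨t, ht, h⟩)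
        · exact (hAB' b (hZ'A b h) hb).elim
        · rcases Finset.mem_union.1 ht with h1 | h1
          · have h2 := hgA t h1 (hz0 t ht)
            rw [h] at h2
            exact (hAB' b h2 hb).elim
          · exact ⟨t, h1, h⟩
      · rintro ⟨t, ht, h⟩
        exact Or.inr ⟨t, Finset.mem_union_right _ ht, h⟩
    have fixA : ∀ a ∈ A, (g0 a = a ↔ a ∈ Z' ∨ ∃ t ∈ TA, z0 t = a) := by
      intro a ha
      rw [hfix a (Finset.mem_union_left _ ha)]
      constructor
      · rintro (h | ⟨t, ht, h⟩)
        · exact Or.inl h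
        · rcases Finset.mem_union.1 ht with h1 | h1
          · exact Or.inr ⟨t, h1, h⟩
          · have h2 := hgB t h1 (hz0 t ht)
            rw [h] at h2
            exact (hAB' a ha h2).elim
      · rintro (h | ⟨t, ht, h⟩)
        · exact Or.inl h
        · exact Or.inr ⟨t, Finset.mem_union_left _ ht, h⟩
    -- degrees
    have degB0 : ∀ b ∈ B, g0 b = b →
        (A.filter (fun a => F a b ∧ g0 a ≠ b)).card = (A.filter (fun a => F a b)).card := by
      intro b hb h
      apply deg_eqMN
      intro a ha
      constructor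
      · exact fun h1 => h1.1
      · refine fun h1 => ⟨h1, fun h2 => ?_⟩
        have h3 : a = g0 b := by rw [← h2, hg1]
        rw [h] at h3
        exact hAB' a ha (h3 ▸ hb)
    have degB1 : ∀ b ∈ B, g0 b ≠ b →
        (A.filter (fun a => F a b ∧ g0 a ≠ b)).card + 1 = (A.filter (fun a => F a b)).card := by
      intro b hb h
      have h1 : g0 b ∈ A ∧ F (g0 b) b := by
        rcases hg2 b h with h2 | h2
        · exact (hAB' b h2.1 hb).elim
        · exact ⟨h2.2.1, h2.2.2⟩
      refine deg_succMN A _ _ h1.1 h1.2 ?_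
      intro a _
      constructor
      · rintro ⟨h2, h3⟩
        refine ⟨h2, fun h4 => h3 ?_⟩
        rw [h4, hg1]
      · rintro ⟨h2, h3⟩
        refine ⟨h2, fun h4 => h3 ?_⟩
        rw [← h4, hg1]
    have degA0 : ∀ a ∈ A, g0 a = a →
        (B.filter (fun b => F a b ∧ g0 a ≠ b)).card = (B.filter (fun b => F a b)).card := by
      intro a ha h
      apply deg_eqMN
      intro b hb
      constructor
      · exact fun h1 => h1.1
      · refine fun h1 => ⟨h1, fun h2 => ?_⟩
        rw [h] at h2
        exact hAB' a ha (h2 ▸ hb)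
    have degA1 : ∀ a ∈ A, g0 a ≠ a →
        (B.filter (fun b => F a b ∧ g0 a ≠ b)).card + 1 = (B.filter (fun b => F a b)).card := by
      intro a ha h
      have h1 : g0 a ∈ B ∧ F a (g0 a) := by
        rcases hg2 a h with h2 | h2
        · exact ⟨h2.2.1, h2.2.2⟩
        · exact (hAB' a ha h2.1).elim
      refine deg_succMN B _ _ h1.1 h1.2 ?_
      intro b _
      constructor
      · rintro ⟨h2, h3⟩
        exact ⟨h2, fun h4 => h3 h4.symm⟩
      · rintro ⟨h2, h3⟩
        exact ⟨h2, fun h4 => h3 h4.symm⟩
    obtain ⟨grp', hgrp'⟩ : ∃ grp' : κ → Finset V, grp' = fun t =>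
      if t = s then Z' else (grp t).erase (z0 t) := ⟨_, rfl⟩
    have hgs : grp' s = Z' := by rw [hgrp']; exact if_pos rfl
    have hgt : ∀ t, t ≠ s → grp' t = (grp t).erase (z0 t) := fun t ht => by
      rw [hgrp']; exact if_neg ht
    have hmemU : ∀ t, t ∈ insert s TA ∪ TB ↔ t = s ∨ t ∈ TA ∪ TB := by
      intro t
      rw [Finset.mem_union, Finset.mem_insert, Finset.mem_union, or_assoc]
    obtain ⟨g', z', C1, C2, C3, C4, C5, C6, C7, C8, C9⟩ := ih
      (fun a b => F a b ∧ g0 a ≠ b) (Q.erase s) (insert s TA) grp' (Z2 \ Z')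
      (by rw [Finset.card_erase_of_mem hsQ, hQ]; rfl)
      (by
        rw [Finset.disjoint_left]
        intro t ht ht'
        rcases Finset.mem_insert.1 ht' with h | h
        · exact (Finset.mem_erase.1 ht).1 h
        · exact Finset.disjoint_left.1 hQA (Finset.mem_of_mem_erase ht) h)
      (by
        rw [Finset.disjoint_left]
        intro t ht ht'
        exact Finset.disjoint_left.1 hQB (Finset.mem_of_mem_erase ht) ht')
      (by
        rw [Finset.disjoint_left]
        intro t ht ht'
        rcases Finset.mem_insert.1 ht with h | h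
        · exact hsB (h ▸ ht')
        · exact Finset.disjoint_left.1 hTT h ht')
      (by
        intro t ht
        rcases Finset.mem_insert.1 ht with h | h
        · rw [h, hgs]
          exact hZ'Z.trans hZA
        · rw [hgt t (hneA t h)]
          exact (Finset.erase_subset _ _).trans (hgA t h))
      (by
        intro t ht
        rw [hgt t (hneB t ht)]
        exact (Finset.erase_subset _ _).trans (hgB t ht))
      (by
        intro t ht
        rcases (hmemU t).1 ht with h | h
        · rw [h, hgs, hZ'c']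
        · rw [hgt t (hneU t h), Finset.card_erase_of_mem (hz0 t h), hgc t h]
          rfl)
      (by
        intro t ht t' ht' hne
        have key : ∀ t ∈ TA ∪ TB, Disjoint Z' (grp' t) := by
          intro t ht
          rw [hgt t (hneU t ht)]
          rw [Finset.disjoint_left]
          intro u hu hu'
          have hu'' := Finset.mem_of_mem_erase hu'
          rcases Finset.mem_union.1 ht with h | h
          · exact Finset.disjoint_left.1 (hZg t h) (hZ'Z hu) hu''
          · exact hAB' u (hZ'A u hu) (hgB t h hu'')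
        rcases (hmemU t).1 ht with h | h
        · rcases (hmemU t').1 ht' with h' | h'
          · exact absurd (h.trans h'.symm) hne
          · rw [h, hgs]
            exact key t' h'
        · rcases (hmemU t').1 ht' with h' | h'
          · rw [h', hgs]
            exact (key t h).symm
          · rw [hgt t (hneU t h), hgt t' (hneU t' h')]
            exact Finset.disjoint_of_subset_left (Finset.erase_subset _ _)
              (Finset.disjoint_of_subset_right (Finset.erase_subset _ _) (hgd t h t' h' hne)))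
      (Finset.sdiff_subset.trans hZA)
      (by
        intro t ht
        rcases Finset.mem_insert.1 ht with h | h
        · rw [h, hgs]
          exact Finset.sdiff_disjoint
        · rw [hgt t (hneA t h)]
          exact Finset.disjoint_of_subset_left Finset.sdiff_subset
            (Finset.disjoint_of_subset_right (Finset.erase_subset _ _) (hZg t h)))
      (by
        have h1 := Finset.card_sdiff_add_card_eq_card hZ'Z
        rw [hZ'c'] at h1
        have h2 : 2 * (Z2 \ Z').card + 2 * q + (q + 1) = (q + 1) * (q + 1) := by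
          rw [← hZc, ← h1]
          ring
        nlinarith)
      (by
        intro b hb hbt
        by_cases hex : ∃ t ∈ TB, b ∈ grp t
        · obtain ⟨t, ht, hbg⟩ := hex
          have h1 := hbt t ht
          rw [hgt t (hneB t ht), Finset.mem_erase, not_and_or] at h1
          have h2 : b = z0 t := by
            rcases h1 with h1 | h1
            · exact not_not.1 h1
            · exact absurd hbg h1
          rw [degB0 b hb ((fixB b hb).2 ⟨t, ht, h2.symm⟩)]
          have := dB1 t ht b hbg
          omega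
        · push Not at hex
          have h1 : g0 b ≠ b := by
            intro h
            obtain ⟨t, ht, h2⟩ := (fixB b hb).1 h
            apply hex t ht
            rw [← h2]
            exact hz0 t (Finset.mem_union_right _ ht)
          have h2 := degB1 b hb h1
          have h3 := dB b hb hex
          omega)
      (by
        intro t ht b hbt
        rw [hgt t (hneB t ht), Finset.mem_erase] at hbt
        have hb : b ∈ B := hgB t ht hbt.2
        have h1 : g0 b ≠ b := by
          intro h
          obtain ⟨t', ht', h2⟩ := (fixB b hb).1 h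
          by_cases htt : t' = t
          · rw [htt] at h2
            exact hbt.1 h2.symm
          · refine Finset.disjoint_left.1 (hgd t' (Finset.mem_union_right _ ht') t
              (Finset.mem_union_right _ ht) htt) ?_ hbt.2
            rw [← h2]
            exact hz0 t' (Finset.mem_union_right _ ht')
        have h2 := degB1 b hb h1
        have h3 := dB1 t ht b hbt.2
        omega)
      (by
        intro a ha hat haZ
        have haZ' : a ∉ Z' := by
          have := hat s (Finset.mem_insert_self _ _)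
          rwa [hgs] at this
        have haZ2 : a ∉ Z2 := fun h => haZ (Finset.mem_sdiff.2 ⟨h, haZ'⟩)
        by_cases hex : ∃ t ∈ TA, a ∈ grp t
        · obtain ⟨t, ht, hag⟩ := hex
          have h1 := hat t (Finset.mem_insert_of_mem ht)
          rw [hgt t (hneA t ht), Finset.mem_erase, not_and_or] at h1
          have h2 : a = z0 t := by
            rcases h1 with h1 | h1
            · exact not_not.1 h1
            · exact absurd hag h1
          rw [degA0 a ha ((fixA a ha).2 (Or.inr ⟨t, ht, h2.symm⟩))]
          have := dA1 t ht a hag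
          omega
        · push Not at hex
          have h1 : g0 a ≠ a := by
            intro h
            rcases (fixA a ha).1 h with h2 | ⟨t, ht, h2⟩
            · exact haZ' h2
            · apply hex t ht
              rw [← h2]
              exact hz0 t (Finset.mem_union_left _ ht)
          have h2 := degA1 a ha h1
          have h3 := dA a ha hex haZ2
          omega)
      (by
        intro t ht a hat
        rcases Finset.mem_insert.1 ht with h | h
        · rw [h, hgs] at hat
          have ha : a ∈ A := hZ'A a hat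
          rw [degA0 a ha ((fixA a ha).2 (Or.inl hat))]
          have := dA2 a (hZ'Z hat)
          omega
        · rw [hgt t (hneA t h), Finset.mem_erase] at hat
          have ha : a ∈ A := hgA t h hat.2
          have h1 : g0 a ≠ a := by
            intro h1
            rcases (fixA a ha).1 h1 with h2 | ⟨t', ht', h2⟩
            · exact Finset.disjoint_left.1 (hZg t h) (hZ'Z h2) hat.2
            · by_cases htt : t' = t
              · rw [htt] at h2
                exact hat.1 h2.symm
              · refine Finset.disjoint_left.1 (hgd t' (Finset.mem_union_left _ ht') t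
                  (Finset.mem_union_left _ h) htt) ?_ hat.2
                rw [← h2]
                exact hz0 t' (Finset.mem_union_left _ ht')
          have h2 := degA1 a ha h1
          have h3 := dA1 t h a hat.2
          omega)
      (by
        intro a haZ
        rw [Finset.mem_sdiff] at haZ
        have ha : a ∈ A := hZA haZ.1
        have h1 : g0 a ≠ a := by
          intro h1
          rcases (fixA a ha).1 h1 with h2 | ⟨t', ht', h2⟩
          · exact haZ.2 h2
          · refine Finset.disjoint_left.1 (hZg t' ht') haZ.1 ?_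
            rw [← h2]
            exact hz0 t' (Finset.mem_union_left _ ht')
        have h2 := degA1 a ha h1
        have h3 := dA2 a haZ.1
        omega)
    have hQe : ∀ σ ∈ Q, σ ≠ s → σ ∈ Q.erase s := fun σ h1 h2 => Finset.mem_erase.2 ⟨h2, h1⟩
    have hQn : ∀ t ∈ TA ∪ TB, t ∉ Q.erase s := by
      intro t ht h
      have h1 := Finset.mem_of_mem_erase h
      rcases Finset.mem_union.1 ht with h2 | h2
      · exact Finset.disjoint_left.1 hQA h1 h2
      · exact Finset.disjoint_left.1 hQB h1 h2
    have hsU : s ∈ insert s TA ∪ TB := (hmemU s).2 (Or.inl rfl)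
    have hUU : ∀ t ∈ TA ∪ TB, t ∈ insert s TA ∪ TB := fun t ht => (hmemU t).2 (Or.inr ht)
    -- the new colour class
    obtain ⟨g, hg⟩ : ∃ g : κ → V → V, g = fun σ => if σ = s then g0 else g' σ := ⟨_, rfl⟩
    obtain ⟨z, hz⟩ : ∃ z : κ → κ → V, z = fun σ t =>
      if σ = s then (if t ∈ Q.erase s then z' t s else z0 t) else z' σ t := ⟨_, rfl⟩
    have hgS : g s = g0 := by rw [hg]; exact if_pos rfl
    have hgN : ∀ σ, σ ≠ s → g σ = g' σ := fun σ h => by rw [hg]; exact if_neg h
    have hzN : ∀ σ t, σ ≠ s → z σ t = z' σ t := fun σ t h => by rw [hz]; exact if_neg h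
    have hzQ : ∀ t ∈ Q.erase s, z s t = z' t s := fun t h => by
      rw [hz]
      simp only [if_true, if_pos h]
    have hzU : ∀ t ∈ TA ∪ TB, z s t = z0 t := fun t h => by
      rw [hz]
      simp only [if_true, if_neg (hQn t h)]
    have hzZ' : ∀ t ∈ Q.erase s, z' t s ∈ Z' := fun t ht => by
      have := C5 t ht s hsU
      rwa [hgs] at this
    refine ⟨g, z, ?_, ?_, ?_, ?_, ?_, ?_, ?_, ?_, ?_⟩
    · intro σ hσ u
      by_cases h : σ = s
      · rw [h, hgS]
        exact hg1 u
      · rw [hgN σ h]
        exact C1 σ (hQe σ hσ h) u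
    · intro σ hσ u hu
      by_cases h : σ = s
      · rw [h, hgS] at hu ⊢
        exact hg2 u hu
      · rw [hgN σ h] at hu ⊢
        rcases C2 σ (hQe σ hσ h) u hu with h1 | h1
        · exact Or.inl ⟨h1.1, h1.2.1, h1.2.2.1⟩
        · exact Or.inr ⟨h1.1, h1.2.1, h1.2.2.1⟩
    · have key : ∀ σ ∈ Q, σ ≠ s → ∀ u, g0 u = g' σ u → g0 u = u := by
        intro σ hσ h u hu
        by_contra hne
        rcases C2 σ (hQe σ hσ h) u (by rw [← hu]; exact hne) with h1 | h1
        · exact h1.2.2.2 hu
        · apply h1.2.2.2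
          rw [← hu, hg1]
      intro s1 hs1 s2 hs2 hne u hu
      by_cases h1 : s1 = s
      · have h2 : s2 ≠ s := fun h => hne (h1.trans h.symm)
        rw [h1, hgS] at hu ⊢
        rw [hgN s2 h2] at hu
        exact key s2 hs2 h2 u hu
      · rw [hgN s1 h1] at hu ⊢
        by_cases h2 : s2 = s
        · rw [h2, hgS] at hu
          rw [hu]
          exact key s1 hs1 h1 u hu.symm
        · rw [hgN s2 h2] at hu
          exact C3 s1 (hQe s1 hs1 h1) s2 (hQe s2 hs2 h2) hne u hu
    · intro a ha b hb hF
      by_cases h : g0 a = b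
      · exact ⟨s, hsQ, by rw [hgS]; exact h⟩
      · obtain ⟨σ, hσ, h1⟩ := C4 a ha b hb ⟨hF, h⟩
        have h2 := Finset.mem_erase.1 hσ
        exact ⟨σ, h2.2, by rw [hgN σ h2.1]; exact h1⟩
    · intro σ hσ t ht
      by_cases h : σ = s
      · rw [h, hzU t ht]
        exact hz0 t ht
      · rw [hzN σ t h]
        have h1 := C5 σ (hQe σ hσ h) t (hUU t ht)
        rw [hgt t (hneU t ht)] at h1
        exact Finset.mem_of_mem_erase h1
    · intro s1 hs1 s2 hs2 hne
      by_cases h1 : s1 = s
      · have h2 : s2 ≠ s := fun h => hne (h1.trans h.symm)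
        rw [h1, hzQ s2 (hQe s2 hs2 h2), hzN s2 s h2]
        exact ⟨hZ'Z (hzZ' s2 (hQe s2 hs2 h2)), rfl⟩
      · by_cases h2 : s2 = s
        · rw [h2, hzQ s1 (hQe s1 hs1 h1), hzN s1 s h1]
          exact ⟨hZ'Z (hzZ' s1 (hQe s1 hs1 h1)), rfl⟩
        · rw [hzN s1 s2 h1, hzN s2 s1 h2]
          have h3 := C6 s1 (hQe s1 hs1 h1) s2 (hQe s2 hs2 h2) hne
          exact ⟨(Finset.mem_sdiff.1 h3.1).1, h3.2⟩
    · have key : ∀ σ ∈ Q, σ ≠ s → ∀ t ∈ TA ∪ TB, z0 t ≠ z' σ t := by
        intro σ hσ h t ht hzz
        have h1 := C5 σ (hQe σ hσ h) t (hUU t ht)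
        rw [hgt t (hneU t ht), Finset.mem_erase] at h1
        exact h1.1 hzz.symm
      intro s1 hs1 s2 hs2 t ht hzz
      by_cases h1 : s1 = s
      · by_cases h2 : s2 = s
        · rw [h1, h2]
        · rw [h1, hzU t ht, hzN s2 t h2] at hzz
          exact absurd hzz (key s2 hs2 h2 t ht)
      · by_cases h2 : s2 = s
        · rw [h2, hzU t ht, hzN s1 t h1] at hzz
          exact absurd hzz.symm (key s1 hs1 h1 t ht)
        · rw [hzN s1 t h1, hzN s2 t h2] at hzz
          exact C7 s1 (hQe s1 hs1 h1) s2 (hQe s2 hs2 h2) t (hUU t ht) hzz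
    · -- normal form of a pair
      have key : ∀ s1 ∈ Q, ∀ s2 ∈ Q, s1 ≠ s2 →
          (∃ r ∈ Q.erase s, z s1 s2 = z' r s ∧ ((s1 = s ∧ s2 = r) ∨ (s1 = r ∧ s2 = s))) ∨
          (s1 ∈ Q.erase s ∧ s2 ∈ Q.erase s ∧ z s1 s2 = z' s1 s2) := by
        intro s1 hs1 s2 hs2 hne
        by_cases h1 : s1 = s
        · have h2 : s2 ≠ s := fun h => hne (h1.trans h.symm)
          refine Or.inl ⟨s2, hQe s2 hs2 h2, ?_, Or.inl ⟨h1, rfl⟩⟩
          rw [h1]
          exact hzQ s2 (hQe s2 hs2 h2)
        · by_cases h2 : s2 = s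
          · refine Or.inl ⟨s1, hQe s1 hs1 h1, ?_, Or.inr ⟨rfl, h2⟩⟩
            rw [h2]
            exact hzN s1 s h1
          · exact Or.inr ⟨hQe s1 hs1 h1, hQe s2 hs2 h2, hzN s1 s2 h1⟩
      intro s1 hs1 s2 hs2 t1 ht1 t2 ht2 hs hts hzz
      rcases key s1 hs1 s2 hs2 hs with ⟨r, hr, e1, c1⟩ | ⟨k1, k2, e1⟩
      · rcases key t1 ht1 t2 ht2 hts with ⟨r', hr', e2, c2⟩ | ⟨k1', k2', e2⟩
        · rw [e1, e2] at hzz
          have hrr := C7 r hr r' hr' s hsU hzz
          subst hrr
          rcases c1 with ⟨a1, a2⟩ | ⟨a1, a2⟩ <;> rcases c2 with ⟨b1, b2⟩ | ⟨b1, b2⟩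
          · exact Or.inl ⟨a1.trans b1.symm, a2.trans b2.symm⟩
          · exact Or.inr ⟨a1.trans b2.symm, a2.trans b1.symm⟩
          · exact Or.inr ⟨a1.trans b2.symm, a2.trans b1.symm⟩
          · exact Or.inl ⟨a1.trans b1.symm, a2.trans b2.symm⟩
        · exfalso
          have h1 := hzZ' r hr
          rw [← e1, hzz, e2] at h1
          exact (Finset.mem_sdiff.1 (C6 t1 k1' t2 k2' hts).1).2 h1
      · rcases key t1 ht1 t2 ht2 hts with ⟨r', hr', e2, c2⟩ | ⟨k1', k2', e2⟩
        · exfalso
          have h1 := hzZ' r' hr'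
          rw [← e2, ← hzz, e1] at h1
          exact (Finset.mem_sdiff.1 (C6 s1 k1 s2 k2 hs).1).2 h1
        · rw [e1, e2] at hzz
          exact C8 s1 k1 s2 k2 t1 k1' t2 k2' hs hts hzz
    · intro σ hσ u hu
      by_cases h : σ = s
      · rw [h, hgS, hfix u hu]
        have hsurj : ∀ v ∈ Z', ∃ t ∈ Q.erase s, z' t s = v := by
          have himg : (Q.erase s).image (fun t => z' t s) = Z' := by
            apply Finset.eq_of_subset_of_card_le
            · intro v hv
              obtain ⟨t, ht, rfl⟩ := Finset.mem_image.1 hv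
              exact hzZ' t ht
            · rw [Finset.card_image_of_injOn, Finset.card_erase_of_mem hsQ, hQ, hZ'c']
              · rfl
              · intro t ht t' ht' htt
                exact C7 t ht t' ht' s hsU htt
          intro v hv
          rw [← himg] at hv
          obtain ⟨t, ht, e⟩ := Finset.mem_image.1 hv
          exact ⟨t, ht, e⟩
        constructor
        · rintro (h1 | ⟨t, ht, h1⟩)
          · obtain ⟨t, ht, e⟩ := hsurj u h1
            have h2 := Finset.mem_erase.1 ht
            refine ⟨t, Finset.mem_union_left _ (Finset.mem_union_left _ h2.2), h2.1, ?_⟩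
            rw [hzQ t ht]
            exact e
          · refine ⟨t, ?_, hneU t ht, by rw [hzU t ht]; exact h1⟩
            rcases Finset.mem_union.1 ht with h2 | h2
            · exact Finset.mem_union_left _ (Finset.mem_union_right _ h2)
            · exact Finset.mem_union_right _ h2
        · rintro ⟨t, ht, hts, h1⟩
          by_cases hU : t ∈ TA ∪ TB
          · rw [hzU t hU] at h1
            exact Or.inr ⟨t, hU, h1⟩
          · have hQ' : t ∈ Q := by
              rcases Finset.mem_union.1 ht with h2 | h2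
              · rcases Finset.mem_union.1 h2 with h3 | h3
                · exact h3
                · exact absurd (Finset.mem_union_left _ h3) hU
              · exact absurd (Finset.mem_union_right _ h2) hU
            rw [hzQ t (hQe t hQ' hts)] at h1
            rw [← h1]
            exact Or.inl (hzZ' t (hQe t hQ' hts))
      · rw [hgN σ h, C9 σ (hQe σ hσ h) u hu]
        have hset : ∀ t, t ∈ Q.erase s ∪ insert s TA ∪ TB ↔ t ∈ Q ∪ TA ∪ TB := by
          intro t
          simp only [Finset.mem_union, Finset.mem_erase, Finset.mem_insert]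
          by_cases hts : t = s
          · simp [hts, hsQ]
          · simp [hts]
        constructor
        · rintro ⟨t, ht, h1, h2⟩
          exact ⟨t, (hset t).1 ht, h1, by rw [hzN σ t h]; exact h2⟩
        · rintro ⟨t, ht, h1, h2⟩
          exact ⟨t, (hset t).2 ht, h1, by rw [← hzN σ t h]; exact h2⟩

end Pool.Agent.CH4
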