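import Pool.Agent.CH4.Basic
import Pool.Agent.CH4.Fin4b

/-!
# CH4/FinApp: from the output of stage 2 to a complete re-decomposition

`G = gad m W d`, `M = ms W lam d`, `H = W \ Q`, `F u v := G u v ∧ ¬ used H f u v`, `TA = H \ TB`,
`grp t = Q.image (lam t)` (`t ∈ H`), `Z2` = all `lam s s'`, `s ≠ s' ∈ Q` (`|Z2| = q(q-1)/2` by `Lab4.inj`).
By `lA`, `lB`, `lQ`: `grp t ⊆ A` for `t ∈ TA`, `grp t ⊆ B` for `t ∈ TB`, `Z2 ⊆ A` (labels are in `Zall`, hence
outside `W`, `Zall_notin4`).  Groups have `q` points and are disjoint from each other and from `Z2`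
(`Lab4.inj`).
Degrees: for `u ∉ W`: `#{v : G u v} = r - #{h ∈ W : u ∈ M h}` (`Prob.deg`); `f h` (`h ∈ H`) moves `u` iff
`u ∉ M h`, and by `State4.disj` different `h` give different partners, so the number of unused edges
is `r - #{h ∈ W : u ∈ M h} - #{h ∈ H : u ∉ M h} = q - #{s ∈ Q : u ∈ M s}` and `M s = Zl W lam s` for `s ∈ Q`
(`Qfix`).  `u ∈ Zl s` iff `u = lam s w`: for `u ∈ grp t` exactly one `s ∈ Q`, for `u ∈ Z2` exactly two,
for the other `u` none.  By `Stage24.rest` all unused edges go between `A` and `B`.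
Apply `fin4b` and get `g`, `z₀`.  Put `f' h u = d h u` if `d h u ≠ u`, `f' h u = f h u` otherwise (`h ∈ H`;
the points moved by `d h` are in `M h`, so fixed by `f h`), `f' s = g s` (`s ∈ Q`).
Put `z h h' = lam h h'` on `H`, `z s h = z h s = z₀ s h` (`s ∈ Q`, `h ∈ H`), `z s s' = z₀ s s'` on `Q`.
`Full`: `fix` for `h ∈ H`: `f' h u = u` iff `u ∈ W` or `u ∈ Zl h` (points moved by `d h` are not in `Zall`);
the points `z h w'` (`w' ≠ h`) are the `lam h h'` and the `q` different points `z₀ s h ∈ grp h`,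
`|grp h| = q`, so together exactly `Zl h`.  For `s ∈ Q`: last clause of `fin4b` (and `g s` fixes `W`).
`edge`: all pairs are `adj`.  `disj`: `G`-pairs are not reserved; reserved pairs: `Res.disj`; `f h`, `f h'`:
`State4.disj`; `g s` uses unused `G`-pairs.  `cover`: a pair `adj` is reserved (`d h`), or used by some
`f h`, or an unused `G`-pair, covered by some `g s` (4th clause of `fin4b`).
`zinj`, `zsymm`, `zout`: by the injectivity clauses and `Lab4.inj`, disjointness of the groups and `Z2`.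
Colours of the pairs: `Stage24.good` for `f h`; `Res.edge` for `d h`; pairs of `g s` are between `A` and
`B` (`cross_ne`).  Labels: `w, w' ∈ H`: `lW`.  `s ∈ Q`, `h ∈ H`, `c s = c h`: then `c h ≠ 1` (`Q1`), so
`h ∉ TB`; `z₀ s h ∈ grp h`: if `c h = 0` all points of `grp h` have the colour 1 (`l0`), if `c h ≥ 2` they
have `c < 2` (`lA`).  `s, s' ∈ Q`: `z₀ s s' ∈ Z2` has the colour 1 (`lQ`), but `c s ≠ 1`.
-/

set_option autoImplicit false

namespace Pool.Agent.CH4
open Finset Pool.Agent.CHS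

section FinAppAux4

variable {V : Type} [Fintype V] [DecidableEq V] {m : SQ V} {c : V → ℕ}
  {W Q TB A B : Finset V} {lam d f : V → V → V}

omit [Fintype V] in
private theorem fb_mem_Zl (W : Finset V) (lam : V → V → V) (h v : V) :
    v ∈ Zl W lam h ↔ ∃ w ∈ W, w ≠ h ∧ lam h w = v := by
  unfold Zl
  simp only [Finset.mem_image, Finset.mem_erase]
  constructor
  · rintro ⟨w, ⟨h1, h2⟩, h3⟩; exact ⟨w, h2, h1, h3⟩
  · rintro ⟨w, h2, h1, h3⟩; exact ⟨w, ⟨h1, h2⟩, h3⟩

/-- number of unused edges at a point -/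
private theorem fb_unused {G : V → V → Prop} [DecidableRel G] {M : V → Finset V}
    (hP : Prob m c W A B G M) (hQW : Q ⊆ W) (hst : State4 W G M (W \ Q) f) {v : V} (hv : v ∉ W) :
    (univ.filter (fun u => G v u ∧ ¬ used (W \ Q) f v u)).card +
      (Q.filter (fun s => v ∈ M s)).card = Q.card := by
  set H := W \ Q with hH
  have h1 := hP.deg v hv
  have h2 : (univ.filter (fun u => G v u)).card =
      (univ.filter (fun u => G v u ∧ ¬ used H f v u)).card +
        (univ.filter (fun u => G v u ∧ used H f v u)).card := by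
    rw [← Finset.card_filter_add_card_filter_not (s := univ.filter (fun u => G v u))
      (fun u => ¬ used H f v u)]
    congr 1
    · rw [Finset.filter_filter]
    · rw [Finset.filter_filter]
      congr 1
      ext u
      simp
  have hadj : ∀ h ∈ H, v ∉ M h → G v (f h v) := by
    intro h hh hz
    have hm := hst.mat h hh
    have hne : f h v ≠ v := by
      intro he
      rcases (hm.fix v).1 he with h1 | h1
      · exact hv h1
      · exact hz h1
    exact hm.edge v hne
  have h3 : univ.filter (fun u => G v u ∧ used H f v u) =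
      (H.filter (fun h => v ∉ M h)).image (fun h => f h v) := by
    ext u
    simp only [Finset.mem_filter, Finset.mem_univ, true_and, Finset.mem_image]
    constructor
    · rintro ⟨ha, h, hh, rfl⟩
      refine ⟨h, ⟨hh, ?_⟩, rfl⟩
      intro hz
      have h5 := ((hst.mat h hh).fix v).2 (Or.inr hz)
      rw [h5] at ha
      exact hP.irrefl v ha
    · rintro ⟨h, ⟨hh, hz⟩, rfl⟩
      exact ⟨hadj h hh hz, h, hh, rfl⟩
  have h4 : ((H.filter (fun h => v ∉ M h)).image (fun h => f h v)).card =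
      (H.filter (fun h => v ∉ M h)).card := by
    apply Finset.card_image_of_injOn
    intro h hh h' hh' he
    rw [Finset.mem_coe, Finset.mem_filter] at hh hh'
    by_contra hne
    have h5 := hst.disj h hh.1 h' hh'.1 hne v he
    have h6 := hadj h hh.1 hh.2
    rw [h5] at h6
    exact hP.irrefl v h6
  have h5 : (H.filter (fun h => v ∉ M h)).card + (H.filter (fun h => v ∈ M h)).card =
      H.card := by
    rw [add_comm]
    exact Finset.card_filter_add_card_filter_not (s := H) (fun h => v ∈ M h)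
  have h6 : (W.filter (fun w => v ∈ M w)).card =
      (Q.filter (fun s => v ∈ M s)).card + (H.filter (fun h => v ∈ M h)).card := by
    rw [← Finset.card_union_of_disjoint]
    · congr 1
      ext t
      simp only [Finset.mem_filter, Finset.mem_union, hH, Finset.mem_sdiff]
      constructor
      · rintro ⟨ht, hz⟩
        by_cases hQ : t ∈ Q
        · exact Or.inl ⟨hQ, hz⟩
        · exact Or.inr ⟨⟨ht, hQ⟩, hz⟩
      · rintro (⟨ht, hz⟩ | ⟨⟨ht, _⟩, hz⟩)
        · exact ⟨hQW ht, hz⟩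
        · exact ⟨ht, hz⟩
    · rw [Finset.disjoint_left]
      intro t ht ht'
      simp only [Finset.mem_filter, hH, Finset.mem_sdiff] at ht ht'
      exact ht'.1.2 ht.1
  have h7 : H.card + Q.card = W.card := Finset.card_sdiff_add_card_eq_card hQW
  rw [h3, h4] at h2
  omega

omit [Fintype V] in
private theorem fb_used_symm {H : Finset V} (hst : ∀ h ∈ H, ∀ u, f h (f h u) = u) {u v : V}
    (h : used H f u v) : used H f v u := by
  obtain ⟨h, hh, rfl⟩ := h
  exact ⟨h, hh, hst h hh u⟩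

omit [Fintype V] in
/-- an injective map between sets of the same size is onto -/
private theorem fb_surj {S T : Finset V} (hc : S.card = T.card) (φ : V → V) (h1 : ∀ s ∈ S, φ s ∈ T)
    (h2 : ∀ s ∈ S, ∀ s' ∈ S, φ s = φ s' → s = s') {t : V} (ht : t ∈ T) : ∃ s ∈ S, φ s = t := by
  have h3 : S.image φ = T := by
    apply Finset.eq_of_subset_of_card_le
    · intro x hx
      obtain ⟨s, hs, rfl⟩ := Finset.mem_image.1 hx
      exact h1 s hs
    · rw [Finset.card_image_of_injOn (fun s hs s' hs' he => h2 s hs s' hs' he), hc]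
  rw [← h3] at ht
  obtain ⟨s, hs, he⟩ := Finset.mem_image.1 ht
  exact ⟨s, hs, he⟩

omit [Fintype V] in
/-- the number of the values on the pairs of `Q` -/
private theorem fb_pairs {S : Finset V} (hs : ∀ x y, lam x y = lam y x)
    (hz : ∀ x ∈ S, ∀ y ∈ S, ∀ x' ∈ S, ∀ y' ∈ S, x ≠ y → x' ≠ y' →
      lam x y = lam x' y' → (x = x' ∧ y = y') ∨ (x = y' ∧ y = x')) :
    2 * (S.biUnion (Zl S lam)).card + S.card = S.card * S.card := by
  have hmem : ∀ v, v ∈ S.biUnion (Zl S lam) ↔ ∃ h ∈ S, ∃ w ∈ S, w ≠ h ∧ lam h w = v := by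
    intro v
    rw [mem_biUnion]
    simp only [fb_mem_Zl]
  have hcard : ∀ h ∈ S, (Zl S lam h).card + 1 = S.card := by
    intro h hh
    unfold Zl
    rw [Finset.card_image_of_injOn, Finset.card_erase_add_one hh]
    intro x hx y hy he
    rw [Finset.coe_erase, Set.mem_diff, Finset.mem_coe, Set.mem_singleton_iff] at hx hy
    rcases hz h hh x hx.1 h hh y hy.1 (Ne.symm hx.2) (Ne.symm hy.2) he with ⟨-, h1⟩ | ⟨h1, h2⟩
    · exact h1
    · exact h2.trans h1
  have h1 : ∑ h ∈ S, (Zl S lam h).card = ∑ v ∈ S.biUnion (Zl S lam),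
      (S.filter (fun h => v ∈ Zl S lam h)).card := by
    have h2 : ∀ h ∈ S, (Zl S lam h).card = ∑ v ∈ S.biUnion (Zl S lam),
        if v ∈ Zl S lam h then 1 else 0 := by
      intro h hh
      rw [← Finset.sum_filter, Finset.sum_const, smul_eq_mul, mul_one]
      congr 1
      ext v
      simp only [Finset.mem_filter]
      exact ⟨fun hv => ⟨Finset.mem_biUnion.2 ⟨h, hh, hv⟩, hv⟩, fun hv => hv.2⟩
    rw [Finset.sum_congr rfl h2, Finset.sum_comm]
    refine Finset.sum_congr rfl (fun v _ => ?_)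
    rw [Finset.card_filter]
  have h3 : ∑ v ∈ S.biUnion (Zl S lam), (S.filter (fun h => v ∈ Zl S lam h)).card =
      2 * (S.biUnion (Zl S lam)).card := by
    have h5 : ∀ v ∈ S.biUnion (Zl S lam), (S.filter (fun h => v ∈ Zl S lam h)).card = 2 := by
      intro v hv
      obtain ⟨h, hh, w, hw, hne, rfl⟩ := (hmem v).1 hv
      have h6 : S.filter (fun t => lam h w ∈ Zl S lam t) = {h, w} := by
        ext t
        simp only [Finset.mem_filter, Finset.mem_insert, Finset.mem_singleton, fb_mem_Zl]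
        constructor
        · rintro ⟨ht, w', hw', hne', he⟩
          rcases hz t ht w' hw' h hh w hw (Ne.symm hne') (Ne.symm hne) he with ⟨h1, -⟩ | ⟨h1, -⟩
          · exact Or.inl h1
          · exact Or.inr h1
        · rintro (rfl | rfl)
          · exact ⟨hh, w, hw, hne, rfl⟩
          · exact ⟨hw, h, hh, Ne.symm hne, hs _ _⟩
      rw [h6, Finset.card_pair (Ne.symm hne)]
    rw [Finset.sum_congr rfl h5, Finset.sum_const, smul_eq_mul, mul_comm]
  rw [← h3, ← h1]
  have h4 : ∑ h ∈ S, (Zl S lam h).card + S.card = ∑ h ∈ S, ((Zl S lam h).card + 1) := by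
    rw [Finset.sum_add_distrib]; simp
  rw [h4, Finset.sum_congr rfl (fun h hh => hcard h hh), Finset.sum_const, smul_eq_mul]

end FinAppAux4

theorem finApp4 {V : Type} [Fintype V] [DecidableEq V] (m : SQ V) (c : V → ℕ)
    (W Q TB A B : Finset V) (lam d f : V → V → V) (hW : Good4 m c W)
    (hL : Lab4 m c W Q TB lam) (hR : Res m c W Q A B lam d)
    (hP : Prob m c W A B (gad m W d) (ms W lam d))
    (h2 : Stage24 c W A B (gad m W d) (ms W lam d) (W \ Q) f) :
    ∃ f' z : V → V → V, Full m W f' z ∧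
      (∀ w ∈ W, ∀ u, f' w u ≠ u → ¬ (c (f' w u) = c u ∧ c u = c w)) ∧
      (∀ w ∈ W, ∀ w' ∈ W, w ≠ w' → ¬ (c (z w w') = c w ∧ c w = c w')) := by
  classical
  rcases isEmpty_or_nonempty V with hV | hV
  · refine ⟨f, f, ⟨?_, ?_, ?_, ?_, ?_, ?_, ?_, ?_⟩, ?_, ?_⟩ <;> intro w <;> exact hV.elim w
  have hst := h2.st
  have hPart := hP.part
  set H : Finset V := W \ Q with hHdef
  have hHW : H ⊆ W := sdiff_subset
  have hinvf : ∀ h ∈ H, ∀ u, f h (f h u) = u := fun h hh => (hst.mat h hh).inv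
  have hQW : ∀ s ∈ Q, s ∈ W := fun s hs => hL.Qsub hs
  have hQH : ∀ s ∈ Q, s ∉ H := fun s hs hs' => (Finset.mem_sdiff.1 hs').2 hs
  have hHQ : ∀ h ∈ H, h ∉ Q := fun h hh => (Finset.mem_sdiff.1 hh).2
  have hWQH : ∀ w ∈ W, w ∈ H ∨ w ∈ Q := fun w hw => by
    by_cases h : w ∈ Q
    · exact Or.inr h
    · exact Or.inl (Finset.mem_sdiff.2 ⟨hw, h⟩)
  have hTBH : ∀ t ∈ TB, t ∈ H := fun t ht => hL.TBsub ht
  have hAB : ∀ v, v ∈ A → v ∉ B := fun v hv => Finset.disjoint_left.1 hPart.disj hv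
  have hAW : ∀ v, v ∈ A → v ∉ W := fun v hv => hPart.AW hv
  have hBW : ∀ v, v ∈ B → v ∉ W := fun v hv => hPart.BW hv
  have hall : ∀ v, v ∈ W ∨ v ∈ A ∨ v ∈ B := fun v => by
    by_cases h : v ∈ W
    · exact Or.inl h
    · exact Or.inr (hPart.AorB h)
  -- labels
  have hlZ : ∀ x ∈ W, ∀ y ∈ W, x ≠ y → lam x y ∈ Zall m W := hL.mem
  have hlW : ∀ x ∈ W, ∀ y ∈ W, x ≠ y → lam x y ∉ W := fun x hx y hy hne =>
    Zall_notin4 hW _ (hL.mem x hx y hy hne)
  have hlinj : ∀ x ∈ W, ∀ y ∈ W, ∀ y' ∈ W, x ≠ y → x ≠ y' → lam x y = lam x y' → y = y' := by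
    intro x hx y hy y' hy' h3 h4 he
    rcases hL.inj x hx y hy x hx y' hy' h3 h4 he with ⟨-, h5⟩ | ⟨h5, h6⟩
    · exact h5
    · exact h6.trans h5
  have hneHQ : ∀ t ∈ H, ∀ s ∈ Q, s ≠ t := fun t ht s hs he => hQH s hs (he ▸ ht)
  have hneHQ' : ∀ t ∈ H, ∀ s ∈ Q, t ≠ s := fun t ht s hs => (hneHQ t ht s hs).symm
  -- the missed sets of `Q`
  have hmsQ : ∀ s ∈ Q, ∀ v, v ∈ ms W lam d s ↔ ∃ w ∈ W, w ≠ s ∧ lam s w = v := by
    intro s hs v
    unfold ms
    rw [mem_union, fb_mem_Zl, mem_filter]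
    constructor
    · rintro (h | ⟨-, h⟩)
      · exact h
      · exact absurd (hR.Qfix s hs v) h
    · intro h; exact Or.inl h
  have hmsH : ∀ h v, v ∈ ms W lam d h ↔ (∃ w ∈ W, w ≠ h ∧ lam h w = v) ∨ d h v ≠ v := by
    intro h v
    unfold ms
    rw [mem_union, fb_mem_Zl, mem_filter]
    simp
  -- groups
  let grp : V → Finset V := fun t => Q.image (lam t)
  let Z2 : Finset V := Q.biUnion (Zl Q lam)
  have mZ2 : ∀ v, v ∈ Z2 ↔ ∃ s ∈ Q, ∃ s' ∈ Q, s' ≠ s ∧ lam s s' = v := by
    intro v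
    show v ∈ Q.biUnion (Zl Q lam) ↔ _
    rw [mem_biUnion]
    simp only [fb_mem_Zl]
  have mgrp : ∀ t v, v ∈ grp t ↔ ∃ s ∈ Q, lam t s = v := by
    intro t v
    show v ∈ Q.image (lam t) ↔ _
    rw [mem_image]
  let TA : Finset V := H \ TB
  have hTA : ∀ t, t ∈ TA ↔ t ∈ H ∧ t ∉ TB := fun t => mem_sdiff
  have hTU : ∀ t, t ∈ TA ∪ TB ↔ t ∈ H := by
    intro t
    rw [mem_union, hTA]
    constructor
    · rintro (h | h)
      · exact h.1
      · exact hTBH t h
    · intro h
      by_cases h' : t ∈ TB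
      · exact Or.inr h'
      · exact Or.inl ⟨h, h'⟩
  have hgA : ∀ t ∈ TA, grp t ⊆ A := by
    intro t ht v hv
    obtain ⟨s, hs, rfl⟩ := (mgrp t v).1 hv
    obtain ⟨ht1, ht2⟩ := (hTA t).1 ht
    rw [hPart.memA, hL.symm t s]
    refine ⟨hlW s (hQW s hs) t (hHW ht1) (hneHQ t ht1 s hs), ?_⟩
    exact hL.lA s hs t ht1 ht2
  have hgB : ∀ t ∈ TB, grp t ⊆ B := by
    intro t ht v hv
    obtain ⟨s, hs, rfl⟩ := (mgrp t v).1 hv
    rw [hPart.memB, hL.symm t s]
    refine ⟨hlW s (hQW s hs) t (hHW (hTBH t ht)) (hneHQ t (hTBH t ht) s hs), ?_⟩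
    exact hL.lB s hs t ht
  have hgc : ∀ t ∈ TA ∪ TB, (grp t).card = Q.card := by
    intro t ht
    have ht' := (hTU t).1 ht
    apply Finset.card_image_of_injOn
    intro x hx y hy he
    exact hlinj t (hHW ht') x (hQW x hx) y (hQW y hy) (hneHQ' t ht' x hx) (hneHQ' t ht' y hy) he
  have hgd : ∀ t ∈ TA ∪ TB, ∀ t' ∈ TA ∪ TB, t ≠ t' → Disjoint (grp t) (grp t') := by
    intro t ht t' ht' hne
    have ht1 := (hTU t).1 ht
    have ht1' := (hTU t').1 ht'
    rw [Finset.disjoint_left]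
    intro v hv hv'
    obtain ⟨s, hs, rfl⟩ := (mgrp t v).1 hv
    obtain ⟨s', hs', he⟩ := (mgrp t' _).1 hv'
    rcases hL.inj t' (hHW ht1') s' (hQW s' hs') t (hHW ht1) s (hQW s hs)
      (hneHQ' t' ht1' s' hs') (hneHQ' t ht1 s hs) he with ⟨h1, -⟩ | ⟨h1, -⟩
    · exact hne h1.symm
    · exact hneHQ t' ht1' s hs h1.symm
  have hZ2A : Z2 ⊆ A := by
    intro v hv
    obtain ⟨s, hs, s', hs', hne, rfl⟩ := (mZ2 v).1 hv
    rw [hPart.memA]
    refine ⟨hlW s (hQW s hs) s' (hQW s' hs') hne.symm, ?_⟩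
    have := hL.lQ s hs s' hs' hne.symm
    omega
  have hZ2g : ∀ t ∈ H, Disjoint Z2 (grp t) := by
    intro t ht
    rw [Finset.disjoint_left]
    intro v hv hv'
    obtain ⟨s, hs, s', hs', hne, rfl⟩ := (mZ2 v).1 hv
    obtain ⟨s'', hs'', he⟩ := (mgrp t _).1 hv'
    rcases hL.inj t (hHW ht) s'' (hQW s'' hs'') s (hQW s hs) s' (hQW s' hs')
      (hneHQ' t ht s'' hs'') hne.symm he with ⟨h1, -⟩ | ⟨h1, -⟩
    · exact hneHQ t ht s hs h1.symm
    · exact hneHQ t ht s' hs' h1.symm
  have hZ2c : 2 * Z2.card + Q.card = Q.card * Q.card :=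
    fb_pairs hL.symm (fun x hx y hy x' hx' y' hy' =>
      hL.inj x (hQW x hx) y (hQW y hy) x' (hQW x' hx') y' (hQW y' hy'))
  -- unused edges are cross edges
  have hcross : ∀ a ∈ A, ∀ v, gad m W d a v → ¬ used H f a v → v ∈ B := by
    intro a ha v h3 h4
    rcases h2.rest a v h3 h4 with ⟨-, h5⟩ | ⟨h5, -⟩
    · exact h5
    · exact absurd h5 (hAB a ha)
  have hcross' : ∀ b ∈ B, ∀ v, gad m W d b v → ¬ used H f b v → v ∈ A := by
    intro b hb v h3 h4
    rcases h2.rest b v h3 h4 with ⟨h5, -⟩ | ⟨-, h5⟩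
    · exact absurd hb (hAB b h5)
    · exact h5
  have hFsymm : ∀ u v, gad m W d u v ∧ ¬ used H f u v → gad m W d v u ∧ ¬ used H f v u :=
    fun u v h => ⟨hP.symm u v h.1, fun h7 => h.2 (fb_used_symm hinvf h7)⟩
  -- degrees
  have degA : ∀ a ∈ A, (B.filter (fun b => gad m W d a b ∧ ¬ used H f a b)).card +
      (Q.filter (fun s => a ∈ ms W lam d s)).card = Q.card := by
    intro a ha
    rw [← fb_unused hP hL.Qsub hst (hAW a ha)]
    congr 2
    ext u
    simp only [Finset.mem_filter, Finset.mem_univ, true_and]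
    exact ⟨fun h => h.2, fun h => ⟨hcross a ha u h.1 h.2, h⟩⟩
  have degB : ∀ b ∈ B, (A.filter (fun a => gad m W d a b ∧ ¬ used H f a b)).card +
      (Q.filter (fun s => b ∈ ms W lam d s)).card = Q.card := by
    intro b hb
    rw [← fb_unused hP hL.Qsub hst (hBW b hb)]
    congr 2
    ext u
    simp only [Finset.mem_filter, Finset.mem_univ, true_and]
    constructor
    · rintro ⟨-, h5⟩
      exact hFsymm u b h5
    · intro h5
      exact ⟨hcross' b hb u h5.1 h5.2, hFsymm b u h5⟩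
  -- the number of the `s ∈ Q` missing a point
  have cnt0 : ∀ v, (∀ t ∈ H, v ∉ grp t) → v ∉ Z2 →
      (Q.filter (fun s => v ∈ ms W lam d s)) = ∅ := by
    intro v hg hz
    rw [Finset.filter_eq_empty_iff]
    intro s hs hzs
    obtain ⟨w, hw, hne, rfl⟩ := (hmsQ s hs v).1 hzs
    rcases hWQH w hw with hwH | hwQ
    · exact hg w hwH ((mgrp w _).2 ⟨s, hs, hL.symm _ _⟩)
    · exact hz ((mZ2 _).2 ⟨s, hs, w, hwQ, hne, rfl⟩)
  have cnt1 : ∀ t ∈ H, ∀ v ∈ grp t, (Q.filter (fun s => v ∈ ms W lam d s)).card = 1 := by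
    intro t ht v hv
    obtain ⟨s, hs, rfl⟩ := (mgrp t v).1 hv
    have h4 : (Q.filter (fun s' => lam t s ∈ ms W lam d s')) = {s} := by
      ext s'
      simp only [Finset.mem_filter, Finset.mem_singleton]
      constructor
      · rintro ⟨hs', h5⟩
        obtain ⟨w, hw, hne, he⟩ := (hmsQ s' hs' _).1 h5
        rcases hL.inj s' (hQW s' hs') w hw t (hHW ht) s (hQW s hs) hne.symm
          (hneHQ' t ht s hs) he with ⟨h5, -⟩ | ⟨h5, -⟩
        · exact absurd h5 (hneHQ t ht s' hs')
        · exact h5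
      · rintro rfl
        exact ⟨hs, (hmsQ s' hs _).2 ⟨t, hHW ht, hneHQ' t ht s' hs, hL.symm _ _⟩⟩
    rw [h4, Finset.card_singleton]
  have cnt2 : ∀ v ∈ Z2, (Q.filter (fun s => v ∈ ms W lam d s)).card = 2 := by
    intro v hv
    obtain ⟨s, hs, s', hs', hne, rfl⟩ := (mZ2 v).1 hv
    have h4 : (Q.filter (fun t => lam s s' ∈ ms W lam d t)) = {s, s'} := by
      ext t
      simp only [Finset.mem_filter, Finset.mem_insert, Finset.mem_singleton]
      constructor
      · rintro ⟨ht, h5⟩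
        obtain ⟨w', hw', hne', he⟩ := (hmsQ t ht _).1 h5
        rcases hL.inj t (hQW t ht) w' hw' s (hQW s hs) s' (hQW s' hs') hne'.symm
          hne.symm he with ⟨h5, -⟩ | ⟨h5, -⟩
        · exact Or.inl h5
        · exact Or.inr h5
      · rintro (rfl | rfl)
        · exact ⟨hs, (hmsQ t hs _).2 ⟨s', hQW s' hs', hne, rfl⟩⟩
        · exact ⟨hs', (hmsQ t hs' _).2 ⟨s, hQW s hs, hne.symm, hL.symm _ _⟩⟩
    rw [h4, Finset.card_pair hne.symm]
  obtain ⟨g, z₀, g0, g1, g3, gcov, z1, z2, z3, z4, gz⟩ := fin4b A B hPart.disj TB Q.card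
    (fun a b => gad m W d a b ∧ ¬ used H f a b) Q TA grp Z2 rfl
    (by
      rw [Finset.disjoint_left]
      intro s hs hs'
      exact hQH s hs ((hTA s).1 hs').1)
    (by
      rw [Finset.disjoint_left]
      intro s hs hs'
      exact hQH s hs (hTBH s hs'))
    (by
      rw [Finset.disjoint_left]
      intro s hs hs'
      exact ((hTA s).1 hs).2 hs')
    hgA hgB hgc hgd hZ2A (fun t ht => hZ2g t ((hTA t).1 ht).1) hZ2c
    (by
      intro b hb hg
      have h3 := degB b hb
      rw [cnt0 b, Finset.card_empty, add_zero] at h3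
      · exact h3
      · intro t ht hbt
        by_cases hT : t ∈ TB
        · exact hg t hT hbt
        · exact hAB b (hgA t ((hTA t).2 ⟨ht, hT⟩) hbt) hb
      · intro hz; exact hAB b (hZ2A hz) hb)
    (by
      intro t ht b hb
      have h3 := degB b (hgB t ht hb)
      rw [cnt1 t (hTBH t ht) b hb] at h3
      exact h3)
    (by
      intro a ha hg hz
      have h3 := degA a ha
      rw [cnt0 a, Finset.card_empty, add_zero] at h3
      · exact h3
      · intro t ht hat
        by_cases hT : t ∈ TB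
        · exact hAB a ha (hgB t hT hat)
        · exact hg t ((hTA t).2 ⟨ht, hT⟩) hat
      · exact hz)
    (by
      intro t ht a ha
      have h3 := degA a (hgA t ht ha)
      rw [cnt1 t ((hTA t).1 ht).1 a ha] at h3
      exact h3)
    (by
      intro a ha
      have h3 := degA a (hZ2A ha)
      rw [cnt2 a ha] at h3
      exact h3)
  have z1' : ∀ s ∈ Q, ∀ t ∈ H, z₀ s t ∈ grp t := fun s hs t ht => z1 s hs t ((hTU t).2 ht)
  have hdW : ∀ h ∈ W, ∀ u ∈ W, d h u = u := by
    intro h hh u hu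
    by_contra hne
    exact (hR.edge h hh u hne).1.1 hu
  have gF : ∀ s ∈ Q, ∀ u, g s u ≠ u → gad m W d u (g s u) ∧ ¬ used H f u (g s u) := by
    intro s hs u hne
    rcases g1 s hs u hne with ⟨-, -, h⟩ | ⟨-, -, h⟩
    · exact h
    · exact hFsymm _ _ h
  have gW : ∀ s ∈ Q, ∀ u ∈ W, g s u = u := by
    intro s hs u hu
    by_contra hne
    exact (gF s hs u hne).1.1.1 hu
  -- the new matchings
  let f' : V → V → V := fun w u => if w ∈ H then (if d w u ≠ u then d w u else f w u) else g w u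
  have f'd : ∀ w ∈ H, ∀ u, d w u ≠ u → f' w u = d w u := fun w hw u hu => by
    simp only [f', hw, if_true, if_pos hu]
  have f'f : ∀ w ∈ H, ∀ u, d w u = u → f' w u = f w u := fun w hw u hu => by
    simp only [f', hw, if_true]
    rw [if_neg (not_not.2 hu)]
  have f'Q : ∀ w ∈ Q, ∀ u, f' w u = g w u := fun w hw u => by
    simp only [f', hQH w hw, if_false]
  let z : V → V → V := fun w w' =>
    if w ∈ H then (if w' ∈ H then lam w w' else z₀ w' w) else z₀ w w'
  have zHH : ∀ w ∈ H, ∀ w' ∈ H, z w w' = lam w w' := fun w hw w' hw' => by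
    simp only [z, hw, hw', if_true]
  have zHQ : ∀ w ∈ H, ∀ w' ∈ Q, z w w' = z₀ w' w := fun w hw w' hw' => by
    simp only [z, hw, hQH w' hw', if_true, if_false]
  have zQ : ∀ w ∈ Q, ∀ w', z w w' = z₀ w w' := fun w hw w' => by
    simp only [z, hQH w hw, if_false]
  have hgW : ∀ t ∈ H, ∀ v ∈ grp t, v ∉ W := by
    intro t ht v hv
    obtain ⟨s, hs, rfl⟩ := (mgrp t v).1 hv
    exact hlW t (hHW ht) s (hQW s hs) (hneHQ' t ht s hs)
  have hz0W : ∀ s ∈ Q, ∀ w ∈ W, w ≠ s → z₀ s w ∉ W := by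
    intro s hs w hw hne
    rcases hWQH w hw with h3 | h3
    · exact hgW w h3 _ (z1' s hs w h3)
    · exact hAW _ (hZ2A (z2 s hs w h3 hne.symm).1)
  have hQT : ∀ w, w ∈ Q ∪ TA ∪ TB ↔ w ∈ W := by
    intro w
    rw [union_assoc, Finset.mem_union, hTU]
    constructor
    · rintro (h | h)
      · exact hQW w h
      · exact hHW h
    · intro h
      exact (hWQH w h).symm
  -- `f' w` for `w ∈ H`: fixed points
  have fixH : ∀ w ∈ H, ∀ u, f' w u = u ↔ (u ∈ W ∨ ∃ w' ∈ W, w' ≠ w ∧ lam w w' = u) := by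
    intro w hw u
    by_cases hd : d w u = u
    · rw [f'f w hw u hd, (hst.mat w hw).fix u, hmsH]
      constructor
      · rintro (h | h | h)
        · exact Or.inl h
        · exact Or.inr h
        · exact absurd hd h
      · rintro (h | h)
        · exact Or.inl h
        · exact Or.inr (Or.inl h)
    · rw [f'd w hw u hd]
      constructor
      · intro h; exact absurd h hd
      · rintro (h | ⟨w', hw', hne, he⟩)
        · exact hdW w (hHW hw) u h
        · exact absurd (he ▸ hlZ w (hHW hw) w' hw' hne.symm) (hR.edge w (hHW hw) u hd).2.2.2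
  have hdd : ∀ w u, d w u ≠ u → d w (d w u) ≠ d w u := by
    intro w u h h'
    rw [hR.inv] at h'
    exact h h'.symm
  have hfd : ∀ w ∈ H, ∀ u, d w u = u → d w (f w u) = f w u := by
    intro w hw u hd
    by_contra hne
    have h3 : f w (f w u) = f w u := ((hst.mat w hw).fix _).2 (Or.inr ((hmsH w _).2 (Or.inr hne)))
    rw [hinvf w hw] at h3
    rw [← h3] at hne
    exact hne hd
  have f'adj : ∀ w ∈ W, ∀ u, f' w u ≠ u → adj m W u (f' w u) := by
    intro w hw u hne
    rcases hWQH w hw with h3 | h3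
    · by_cases hd : d w u = u
      · rw [f'f w h3 u hd] at hne ⊢
        exact ((hst.mat w h3).edge u hne).1
      · rw [f'd w h3 u hd]
        exact (hR.edge w hw u hd).1
    · rw [f'Q w h3] at hne ⊢
      exact (gF w h3 u hne).1.1
  refine ⟨f', z, ⟨?_, ?_, ?_, ?_, ?_, ?_, ?_, ?_⟩, ?_, ?_⟩
  · -- inv
    intro w hw u
    rcases hWQH w hw with h3 | h3
    · by_cases hd : d w u = u
      · rw [f'f w h3 u hd, f'f w h3 _ (hfd w h3 u hd), hinvf w h3]
      · rw [f'd w h3 u hd, f'd w h3 _ (hdd w u hd), hR.inv]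
    · rw [f'Q w h3, f'Q w h3, g0 w h3]
  · -- fix
    intro w hw u
    rcases hWQH w hw with h3 | h3
    · rw [fixH w h3 u]
      apply or_congr_right
      constructor
      · rintro ⟨w', hw', hne, he⟩
        rcases hWQH w' hw' with h4 | h4
        · exact ⟨w', hw', hne, by rw [zHH w h3 w' h4, he]⟩
        · have h5 : u ∈ grp w := (mgrp w u).2 ⟨w', h4, he⟩
          obtain ⟨s, hs, hes⟩ := fb_surj (hgc w ((hTU w).2 h3)).symm (fun s => z₀ s w)
            (fun s hs => z1' s hs w h3)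
            (fun s hs s' hs' he' => z3 s hs s' hs' w ((hTU w).2 h3) he') h5
          exact ⟨s, hQW s hs, hneHQ w h3 s hs, by rw [zHQ w h3 s hs]; exact hes⟩
      · rintro ⟨w', hw', hne, he⟩
        rcases hWQH w' hw' with h4 | h4
        · rw [zHH w h3 w' h4] at he
          exact ⟨w', hw', hne, he⟩
        · rw [zHQ w h3 w' h4] at he
          have h5 := z1' w' h4 w h3
          rw [he] at h5
          obtain ⟨s, hs, hes⟩ := (mgrp w u).1 h5
          exact ⟨s, hQW s hs, hneHQ w h3 s hs, hes⟩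
    · rw [f'Q w h3]
      by_cases hu : u ∈ W
      · exact ⟨fun _ => Or.inl hu, fun _ => gW w h3 u hu⟩
      · have hu' : u ∈ A ∪ B := by
          rw [mem_union]; exact hPart.AorB hu
        rw [gz w h3 u hu']
        constructor
        · rintro ⟨t, ht, hne, he⟩
          exact Or.inr ⟨t, (hQT t).1 ht, hne, by rw [zQ w h3]; exact he⟩
        · rintro (h | ⟨t, ht, hne, he⟩)
          · exact absurd h hu
          · rw [zQ w h3] at he
            exact ⟨t, (hQT t).2 ht, hne, he⟩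
  · -- edge
    intro w hw u hne
    exact (f'adj w hw u hne).2.2.2
  · -- disj
    intro w hw w' hw' hne u he
    by_contra hcon
    have hcon' : f' w' u ≠ u := by rw [← he]; exact hcon
    rcases hWQH w hw with h3 | h3 <;> rcases hWQH w' hw' with h4 | h4
    · by_cases hd : d w u = u <;> by_cases hd' : d w' u = u
      · rw [f'f w h3 u hd] at he hcon
        rw [f'f w' h4 u hd'] at he
        exact hcon (hst.disj w h3 w' h4 hne u he)
      · rw [f'f w h3 u hd] at he hcon
        rw [f'd w' h4 u hd'] at he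
        exact ((hst.mat w h3).edge u hcon).2 w' hw' he.symm
      · rw [f'd w h3 u hd] at he
        rw [f'f w' h4 u hd'] at he hcon'
        exact ((hst.mat w' h4).edge u hcon').2 w hw he
      · exact hd' (hR.disj w hw w' hw' hne u hd)
    · rw [f'Q w' h4] at he hcon'
      obtain ⟨h5, h6⟩ := gF w' h4 u hcon'
      by_cases hd : d w u = u
      · rw [f'f w h3 u hd] at he
        exact h6 ⟨w, h3, he⟩
      · rw [f'd w h3 u hd] at he
        exact h5.2 w hw he
    · rw [f'Q w h3] at he hcon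
      obtain ⟨h5, h6⟩ := gF w h3 u hcon
      by_cases hd : d w' u = u
      · rw [f'f w' h4 u hd] at he
        exact h6 ⟨w', h4, he.symm⟩
      · rw [f'd w' h4 u hd] at he
        exact h5.2 w' hw' he.symm
    · rw [f'Q w h3] at he hcon
      rw [f'Q w' h4] at he
      exact hcon (g3 w h3 w' h4 hne u he)
  · -- cover
    intro u v hadj
    by_cases hres : ∃ h ∈ W, d h u = v
    · obtain ⟨h, hh, he⟩ := hres
      have hne : d h u ≠ u := by rw [he]; exact hadj.2.2.1.symm
      have hhH : h ∈ H := by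
        rcases hWQH h hh with h3 | h3
        · exact h3
        · exact absurd (hR.Qfix h h3 u) hne
      exact ⟨h, hh, by rw [f'd h hhH u hne]; exact he⟩
    · have hG : gad m W d u v := ⟨hadj, fun h hh he => hres ⟨h, hh, he⟩⟩
      by_cases hus : used H f u v
      · obtain ⟨h, hh, he⟩ := hus
        have hd : d h u = u := by
          by_contra hd
          have h3 : f h u = u := ((hst.mat h hh).fix _).2 (Or.inr ((hmsH h _).2 (Or.inr hd)))
          rw [he] at h3
          exact hadj.2.2.1 h3.symm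
        exact ⟨h, hHW hh, by rw [f'f h hh u hd]; exact he⟩
      · rcases h2.rest u v hG hus with ⟨hu, hv⟩ | ⟨hu, hv⟩
        · obtain ⟨s, hs, he⟩ := gcov u hu v hv ⟨hG, hus⟩
          exact ⟨s, hQW s hs, by rw [f'Q s hs]; exact he⟩
        · obtain ⟨s, hs, he⟩ := gcov v hv u hu (hFsymm u v ⟨hG, hus⟩)
          refine ⟨s, hQW s hs, ?_⟩
          rw [f'Q s hs, ← he, g0 s hs]
  · -- zsymm
    intro w hw w' hw' hne
    rcases hWQH w hw with h3 | h3 <;> rcases hWQH w' hw' with h4 | h4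
    · rw [zHH w h3 w' h4, zHH w' h4 w h3, hL.symm]
    · rw [zHQ w h3 w' h4, zQ w' h4]
    · rw [zQ w h3, zHQ w' h4 w h3]
    · rw [zQ w h3, zQ w' h4]
      exact (z2 w h3 w' h4 hne).2
  · -- zinj
    intro w hw w1 hw1 w2 hw2 hne1 hne2 he
    rcases hWQH w hw with h3 | h3
    · rcases hWQH w1 hw1 with h4 | h4 <;> rcases hWQH w2 hw2 with h5 | h5
      · rw [zHH w h3 w1 h4, zHH w h3 w2 h5] at he
        exact hlinj w hw w1 hw1 w2 hw2 hne1.symm hne2.symm he
      · exfalso
        rw [zHH w h3 w1 h4, zHQ w h3 w2 h5] at he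
        have h6 := z1' w2 h5 w h3
        rw [← he] at h6
        obtain ⟨s, hs, hes⟩ := (mgrp w _).1 h6
        exact hneHQ w1 h4 s hs (hlinj w hw s (hQW s hs) w1 hw1 (hneHQ' w h3 s hs) hne1.symm hes)
      · exfalso
        rw [zHQ w h3 w1 h4, zHH w h3 w2 h5] at he
        have h6 := z1' w1 h4 w h3
        rw [he] at h6
        obtain ⟨s, hs, hes⟩ := (mgrp w _).1 h6
        exact hneHQ w2 h5 s hs (hlinj w hw s (hQW s hs) w2 hw2 (hneHQ' w h3 s hs) hne2.symm hes)
      · rw [zHQ w h3 w1 h4, zHQ w h3 w2 h5] at he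
        exact z3 w1 h4 w2 h5 w ((hTU w).2 h3) he
    · rw [zQ w h3, zQ w h3] at he
      rcases hWQH w1 hw1 with h4 | h4 <;> rcases hWQH w2 hw2 with h5 | h5
      · by_contra hne
        have h6 := z1' w h3 w1 h4
        have h7 := z1' w h3 w2 h5
        rw [← he] at h7
        exact Finset.disjoint_left.1 (hgd w1 ((hTU w1).2 h4) w2 ((hTU w2).2 h5) hne) h6 h7
      · exfalso
        have h6 := z1' w h3 w1 h4
        have h7 := (z2 w h3 w2 h5 hne2.symm).1
        rw [← he] at h7
        exact Finset.disjoint_left.1 (hZ2g w1 h4) h7 h6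
      · exfalso
        have h6 := z1' w h3 w2 h5
        have h7 := (z2 w h3 w1 h4 hne1.symm).1
        rw [he] at h7
        exact Finset.disjoint_left.1 (hZ2g w2 h5) h7 h6
      · rcases z4 w h3 w1 h4 w h3 w2 h5 hne1.symm hne2.symm he with ⟨-, h6⟩ | ⟨h6, -⟩
        · exact h6
        · exact absurd h6.symm hne2
  · -- zout
    intro w hw w' hw' hne
    rcases hWQH w hw with h3 | h3
    · rcases hWQH w' hw' with h4 | h4
      · rw [zHH w h3 w' h4]
        exact hlW w hw w' hw' hne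
      · rw [zHQ w h3 w' h4]
        exact hz0W w' h4 w hw hne
    · rw [zQ w h3]
      exact hz0W w h3 w' hw' hne.symm
  · -- colours of the pairs
    intro w hw u hne
    rcases hWQH w hw with h3 | h3
    · by_cases hd : d w u = u
      · rw [f'f w h3 u hd] at hne ⊢
        exact h2.good w h3 u hne
      · rw [f'd w h3 u hd]
        rintro ⟨h4, -⟩
        exact (hR.edge w hw u hd).2.2.1 h4
    · rw [f'Q w h3] at hne ⊢
      obtain ⟨h4, h5⟩ := gF w h3 u hne
      rintro ⟨h6, -⟩
      exact hPart.cross_ne (h2.rest u _ h4 h5) h6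
  · -- colours of the labels
    have keyHQ : ∀ h ∈ H, ∀ s ∈ Q, c s = c h → c (z₀ s h) ≠ c h := by
      intro h hh s hs hsh he
      have h1 : c h ≠ 1 := by rw [← hsh]; exact hL.Q1 s hs
      have h4 : h ∉ TB := fun h' => h1 (hL.TB1 h h')
      obtain ⟨s', hs', he'⟩ := (mgrp h _).1 (z1' s hs h hh)
      rw [← he', hL.symm h s'] at he
      by_cases h0 : c h = 0
      · have := hL.l0 s' hs' h hh h0
        omega
      · have := hL.lA s' hs' h hh h4
        omega
    intro w hw w' hw' hne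
    rcases hWQH w hw with h3 | h3 <;> rcases hWQH w' hw' with h4 | h4
    · rw [zHH w h3 w' h4]
      rintro ⟨h5, h6⟩
      exact hL.lW w h3 w' h4 hne h6 h5
    · rw [zHQ w h3 w' h4]
      rintro ⟨h5, h6⟩
      exact keyHQ w h3 w' h4 h6.symm h5
    · rw [zQ w h3]
      rintro ⟨h5, h6⟩
      exact keyHQ w' h4 w h3 h6 (h5.trans h6)
    · rw [zQ w h3]
      rintro ⟨h5, h6⟩
      obtain ⟨s, hs, s', hs', hne', he⟩ := (mZ2 _).1 (z2 w h3 w' h4 hne).1
      have h7 := hL.lQ s hs s' hs' hne'.symm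
      rw [he, h5] at h7
      exact hL.Q1 w h3 h7

end Pool.Agent.CH4
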