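import Pool.Agent.CHS.Lip

/-!
# CH4/Low: at least three colours are needed

If `Colb m 2` with `c : V → Fin 2`, let `V₀`, `V₁` be the classes, `a`, `b` their sizes, `a + b = n`.
For `x ≠ y` in `V₀` the third point is in `V₁`; `(x, y) ↦ (x, m x y)` is a bijection from these ordered
pairs to `{(x, z) : x ∈ V₀, z ∈ V₁, m x z ∈ V₀}` (inverse `(x, z) ↦ (x, m x z)`); similarly
`(x, y) ↦ (m x y, x)` from the ordered pairs `x ≠ y` of `V₁` to `{(z, x) : z ∈ V₀, x ∈ V₁, m z x ∈ V₁}`.
So `a b = a (a-1) + b (b-1)`, i.e. `3 a b = n² - n`; since `4 a b ≤ n²`, `4 (n² - n) ≤ 3 n²`, `n ≤ 4`.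
For the chromatic number: if `chi m ≤ 2` then `Colb m 2` (`colb_mono`; the infimum is attained by
`Nat.sInf_mem` and `colb_card`).
-/

set_option autoImplicit false

namespace Pool.Agent.CH4
open Finset Pool.Agent.CHS

theorem low_two {V : Type} [Fintype V] [DecidableEq V] (m : SQ V) (h : Colb m 2) :
    Fintype.card V ≤ 4 := by
  obtain ⟨c, hc⟩ := h
  have two : ∀ i j k : Fin 2, i ≠ j → k = i ∨ k = j := by decide
  set P := (univ : Finset (V × V)).filter (fun q => q.1 ≠ q.2 ∧ c q.1 = c q.2) with hP
  set Q := (univ : Finset (V × V)).filter (fun q => c q.1 ≠ c q.2) with hQ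
  set Q1 := (univ : Finset (V × V)).filter
    (fun q => c q.1 ≠ c q.2 ∧ c (m.mul q.1 q.2) = c q.1) with hQ1
  set Q2 := (univ : Finset (V × V)).filter
    (fun q => c q.1 ≠ c q.2 ∧ c (m.mul q.1 q.2) = c q.2) with hQ2
  have e1 : Q.card = Q1.card + Q2.card := by
    rw [← Finset.card_union_of_disjoint]
    · congr 1
      ext q
      simp only [hQ, hQ1, hQ2, mem_filter, mem_univ, true_and, mem_union]
      constructor
      · intro h
        rcases two _ _ (c (m.mul q.1 q.2)) h with h1 | h1
        · exact Or.inl ⟨h, h1⟩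
        · exact Or.inr ⟨h, h1⟩
      · rintro (h | h) <;> exact h.1
    · rw [Finset.disjoint_left]
      intro q h1 h2
      simp only [hQ1, hQ2, mem_filter, mem_univ, true_and] at h1 h2
      exact h1.1 (h1.2.symm.trans h2.2)
  have e2 : Q1.card = Q2.card := by
    refine Finset.card_nbij' Prod.swap Prod.swap ?_ ?_ ?_ ?_
    · intro q hq
      simp only [hQ1, hQ2, coe_filter, mem_univ, true_and, Set.mem_ofPred_eq] at hq ⊢
      exact ⟨Ne.symm hq.1, by rw [Prod.fst_swap, Prod.snd_swap, m.comm]; exact hq.2⟩
    · intro q hq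
      simp only [hQ1, hQ2, coe_filter, mem_univ, true_and, Set.mem_ofPred_eq] at hq ⊢
      exact ⟨Ne.symm hq.1, by rw [Prod.fst_swap, Prod.snd_swap, m.comm]; exact hq.2⟩
    · intro q _; rfl
    · intro q _; rfl
  have e3 : P.card = Q1.card := by
    refine Finset.card_nbij' (fun q => (q.1, m.mul q.1 q.2)) (fun q => (q.1, m.mul q.1 q.2))
      ?_ ?_ ?_ ?_
    · intro q hq
      simp only [hP, hQ1, coe_filter, mem_univ, true_and, Set.mem_ofPred_eq] at hq ⊢
      refine ⟨fun h => hc q.1 q.2 hq.1 ⟨hq.2, ?_⟩, ?_⟩
      · rw [← hq.2]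
        exact h
      · rw [m.inv]
        exact hq.2.symm
    · intro q hq
      simp only [hP, hQ1, coe_filter, mem_univ, true_and, Set.mem_ofPred_eq] at hq ⊢
      refine ⟨fun h => hq.1 ?_, hq.2.symm⟩
      have h1 := m.inv q.1 q.2
      rw [← h, m.idem] at h1
      rw [← h1]
    · intro q _
      simp only [m.inv]
    · intro q _
      simp only [m.inv]
  set V0 := (univ : Finset V).filter (fun v => c v = 0) with hV0
  set V1 := (univ : Finset V).filter (fun v => c v = 1) with hV1
  have fin2 : ∀ i : Fin 2, i = 0 ∨ i = 1 := by decide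
  have ne2 : ∀ i : Fin 2, i = 0 → i = 1 → False := by decide
  have e4 : V0.card + V1.card = Fintype.card V := by
    rw [← Finset.card_union_of_disjoint, ← Finset.card_univ]
    · congr 1
      ext v
      simp only [hV0, hV1, mem_filter, mem_univ, true_and, mem_union, iff_true]
      exact fin2 _
    · rw [Finset.disjoint_left]
      intro q h1 h2
      simp only [hV0, hV1, mem_filter, mem_univ, true_and] at h1 h2
      exact ne2 _ h1 h2
  have e5 : P.card + Fintype.card V = V0.card * V0.card + V1.card * V1.card := by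
    rw [← Finset.card_product, ← Finset.card_product, ← Finset.card_union_of_disjoint]
    · have h1 : Fintype.card V = ((univ : Finset V).image (fun v => (v, v))).card := by
        rw [Finset.card_image_of_injective, Finset.card_univ]
        intro a b h
        exact (Prod.ext_iff.1 h).1
      rw [h1, ← Finset.card_union_of_disjoint]
      · congr 1
        ext q
        simp only [hP, hV0, hV1, mem_filter, mem_univ, true_and, mem_union, mem_image, mem_product]
        constructor
        · rintro (h | ⟨v, rfl⟩)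
          · rcases fin2 (c q.1) with h2 | h2
            · exact Or.inl ⟨h2, by rw [← h.2]; exact h2⟩
            · exact Or.inr ⟨h2, by rw [← h.2]; exact h2⟩
          · rcases fin2 (c v) with h2 | h2
            · exact Or.inl ⟨h2, h2⟩
            · exact Or.inr ⟨h2, h2⟩
        · intro h
          by_cases hq : q.1 = q.2
          · exact Or.inr ⟨q.1, Prod.ext rfl hq⟩
          · left
            refine ⟨hq, ?_⟩
            rcases h with h | h
            · rw [h.1, h.2]
            · rw [h.1, h.2]
      · rw [Finset.disjoint_left]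
        intro q h1 h2
        simp only [hP, mem_filter, mem_univ, true_and, mem_image] at h1 h2
        obtain ⟨v, rfl⟩ := h2
        exact h1.1 rfl
    · rw [Finset.disjoint_left]
      intro q h1 h2
      simp only [hV0, hV1, mem_filter, mem_univ, true_and, mem_product] at h1 h2
      exact ne2 _ h1.1 h2.1
  have e6 : Q.card + (P.card + Fintype.card V) = Fintype.card V * Fintype.card V := by
    have h0 : Q.card + ((univ : Finset (V × V)).filter (fun q => ¬ c q.1 ≠ c q.2)).card =
        Fintype.card V * Fintype.card V := by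
      rw [← Fintype.card_prod, ← Finset.card_univ]
      exact Finset.card_filter_add_card_filter_not (s := (univ : Finset (V × V)))
        (fun q => c q.1 ≠ c q.2)
    have h1 : ((univ : Finset (V × V)).filter (fun q => ¬ c q.1 ≠ c q.2)).card =
        V0.card * V0.card + V1.card * V1.card := by
      rw [← Finset.card_product, ← Finset.card_product, ← Finset.card_union_of_disjoint]
      · congr 1
        ext q
        simp only [hV0, hV1, mem_filter, mem_univ, true_and, mem_union, mem_product, not_not]
        constructor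
        · intro h
          rcases fin2 (c q.1) with h2 | h2
          · exact Or.inl ⟨h2, by rw [← h]; exact h2⟩
          · exact Or.inr ⟨h2, by rw [← h]; exact h2⟩
        · rintro (h | h)
          · rw [h.1, h.2]
          · rw [h.1, h.2]
      · rw [Finset.disjoint_left]
        intro q h1 h2
        simp only [hV0, hV1, mem_filter, mem_univ, true_and, mem_product] at h1 h2
        exact ne2 _ h1.1 h2.1
    rw [h1, ← e5] at h0
    exact h0
  obtain ⟨a, ha⟩ : ∃ a, a = V0.card := ⟨_, rfl⟩
  obtain ⟨b, hb⟩ : ∃ b, b = V1.card := ⟨_, rfl⟩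
  obtain ⟨n, hn⟩ : ∃ n, n = Fintype.card V := ⟨_, rfl⟩
  obtain ⟨p, hp⟩ : ∃ p, p = P.card := ⟨_, rfl⟩
  rw [← ha, ← hb, ← hn] at e4
  rw [← ha, ← hb, ← hn, ← hp] at e5
  rw [e1, ← e2, ← e3, ← hn, ← hp] at e6
  rw [← hn]
  have h1 : 2 * (a * a + b * b) ≥ n * n := by
    rw [← e4]
    nlinarith [sq_nonneg ((a : ℤ) - b), Nat.mul_self_le_mul_self (le_refl a),
      two_mul_le_add_sq a b]
  by_contra hcon
  have h2 : 5 ≤ n := by omega
  have h3 : 3 * (n * n) ≤ 2 * (n * n) + 4 * n := by
    have h4 : 3 * (p + n) = n * n + 2 * n := by omega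
    have h5 : 2 * (3 * (p + n)) ≥ 3 * (n * n) := by
      rw [e5]
      omega
    omega
  nlinarith

theorem low {V : Type} [Fintype V] [DecidableEq V] (m : SQ V) (hV : 5 ≤ Fintype.card V) :
    3 ≤ chi m := by
  by_contra hcon
  have h1 : Colb m (chi m) := Nat.sInf_mem (s := {k | Colb m k}) ⟨_, colb_card m⟩
  have h2 : Colb m 2 := colb_mono m (by omega) h1
  have h3 := low_two m h2
  omega

end Pool.Agent.CH4
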