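import Mathlib

/-!
# CH4/LabC: a bijection with prescribed types

`|P| = |Z|`, `Z = ZA ⊔ ZB`, `Z1 ⊆ ZA`; `P1, P2, P3 ⊆ P` pairwise disjoint.
Choose `R1 ⊆ Z1` with `|R1| = |P1|`, `R2 ⊆ ZA \ R1` with `|R2| = |P2|`, `R3 ⊆ ZB` with `|R3| = |P3|`, and
bijections `P1 → R1`, `P2 → R2`, `P3 → R3`, `P \ (P1 ∪ P2 ∪ P3) → Z \ (R1 ∪ R2 ∪ R3)`
(`Finset.equivOfCardEq`, `Finset.exists_subset_card_eq`).  `Nonempty β` for the values outside `P`.
-/

set_option autoImplicit false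

namespace Pool.Agent.CH4
open Finset

theorem exists_bij {α β : Type} [DecidableEq α] [DecidableEq β] [Nonempty β] (S : Finset α)
    (T : Finset β) (h : S.card = T.card) : ∃ f : α → β, S.image f = T := by
  classical
  let e := Finset.equivOfCardEq h
  refine ⟨fun x => if hx : x ∈ S then (e ⟨x, hx⟩ : β) else Classical.arbitrary β, ?_⟩
  ext y
  rw [Finset.mem_image]
  constructor
  · rintro ⟨x, hx, rfl⟩
    simp only [hx, dite_true]
    exact (e ⟨x, hx⟩).2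
  · intro hy
    refine ⟨(e.symm ⟨y, hy⟩ : α), (e.symm ⟨y, hy⟩).2, ?_⟩
    simp

theorem labC {α β : Type} [DecidableEq α] [DecidableEq β] [Nonempty β]
    (P P1 P2 P3 : Finset α) (Z1 ZA ZB : Finset β)
    (h1 : P1 ⊆ P) (h2 : P2 ⊆ P) (h3 : P3 ⊆ P)
    (h12 : Disjoint P1 P2) (h13 : Disjoint P1 P3) (h23 : Disjoint P2 P3)
    (hZ : Z1 ⊆ ZA) (hAB : Disjoint ZA ZB) (hcard : P.card = ZA.card + ZB.card)
    (k1 : P1.card ≤ Z1.card) (k2 : P1.card + P2.card ≤ ZA.card) (k3 : P3.card ≤ ZB.card) :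
    ∃ g : α → β, Set.InjOn g (P : Set α) ∧ P.image g = ZA ∪ ZB ∧
      (∀ p ∈ P1, g p ∈ Z1) ∧ (∀ p ∈ P2, g p ∈ ZA) ∧ (∀ p ∈ P3, g p ∈ ZB) := by
  obtain ⟨R1, hR1, c1⟩ := Finset.exists_subset_card_eq k1
  have hR1A : R1 ⊆ ZA := hR1.trans hZ
  obtain ⟨R2, hR2, c2⟩ := Finset.exists_subset_card_eq (s := ZA \ R1) (n := P2.card) (by
    rw [Finset.card_sdiff_of_subset hR1A]; omega)
  have hR2A : R2 ⊆ ZA := hR2.trans Finset.sdiff_subset
  obtain ⟨R3, hR3, c3⟩ := Finset.exists_subset_card_eq k3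
  have d12 : Disjoint R1 R2 := by
    rw [Finset.disjoint_left]
    intro x hx hx2
    exact (Finset.mem_sdiff.mp (hR2 hx2)).2 hx
  have d13 : Disjoint R1 R3 := Finset.disjoint_of_subset_left hR1A
    (Finset.disjoint_of_subset_right hR3 hAB)
  have d23 : Disjoint R2 R3 := Finset.disjoint_of_subset_left hR2A
    (Finset.disjoint_of_subset_right hR3 hAB)
  have hRsub : R1 ∪ R2 ∪ R3 ⊆ ZA ∪ ZB := by
    intro x hx
    rcases Finset.mem_union.mp hx with hx | hx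
    · rcases Finset.mem_union.mp hx with hx | hx
      · exact Finset.mem_union_left _ (hR1A hx)
      · exact Finset.mem_union_left _ (hR2A hx)
    · exact Finset.mem_union_right _ (hR3 hx)
  have hPsub : P1 ∪ P2 ∪ P3 ⊆ P := Finset.union_subset (Finset.union_subset h1 h2) h3
  have dP : Disjoint (P1 ∪ P2) P3 := Finset.disjoint_union_left.mpr ⟨h13, h23⟩
  have dR : Disjoint (R1 ∪ R2) R3 := Finset.disjoint_union_left.mpr ⟨d13, d23⟩
  have c4 : (P \ (P1 ∪ P2 ∪ P3)).card = ((ZA ∪ ZB) \ (R1 ∪ R2 ∪ R3)).card := by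
    rw [Finset.card_sdiff_of_subset hPsub, Finset.card_sdiff_of_subset hRsub,
      Finset.card_union_of_disjoint hAB, Finset.card_union_of_disjoint dP,
      Finset.card_union_of_disjoint dR, Finset.card_union_of_disjoint h12,
      Finset.card_union_of_disjoint d12]
    omega
  obtain ⟨f1, g1⟩ := exists_bij P1 R1 c1.symm
  obtain ⟨f2, g2⟩ := exists_bij P2 R2 c2.symm
  obtain ⟨f3, g3⟩ := exists_bij P3 R3 c3.symm
  obtain ⟨f4, g4⟩ := exists_bij _ _ c4
  obtain ⟨g, hg⟩ : ∃ g : α → β, g = fun x =>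
    if x ∈ P1 then f1 x else if x ∈ P2 then f2 x else if x ∈ P3 then f3 x else f4 x := ⟨_, rfl⟩
  have e1 : ∀ x ∈ P1, g x = f1 x := fun x hx => by rw [hg]; simp [hx]
  have e2 : ∀ x ∈ P2, g x = f2 x := fun x hx => by
    have hn : x ∉ P1 := fun h => Finset.disjoint_left.mp h12 h hx
    rw [hg]; simp [hx, hn]
  have e3 : ∀ x ∈ P3, g x = f3 x := fun x hx => by
    have hn : x ∉ P1 := fun h => Finset.disjoint_left.mp h13 h hx
    have hn2 : x ∉ P2 := fun h => Finset.disjoint_left.mp h23 h hx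
    rw [hg]; simp [hx, hn, hn2]
  have e4 : ∀ x ∈ P \ (P1 ∪ P2 ∪ P3), g x = f4 x := fun x hx => by
    have hx2 := (Finset.mem_sdiff.mp hx).2
    simp only [Finset.mem_union, not_or] at hx2
    rw [hg]; simp [hx2]
  have i1 : ∀ x ∈ P1, g x ∈ R1 := fun x hx => by
    rw [e1 x hx, ← g1]; exact Finset.mem_image_of_mem _ hx
  have i2 : ∀ x ∈ P2, g x ∈ R2 := fun x hx => by
    rw [e2 x hx, ← g2]; exact Finset.mem_image_of_mem _ hx
  have i3 : ∀ x ∈ P3, g x ∈ R3 := fun x hx => by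
    rw [e3 x hx, ← g3]; exact Finset.mem_image_of_mem _ hx
  have i4 : ∀ x ∈ P \ (P1 ∪ P2 ∪ P3), g x ∈ (ZA ∪ ZB) \ (R1 ∪ R2 ∪ R3) := fun x hx => by
    rw [e4 x hx, ← g4]; exact Finset.mem_image_of_mem _ hx
  have himg : P.image g = ZA ∪ ZB := by
    ext y
    constructor
    · intro hy
      obtain ⟨x, hx, rfl⟩ := Finset.mem_image.mp hy
      by_cases m1 : x ∈ P1
      · exact Finset.mem_union_left _ (hR1A (i1 x m1))
      by_cases m2 : x ∈ P2
      · exact Finset.mem_union_left _ (hR2A (i2 x m2))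
      by_cases m3 : x ∈ P3
      · exact Finset.mem_union_right _ (hR3 (i3 x m3))
      · exact (Finset.mem_sdiff.mp (i4 x (Finset.mem_sdiff.mpr ⟨hx, by
          simp only [Finset.mem_union, not_or]
          exact ⟨⟨m1, m2⟩, m3⟩⟩))).1
    · intro hy
      rw [Finset.mem_image]
      by_cases m1 : y ∈ R1
      · rw [← g1] at m1
        obtain ⟨x, hx, rfl⟩ := Finset.mem_image.mp m1
        exact ⟨x, h1 hx, e1 x hx⟩
      by_cases m2 : y ∈ R2
      · rw [← g2] at m2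
        obtain ⟨x, hx, rfl⟩ := Finset.mem_image.mp m2
        exact ⟨x, h2 hx, e2 x hx⟩
      by_cases m3 : y ∈ R3
      · rw [← g3] at m3
        obtain ⟨x, hx, rfl⟩ := Finset.mem_image.mp m3
        exact ⟨x, h3 hx, e3 x hx⟩
      · have m4 : y ∈ (ZA ∪ ZB) \ (R1 ∪ R2 ∪ R3) := Finset.mem_sdiff.mpr ⟨hy, by
          simp only [Finset.mem_union, not_or]
          exact ⟨⟨m1, m2⟩, m3⟩⟩
        rw [← g4] at m4
        obtain ⟨x, hx, rfl⟩ := Finset.mem_image.mp m4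
        exact ⟨x, (Finset.mem_sdiff.mp hx).1, e4 x hx⟩
  refine ⟨g, ?_, himg, fun p hp => hR1 (i1 p hp), fun p hp => hR2A (i2 p hp),
    fun p hp => hR3 (i3 p hp)⟩
  rw [← Finset.card_image_iff, himg, Finset.card_union_of_disjoint hAB, hcard]

end Pool.Agent.CH4
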