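import Pool.Agent.CH4.ZCard
import Pool.Agent.CH4.LabC

/-!
# CH4/Lab: existence of the labelling

Pairs are two-element sets `p ∈ P = W.powersetCard 2`, `|P| = r (r-1) / 2 = |Zall|` (`Zall_card4`).
`lam x y = g {x, y}` (`Finset.pair_comm` gives the symmetry) with `g` from `labC`,
`ZA`, `ZB` = points of `Zall` with `c < 2`, `c ≥ 2`, `Z1` = points of `Zall` with `c = 1`.
`P1` = pairs inside `Q` and pairs `{s, t}`, `s ∈ Q`, `t ∈ W \ Q`, `c t = 0`;
`P2` = pairs `{s, t}`, `s ∈ Q`, `t ∈ (W \ Q) \ TB`, `c t ≠ 0`, and pairs inside `{t ∈ W \ Q : 2 ≤ c t}`;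
`P3` = pairs `{s, t}`, `s ∈ Q`, `t ∈ TB`, and pairs inside `{t ∈ W \ Q : c t < 2}`.
They are pairwise disjoint (look at the number of points in `Q`, and at the other point).
Sizes, in units of `r²` (`q = |Q| ≤ 0.256 r`; by `own` every colour has `r/4 ± 10⁻¹⁴ r` points in `W`;
`#{t ∈ W \ Q : 2 ≤ c t} ≤ 0.5 + small - 0.24 ≤ 0.2601`):
`|P1| ≤ q²/2 + q * 0.2501 ≤ 0.0969 ≤ 0.1249 ≤ |Z1|`;
`|P2| ≤ q (0.2501 - 0.119 + 0.2601) + 0.2601² / 2 ≤ 0.1341`, `|P1| + |P2| ≤ 0.2311 ≤ 0.2499 ≤ |ZA|`;
`|P3| ≤ q * 0.131 + 0.5001² / 2 ≤ 0.1587 ≤ 0.2499 ≤ |ZB|` (`Zi_card4` for the colours 0, 1, 2, 3).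
`lW`: if `c t = c t' ≤ 1` the pair is in `P3`, so the label has `c ≥ 2`; if `c t = c t' ≥ 2` it is in `P2`.
-/

set_option autoImplicit false

namespace Pool.Agent.CH4
open Finset Pool.Agent.CHS

theorem card_pairs_le {V : Type} [DecidableEq V] (S T : Finset V) :
    ((((S ×ˢ T).image (fun q => ({q.1, q.2} : Finset V))).card : ℝ)) ≤ S.card * T.card := by
  have h1 : ((S ×ˢ T).image (fun q => ({q.1, q.2} : Finset V))).card ≤ S.card * T.card := by
    rw [← Finset.card_product]
    exact Finset.card_image_le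
  exact_mod_cast h1

theorem card_two_le {V : Type} [DecidableEq V] (S : Finset V) :
    ((S.powersetCard 2).card : ℝ) ≤ (S.card : ℝ) ^ 2 / 2 := by
  rw [Finset.card_powersetCard, Nat.cast_choose_two]
  have : (0 : ℝ) ≤ S.card := Nat.cast_nonneg _
  nlinarith

theorem labEx : ∃ r0 : ℕ, ∀ r ≥ r0, ∀ (V : Type) [Fintype V] [DecidableEq V] (m : SQ V)
    (c : V → ℕ) (W Q TB : Finset V), Sz c W r → Good4 m c W → Q ⊆ W → (∀ s ∈ Q, c s ≠ 1) →
    (Q.card : ℝ) ≤ (256 / 1000) * r →
    (24 / 100) * (r : ℝ) ≤ ((Q.filter (fun s => 2 ≤ c s)).card : ℝ) →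
    TB ⊆ W \ Q → (∀ t ∈ TB, c t = 1) → (119 / 1000) * (r : ℝ) ≤ (TB.card : ℝ) →
    (TB.card : ℝ) ≤ (131 / 1000) * r →
    ∃ lam : V → V → V, Lab4 m c W Q TB lam := by
  refine ⟨4 * 10 ^ 6, ?_⟩
  intro r hr V _ _ m c W Q TB hS hG hQW hQ1 hQc hQ2 hTB hTB1 hTBl hTBu
  have hWr : W.card = r := hS.Wr
  have hWr' : (W.card : ℝ) = r := by rw [hWr]
  have hrr : (4 * 10 ^ 6 : ℝ) ≤ r := by exact_mod_cast hr
  have hr0 : (0 : ℝ) < r := by linarith
  have hWne : W.Nonempty := by
    rw [← Finset.card_pos, hWr]; omega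
  haveI : Nonempty V := ⟨hWne.choose⟩
  -- classes in W
  have hown : ∀ i < 4, ((W.filter (fun w => c w = i)).card : ℝ) ≤ (25001 / 100000) * r := by
    intro i hi
    have h1 := (abs_le.mp (hG.own i hi)).2
    rw [hWr'] at h1
    linarith
  set Z := Zall m W with hZ
  set Z1 := Z.filter (fun v => c v = 1) with hZ1
  set ZA := Z.filter (fun v => c v < 2) with hZA
  set ZB := Z.filter (fun v => 2 ≤ c v) with hZB
  have hZi : ∀ i < 4, (124 / 1000) * (r : ℝ) ^ 2 ≤ ((Z.filter (fun v => c v = i)).card : ℝ) := by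
    intro i hi
    have h1 := (abs_le.mp (Zi_card4 hG (by rw [hWr]; exact hr) i hi)).1
    rw [hWr'] at h1
    have : (0 : ℝ) ≤ (r : ℝ) ^ 2 := by positivity
    linarith
  have hZAc : (248 / 1000) * (r : ℝ) ^ 2 ≤ (ZA.card : ℝ) := by
    have h1 : Disjoint (Z.filter (fun v => c v = 0)) (Z.filter (fun v => c v = 1)) := by
      rw [Finset.disjoint_left]
      intro v h2 h3
      have h2' := (Finset.mem_filter.mp h2).2
      have h3' := (Finset.mem_filter.mp h3).2
      omega
    have h2 : Z.filter (fun v => c v = 0) ∪ Z.filter (fun v => c v = 1) ⊆ ZA := by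
      intro v hv
      rw [hZA, Finset.mem_filter]
      rcases Finset.mem_union.mp hv with h | h
      · exact ⟨(Finset.mem_filter.mp h).1, by have := (Finset.mem_filter.mp h).2; omega⟩
      · exact ⟨(Finset.mem_filter.mp h).1, by have := (Finset.mem_filter.mp h).2; omega⟩
    have h3 := Finset.card_le_card h2
    rw [Finset.card_union_of_disjoint h1] at h3
    have h4 : ((Z.filter (fun v => c v = 0)).card : ℝ) + (Z.filter (fun v => c v = 1)).card ≤
        ZA.card := by exact_mod_cast h3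
    have := hZi 0 (by norm_num)
    have := hZi 1 (by norm_num)
    linarith
  have hZBc : (248 / 1000) * (r : ℝ) ^ 2 ≤ (ZB.card : ℝ) := by
    have h1 : Disjoint (Z.filter (fun v => c v = 2)) (Z.filter (fun v => c v = 3)) := by
      rw [Finset.disjoint_left]
      intro v h2 h3
      have h2' := (Finset.mem_filter.mp h2).2
      have h3' := (Finset.mem_filter.mp h3).2
      omega
    have h2 : Z.filter (fun v => c v = 2) ∪ Z.filter (fun v => c v = 3) ⊆ ZB := by
      intro v hv
      rw [hZB, Finset.mem_filter]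
      rcases Finset.mem_union.mp hv with h | h
      · exact ⟨(Finset.mem_filter.mp h).1, by have := (Finset.mem_filter.mp h).2; omega⟩
      · exact ⟨(Finset.mem_filter.mp h).1, by have := (Finset.mem_filter.mp h).2; omega⟩
    have h3 := Finset.card_le_card h2
    rw [Finset.card_union_of_disjoint h1] at h3
    have h4 : ((Z.filter (fun v => c v = 2)).card : ℝ) + (Z.filter (fun v => c v = 3)).card ≤
        ZB.card := by exact_mod_cast h3
    have := hZi 2 (by norm_num)
    have := hZi 3 (by norm_num)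
    linarith
  have hAB : Disjoint ZA ZB := by
    rw [Finset.disjoint_left]
    intro v h2 h3
    have h2' := (Finset.mem_filter.mp h2).2
    have h3' := (Finset.mem_filter.mp h3).2
    omega
  have hunion : ZA ∪ ZB = Z := by
    ext v
    rw [Finset.mem_union, hZA, hZB, Finset.mem_filter, Finset.mem_filter]
    constructor
    · rintro (h | h) <;> exact h.1
    · intro h
      rcases Nat.lt_or_ge (c v) 2 with h2 | h2
      · exact Or.inl ⟨h, h2⟩
      · exact Or.inr ⟨h, h2⟩
  set P := W.powersetCard 2 with hP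
  have hPc : P.card = ZA.card + ZB.card := by
    rw [← Finset.card_union_of_disjoint hAB, hunion, hP, Finset.card_powersetCard,
      Nat.choose_two_right]
    have h1 := Zall_card4 hG
    rw [hWr] at h1 ⊢
    have h2 : r * (r - 1) + r = r * r := by
      have : r * (r - 1) + r * 1 = r * (r - 1 + 1) := by ring
      rw [mul_one] at this
      rw [this, Nat.sub_add_cancel (by omega)]
    rw [hZ]
    omega
  -- the three types of pairs
  set P1 := P.filter (fun p => (∀ x ∈ p, x ∈ Q) ∨ (∃ s ∈ p, s ∈ Q ∧ ∃ t ∈ p, t ∉ Q ∧ c t = 0))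
    with hP1
  set P2 := P.filter (fun p => (∃ s ∈ p, s ∈ Q ∧ ∃ t ∈ p, t ∉ Q ∧ t ∉ TB ∧ c t ≠ 0) ∨
    (∀ t ∈ p, t ∉ Q ∧ 2 ≤ c t)) with hP2
  set P3 := P.filter (fun p => (∃ s ∈ p, s ∈ Q ∧ ∃ t ∈ p, t ∉ Q ∧ t ∈ TB) ∨
    (∀ t ∈ p, t ∉ Q ∧ c t < 2)) with hP3
  have hpair : ∀ p ∈ P, ∃ x ∈ W, ∃ y ∈ W, x ≠ y ∧ p = {x, y} := by
    intro p hp
    rw [hP, Finset.mem_powersetCard] at hp
    obtain ⟨x, y, hxy, rfl⟩ := Finset.card_eq_two.mp hp.2
    exact ⟨x, hp.1 (by simp), y, hp.1 (by simp), hxy, rfl⟩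
  have hmemP : ∀ x ∈ W, ∀ y ∈ W, x ≠ y → ({x, y} : Finset V) ∈ P := by
    intro x hx y hy hxy
    rw [hP, Finset.mem_powersetCard]
    refine ⟨?_, Finset.card_pair hxy⟩
    intro z hz
    rcases Finset.mem_insert.mp hz with h | h
    · rw [h]; exact hx
    · rw [Finset.mem_singleton.mp h]; exact hy
  -- a pair with exactly one point in `Q`
  have hTBQ : ∀ t ∈ TB, t ∉ Q := fun t ht => (Finset.mem_sdiff.mp (hTB ht)).2
  have hd12 : Disjoint P1 P2 := by
    rw [Finset.disjoint_left]
    intro p h1 h2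
    obtain ⟨hp, h1⟩ := Finset.mem_filter.mp h1
    obtain ⟨-, h2⟩ := Finset.mem_filter.mp h2
    obtain ⟨x, hx, y, hy, hxy, rfl⟩ := hpair p hp
    simp only [Finset.mem_insert, Finset.mem_singleton, forall_eq_or_imp, forall_eq,
      exists_eq_or_imp, exists_eq_left] at h1 h2
    tauto
  have hd13 : Disjoint P1 P3 := by
    rw [Finset.disjoint_left]
    intro p h1 h2
    obtain ⟨hp, h1⟩ := Finset.mem_filter.mp h1
    obtain ⟨-, h2⟩ := Finset.mem_filter.mp h2
    obtain ⟨x, hx, y, hy, hxy, rfl⟩ := hpair p hp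
    simp only [Finset.mem_insert, Finset.mem_singleton, forall_eq_or_imp, forall_eq,
      exists_eq_or_imp, exists_eq_left] at h1 h2
    have e1 := hTB1 x
    have e2 := hTB1 y
    have e3 : x ∈ TB → c x ≠ 0 := fun h => by rw [e1 h]; norm_num
    have e4 : y ∈ TB → c y ≠ 0 := fun h => by rw [e2 h]; norm_num
    tauto
  have hd23 : Disjoint P2 P3 := by
    rw [Finset.disjoint_left]
    intro p h1 h2
    obtain ⟨hp, h1⟩ := Finset.mem_filter.mp h1
    obtain ⟨-, h2⟩ := Finset.mem_filter.mp h2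
    obtain ⟨x, hx, y, hy, hxy, rfl⟩ := hpair p hp
    simp only [Finset.mem_insert, Finset.mem_singleton, forall_eq_or_imp, forall_eq,
      exists_eq_or_imp, exists_eq_left] at h1 h2
    have e1 : 2 ≤ c x → ¬ c x < 2 := fun h => by omega
    have e2 : 2 ≤ c y → ¬ c y < 2 := fun h => by omega
    tauto
  -- sizes
  set T0 := (W \ Q).filter (fun t => c t = 0) with hT0
  set T2 := (W \ Q).filter (fun t => 2 ≤ c t) with hT2
  set TL := (W \ Q).filter (fun t => c t < 2) with hTL
  set T1 := ((W \ Q) \ TB).filter (fun t => c t ≠ 0) with hT1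
  have hT0c : (T0.card : ℝ) ≤ (25001 / 100000) * r := by
    refine le_trans ?_ (hown 0 (by norm_num))
    have : T0 ⊆ W.filter (fun w => c w = 0) := by
      intro t ht
      rw [hT0, Finset.mem_filter, Finset.mem_sdiff] at ht
      exact Finset.mem_filter.mpr ⟨ht.1.1, ht.2⟩
    exact_mod_cast Finset.card_le_card this
  have hT2c : (T2.card : ℝ) ≤ (26002 / 100000) * r := by
    have h1 : T2.card + (Q.filter (fun s => 2 ≤ c s)).card ≤
        (W.filter (fun w => c w = 2)).card + (W.filter (fun w => c w = 3)).card := by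
      rw [← Finset.card_union_of_disjoint (by
        rw [Finset.disjoint_left]
        intro v h2 h3
        rw [hT2, Finset.mem_filter, Finset.mem_sdiff] at h2
        exact h2.1.2 (Finset.mem_filter.mp h3).1), ← Finset.card_union_of_disjoint (by
        rw [Finset.disjoint_left]
        intro v h2 h3
        have h2' := (Finset.mem_filter.mp h2).2
        have h3' := (Finset.mem_filter.mp h3).2
        omega)]
      apply Finset.card_le_card
      intro v hv
      have h4 := hS.c4 v
      have h5 : v ∈ W ∧ 2 ≤ c v := by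
        rcases Finset.mem_union.mp hv with h | h
        · rw [hT2, Finset.mem_filter, Finset.mem_sdiff] at h
          exact ⟨h.1.1, h.2⟩
        · exact ⟨hQW (Finset.mem_filter.mp h).1, (Finset.mem_filter.mp h).2⟩
      rw [Finset.mem_union, Finset.mem_filter, Finset.mem_filter]
      rcases Nat.lt_or_ge (c v) 3 with h | h
      · exact Or.inl ⟨h5.1, by omega⟩
      · exact Or.inr ⟨h5.1, by omega⟩
    have h1' : (T2.card : ℝ) + (Q.filter (fun s => 2 ≤ c s)).card ≤
        (W.filter (fun w => c w = 2)).card + (W.filter (fun w => c w = 3)).card := by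
      exact_mod_cast h1
    have := hown 2 (by norm_num)
    have := hown 3 (by norm_num)
    linarith
  have hTLc : (TL.card : ℝ) ≤ (50002 / 100000) * r := by
    have h1 : TL.card ≤
        (W.filter (fun w => c w = 0)).card + (W.filter (fun w => c w = 1)).card := by
      rw [← Finset.card_union_of_disjoint (by
        rw [Finset.disjoint_left]
        intro v h2 h3
        have h2' := (Finset.mem_filter.mp h2).2
        have h3' := (Finset.mem_filter.mp h3).2
        omega)]
      apply Finset.card_le_card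
      intro v hv
      rw [hTL, Finset.mem_filter, Finset.mem_sdiff] at hv
      rw [Finset.mem_union, Finset.mem_filter, Finset.mem_filter]
      rcases Nat.lt_or_ge (c v) 1 with h | h
      · exact Or.inl ⟨hv.1.1, by omega⟩
      · exact Or.inr ⟨hv.1.1, by omega⟩
    have h1' : (TL.card : ℝ) ≤
        (W.filter (fun w => c w = 0)).card + (W.filter (fun w => c w = 1)).card := by
      exact_mod_cast h1
    have := hown 0 (by norm_num)
    have := hown 1 (by norm_num)
    linarith
  have hT1c : (T1.card : ℝ) ≤ (39105 / 100000) * r := by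
    have h1 : T1.card + TB.card ≤ (W.filter (fun w => c w = 1)).card + T2.card := by
      rw [← Finset.card_union_of_disjoint (by
        rw [Finset.disjoint_left]
        intro v h2 h3
        rw [hT1, Finset.mem_filter, Finset.mem_sdiff] at h2
        exact h2.1.2 h3), ← Finset.card_union_of_disjoint (by
        rw [Finset.disjoint_left]
        intro v h2 h3
        have h2' := (Finset.mem_filter.mp h2).2
        have h3' := (Finset.mem_filter.mp h3).2
        omega)]
      apply Finset.card_le_card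
      intro v hv
      rw [Finset.mem_union, hT2, Finset.mem_filter, Finset.mem_filter]
      rcases Finset.mem_union.mp hv with h | h
      · rw [hT1, Finset.mem_filter, Finset.mem_sdiff] at h
        obtain ⟨⟨h2, -⟩, h3⟩ := h
        rcases Nat.lt_or_ge (c v) 2 with h4 | h4
        · exact Or.inl ⟨(Finset.mem_sdiff.mp h2).1, by omega⟩
        · exact Or.inr ⟨h2, h4⟩
      · exact Or.inl ⟨(Finset.mem_sdiff.mp (hTB h)).1, hTB1 v h⟩
    have h1' : (T1.card : ℝ) + TB.card ≤ (W.filter (fun w => c w = 1)).card + T2.card := by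
      exact_mod_cast h1
    have := hown 1 (by norm_num)
    linarith
  have hq0 : (0 : ℝ) ≤ Q.card := Nat.cast_nonneg _
  -- `P1`
  have hP1c : (P1.card : ℝ) ≤ (97 / 1000) * (r : ℝ) ^ 2 := by
    have hsub : P1 ⊆ Q.powersetCard 2 ∪ (Q ×ˢ T0).image (fun q => ({q.1, q.2} : Finset V)) := by
      intro p hp
      rw [hP1, Finset.mem_filter] at hp
      obtain ⟨hp, h1⟩ := hp
      obtain ⟨x, hx, y, hy, hxy, rfl⟩ := hpair p hp
      rw [Finset.mem_union]
      rcases h1 with h1 | ⟨s, hs, hsQ, t, ht, htQ, hct⟩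
      · left
        rw [Finset.mem_powersetCard]
        exact ⟨h1, Finset.card_pair hxy⟩
      · right
        have hst : s ≠ t := fun h => htQ (h ▸ hsQ)
        have htW : t ∈ W := by
          rcases Finset.mem_insert.mp ht with h | h
          · rw [h]; exact hx
          · rw [Finset.mem_singleton.mp h]; exact hy
        refine Finset.mem_image.mpr ⟨(s, t), Finset.mem_product.mpr ⟨hsQ, ?_⟩, ?_⟩
        · rw [hT0, Finset.mem_filter, Finset.mem_sdiff]
          exact ⟨⟨htW, htQ⟩, hct⟩
        · apply Finset.eq_of_subset_of_card_le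
          · intro z hz
            rcases Finset.mem_insert.mp hz with h | h
            · rw [h]; exact hs
            · rw [Finset.mem_singleton.mp h]; exact ht
          · rw [Finset.card_pair hxy, Finset.card_pair hst]
    have h1 := (Finset.card_le_card hsub).trans (Finset.card_union_le _ _)
    have h1' : (P1.card : ℝ) ≤ (Q.powersetCard 2).card +
        ((Q ×ˢ T0).image (fun q => ({q.1, q.2} : Finset V))).card := by exact_mod_cast h1
    have h2 := card_two_le Q
    have h3 := card_pairs_le Q T0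
    have h4 : (Q.card : ℝ) * T0.card ≤ (256 / 1000 * r) * (25001 / 100000 * r) :=
      mul_le_mul hQc hT0c (Nat.cast_nonneg _) (by positivity)
    have h5 : (Q.card : ℝ) ^ 2 ≤ (256 / 1000 * r) ^ 2 := pow_le_pow_left₀ hq0 hQc 2
    nlinarith
  have hP2c : (P2.card : ℝ) ≤ (134 / 1000) * (r : ℝ) ^ 2 := by
    have hsub : P2 ⊆ T2.powersetCard 2 ∪ (Q ×ˢ T1).image (fun q => ({q.1, q.2} : Finset V)) := by
      intro p hp
      rw [hP2, Finset.mem_filter] at hp
      obtain ⟨hp, h1⟩ := hp
      obtain ⟨x, hx, y, hy, hxy, rfl⟩ := hpair p hp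
      rw [Finset.mem_union]
      have hinW : ∀ z ∈ ({x, y} : Finset V), z ∈ W := by
        intro z hz
        rcases Finset.mem_insert.mp hz with h | h
        · rw [h]; exact hx
        · rw [Finset.mem_singleton.mp h]; exact hy
      rcases h1 with ⟨s, hs, hsQ, t, ht, htQ, htB, hct⟩ | h1
      · right
        have hst : s ≠ t := fun h => htQ (h ▸ hsQ)
        refine Finset.mem_image.mpr ⟨(s, t), Finset.mem_product.mpr ⟨hsQ, ?_⟩, ?_⟩
        · rw [hT1, Finset.mem_filter, Finset.mem_sdiff, Finset.mem_sdiff]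
          exact ⟨⟨⟨hinW t ht, htQ⟩, htB⟩, hct⟩
        · apply Finset.eq_of_subset_of_card_le
          · intro z hz
            rcases Finset.mem_insert.mp hz with h | h
            · rw [h]; exact hs
            · rw [Finset.mem_singleton.mp h]; exact ht
          · rw [Finset.card_pair hxy, Finset.card_pair hst]
      · left
        rw [Finset.mem_powersetCard]
        refine ⟨fun z hz => ?_, Finset.card_pair hxy⟩
        rw [hT2, Finset.mem_filter, Finset.mem_sdiff]
        exact ⟨⟨hinW z hz, (h1 z hz).1⟩, (h1 z hz).2⟩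
    have h1 := (Finset.card_le_card hsub).trans (Finset.card_union_le _ _)
    have h1' : (P2.card : ℝ) ≤ (T2.powersetCard 2).card +
        ((Q ×ˢ T1).image (fun q => ({q.1, q.2} : Finset V))).card := by exact_mod_cast h1
    have h2 := card_two_le T2
    have h3 := card_pairs_le Q T1
    have h4 : (Q.card : ℝ) * T1.card ≤ (256 / 1000 * r) * (39105 / 100000 * r) :=
      mul_le_mul hQc hT1c (Nat.cast_nonneg _) (by positivity)
    have h5 : (T2.card : ℝ) ^ 2 ≤ (26002 / 100000 * r) ^ 2 :=
      pow_le_pow_left₀ (Nat.cast_nonneg _) hT2c 2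
    nlinarith
  have hP3c : (P3.card : ℝ) ≤ (159 / 1000) * (r : ℝ) ^ 2 := by
    have hsub : P3 ⊆ TL.powersetCard 2 ∪ (Q ×ˢ TB).image (fun q => ({q.1, q.2} : Finset V)) := by
      intro p hp
      rw [hP3, Finset.mem_filter] at hp
      obtain ⟨hp, h1⟩ := hp
      obtain ⟨x, hx, y, hy, hxy, rfl⟩ := hpair p hp
      rw [Finset.mem_union]
      have hinW : ∀ z ∈ ({x, y} : Finset V), z ∈ W := by
        intro z hz
        rcases Finset.mem_insert.mp hz with h | h
        · rw [h]; exact hx
        · rw [Finset.mem_singleton.mp h]; exact hy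
      rcases h1 with ⟨s, hs, hsQ, t, ht, htQ, htB⟩ | h1
      · right
        have hst : s ≠ t := fun h => htQ (h ▸ hsQ)
        refine Finset.mem_image.mpr ⟨(s, t), Finset.mem_product.mpr ⟨hsQ, htB⟩, ?_⟩
        apply Finset.eq_of_subset_of_card_le
        · intro z hz
          rcases Finset.mem_insert.mp hz with h | h
          · rw [h]; exact hs
          · rw [Finset.mem_singleton.mp h]; exact ht
        · rw [Finset.card_pair hxy, Finset.card_pair hst]
      · left
        rw [Finset.mem_powersetCard]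
        refine ⟨fun z hz => ?_, Finset.card_pair hxy⟩
        rw [hTL, Finset.mem_filter, Finset.mem_sdiff]
        exact ⟨⟨hinW z hz, (h1 z hz).1⟩, (h1 z hz).2⟩
    have h1 := (Finset.card_le_card hsub).trans (Finset.card_union_le _ _)
    have h1' : (P3.card : ℝ) ≤ (TL.powersetCard 2).card +
        ((Q ×ˢ TB).image (fun q => ({q.1, q.2} : Finset V))).card := by exact_mod_cast h1
    have h2 := card_two_le TL
    have h3 := card_pairs_le Q TB
    have h4 : (Q.card : ℝ) * TB.card ≤ (256 / 1000 * r) * (131 / 1000 * r) :=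
      mul_le_mul hQc hTBu (Nat.cast_nonneg _) (by positivity)
    have h5 : (TL.card : ℝ) ^ 2 ≤ (50002 / 100000 * r) ^ 2 :=
      pow_le_pow_left₀ (Nat.cast_nonneg _) hTLc 2
    nlinarith
  have hr2 : (0 : ℝ) ≤ (r : ℝ) ^ 2 := by positivity
  have k1 : P1.card ≤ Z1.card := by
    have h1 := hZi 1 (by norm_num)
    rw [← hZ1] at h1
    have h2 : (P1.card : ℝ) ≤ Z1.card := by linarith
    exact_mod_cast h2
  have k2 : P1.card + P2.card ≤ ZA.card := by
    have h2 : (P1.card : ℝ) + P2.card ≤ ZA.card := by linarith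
    exact_mod_cast h2
  have k3 : P3.card ≤ ZB.card := by
    have h2 : (P3.card : ℝ) ≤ ZB.card := by linarith
    exact_mod_cast h2
  have hZ1A : Z1 ⊆ ZA := by
    intro v hv
    rw [hZ1, Finset.mem_filter] at hv
    rw [hZA, Finset.mem_filter]
    exact ⟨hv.1, by omega⟩
  obtain ⟨g, hinj, himg, hg1, hg2, hg3⟩ := labC P P1 P2 P3 Z1 ZA ZB (Finset.filter_subset _ _)
    (Finset.filter_subset _ _) (Finset.filter_subset _ _) hd12 hd13 hd23 hZ1A hAB hPc k1 k2 k3
  have hgA : ∀ p ∈ P1, c (g p) = 1 := fun p hp => (Finset.mem_filter.mp (hg1 p hp)).2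
  have hgA2 : ∀ p ∈ P2, c (g p) < 2 := fun p hp => (Finset.mem_filter.mp (hg2 p hp)).2
  have hgB : ∀ p ∈ P3, 2 ≤ c (g p) := fun p hp => (Finset.mem_filter.mp (hg3 p hp)).2
  have hQP1 : ∀ s ∈ Q, ∀ t ∈ W \ Q, c t = 0 → ({s, t} : Finset V) ∈ P1 := by
    intro s hs t ht hct
    obtain ⟨htW, htQ⟩ := Finset.mem_sdiff.mp ht
    rw [hP1, Finset.mem_filter]
    refine ⟨hmemP s (hQW hs) t htW (fun h => htQ (h ▸ hs)), Or.inr ⟨s, by simp, hs, t, by simp,
      htQ, hct⟩⟩
  refine ⟨fun x y => g {x, y}, ⟨hQW, hQ1, hTB, hTB1, ?_, ?_, ?_, ?_, ?_, ?_, ?_, ?_, ?_⟩⟩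
  · intro x y
    show g {x, y} = g {y, x}
    rw [Finset.pair_comm]
  · intro x hx y hy hxy
    have h1 : g {x, y} ∈ P.image g := Finset.mem_image_of_mem g (hmemP x hx y hy hxy)
    rw [himg, hunion] at h1
    exact h1
  · intro x hx y hy x' hx' y' hy' hxy hxy' heq
    have h1 := hinj (hmemP x hx y hy hxy) (hmemP x' hx' y' hy' hxy') heq
    have h2 : x ∈ ({x', y'} : Finset V) := by rw [← h1]; simp
    have h3 : y ∈ ({x', y'} : Finset V) := by rw [← h1]; simp
    simp only [Finset.mem_insert, Finset.mem_singleton] at h2 h3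
    rcases h2 with h2 | h2 <;> rcases h3 with h3 | h3
    · exact absurd (h2.trans h3.symm) hxy
    · exact Or.inl ⟨h2, h3⟩
    · exact Or.inr ⟨h2, h3⟩
    · exact absurd (h2.trans h3.symm) hxy
  · intro v hv
    have h1 : v ∈ P.image g := by rw [himg, hunion]; exact hv
    obtain ⟨p, hp, hpv⟩ := Finset.mem_image.mp h1
    obtain ⟨x, hx, y, hy, hxy, rfl⟩ := hpair p hp
    exact ⟨x, hx, y, hy, hxy, hpv⟩
  · intro s hs t ht htB
    obtain ⟨htW, htQ⟩ := Finset.mem_sdiff.mp ht
    have hst : s ≠ t := fun h => htQ (h ▸ hs)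
    rcases Nat.eq_zero_or_pos (c t) with h | h
    · have := hgA _ (hQP1 s hs t ht h)
      omega
    · refine hgA2 _ ?_
      rw [hP2, Finset.mem_filter]
      exact ⟨hmemP s (hQW hs) t htW hst, Or.inl ⟨s, by simp, hs, t, by simp, htQ, htB,
        by omega⟩⟩
  · intro s hs t ht
    obtain ⟨htW, htQ⟩ := Finset.mem_sdiff.mp (hTB ht)
    have hst : s ≠ t := fun h => htQ (h ▸ hs)
    refine hgB _ ?_
    rw [hP3, Finset.mem_filter]
    exact ⟨hmemP s (hQW hs) t htW hst, Or.inl ⟨s, by simp, hs, t, by simp, htQ, ht⟩⟩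
  · intro s hs s' hs' hss
    refine hgA _ ?_
    rw [hP1, Finset.mem_filter]
    refine ⟨hmemP s (hQW hs) s' (hQW hs') hss, Or.inl ?_⟩
    intro z hz
    rcases Finset.mem_insert.mp hz with h | h
    · rw [h]; exact hs
    · rw [Finset.mem_singleton.mp h]; exact hs'
  · intro s hs t ht hct
    exact hgA _ (hQP1 s hs t ht hct)
  · intro t ht t' ht' htt hcc
    obtain ⟨htW, htQ⟩ := Finset.mem_sdiff.mp ht
    obtain ⟨htW', htQ'⟩ := Finset.mem_sdiff.mp ht'
    rcases Nat.lt_or_ge (c t) 2 with h | h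
    · have h1 : 2 ≤ c (g {t, t'}) := by
        refine hgB _ ?_
        rw [hP3, Finset.mem_filter]
        refine ⟨hmemP t htW t' htW' htt, Or.inr ?_⟩
        intro z hz
        rcases Finset.mem_insert.mp hz with h' | h'
        · rw [h']; exact ⟨htQ, h⟩
        · rw [Finset.mem_singleton.mp h']; exact ⟨htQ', by omega⟩
      omega
    · have h1 : c (g {t, t'}) < 2 := by
        refine hgA2 _ ?_
        rw [hP2, Finset.mem_filter]
        refine ⟨hmemP t htW t' htW' htt, Or.inr ?_⟩
        intro z hz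
        rcases Finset.mem_insert.mp hz with h' | h'
        · rw [h']; exact ⟨htQ, h⟩
        · rw [Finset.mem_singleton.mp h']; exact ⟨htQ', by omega⟩
      omega

end Pool.Agent.CH4
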