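import Pool.Agent.CH4.Basic

/-!
# CH4/ProbEx: the decomposition problem after removing the reserved pairs

`G = gad m W d`, `M = ms W lam d`.
`symm`: `adj` is symmetric and `d h` is an involution.  `MW`: labels are in `Zall`, outside `W`
(`Zall_notin4`); moved points of `d h` are outside `W` by `adj`.
`Mcard`: at most `r + 2 r`.
`#{h ∈ W : v ∈ M h}` for `v ∉ W`: if `v ∈ Zall` then `v = lam x y` for a unique pair `{x, y}` (`surj`, `inj`),
so `v ∈ Zl h` exactly for `h = x, y`, and no `d h` moves `v`: the number is 2.  If `v ∉ Zall`, it is the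
number of the `h ∈ W` moving `v`, which is 0 or 1 (`disj`).
`deg`: `#{u : adj v u}` is `r - 2` for `v ∈ Zall` (`deg_add_two4`), and `r` otherwise (`deg_eq`).  The pairs
`v, u` with `adj` and not `G` are the `u = d h v ≠ v`: none if `v ∈ Zall`, and their number is the number of
`h` moving `v`, i.e. 0 or 1, in general.
`mdeg`: neighbours in `Zall`: at most 6 (`zdeg`), neighbours which are moved by some `d h`: at most 2
(`far`).
`cdeg`: the `u` with `adj v u`, `c u = i` are the `m.mul v w`, `w ∈ W`, not in `W` (`nb_eq`), so their number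
is `#{w ∈ W : c (m v w) = i}` minus at most 2 (`inW_le_two4`), then minus at most 1 for the reserved pair
at `v`: `| - r/4| ≤ 10⁻¹⁴ r + 3 ≤ 10⁻¹³ r`.
`bal`: `A \ M h = {u ∈ A : u ∉ Zl h, d h u = u}`.
-/

set_option autoImplicit false

namespace Pool.Agent.CH4
open Finset Pool.Agent.CHS

section
variable {V : Type} [Fintype V] [DecidableEq V] {m : SQ V} {c : V → ℕ} {W Q TB A B : Finset V}
  {lam d : V → V → V}

private theorem mem_Zl4 (h v : V) : v ∈ Zl W lam h ↔ ∃ w ∈ W, w ≠ h ∧ lam h w = v := by
  unfold Zl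
  simp only [Finset.mem_image, Finset.mem_erase]
  constructor
  · rintro ⟨w, ⟨h1, h2⟩, h3⟩; exact ⟨w, h2, h1, h3⟩
  · rintro ⟨w, h2, h1, h3⟩; exact ⟨w, ⟨h1, h2⟩, h3⟩

private theorem mem_ms4 (h v : V) : v ∈ ms W lam d h ↔ v ∈ Zl W lam h ∨ d h v ≠ v := by
  unfold ms
  rw [mem_union, mem_filter]
  simp

private theorem Zl_sub (hL : Lab4 m c W Q TB lam) {h v : V} (hh : h ∈ W) (hv : v ∈ Zl W lam h) :
    v ∈ Zall m W := by
  obtain ⟨w, hw, hne, rfl⟩ := (mem_Zl4 h v).1 hv
  exact hL.mem h hh w hw (Ne.symm hne)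

private theorem fix_Z (hR : Res m c W Q A B lam d) {v : V} (hv : v ∈ Zall m W) {h : V}
    (hh : h ∈ W) : d h v = v := by
  by_contra hc
  exact (hR.edge h hh v hc).2.2.2 hv

/-- the `h` missing a point of `Zall` -/
private theorem cnt_Z (hL : Lab4 m c W Q TB lam) (hR : Res m c W Q A B lam d) {v : V}
    (hv : v ∈ Zall m W) : (W.filter (fun h => v ∈ ms W lam d h)).card = 2 := by
  obtain ⟨x, hx, y, hy, hxy, e⟩ := hL.surj v hv
  have : W.filter (fun h => v ∈ ms W lam d h) = {x, y} := by
    ext t
    simp only [Finset.mem_filter, Finset.mem_insert, Finset.mem_singleton, mem_ms4, mem_Zl4]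
    constructor
    · rintro ⟨ht, ⟨w, hw, hne, he⟩ | h1⟩
      · rcases hL.inj t ht w hw x hx y hy (Ne.symm hne) hxy (he.trans e.symm) with
          ⟨h1, -⟩ | ⟨h1, -⟩
        · exact Or.inl h1
        · exact Or.inr h1
      · exact absurd (fix_Z hR hv ht) h1
    · rintro (rfl | rfl)
      · exact ⟨hx, Or.inl ⟨y, hy, Ne.symm hxy, e⟩⟩
      · exact ⟨hy, Or.inl ⟨x, hx, hxy, by rw [hL.symm]; exact e⟩⟩
  rw [this, Finset.card_pair hxy]

/-- the `h` missing a point outside `Zall` -/
private theorem cnt_N (hL : Lab4 m c W Q TB lam) {v : V} (hv : v ∉ Zall m W) :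
    W.filter (fun h => v ∈ ms W lam d h) = W.filter (fun h => d h v ≠ v) := by
  apply Finset.filter_congr
  intro h hh
  rw [mem_ms4]
  constructor
  · rintro (h1 | h1)
    · exact absurd (Zl_sub hL hh h1) hv
    · exact h1
  · exact Or.inr

private theorem mov_eq (hR : Res m c W Q A B lam d) {v h h' : V} (hh : h ∈ W) (hh' : h' ∈ W)
    (h1 : d h v ≠ v) (h2 : d h' v ≠ v) : h = h' := by
  by_contra hne
  exact h2 (hR.disj h hh h' hh' hne v h1)

private theorem mov_le (hR : Res m c W Q A B lam d) (v : V) :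
    (W.filter (fun h => d h v ≠ v)).card ≤ 1 := by
  rw [Finset.card_le_one]
  intro a ha b hb
  rw [mem_filter] at ha hb
  exact mov_eq hR ha.1 hb.1 ha.2 hb.2

/-- the reserved pairs at `v` -/
private theorem res_card (hR : Res m c W Q A B lam d) (v : V) :
    (univ.filter (fun u => adj m W v u ∧ ¬ gad m W d v u)).card =
      (W.filter (fun h => d h v ≠ v)).card := by
  have e : univ.filter (fun u => adj m W v u ∧ ¬ gad m W d v u) =
      (W.filter (fun h => d h v ≠ v)).image (fun h => d h v) := by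
    ext u
    simp only [Finset.mem_filter, Finset.mem_univ, true_and, Finset.mem_image]
    constructor
    · rintro ⟨h1, h2⟩
      unfold gad at h2
      push Not at h2
      obtain ⟨h, hh, he⟩ := h2 h1
      refine ⟨h, ⟨hh, ?_⟩, he⟩
      rw [he]
      exact fun h3 => h1.2.2.1 h3.symm
    · rintro ⟨h, ⟨hh, hne⟩, rfl⟩
      refine ⟨(hR.edge h hh v hne).1, ?_⟩
      intro h3
      exact h3.2 h hh rfl
  rw [e]
  apply Finset.card_image_of_injOn
  intro a ha b hb _
  have ha' := mem_filter.1 (mem_coe.1 ha)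
  have hb' := mem_filter.1 (mem_coe.1 hb)
  exact mov_eq hR ha'.1 hb'.1 ha'.2 hb'.2

private theorem gad_card (hR : Res m c W Q A B lam d) (v : V) :
    (univ.filter (fun u => gad m W d v u)).card + (W.filter (fun h => d h v ≠ v)).card =
      (univ.filter (fun u => adj m W v u)).card := by
  rw [← res_card hR v]
  have e1 : univ.filter (fun u => gad m W d v u) =
      (univ.filter (fun u => adj m W v u)).filter (fun u => gad m W d v u) := by
    ext u
    simp only [Finset.mem_filter, Finset.mem_univ, true_and]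
    exact ⟨fun h => ⟨h.1, h⟩, fun h => h.2⟩
  have e2 : univ.filter (fun u => adj m W v u ∧ ¬ gad m W d v u) =
      (univ.filter (fun u => adj m W v u)).filter (fun u => ¬ gad m W d v u) := by
    ext u
    simp only [Finset.mem_filter, Finset.mem_univ, true_and]
  rw [e1, e2]
  exact Finset.card_filter_add_card_filter_not (s := univ.filter (fun u => adj m W v u))
    (fun u => gad m W d v u)

/-- the number of neighbours of a given colour -/
private theorem col_card (hW : Good4 m c W) (hR : Res m c W Q A B lam d) (v : V) (hv : v ∉ W)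
    (i : ℕ) :
    (univ.filter (fun u => gad m W d v u ∧ c u = i)).card ≤
      (W.filter (fun w => c (m.mul v w) = i)).card ∧
    (W.filter (fun w => c (m.mul v w) = i)).card ≤
      (univ.filter (fun u => gad m W d v u ∧ c u = i)).card + 3 := by
  have e1 : univ.filter (fun u => adj m W v u ∧ c u = i) =
      (W.filter (fun w => m.mul v w ∉ W ∧ c (m.mul v w) = i)).image (m.mul v) := by
    ext u
    have h1 : u ∈ univ.filter (fun u => adj m W v u) ↔
        u ∈ (W.filter (fun w => m.mul v w ∉ W)).image (m.mul v) := by rw [nb_eq m W v hv]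
    simp only [Finset.mem_filter, Finset.mem_univ, true_and, Finset.mem_image] at h1 ⊢
    constructor
    · rintro ⟨h2, h3⟩
      obtain ⟨w, ⟨hw, hw2⟩, rfl⟩ := h1.1 h2
      exact ⟨w, ⟨hw, hw2, h3⟩, rfl⟩
    · rintro ⟨w, ⟨hw, hw2, h3⟩, rfl⟩
      exact ⟨h1.2 ⟨w, ⟨hw, hw2⟩, rfl⟩, h3⟩
  have e2 : (univ.filter (fun u => adj m W v u ∧ c u = i)).card =
      (W.filter (fun w => m.mul v w ∉ W ∧ c (m.mul v w) = i)).card := by
    rw [e1, Finset.card_image_of_injective _ (mul_inj m v)]
  have l1 : (univ.filter (fun u => gad m W d v u ∧ c u = i)).card ≤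
      (univ.filter (fun u => adj m W v u ∧ c u = i)).card := by
    apply Finset.card_le_card
    intro u hu
    rw [mem_filter] at hu ⊢
    exact ⟨hu.1, hu.2.1.1, hu.2.2⟩
  have l2 : (W.filter (fun w => m.mul v w ∉ W ∧ c (m.mul v w) = i)).card ≤
      (W.filter (fun w => c (m.mul v w) = i)).card := by
    apply Finset.card_le_card
    intro u hu
    rw [mem_filter] at hu ⊢
    exact ⟨hu.1, hu.2.2⟩
  have l3 : (W.filter (fun w => c (m.mul v w) = i)).card ≤
      (W.filter (fun w => m.mul v w ∉ W ∧ c (m.mul v w) = i)).card +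
      (W.filter (fun w => m.mul v w ∈ W)).card := by
    refine le_trans (Finset.card_le_card ?_) (Finset.card_union_le _ _)
    intro u hu
    rw [mem_union, mem_filter, mem_filter]
    rw [mem_filter] at hu
    by_cases h : m.mul v u ∈ W
    · exact Or.inr ⟨hu.1, h⟩
    · exact Or.inl ⟨hu.1, h, hu.2⟩
  have l4 : (univ.filter (fun u => adj m W v u ∧ c u = i)).card ≤
      (univ.filter (fun u => gad m W d v u ∧ c u = i)).card +
      (univ.filter (fun u => adj m W v u ∧ ¬ gad m W d v u)).card := by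
    refine le_trans (Finset.card_le_card ?_) (Finset.card_union_le _ _)
    intro u hu
    rw [mem_union, mem_filter, mem_filter]
    rw [mem_filter] at hu
    by_cases h : gad m W d v u
    · exact Or.inl ⟨hu.1, h, hu.2.2⟩
    · exact Or.inr ⟨hu.1, hu.2.1, h⟩
  have l5 := inW_le_two4 hW v hv
  have l6 := res_card hR v
  have l7 := mov_le hR v
  omega

end

theorem probEx : ∃ r0 : ℕ, ∀ r ≥ r0, ∀ (V : Type) [Fintype V] [DecidableEq V] (m : SQ V)
    (c : V → ℕ) (W Q TB A B : Finset V) (lam d : V → V → V), Sz c W r → Good4 m c W →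
    Lab4 m c W Q TB lam → PartAB c W A B → Res m c W Q A B lam d →
    Prob m c W A B (gad m W d) (ms W lam d) := by
  refine ⟨10 ^ 14, ?_⟩
  intro r hr V _ _ m c W Q TB A B lam d hS hW hL hP hR
  have hmW : ∀ h ∈ W, ∀ v ∈ ms W lam d h, v ∉ W := by
    intro h hh v hv
    rcases (mem_ms4 h v).1 hv with h1 | h1
    · exact Zall_notin4 hW v (Zl_sub hL hh h1)
    · exact (hR.edge h hh v h1).1.1
  refine ⟨hP, ?_, fun u v h => h.1, hmW, ?_, ?_, ?_, ?_, ?_, ?_, hW.expand⟩
  · rintro u v ⟨h1, h2⟩
    refine ⟨adj_symm m W u v h1, fun h hh he => h2 h hh ?_⟩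
    rw [← he, hR.inv]
  · intro h hh
    have h1 : (Zl W lam h).card ≤ W.card :=
      Finset.card_image_le.trans (Finset.card_le_card (Finset.erase_subset _ _))
    have h2 := hR.small h hh
    have h3 : (ms W lam d h).card ≤ (Zl W lam h).card +
      (univ.filter (fun u => d h u ≠ u)).card := Finset.card_union_le _ _
    omega
  · intro v
    by_cases hz : v ∈ Zall m W
    · exact (cnt_Z hL hR hz).le
    · rw [cnt_N hL hz]
      exact (mov_le hR v).trans (by norm_num)
  · intro h hh
    have e : ∀ X : Finset V, X \ ms W lam d h =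
        X.filter (fun u => u ∉ Zl W lam h ∧ d h u = u) := by
      intro X
      ext u
      rw [mem_sdiff, mem_filter, mem_ms4]
      push Not
      rfl
    rw [e, e]
    exact hR.bal h hh
  · intro v hv
    have h1 := gad_card hR v
    by_cases hz : v ∈ Zall m W
    · have h2 := cnt_Z hL hR hz
      have h3 := deg_add_two4 hW v hz
      have h4 : W.filter (fun h => d h v ≠ v) = ∅ := by
        rw [Finset.filter_eq_empty_iff]
        intro h hh
        rw [not_not]
        exact fix_Z hR hz hh
      rw [h4, Finset.card_empty] at h1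
      omega
    · have h2 := deg_eq m W v hv hz
      rw [cnt_N hL hz]
      omega
  · intro v hv
    have h1 := hW.zdeg v hv
    have h2 := hR.far v hv
    have h3 : (univ.filter (fun u => gad m W d v u ∧ u ∈ W.biUnion (ms W lam d))).card ≤
        (univ.filter (fun u => adj m W v u ∧ u ∈ Zall m W)).card +
        (univ.filter (fun u => adj m W v u ∧ ∃ h ∈ W, d h u ≠ u)).card := by
      refine le_trans (Finset.card_le_card ?_) (Finset.card_union_le _ _)
      intro u hu
      rw [mem_union, mem_filter, mem_filter]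
      rw [mem_filter, mem_biUnion] at hu
      obtain ⟨-, hg, h, hh, hm⟩ := hu
      rcases (mem_ms4 h u).1 hm with h4 | h4
      · exact Or.inl ⟨mem_univ u, hg.1, Zl_sub hL hh h4⟩
      · exact Or.inr ⟨mem_univ u, hg.1, h, hh, h4⟩
    omega
  · intro v hv i hi
    obtain ⟨h1, h2⟩ := col_card hW hR v hv i
    have h3 := hW.hit v i hi
    have h4 : ((univ.filter (fun u => gad m W d v u ∧ c u = i)).card : ℝ) ≤
      ((W.filter (fun w => c (m.mul v w) = i)).card : ℝ) := by exact_mod_cast h1
    have h5 : ((W.filter (fun w => c (m.mul v w) = i)).card : ℝ) ≤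
      ((univ.filter (fun u => gad m W d v u ∧ c u = i)).card : ℝ) + 3 := by exact_mod_cast h2
    have h6 : (10 : ℝ) ^ 14 ≤ (W.card : ℝ) := by
      rw [hS.Wr]
      exact_mod_cast hr
    rw [abs_le] at h3 ⊢
    constructor
    · have : (3 : ℝ) ≤ (1 / 10 ^ 13 - 1 / 10 ^ 14) * (W.card : ℝ) := by
        calc (3 : ℝ) ≤ (1 / 10 ^ 13 - 1 / 10 ^ 14) * 10 ^ 14 := by norm_num
          _ ≤ _ := mul_le_mul_of_nonneg_left h6 (by norm_num)
      linarith [h3.1]
    · have : (0 : ℝ) ≤ (1 / 10 ^ 13 - 1 / 10 ^ 14) * (W.card : ℝ) := by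
        apply mul_nonneg (by norm_num)
        positivity
      linarith [h3.2]

end Pool.Agent.CH4
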