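import Pool.Agent.CH4.Far

/-!
# CH4/ResEx: the reserved matchings

`r = |W|`, `β = |TB|`.  For `h ∈ W`: `Zl W lam h` has exactly `r - 1` points (`Lab4.inj`), all in `Zall`,
outside `W`; let `β h` be the number of those in `B`, so `r - 1 - β h` of them are in `A`.
For `s ∈ Q`: the labels in `B` are exactly the `lam s t`, `t ∈ TB` (`lA`, `lB`, `lQ`), so `β s = β`.
Let `k h = |β h - β| ≤ r - 1` (natural number) and `τ h = 0` if `β h ≥ β`, `τ h = 2` otherwise.
Apply `farEx` with `ι = {h // h ∈ W} × Fin r` (`r²` elements), `τ (h, j) = τ h`, and let `d h` exchange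
`x (h, j)` and `y (h, j)` for all `j < k h` (`h ∈ W`; `d h = id` for `h ∉ W`).  All the points `x (h, j)`,
`y (h, j)` are different: `x`'s and `y`'s by the second property, `x (h, j) ≠ y (h', j')` by the colours
(`τ ∈ {0, 2}`, `τ + 1 ∈ {1, 3}`).
`edge`: `adj`, inside pair: colours `0, 1` or `2, 3`; not in `Zall`.  `Qfix`: `k s = 0`.  `small`: `2 k h`
points.  `far`: the moved points are among the `x`, `y`.
`bal`: `#{u ∈ A : u ∉ Zl h, d h u = u} = |A| - (r - 1 - β h) - 2 (β h - β)` if `β h ≥ β` (the moved points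
are in `A`, outside `Zall`), `|A| - (r - 1 - β h)` if `β h < β`; in `B`: `|B| - β h`, respectively
`|B| - β h - 2 (β - β h)`.  They are equal because `|A| + 1 + 2 β = |B| + r`.
-/

set_option autoImplicit false

namespace Pool.Agent.CH4
open Finset Pool.Agent.CHS

/-- exchange `x j` and `y j` for all `j ∈ J` -/
private theorem re_swap {V ι : Type} (x y : ι → V) (hx : ∀ i j, i ≠ j → x i ≠ x j)
    (hy : ∀ i j, i ≠ j → y i ≠ y j) (hxy : ∀ i j, x i ≠ y j) (J : Finset ι) :
    ∃ f : V → V, (∀ j ∈ J, f (x j) = y j ∧ f (y j) = x j) ∧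
      ∀ u, (∀ j ∈ J, u ≠ x j ∧ u ≠ y j) → f u = u := by
  classical
  have hex : ∀ u : V, ∃ v : V, (∀ j ∈ J, u = x j → v = y j) ∧ (∀ j ∈ J, u = y j → v = x j) ∧
      ((∀ j ∈ J, u ≠ x j ∧ u ≠ y j) → v = u) := by
    intro u
    by_cases h1 : ∃ j ∈ J, u = x j
    · obtain ⟨j, hj, rfl⟩ := h1
      refine ⟨y j, fun j' _ h => ?_, fun j' _ h => absurd h (hxy j j'), fun h => absurd rfl (h j hj).1⟩
      by_contra hc
      exact hx j j' (fun h' => hc (by rw [h'])) h
    · by_cases h2 : ∃ j ∈ J, u = y j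
      · obtain ⟨j, hj, rfl⟩ := h2
        refine ⟨x j, fun j' _ h => absurd h.symm (hxy j' j), fun j' _ h => ?_,
          fun h => absurd rfl (h j hj).2⟩
        by_contra hc
        exact hy j j' (fun h' => hc (by rw [h'])) h
      · exact ⟨u, fun j hj h => absurd ⟨j, hj, h⟩ h1, fun j hj h => absurd ⟨j, hj, h⟩ h2,
          fun _ => rfl⟩
  choose f hf1 hf2 hf3 using hex
  exact ⟨f, fun j hj => ⟨hf1 _ j hj rfl, hf2 _ j hj rfl⟩, hf3⟩

private theorem re_card_fin (r k : ℕ) (hk : k ≤ r) :
    (univ.filter (fun i : Fin r => (i : ℕ) < k)).card = k := by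
  have h1 : (univ.filter (fun i : Fin r => (i : ℕ) < k)).image (fun i : Fin r => (i : ℕ)) =
      Finset.range k := by
    ext t
    simp only [mem_image, mem_filter, mem_univ, true_and, mem_range]
    constructor
    · rintro ⟨i, hi, rfl⟩; exact hi
    · intro ht; exact ⟨⟨t, by omega⟩, ht, rfl⟩
  rw [← Finset.card_image_of_injective _ Fin.val_injective, h1, card_range]

section
variable {V : Type} [Fintype V] [DecidableEq V] {m : SQ V} {c : V → ℕ} {W Q TB A B : Finset V}
  {lam : V → V → V}

private theorem re_inj (hL : Lab4 m c W Q TB lam) {h : V} (hh : h ∈ W) :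
    ∀ w ∈ W.erase h, ∀ w' ∈ W.erase h, lam h w = lam h w' → w = w' := by
  intro w hw w' hw' he
  rw [mem_erase] at hw hw'
  rcases hL.inj h hh w hw.2 h hh w' hw'.2 (Ne.symm hw.1) (Ne.symm hw'.1) he with ⟨-, h1⟩ | ⟨h1, -⟩
  · exact h1
  · exact absurd h1 (Ne.symm hw'.1)

private theorem re_Zcard (hL : Lab4 m c W Q TB lam) {h : V} (hh : h ∈ W) :
    (Zl W lam h).card + 1 = W.card := by
  unfold Zl
  rw [Finset.card_image_of_injOn (fun w hw w' hw' he => re_inj hL hh w hw w' hw' he),
    Finset.card_erase_add_one hh]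

private theorem re_Zall (hL : Lab4 m c W Q TB lam) {h : V} (hh : h ∈ W) :
    ∀ u ∈ Zl W lam h, u ∈ Zall m W := by
  intro u hu
  unfold Zl at hu
  obtain ⟨w, hw, rfl⟩ := mem_image.1 hu
  rw [mem_erase] at hw
  exact hL.mem h hh w hw.2 (Ne.symm hw.1)

private theorem re_sum (hW : Good4 m c W) (hL : Lab4 m c W Q TB lam) (hP : PartAB c W A B)
    {h : V} (hh : h ∈ W) :
    (A ∩ Zl W lam h).card + (B ∩ Zl W lam h).card + 1 = W.card := by
  rw [← re_Zcard hL hh, ← Finset.card_union_of_disjoint]
  · congr 2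
    ext u
    simp only [mem_union, mem_inter]
    constructor
    · rintro (⟨-, h1⟩ | ⟨-, h1⟩) <;> exact h1
    · intro h1
      rcases hP.AorB (Zall_notin4 hW u (re_Zall hL hh u h1)) with h2 | h2
      · exact Or.inl ⟨h2, h1⟩
      · exact Or.inr ⟨h2, h1⟩
  · exact (hP.disj.mono inter_subset_left inter_subset_left)

private theorem re_Q (hW : Good4 m c W) (hL : Lab4 m c W Q TB lam) (hP : PartAB c W A B)
    {s : V} (hs : s ∈ Q) : (B ∩ Zl W lam s).card = TB.card := by
  have hsW := hL.Qsub hs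
  have hTB : ∀ t ∈ TB, t ∈ W.erase s := by
    intro t ht
    have h1 := mem_sdiff.1 (hL.TBsub ht)
    exact mem_erase.2 ⟨fun h => h1.2 (h ▸ hs), h1.1⟩
  have h1 : B ∩ Zl W lam s = TB.image (lam s) := by
    ext u
    unfold Zl
    simp only [mem_inter, mem_image]
    constructor
    · rintro ⟨hB, w, hw, rfl⟩
      have hw' := mem_erase.1 hw
      have h2 := ((hP.memB _).1 hB).2
      by_cases hQ : w ∈ Q
      · have := hL.lQ s hs w hQ (Ne.symm hw'.1)
        omega
      · by_cases hT : w ∈ TB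
        · exact ⟨w, hT, rfl⟩
        · have := hL.lA s hs w (mem_sdiff.2 ⟨hw'.2, hQ⟩) hT
          omega
    · rintro ⟨t, ht, rfl⟩
      refine ⟨(hP.memB _).2 ⟨?_, hL.lB s hs t ht⟩, t, hTB t ht, rfl⟩
      apply Zall_notin4 hW
      have h3 := mem_erase.1 (hTB t ht)
      exact hL.mem s hsW t h3.2 (Ne.symm h3.1)
  rw [h1, Finset.card_image_of_injOn]
  intro w hw w' hw' he
  exact re_inj hL hsW w (hTB w hw) w' (hTB w' hw') he

end

theorem resEx : ∃ r0 : ℕ, ∀ r ≥ r0, ∀ (V : Type) [Fintype V] [DecidableEq V] (m : SQ V)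
    (c : V → ℕ) (W Q TB A B : Finset V) (lam : V → V → V), Sz c W r → Good4 m c W →
    Lab4 m c W Q TB lam → PartAB c W A B → A.card + 1 + 2 * TB.card = B.card + r →
    ∃ d : V → V → V, Res m c W Q A B lam d := by
  obtain ⟨r0, hr0⟩ := farEx
  refine ⟨r0, fun r hr V _ _ m c W Q TB A B lam hS hW hL hP hbal => ?_⟩
  have hWr := hS.Wr
  have hTBr : TB.card ≤ r := by
    rw [← hWr]
    exact Finset.card_le_card (hL.TBsub.trans sdiff_subset)
  set bz : V → ℕ := fun h => (B ∩ Zl W lam h).card with hbz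
  set k : V → ℕ := fun h => (bz h - TB.card) + (TB.card - bz h) with hk
  have hsum : ∀ h ∈ W, (A ∩ Zl W lam h).card + bz h + 1 = r := fun h hh => by
    rw [← hWr]; exact re_sum hW hL hP hh
  have hkr : ∀ h ∈ W, k h ≤ r := by
    intro h hh
    have := hsum h hh
    simp only [hk]
    omega
  have hcardι : Fintype.card ({h // h ∈ W} × Fin r) ≤ r ^ 2 := by
    rw [Fintype.card_prod, Fintype.card_fin, Fintype.card_coe, hWr, sq]
  obtain ⟨x, y, h1, h2, h3⟩ := hr0 r hr V m c W hS hW ({h // h ∈ W} × Fin r) hcardι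
    (fun j => if TB.card ≤ bz j.1 then 0 else 2) (fun j => by split_ifs <;> simp)
  have hxy : ∀ i j, x i ≠ y j := by
    intro i j he
    have e1 := (h1 i).2.1
    have e2 := (h1 j).2.2.1
    rw [he] at e1
    split_ifs at e1 e2 <;> omega
  let J : V → Finset ({h // h ∈ W} × Fin r) := fun h =>
    univ.filter (fun j => (j.1 : V) = h ∧ (j.2 : ℕ) < k h)
  have hJ : ∀ h j, j ∈ J h ↔ (j.1 : V) = h ∧ (j.2 : ℕ) < k h := by
    intro h j
    show j ∈ univ.filter _ ↔ _
    rw [mem_filter]
    simp
  have hJc : ∀ h ∈ W, (J h).card = k h := by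
    intro h hh
    have e1 : J h = (univ.filter (fun i : Fin r => (i : ℕ) < k h)).image
        (fun i => ((⟨h, hh⟩ : {h // h ∈ W}), i)) := by
      ext j
      rw [hJ, mem_image]
      constructor
      · rintro ⟨a1, a2⟩
        refine ⟨j.2, mem_filter.2 ⟨mem_univ _, a2⟩, ?_⟩
        apply Prod.ext
        · exact Subtype.ext a1.symm
        · rfl
      · rintro ⟨i, hi, rfl⟩
        exact ⟨rfl, (mem_filter.1 hi).2⟩
    rw [e1, Finset.card_image_of_injective _ (fun a b hab => (Prod.mk.inj hab).2),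
      re_card_fin r (k h) (hkr h hh)]
  choose d hd1 hd2 using fun h => re_swap x y (fun i j hij => (h2 i j hij).1)
    (fun i j hij => (h2 i j hij).2) hxy (J h)
  have hmv : ∀ h u, d h u ≠ u → ∃ j ∈ J h, u = x j ∨ u = y j := by
    intro h u hu
    by_contra hc
    push Not at hc
    exact hu (hd2 h u hc)
  refine ⟨d, ?_, ?_, ?_, ?_, ?_, ?_, ?_⟩
  · -- inv
    intro h u
    by_cases hu : d h u = u
    · rw [hu, hu]
    · obtain ⟨j, hj, rfl | rfl⟩ := hmv h u hu
      · rw [(hd1 h j hj).1, (hd1 h j hj).2]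
      · rw [(hd1 h j hj).2, (hd1 h j hj).1]
  · -- edge
    intro h hh u hu
    have hcr : ∀ j, ¬ cross A B (x j) (y j) ∧ c (y j) ≠ c (x j) := by
      intro j
      obtain ⟨a1, a2, a3, -, -⟩ := h1 j
      rw [hP.cross_iff a1.1 a1.2.1]
      split_ifs at a2 a3 <;> omega
    obtain ⟨j, hj, rfl | rfl⟩ := hmv h u hu
    · rw [(hd1 h j hj).1]
      exact ⟨(h1 j).1, (hcr j).1, (hcr j).2, (h1 j).2.2.2.1⟩
    · rw [(hd1 h j hj).2]
      exact ⟨adj_symm m W _ _ (h1 j).1, fun hc => (hcr j).1 (cross_symm A B _ _ hc),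
        (hcr j).2.symm, (h1 j).2.2.2.2⟩
  · -- disj
    intro h hh h' hh' hne u hu
    obtain ⟨j, hj, hj'⟩ := hmv h u hu
    apply hd2
    intro j' hj2
    have hjj : j ≠ j' := by
      rintro rfl
      exact hne (((hJ h j).1 hj).1.symm.trans ((hJ h' j).1 hj2).1)
    rcases hj' with rfl | rfl
    · exact ⟨(h2 j j' hjj).1, hxy j j'⟩
    · exact ⟨Ne.symm (hxy j' j), (h2 j j' hjj).2⟩
  · -- Qfix
    intro s hs u
    apply hd2
    intro j hj
    exfalso
    have e1 := ((hJ s j).1 hj).2
    have e2 : bz s = TB.card := re_Q hW hL hP hs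
    simp only [hk, e2] at e1
    omega
  · -- small
    intro h hh
    have hsub : univ.filter (fun u => d h u ≠ u) ⊆ (J h).image x ∪ (J h).image y := by
      intro u hu
      obtain ⟨j, hj, hj'⟩ := hmv h u (mem_filter.1 hu).2
      rw [mem_union, mem_image, mem_image]
      rcases hj' with rfl | rfl
      · exact Or.inl ⟨j, hj, rfl⟩
      · exact Or.inr ⟨j, hj, rfl⟩
    have e1 := Finset.card_le_card hsub
    have e2 := Finset.card_union_le ((J h).image x) ((J h).image y)
    have e3 : ((J h).image x).card ≤ (J h).card := Finset.card_image_le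
    have e4 : ((J h).image y).card ≤ (J h).card := Finset.card_image_le
    have e5 := hJc h hh
    have e6 := hkr h hh
    omega
  · -- far
    intro v hv
    refine le_trans (Finset.card_le_card ?_) (h3 v hv)
    intro u hu
    obtain ⟨a1, h, hh, a2⟩ := (mem_filter.1 hu).2
    obtain ⟨j, -, hj'⟩ := hmv h u a2
    exact mem_filter.2 ⟨mem_univ u, a1, j, hj'⟩
  · -- bal
    intro h hh
    set Mv : Finset V := (J h).image x ∪ (J h).image y with hMv
    have hMvc : Mv.card = 2 * k h := by
      rw [hMv, Finset.card_union_of_disjoint, Finset.card_image_of_injective,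
        Finset.card_image_of_injective, hJc h hh, two_mul]
      · intro a b hab
        by_contra hc
        exact (h2 a b hc).2 hab
      · intro a b hab
        by_contra hc
        exact (h2 a b hc).1 hab
      · rw [Finset.disjoint_left]
        intro u hu hu'
        obtain ⟨i, -, rfl⟩ := mem_image.1 hu
        obtain ⟨j, -, e⟩ := mem_image.1 hu'
        exact hxy i j e.symm
    have hmem : ∀ u, u ∈ Mv ↔ d h u ≠ u := by
      intro u
      constructor
      · intro hu
        rw [hMv, mem_union, mem_image, mem_image] at hu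
        rcases hu with ⟨j, hj, rfl⟩ | ⟨j, hj, rfl⟩
        · rw [(hd1 h j hj).1]; exact Ne.symm (hxy j j)
        · rw [(hd1 h j hj).2]; exact hxy j j
      · intro hu
        obtain ⟨j, hj, hj'⟩ := hmv h u hu
        rw [hMv, mem_union, mem_image, mem_image]
        rcases hj' with rfl | rfl
        · exact Or.inl ⟨j, hj, rfl⟩
        · exact Or.inr ⟨j, hj, rfl⟩
    have hMvZ : ∀ u ∈ Mv, u ∉ Zl W lam h := by
      intro u hu hz
      have hz' := re_Zall hL hh u hz
      rw [hMv, mem_union, mem_image, mem_image] at hu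
      rcases hu with ⟨j, hj, rfl⟩ | ⟨j, hj, rfl⟩
      · exact (h1 j).2.2.2.1 hz'
      · exact (h1 j).2.2.2.2 hz'
    have hcount : ∀ X : Finset V, (X.filter (fun u => u ∉ Zl W lam h ∧ d h u = u)).card +
        (X ∩ Zl W lam h).card + (X ∩ Mv).card = X.card := by
      intro X
      have e1 : X.filter (fun u => u ∉ Zl W lam h ∧ d h u = u) =
          X \ ((X ∩ Zl W lam h) ∪ (X ∩ Mv)) := by
        ext u
        simp only [mem_filter, mem_sdiff, mem_union, mem_inter, hmem]
        tauto
      have e2 : ((X ∩ Zl W lam h) ∪ (X ∩ Mv)).card = (X ∩ Zl W lam h).card + (X ∩ Mv).card := by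
        apply Finset.card_union_of_disjoint
        rw [Finset.disjoint_left]
        intro u hu hu'
        exact hMvZ u (mem_inter.1 hu').2 (mem_inter.1 hu).2
      have e3 : ((X ∩ Zl W lam h) ∪ (X ∩ Mv)) ⊆ X :=
        union_subset inter_subset_left inter_subset_left
      rw [e1, add_assoc, ← e2]
      exact Finset.card_sdiff_add_card_eq_card e3
    have cA := hcount A
    have cB := hcount B
    have hs := hsum h hh
    have hbzh : bz h = (B ∩ Zl W lam h).card := rfl
    rw [← hbzh] at cB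
    have hxW : ∀ j ∈ J h, (j.1 : V) = h := fun j hj => ((hJ h j).1 hj).1
    by_cases hle : TB.card ≤ bz h
    · have hMA : Mv ⊆ A := by
        intro u hu
        rw [hMv, mem_union, mem_image, mem_image] at hu
        rcases hu with ⟨j, hj, rfl⟩ | ⟨j, hj, rfl⟩
        · have a := (h1 j).2.1
          simp only [hxW j hj, if_pos hle] at a
          exact (hP.memA _).2 ⟨(h1 j).1.1, by omega⟩
        · have a := (h1 j).2.2.1
          simp only [hxW j hj, if_pos hle] at a
          exact (hP.memA _).2 ⟨(h1 j).1.2.1, by omega⟩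
      have i1 : (A ∩ Mv).card = 2 * k h := by
        rw [Finset.inter_eq_right.2 hMA, hMvc]
      have i2 : (B ∩ Mv).card = 0 := by
        rw [Finset.card_eq_zero, ← Finset.disjoint_iff_inter_eq_empty]
        exact (hP.disj.mono_left hMA).symm
      have i3 : k h = bz h - TB.card := by simp only [hk]; omega
      omega
    · have hMB : Mv ⊆ B := by
        intro u hu
        rw [hMv, mem_union, mem_image, mem_image] at hu
        rcases hu with ⟨j, hj, rfl⟩ | ⟨j, hj, rfl⟩
        · have a := (h1 j).2.1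
          simp only [hxW j hj, if_neg hle] at a
          exact (hP.memB _).2 ⟨(h1 j).1.1, by omega⟩
        · have a := (h1 j).2.2.1
          simp only [hxW j hj, if_neg hle] at a
          exact (hP.memB _).2 ⟨(h1 j).1.2.1, by omega⟩
      have i1 : (B ∩ Mv).card = 2 * k h := by
        rw [Finset.inter_eq_right.2 hMB, hMvc]
      have i2 : (A ∩ Mv).card = 0 := by
        rw [Finset.card_eq_zero, ← Finset.disjoint_iff_inter_eq_empty]
        exact hP.disj.mono_right hMB
      have i3 : k h = TB.card - bz h := by simp only [hk]; omega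
      omega

end Pool.Agent.CH4
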