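import Pool.Agent.CH4.Edges
import Pool.Agent.CH4.S1ind
import Pool.Agent.CHS.Levels

/-!
# CH4/S1: stage 1

`r = |W|`.  Two graphs of inside pairs: `G₁ u v := G u v ∧ (c u, c v) ∈ {(0,0), (1,1), (2,3), (3,2)}`,
`G₂ u v := G u v ∧ (c u, c v) ∈ {(0,1), (1,0), (2,2), (3,3)}`.  Every inside pair of `G` is in exactly one of
them.  Every `v ∉ W` has `(1/4 ± 10⁻¹³) r` neighbours in each of them (`cdeg` for one colour), points
of `W` have none.  `levels` with `ε = 10⁻¹³`, `Δ = ⌊(1/4 + 10⁻¹³) r⌋` gives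
`q₁, q₂ ≤ (1/4 + 2·10⁻¹³) r ≤ 0.251 r` matchings `R₀ i`, `i ∈ Fin q₁ ⊕ Fin q₂`.  Fix injections
`Fin q₁ → T1`, `Fin q₂ → T2`; together an injection `col : Fin q₁ ⊕ Fin q₂ → T1 ∪ T2` (`T1`, `T2` are
disjoint by their colours).
`R₁ i u := u` if `u` or `R₀ i u` is in `M (col i)`, and `R₀ i u` otherwise.  `i` is good if
`R₁ i` covers at least `(1 - 2·10⁻⁶)|A|` points of `A` and `(1 - 2·10⁻⁶)|B|` points of `B`;
`H` = the set of the `col i`, `i` good; `R h := R₁ i` for `h = col i`, `i` good.
(a) For `v ∉ W`: for each of the two graphs `#{i : R₀ i v ≠ v} ≥ (degree of v) - 10⁻¹³ r ≥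
(1/4 - 2·10⁻¹³) r`, so altogether `#{i : R₀ i v = v} ≤ 8·10⁻¹³ r ≤ 10⁻¹² r`.  In particular
`q₁ + q₂ ≥ (1/2 - 4·10⁻¹³) r` (there is a point outside `W`).
(b) `#{i : R₀ i v ≠ v, R₁ i v = v} ≤ 10`: either `v ∈ M (col i)` (at most 2 values, `Mtwo`), or
`R₀ i v` is a neighbour of `v` in some `M` (at most 8, `mdeg`; different `i` give different `R₀ i v`:
for the same graph by `levels`, for different graphs since they have no common pairs).
(c) Bad `i`: summing (a) over `A`, `∑ i #{v ∈ A : R₀ i v = v} ≤ 10⁻¹² r |A|`; and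
`#{v ∈ A : R₁ i v = v} ≤ #{v ∈ A : R₀ i v = v} + 6 r` (`Mcard`), `6 r ≤ 10⁻⁶ |A|`, so a bad `i` (because
of `A`) has `#{v ∈ A : R₀ i v = v} ≥ 10⁻⁶ |A|`: at most `10⁻⁶ r` such `i`; the same for `B`: at most
`2·10⁻⁶ r` bad `i`.  (`|A|, |B| ≥ n/4` by `AB_close`.)
The hypotheses of `s1ind4`: `|H| ≤ q₁ + q₂ ≤ 0.51 r`; `#{h ∈ H : R h v = v} ≤ 10⁻¹² r + 10 ≤ 10⁻⁵ r`.
Its `f` gives (`Stage14`, `T = T1 ∪ T2`):
`hcard`: `|H| ≥ (1/2 - 4·10⁻¹³ - 2·10⁻⁶) r ≥ 0.4999 r`.
`good`: a cross pair is not monochromatic (`cross_ne`); for `f h u = R h u`, `h ∈ T1`: the pair is in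
`G₁`, so if it is monochromatic its colour is 0 or 1, but `c h ≥ 2`; for `h ∈ T2` its colour is 2 or 3,
but `c h ≤ 1`.
`usage`: `cross A B v (f h v)` implies `R h v = v` or (`R h v ≠ v` and `f h v ≠ R h v`): at most
`5·10⁻⁵ r ≤ r/10000`.
`left`: an unused inside neighbour `u` of `v` is not covered by any `R₀ i` (at most `2·10⁻¹³ r`), or
`u = R₀ i v` with `i` bad (at most `2·10⁻⁶ r`), or with `R₁ i v = v` (at most 10), or `u = R h v`,
`f h v ≠ R h v` (at most `4·10⁻⁵ r`): together at most `5·10⁻⁵ r = r/20000`.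
`bal`: by `edges4` the total numbers of ordered inside pairs in `A` and `B` are equal; the used ones in
`A` are the pairs `(u, f h u)`, `u ∈ A`, `R h u ≠ u`, `f h u = R h u` (`h ∈ H`), all different by
`State4.disj`, and their number equals the one for `B` for each `h`.
-/

set_option autoImplicit false

namespace Pool.Agent.CH4
open Finset Pool.Agent.CHS

namespace S1aux4

variable {V : Type} [Fintype V] [DecidableEq V] {m : SQ V} {c : V → ℕ} {W A B : Finset V}
  {G : V → V → Prop} [DecidableRel G] {M : V → Finset V}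

theorem noncross_A (hP : Prob m c W A B G M) {v u : V} (hv : v ∈ A) (hu : u ∉ W) :
    ¬ cross A B v u ↔ u ∈ A := by
  constructor
  · intro h
    rcases hP.part.AorB hu with h1 | h1
    · exact h1
    · exact absurd (Or.inl ⟨hv, h1⟩) h
  · intro h hc
    rcases hc with ⟨_, h2⟩ | ⟨h1, _⟩
    · exact (Finset.disjoint_left.1 hP.part.disj) h h2
    · exact (Finset.disjoint_left.1 hP.part.disj) hv h1

theorem noncross_B (hP : Prob m c W A B G M) {v u : V} (hv : v ∈ B) (hu : u ∉ W) :
    ¬ cross A B v u ↔ u ∈ B := by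
  constructor
  · intro h
    rcases hP.part.AorB hu with h1 | h1
    · exact absurd (Or.inr ⟨hv, h1⟩) h
    · exact h1
  · intro h hc
    rcases hc with ⟨h1, _⟩ | ⟨_, h2⟩
    · exact (Finset.disjoint_left.1 hP.part.disj) h1 hv
    · exact (Finset.disjoint_left.1 hP.part.disj) h2 h

/-- noncross pairs in terms of the colours -/
theorem noncross_iff (hP : Prob m c W A B G M) {v u : V} (h : G v u) :
    ¬ cross A B v u ↔ (c v < 2 ∧ c u < 2) ∨ (2 ≤ c v ∧ 2 ≤ c u) := by
  obtain ⟨h1, h2⟩ := hP.notin h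
  rw [hP.part.cross_iff h1 h2]
  omega

/-- the degree into the colour `i` -/
theorem cdeg' (hP : Prob m c W A B G M) {v : V} (hv : v ∉ W) {i : ℕ} (hi : i < 4) :
    (1 / 4 - 1 / 10 ^ 13) * (W.card : ℝ) ≤ ((univ.filter (fun u => G v u ∧ c u = i)).card : ℝ) ∧
    ((univ.filter (fun u => G v u ∧ c u = i)).card : ℝ) ≤ (1 / 4 + 1 / 10 ^ 13) * (W.card : ℝ) := by
  have h1 := abs_le.1 (hP.cdeg v hv i hi)
  constructor <;> nlinarith [h1.1, h1.2]

theorem deg_ge' (hP : Prob m c W A B G M) {v : V} (hv : v ∉ W) :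
    (1 / 2 - 2 / 10 ^ 13) * (W.card : ℝ) ≤
    ((univ.filter (fun u => G v u ∧ ¬ cross A B v u)).card : ℝ) := by
  have key : ∀ i j : ℕ, i < 4 → j < 4 → i ≠ j →
      (∀ u, G v u → (c u = i ∨ c u = j) → ¬ cross A B v u) →
      (1 / 2 - 2 / 10 ^ 13) * (W.card : ℝ) ≤
      ((univ.filter (fun u => G v u ∧ ¬ cross A B v u)).card : ℝ) := by
    intro i j hi hj hij hc
    have h1 := (cdeg' hP hv hi).1
    have h2 := (cdeg' hP hv hj).1
    have h3 : (univ.filter (fun u => G v u ∧ c u = i)).card +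
        (univ.filter (fun u => G v u ∧ c u = j)).card ≤
        (univ.filter (fun u => G v u ∧ ¬ cross A B v u)).card := by
      rw [← card_union_of_disjoint]
      · apply card_le_card
        intro u hu
        simp only [mem_union, mem_filter, mem_univ, true_and] at hu ⊢
        rcases hu with hu | hu
        · exact ⟨hu.1, hc u hu.1 (Or.inl hu.2)⟩
        · exact ⟨hu.1, hc u hu.1 (Or.inr hu.2)⟩
      · rw [Finset.disjoint_left]
        intro u h4 h5
        simp only [mem_filter, mem_univ, true_and] at h4 h5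
        exact hij (h4.2.symm.trans h5.2)
    have h4 : ((univ.filter (fun u => G v u ∧ c u = i)).card : ℝ) +
        ((univ.filter (fun u => G v u ∧ c u = j)).card : ℝ) ≤
        ((univ.filter (fun u => G v u ∧ ¬ cross A B v u)).card : ℝ) := by exact_mod_cast h3
    linarith
  rcases lt_or_ge (c v) 2 with h | h
  · apply key 0 1 (by norm_num) (by norm_num) (by norm_num)
    intro u hu hcu
    rw [noncross_iff hP hu]
    left
    omega
  · apply key 2 3 (by norm_num) (by norm_num) (by norm_num)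
    intro u hu hcu
    rw [noncross_iff hP hu]
    right
    omega

/-- The matching `R` with the pairs meeting `M h` removed. -/
def cutM (M : V → Finset V) (h : V) (R : V → V) (u : V) : V :=
  if u ∈ M h ∨ R u ∈ M h then u else R u

omit [Fintype V] in
theorem cutM_ne {h : V} {R : V → V} {u : V} (hu : cutM M h R u ≠ u) :
    cutM M h R u = R u ∧ u ∉ M h ∧ R u ∉ M h ∧ R u ≠ u := by
  unfold cutM at hu ⊢
  split_ifs at hu ⊢ with h1
  · exact absurd rfl hu
  · push Not at h1
    exact ⟨rfl, h1.1, h1.2, hu⟩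

omit [Fintype V] in
theorem cutM_inv {h : V} {R : V → V} (hR : ∀ u, R (R u) = u) (u : V) :
    cutM M h R (cutM M h R u) = u := by
  by_cases h1 : u ∈ M h ∨ R u ∈ M h
  · have e : cutM M h R u = u := by unfold cutM; rw [if_pos h1]
    rw [e, e]
  · have e : cutM M h R u = R u := by unfold cutM; rw [if_neg h1]
    rw [e]
    have h2 : ¬ (R u ∈ M h ∨ R (R u) ∈ M h) := by
      rw [hR]
      tauto
    unfold cutM
    rw [if_neg h2, hR]

omit [Fintype V] in
theorem cutM_fix {h : V} {R : V → V} {u : V} (hu : cutM M h R u = u) :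
    R u = u ∨ u ∈ M h ∨ R u ∈ M h := by
  by_contra hc
  push Not at hc
  unfold cutM at hu
  rw [if_neg (by tauto)] at hu
  exact hc.1 hu

/-- The data of the first step of stage 1. -/
structure Data (c : V → ℕ) (W A B : Finset V) (G : V → V → Prop) [DecidableRel G]
    (T : Finset V) {ι : Type} [Fintype ι] (R0 : ι → V → V) (col : ι → V) : Prop where
  inv : ∀ i u, R0 i (R0 i u) = u
  edge : ∀ i u, R0 i u ≠ u → G u (R0 i u) ∧ ¬ cross A B u (R0 i u)
  good : ∀ i u, R0 i u ≠ u → ¬ (c (R0 i u) = c u ∧ c u = c (col i))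
  disj : ∀ i j, i ≠ j → ∀ u, R0 i u = R0 j u → R0 i u = u
  unc : ∀ v, ((univ.filter (fun u => (G v u ∧ ¬ cross A B v u) ∧
    ∀ i, R0 i v ≠ u)).card : ℝ) ≤ (2 / 10 ^ 13) * W.card
  hq : (Fintype.card ι : ℝ) ≤ (1 / 2 + 4 / 10 ^ 13) * W.card
  colW : ∀ i, col i ∈ W
  colT : ∀ i, col i ∈ T
  colinj : Function.Injective col

variable {ι : Type} [Fintype ι] [DecidableEq ι] {R0 : ι → V → V} {col : ι → V} {T : Finset V}

omit [DecidableEq ι] in
theorem inj_on (D : Data c W A B G T R0 col) (v : V) (i j : ι) (hi : R0 i v ≠ v)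
    (h : R0 i v = R0 j v) : i = j := by
  by_contra hij
  exact hi (D.disj i j hij v h)

omit [DecidableEq ι] in
/-- the number of moved indices -/
theorem cnt_mv (hP : Prob m c W A B G M) (D : Data c W A B G T R0 col) {v : V} (hv : v ∉ W) :
    (1 / 2 - 4 / 10 ^ 13) * (W.card : ℝ) ≤ ((univ.filter (fun i => ¬ R0 i v = v)).card : ℝ) := by
  have h1 : (univ.filter (fun u => G v u ∧ ¬ cross A B v u)).card ≤
      (univ.filter (fun u => (G v u ∧ ¬ cross A B v u) ∧
        ∀ i, R0 i v ≠ u)).card + (univ.filter (fun i => ¬ R0 i v = v)).card := by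
    have h2 : (univ.filter (fun u => G v u ∧ ¬ cross A B v u)) ⊆
      (univ.filter (fun u => (G v u ∧ ¬ cross A B v u) ∧
        ∀ i, R0 i v ≠ u)) ∪ (univ.filter (fun i => ¬ R0 i v = v)).image (fun i => R0 i v) := by
      intro u hu
      simp only [mem_filter, mem_univ, true_and, mem_union, mem_image] at hu ⊢
      by_cases h3 : ∀ i, R0 i v ≠ u
      · exact Or.inl ⟨hu, h3⟩
      · push Not at h3
        obtain ⟨i, hi⟩ := h3
        refine Or.inr ⟨i, ?_, hi⟩
        intro e
        rw [hi] at e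
        rw [e] at hu
        exact hP.irrefl v hu.1
    refine le_trans (card_le_card h2) (le_trans (card_union_le _ _) ?_)
    exact Nat.add_le_add_left card_image_le _
  have h1' : ((univ.filter (fun u => G v u ∧ ¬ cross A B v u)).card : ℝ) ≤
      ((univ.filter (fun u => (G v u ∧ ¬ cross A B v u) ∧
        ∀ i, R0 i v ≠ u)).card : ℝ) + ((univ.filter (fun i => ¬ R0 i v = v)).card : ℝ) := by
    exact_mod_cast h1
  have h5 := deg_ge' hP hv
  have h6 := D.unc v
  linarith

omit [DecidableEq ι] in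
/-- (a) -/
theorem cnt_fix (hP : Prob m c W A B G M) (D : Data c W A B G T R0 col) {v : V} (hv : v ∉ W) :
    ((univ.filter (fun i => R0 i v = v)).card : ℝ) ≤ (8 / 10 ^ 13) * W.card := by
  have h4 : (univ.filter (fun i => R0 i v = v)).card +
      (univ.filter (fun i => ¬ R0 i v = v)).card = Fintype.card ι := by
    rw [card_filter_add_card_filter_not]
    simp
  have h4' : ((univ.filter (fun i => R0 i v = v)).card : ℝ) +
      ((univ.filter (fun i => ¬ R0 i v = v)).card : ℝ) = Fintype.card ι := by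
    exact_mod_cast h4
  have h5 := cnt_mv hP D hv
  have h7 := D.hq
  linarith

/-- (b) -/
theorem cnt_cut (hP : Prob m c W A B G M) (D : Data c W A B G T R0 col)
    {v : V} (hv : v ∉ W) :
    (univ.filter (fun i => R0 i v ≠ v ∧ cutM M (col i) (R0 i) v = v)).card ≤ 10 := by
  have h1 : (univ.filter (fun i => v ∈ M (col i))).card ≤ 2 := by
    refine le_trans ?_ (hP.Mtwo v)
    apply card_le_card_of_injOn col
    · intro i hi
      simp only [coe_filter, mem_univ, true_and, Set.mem_ofPred_eq] at hi ⊢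
      exact ⟨D.colW i, hi⟩
    · intro i _ j _ h
      exact D.colinj h
  have h2 : (univ.filter (fun i => R0 i v ≠ v ∧ R0 i v ∈ M (col i))).card ≤ 8 := by
    refine le_trans ?_ (hP.mdeg v hv)
    apply card_le_card_of_injOn (fun i => R0 i v)
    · intro i hi
      simp only [coe_filter, mem_univ, true_and, Set.mem_ofPred_eq] at hi ⊢
      refine ⟨(D.edge i v hi.1).1, ?_⟩
      exact mem_biUnion.2 ⟨col i, D.colW i, hi.2⟩
    · intro i hi j _ h
      simp only [coe_filter, mem_univ, true_and, Set.mem_ofPred_eq] at hi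
      exact inj_on D v i j hi.1 h
  have h3 : (univ.filter (fun i => R0 i v ≠ v ∧ cutM M (col i) (R0 i) v = v)) ⊆
      (univ.filter (fun i => v ∈ M (col i))) ∪
      (univ.filter (fun i => R0 i v ≠ v ∧ R0 i v ∈ M (col i))) := by
    intro i hi
    simp only [mem_filter, mem_univ, true_and, mem_union] at hi ⊢
    rcases cutM_fix hi.2 with h | h | h
    · exact absurd h hi.1
    · exact Or.inl h
    · exact Or.inr ⟨hi.1, h⟩
  have h4 := le_trans (card_le_card h3) (card_union_le _ _)
  omega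

omit [DecidableEq ι] in
/-- The number of points of `X` missed by the cut matching. -/
theorem cut_miss (hP : Prob m c W A B G M) (D : Data c W A B G T R0 col) (X : Finset V) (i : ι) :
    (X.filter (fun u => cutM M (col i) (R0 i) u = u)).card ≤
      (X.filter (fun u => R0 i u = u)).card + 6 * W.card := by
  have h1 : X.filter (fun u => cutM M (col i) (R0 i) u = u) ⊆
      X.filter (fun u => R0 i u = u) ∪ (M (col i) ∪ (M (col i)).image (R0 i)) := by
    intro u hu
    simp only [mem_filter, mem_union, mem_image] at hu ⊢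
    rcases cutM_fix hu.2 with h | h | h
    · exact Or.inl ⟨hu.1, h⟩
    · exact Or.inr (Or.inl h)
    · exact Or.inr (Or.inr ⟨R0 i u, h, D.inv i u⟩)
  have h2 : (M (col i)).card ≤ 3 * W.card := hP.Mcard (col i) (D.colW i)
  have h3 : ((M (col i)).image (R0 i)).card ≤ (M (col i)).card := card_image_le
  have h4 := card_union_le (X.filter (fun u => R0 i u = u))
    (M (col i) ∪ (M (col i)).image (R0 i))
  have h5 := card_union_le (M (col i)) ((M (col i)).image (R0 i))
  have h6 := card_le_card h1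
  omega

omit [DecidableEq ι] in
/-- (c) -/
theorem bad_card (hP : Prob m c W A B G M) (D : Data c W A B G T R0 col)
    (hr : (10 : ℝ) ^ 14 ≤ W.card) (X : Finset V) (hX : ∀ v ∈ X, v ∉ W)
    (hXc : 6 * (W.card : ℝ) ≤ (1 / 10 ^ 6) * X.card) :
    ((univ.filter (fun i => ¬ ((1 - 2 / 10 ^ 6) * (X.card : ℝ) ≤
      ((X.filter (fun u => cutM M (col i) (R0 i) u ≠ u)).card : ℝ)))).card : ℝ) ≤
      (8 / 10 ^ 7) * W.card := by
  classical
  set S := univ.filter (fun i => ¬ ((1 - 2 / 10 ^ 6) * (X.card : ℝ) ≤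
      ((X.filter (fun u => cutM M (col i) (R0 i) u ≠ u)).card : ℝ))) with hS
  have hXpos : 0 < (X.card : ℝ) := by
    have : (0 : ℝ) < 10 ^ 14 := by norm_num
    linarith
  have h1 : ∑ i : ι, ((X.filter (fun u => R0 i u = u)).card : ℝ) =
      ∑ v ∈ X, ((univ.filter (fun i => R0 i v = v)).card : ℝ) := by
    have : ∑ i : ι, (X.filter (fun u => R0 i u = u)).card =
      ∑ v ∈ X, (univ.filter (fun i => R0 i v = v)).card := by
      simp only [card_filter]
      exact sum_comm
    exact_mod_cast this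
  have h2 : ∑ v ∈ X, ((univ.filter (fun i => R0 i v = v)).card : ℝ) ≤
      X.card * ((8 / 10 ^ 13) * W.card) := by
    have : ∑ v ∈ X, ((univ.filter (fun i => R0 i v = v)).card : ℝ) ≤
        ∑ v ∈ X, ((8 / 10 ^ 13) * (W.card : ℝ)) :=
      sum_le_sum (fun v hv => cnt_fix hP D (hX v hv))
    rw [sum_const, nsmul_eq_mul] at this
    exact this
  have h3 : (S.card : ℝ) * ((1 / 10 ^ 6) * X.card) ≤
      ∑ i : ι, ((X.filter (fun u => R0 i u = u)).card : ℝ) := by
    have h4 : ∑ i ∈ S, ((1 / 10 ^ 6) * (X.card : ℝ)) ≤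
        ∑ i ∈ S, ((X.filter (fun u => R0 i u = u)).card : ℝ) := by
      apply sum_le_sum
      intro i hi
      rw [hS] at hi
      simp only [mem_filter, mem_univ, true_and] at hi
      have h5 := cut_miss hP D X i
      have h5' : ((X.filter (fun u => cutM M (col i) (R0 i) u = u)).card : ℝ) ≤
        ((X.filter (fun u => R0 i u = u)).card : ℝ) + 6 * W.card := by exact_mod_cast h5
      have h6 : ((X.filter (fun u => cutM M (col i) (R0 i) u = u)).card : ℝ) +
          ((X.filter (fun u => cutM M (col i) (R0 i) u ≠ u)).card : ℝ) = X.card := by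
        have : (X.filter (fun u => cutM M (col i) (R0 i) u = u)).card +
          (X.filter (fun u => ¬ cutM M (col i) (R0 i) u = u)).card = X.card :=
          card_filter_add_card_filter_not _
        exact_mod_cast this
      push Not at hi
      linarith
    have h5 : ∑ i ∈ S, ((X.filter (fun u => R0 i u = u)).card : ℝ) ≤
        ∑ i : ι, ((X.filter (fun u => R0 i u = u)).card : ℝ) :=
      sum_le_sum_of_subset_of_nonneg (subset_univ _) (fun _ _ _ => by positivity)
    rw [sum_const, nsmul_eq_mul] at h4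
    exact le_trans h4 h5
  rw [h1] at h3
  have h7 : (S.card : ℝ) * ((1 / 10 ^ 6) * X.card) ≤ X.card * ((8 / 10 ^ 13) * W.card) :=
    le_trans h3 h2
  have h8 : (X.card : ℝ) * (S.card : ℝ) ≤ X.card * ((8 / 10 ^ 7) * W.card) := by
    have : (S.card : ℝ) * ((1 / 10 ^ 6) * X.card) = (1 / 10 ^ 6) * ((X.card : ℝ) * S.card) := by
      ring
    rw [this] at h7
    have h9 : (X.card : ℝ) * ((8 / 10 ^ 7) * W.card) =
      10 ^ 6 * (X.card * ((8 / 10 ^ 13) * W.card)) := by ring
    rw [h9]
    linarith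
  exact le_of_mul_le_mul_left h8 hXpos

/-- The index `i` is good. -/
def good (M : V → Finset V) (A B : Finset V) (R0 : ι → V → V) (col : ι → V) (i : ι) : Prop :=
  (1 - 2 / 10 ^ 6) * (A.card : ℝ) ≤
      ((A.filter (fun u => cutM M (col i) (R0 i) u ≠ u)).card : ℝ) ∧
  (1 - 2 / 10 ^ 6) * (B.card : ℝ) ≤
      ((B.filter (fun u => cutM M (col i) (R0 i) u ≠ u)).card : ℝ)

omit [DecidableEq ι] in
open Classical in
theorem bad_tot (hP : Prob m c W A B G M) (D : Data c W A B G T R0 col)
    (hr : (10 : ℝ) ^ 14 ≤ W.card)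
    (hA : 6 * (W.card : ℝ) ≤ (1 / 10 ^ 6) * A.card)
    (hB : 6 * (W.card : ℝ) ≤ (1 / 10 ^ 6) * B.card) :
    ((univ.filter (fun i => ¬ good M A B R0 col i)).card : ℝ) ≤ (16 / 10 ^ 7) * W.card := by
  have h1 := bad_card hP D hr A (fun v hv => hP.part.AW hv) hA
  have h2 := bad_card hP D hr B (fun v hv => hP.part.BW hv) hB
  have h3 : (univ.filter (fun i => ¬ good M A B R0 col i)) ⊆
      (univ.filter (fun i => ¬ ((1 - 2 / 10 ^ 6) * (A.card : ℝ) ≤
        ((A.filter (fun u => cutM M (col i) (R0 i) u ≠ u)).card : ℝ)))) ∪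
      (univ.filter (fun i => ¬ ((1 - 2 / 10 ^ 6) * (B.card : ℝ) ≤
        ((B.filter (fun u => cutM M (col i) (R0 i) u ≠ u)).card : ℝ)))) := by
    intro i hi
    simp only [mem_filter, mem_univ, true_and, mem_union] at hi ⊢
    unfold good at hi
    tauto
  have h4 := le_trans (card_le_card h3) (card_union_le _ _)
  have h5 : ((univ.filter (fun i => ¬ good M A B R0 col i)).card : ℝ) ≤
      ((univ.filter (fun i => ¬ ((1 - 2 / 10 ^ 6) * (A.card : ℝ) ≤
        ((A.filter (fun u => cutM M (col i) (R0 i) u ≠ u)).card : ℝ)))).card : ℝ) +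
      ((univ.filter (fun i => ¬ ((1 - 2 / 10 ^ 6) * (B.card : ℝ) ≤
        ((B.filter (fun u => cutM M (col i) (R0 i) u ≠ u)).card : ℝ)))).card : ℝ) := by
    exact_mod_cast h4
  linarith

open Classical in
theorem prep (hP : Prob m c W A B G M) (D : Data c W A B G T R0 col)
    (hr : (10 : ℝ) ^ 14 ≤ W.card) (hne0 : ∃ v, v ∉ W)
    (hA : 6 * (W.card : ℝ) ≤ (1 / 10 ^ 6) * A.card)
    (hB : 6 * (W.card : ℝ) ≤ (1 / 10 ^ 6) * B.card) :
    ∃ (K : Finset V) (R : V → V → V), K ⊆ W ∧ K ⊆ T ∧ (K.card : ℝ) ≤ (51 / 100) * W.card ∧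
      (4999 / 10000 : ℝ) * W.card ≤ K.card ∧
      (∀ h ∈ K, ∀ u, R h (R h u) = u) ∧
      (∀ h ∈ K, ∀ u, R h u ≠ u → G u (R h u) ∧ ¬ cross A B u (R h u) ∧ u ∉ M h) ∧
      (∀ h ∈ K, ∀ u, R h u ≠ u → ¬ (c (R h u) = c u ∧ c u = c h)) ∧
      (∀ h ∈ K, ∀ h' ∈ K, h ≠ h' → ∀ u, R h u = R h' u → R h u = u) ∧
      (∀ h ∈ K, (1 - 2 / 10 ^ 6) * (A.card : ℝ) ≤ ((A.filter (fun u => R h u ≠ u)).card : ℝ)) ∧
      (∀ h ∈ K, (1 - 2 / 10 ^ 6) * (B.card : ℝ) ≤ ((B.filter (fun u => R h u ≠ u)).card : ℝ)) ∧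
      (∀ v ∉ W, ((K.filter (fun h => R h v = v)).card : ℝ) ≤ (1 / 100000) * W.card) ∧
      (∀ v ∉ W, ((univ.filter (fun u => (G v u ∧ ¬ cross A B v u) ∧
        ∀ h ∈ K, R h v ≠ u)).card : ℝ) ≤ (2 / 10 ^ 6) * W.card) := by
  obtain ⟨R, hR⟩ : ∃ R : V → V → V, ∀ i u, R (col i) u = cutM M (col i) (R0 i) u := by
    refine ⟨fun h u => if hh : ∃ i, col i = h then cutM M h (R0 hh.choose) u else u, ?_⟩
    intro i u
    have hh : ∃ j, col j = col i := ⟨i, rfl⟩
    have h1 : hh.choose = i := D.colinj hh.choose_spec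
    simp only [dif_pos hh]
    rw [h1]
  set K : Finset V := (univ.filter (fun i => good M A B R0 col i)).image col with hK
  have hKm : ∀ h, h ∈ K ↔ ∃ i, good M A B R0 col i ∧ col i = h := by
    intro h
    rw [hK]
    simp only [mem_image, mem_filter, mem_univ, true_and]
  have hne : ∀ i u, R (col i) u ≠ u → R (col i) u = R0 i u ∧ u ∉ M (col i) ∧
      R0 i u ∉ M (col i) ∧ R0 i u ≠ u := by
    intro i u h
    rw [hR] at h ⊢
    exact cutM_ne h
  refine ⟨K, R, ?_, ?_, ?_, ?_, ?_, ?_, ?_, ?_, ?_, ?_, ?_, ?_⟩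
  · intro h hh
    obtain ⟨i, _, rfl⟩ := (hKm h).1 hh
    exact D.colW i
  · intro h hh
    obtain ⟨i, _, rfl⟩ := (hKm h).1 hh
    exact D.colT i
  · have h1 : K.card ≤ Fintype.card ι := by
      refine le_trans card_image_le ?_
      refine le_trans (card_filter_le _ _) ?_
      simp
    have h2 : (K.card : ℝ) ≤ Fintype.card ι := by exact_mod_cast h1
    have h3 := D.hq
    have h4 : (0 : ℝ) ≤ W.card := by positivity
    linarith
  · obtain ⟨v, hv⟩ := hne0
    have h1 : K.card = (univ.filter (fun i => good M A B R0 col i)).card :=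
      card_image_of_injective _ D.colinj
    have h2 : (univ.filter (fun i => good M A B R0 col i)).card +
        (univ.filter (fun i => ¬ good M A B R0 col i)).card = Fintype.card ι := by
      rw [card_filter_add_card_filter_not]
      simp
    have h3 : (univ.filter (fun i => ¬ R0 i v = v)).card ≤ Fintype.card ι := by
      refine le_trans (card_filter_le _ _) ?_
      simp
    have h4 := cnt_mv hP D hv
    have h5 := bad_tot hP D hr hA hB
    have h6 : ((univ.filter (fun i => ¬ R0 i v = v)).card : ℝ) ≤ (K.card : ℝ) +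
        ((univ.filter (fun i => ¬ good M A B R0 col i)).card : ℝ) := by
      have : (univ.filter (fun i => ¬ R0 i v = v)).card ≤ K.card +
        (univ.filter (fun i => ¬ good M A B R0 col i)).card := by omega
      exact_mod_cast this
    linarith
  · intro h hh u
    obtain ⟨i, _, rfl⟩ := (hKm h).1 hh
    rw [hR, hR]
    exact cutM_inv (D.inv i) u
  · intro h hh u hu
    obtain ⟨i, _, rfl⟩ := (hKm h).1 hh
    obtain ⟨h1, h2, h3, h4⟩ := hne i u hu
    rw [h1]
    obtain ⟨h5, h6⟩ := D.edge i u h4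
    exact ⟨h5, h6, h2⟩
  · intro h hh u hu
    obtain ⟨i, _, rfl⟩ := (hKm h).1 hh
    obtain ⟨h1, h2, h3, h4⟩ := hne i u hu
    rw [h1]
    exact D.good i u h4
  · intro h hh h' hh' hne' u hu
    obtain ⟨i, _, rfl⟩ := (hKm h).1 hh
    obtain ⟨j, _, rfl⟩ := (hKm h').1 hh'
    by_contra hc
    have hc' : R (col j) u ≠ u := by rw [← hu]; exact hc
    obtain ⟨h1, _, _, h4⟩ := hne i u hc
    obtain ⟨h1', _, _, _⟩ := hne j u hc'
    have hij : i ≠ j := fun e => hne' (by rw [e])
    apply h4
    apply D.disj i j hij u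
    rw [← h1, ← h1', hu]
  · intro h hh
    obtain ⟨i, hi, rfl⟩ := (hKm h).1 hh
    have h1 := hi.1
    have e : A.filter (fun u => R (col i) u ≠ u) =
        A.filter (fun u => cutM M (col i) (R0 i) u ≠ u) := by
      apply filter_congr
      intro u _
      rw [hR]
    rw [e]
    exact h1
  · intro h hh
    obtain ⟨i, hi, rfl⟩ := (hKm h).1 hh
    have h1 := hi.2
    have e : B.filter (fun u => R (col i) u ≠ u) =
        B.filter (fun u => cutM M (col i) (R0 i) u ≠ u) := by
      apply filter_congr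
      intro u _
      rw [hR]
    rw [e]
    exact h1
  · intro v hv
    have h1 := cnt_fix hP D hv
    have h2 := cnt_cut hP D hv
    have h3 : K.filter (fun h => R h v = v) ⊆
        ((univ.filter (fun i => R0 i v = v)) ∪
        (univ.filter (fun i => R0 i v ≠ v ∧ cutM M (col i) (R0 i) v = v))).image col := by
      intro h hh
      rw [mem_filter] at hh
      obtain ⟨i, hi, rfl⟩ := (hKm h).1 hh.1
      refine mem_image.2 ⟨i, ?_, rfl⟩
      simp only [mem_filter, mem_univ, true_and, mem_union]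
      have h4 := hh.2
      rw [hR] at h4
      by_cases h5 : R0 i v = v
      · exact Or.inl h5
      · exact Or.inr ⟨h5, h4⟩
    have h4 := le_trans (card_le_card h3) (le_trans card_image_le (card_union_le _ _))
    have h5 : ((K.filter (fun h => R h v = v)).card : ℝ) ≤
        ((univ.filter (fun i => R0 i v = v)).card : ℝ) + 10 := by
      have : (K.filter (fun h => R h v = v)).card ≤
        (univ.filter (fun i => R0 i v = v)).card + 10 := by omega
      exact_mod_cast this
    linarith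
  · intro v hv
    have h1 := D.unc v
    have h2 := cnt_cut hP D hv
    have h3 := bad_tot hP D hr hA hB
    have h4 : (univ.filter (fun u => (G v u ∧ ¬ cross A B v u) ∧
        ∀ h ∈ K, R h v ≠ u)) ⊆
        (univ.filter (fun u => (G v u ∧ ¬ cross A B v u) ∧
          ∀ i, R0 i v ≠ u)) ∪
        ((univ.filter (fun i => ¬ good M A B R0 col i)) ∪
        (univ.filter (fun i => R0 i v ≠ v ∧ cutM M (col i) (R0 i) v = v))).image
          (fun i => R0 i v) := by
      intro u hu
      simp only [mem_filter, mem_univ, true_and] at hu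
      rw [mem_union]
      by_cases h5 : ∀ i, R0 i v ≠ u
      · left
        simp only [mem_filter, mem_univ, true_and]
        exact ⟨hu.1, h5⟩
      · right
        push Not at h5
        obtain ⟨i, hi⟩ := h5
        refine mem_image.2 ⟨i, ?_, hi⟩
        simp only [mem_filter, mem_univ, true_and, mem_union]
        by_cases h6 : good M A B R0 col i
        · right
          have h7 : R0 i v ≠ v := by
            intro e
            rw [hi] at e
            have := hu.1.1
            rw [e] at this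
            exact hP.irrefl v this
          refine ⟨h7, ?_⟩
          have h8 := hu.2 (col i) ((hKm _).2 ⟨i, h6, rfl⟩)
          by_contra h9
          apply h8
          have h9' : R (col i) v ≠ v := by rw [hR]; exact h9
          rw [(hne i v h9').1, hi]
        · exact Or.inl h6
    have h5 := le_trans (card_le_card h4) (le_trans (card_union_le _ _)
      (Nat.add_le_add_left (le_trans card_image_le (card_union_le _ _)) _))
    have h6 : ((univ.filter (fun u => (G v u ∧ ¬ cross A B v u) ∧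
        ∀ h ∈ K, R h v ≠ u)).card : ℝ) ≤
        ((univ.filter (fun u => (G v u ∧ ¬ cross A B v u) ∧
          ∀ i, R0 i v ≠ u)).card : ℝ) +
        (((univ.filter (fun i => ¬ good M A B R0 col i)).card : ℝ) + 10) := by
      have : (univ.filter (fun u => (G v u ∧ ¬ cross A B v u) ∧
        ∀ h ∈ K, R h v ≠ u)).card ≤
        (univ.filter (fun u => (G v u ∧ ¬ cross A B v u) ∧
          ∀ i, R0 i v ≠ u)).card +
        ((univ.filter (fun i => ¬ good M A B R0 col i)).card + 10) := by omega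
      exact_mod_cast this
    linarith

/-- The pairs inside `X` used by the `f h`. -/
theorem used_card (hP : Prob m c W A B G M) {X : Finset V} {K : Finset V} {R f : V → V → V}
    (hX : ∀ u ∈ X, ∀ v ∉ W, (¬ cross A B u v ↔ v ∈ X))
    (hXW : ∀ u ∈ X, u ∉ W)
    (hst : State4 W G M K f)
    (hedge : ∀ h ∈ K, ∀ u, R h u ≠ u → G u (R h u) ∧ ¬ cross A B u (R h u) ∧ u ∉ M h)
    (hf : ∀ h ∈ K, ∀ u, f h u ≠ u → f h u = R h u ∨ cross A B u (f h u)) :
    ((X ×ˢ X).filter (fun q => G q.1 q.2 ∧ used K f q.1 q.2)).card =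
      ∑ h ∈ K, (X.filter (fun u => R h u ≠ u ∧ f h u = R h u)).card := by
  have h1 : (X ×ˢ X).filter (fun q => G q.1 q.2 ∧ used K f q.1 q.2) =
      K.biUnion (fun h => (X.filter (fun u => R h u ≠ u ∧ f h u = R h u)).image
        (fun u => (u, f h u))) := by
    ext ⟨u, v⟩
    simp only [mem_filter, mem_product, mem_biUnion, mem_image, Prod.mk.injEq]
    constructor
    · rintro ⟨⟨hu, hv⟩, hadj, h, hh, hfu⟩
      have hne : f h u ≠ u := by
        intro e
        rw [hfu] at e
        rw [e] at hadj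
        exact hP.irrefl u hadj
      rcases hf h hh u hne with h2 | h2
      · refine ⟨h, hh, u, ⟨hu, ?_, h2⟩, rfl, hfu⟩
        rw [← h2]
        exact hne
      · exfalso
        have h3 := (hX u hu v (hXW v hv)).2 hv
        rw [hfu] at h2
        exact h3 h2
    · rintro ⟨h, hh, u', ⟨hu', h2, h3⟩, rfl, rfl⟩
      obtain ⟨h4, h5, _⟩ := hedge h hh u' h2
      rw [← h3] at h4 h5
      exact ⟨⟨hu', (hX u' hu' _ (hP.notin h4).2).1 h5⟩, h4, h, hh, rfl⟩
  rw [h1, card_biUnion]
  · apply sum_congr rfl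
    intro h _
    apply card_image_of_injective
    intro u v huv
    simp only [Prod.mk.injEq] at huv
    exact huv.1
  · intro h hh h' hh' hne
    simp only [Function.onFun]
    rw [Finset.disjoint_left]
    rintro ⟨u, v⟩ h2 h3
    simp only [mem_image, mem_filter, Prod.mk.injEq] at h2 h3
    obtain ⟨u1, ⟨hu1, h4, h5⟩, rfl, rfl⟩ := h2
    obtain ⟨u2, ⟨hu2, h6, h7⟩, rfl, h8⟩ := h3
    have h9 := hst.disj h hh h' hh' hne u2 h8.symm
    rw [h5] at h9
    exact h4 h9

/-- The final step. -/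
theorem fin_step (hP : Prob m c W A B G M)
    (hr : (10 : ℝ) ^ 14 ≤ W.card) {K : Finset V} {R f : V → V → V} (hKT : K ⊆ T)
    (hKc : (4999 / 10000 : ℝ) * W.card ≤ K.card)
    (hedge : ∀ h ∈ K, ∀ u, R h u ≠ u → G u (R h u) ∧ ¬ cross A B u (R h u) ∧ u ∉ M h)
    (hgood : ∀ h ∈ K, ∀ u, R h u ≠ u → ¬ (c (R h u) = c u ∧ c u = c h))
    (hfix : ∀ v ∉ W, ((K.filter (fun h => R h v = v)).card : ℝ) ≤ (1 / 100000) * W.card)
    (hunc : ∀ v ∉ W, ((univ.filter (fun u => (G v u ∧ ¬ cross A B v u) ∧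
        ∀ h ∈ K, R h v ≠ u)).card : ℝ) ≤ (2 / 10 ^ 6) * W.card)
    (hst : State4 W G M K f)
    (hf : ∀ h ∈ K, ∀ u, f h u ≠ u → f h u = R h u ∨ cross A B u (f h u))
    (hbal : ∀ h ∈ K, (A.filter (fun u => R h u ≠ u ∧ f h u = R h u)).card =
        (B.filter (fun u => R h u ≠ u ∧ f h u = R h u)).card)
    (hcnt : ∀ v, ((K.filter (fun h => R h v ≠ v ∧ f h v ≠ R h v)).card : ℝ) ≤
        (4 / 100000) * W.card) : Stage14 c W A B G M T K f := by
  refine ⟨hst, hKT, hKc, ?_, ?_, ?_, ?_⟩
  · intro h hh u hu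
    rcases hf h hh u hu with h1 | h1
    · rw [h1] at hu ⊢
      exact hgood h hh u hu
    · rintro ⟨h2, -⟩
      exact hP.part.cross_ne h1 h2
  · intro v hv
    have h1 : K.filter (fun h => cross A B v (f h v)) ⊆
        K.filter (fun h => R h v = v) ∪ K.filter (fun h => R h v ≠ v ∧ f h v ≠ R h v) := by
      intro h hh
      simp only [mem_filter, mem_union] at hh ⊢
      by_cases h2 : R h v = v
      · exact Or.inl ⟨hh.1, h2⟩
      · refine Or.inr ⟨hh.1, h2, ?_⟩
        intro h3
        have h4 := (hedge h hh.1 v h2).2.1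
        rw [← h3] at h4
        exact h4 hh.2
    have h2 := le_trans (card_le_card h1) (card_union_le _ _)
    have h3 : ((K.filter (fun h => cross A B v (f h v))).card : ℝ) ≤
        ((K.filter (fun h => R h v = v)).card : ℝ) +
        ((K.filter (fun h => R h v ≠ v ∧ f h v ≠ R h v)).card : ℝ) := by exact_mod_cast h2
    have h4 := hfix v hv
    have h5 := hcnt v
    have h6 : (0 : ℝ) ≤ W.card := by positivity
    linarith
  · intro v hv
    have h1 : univ.filter (fun u => G v u ∧ ¬ used K f v u ∧ ¬ cross A B v u) ⊆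
        (univ.filter (fun u => (G v u ∧ ¬ cross A B v u) ∧
          ∀ h ∈ K, R h v ≠ u) ∪
        (K.filter (fun h => R h v ≠ v ∧ f h v ≠ R h v)).image (fun h => R h v)) := by
      intro u hu
      rw [mem_filter] at hu
      rw [mem_union]
      by_cases h2 : ∀ h ∈ K, R h v ≠ u
      · left
        rw [mem_filter]
        exact ⟨mem_univ _, ⟨hu.2.1, hu.2.2.2⟩, h2⟩
      · right
        push Not at h2
        obtain ⟨h, hh, h3⟩ := h2
        refine mem_image.2 ⟨h, ?_, h3⟩
        rw [mem_filter]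
        refine ⟨hh, ?_, ?_⟩
        · intro e
          rw [h3] at e
          have := hu.2.1
          rw [e] at this
          exact hP.irrefl v this
        · intro h4
          exact hu.2.2.1 ⟨h, hh, by rw [h4, h3]⟩
    have h2 := le_trans (card_le_card h1) (le_trans (card_union_le _ _)
      (Nat.add_le_add_left card_image_le _))
    have h3 : ((univ.filter (fun u => G v u ∧ ¬ used K f v u ∧ ¬ cross A B v u)).card : ℝ) ≤
        (((univ.filter (fun u => (G v u ∧ ¬ cross A B v u) ∧
          ∀ h ∈ K, R h v ≠ u)).card : ℝ) +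
        ((K.filter (fun h => R h v ≠ v ∧ f h v ≠ R h v)).card : ℝ)) := by exact_mod_cast h2
    have h5 := hcnt v
    have h6 := hunc v hv
    linarith
  · have hA := used_card (X := A) hP (fun u hu v hv => noncross_A hP hu hv)
      (fun u hu => hP.part.AW hu) hst hedge hf
    have hB := used_card (X := B) hP (fun u hu v hv => noncross_B hP hu hv)
      (fun u hu => hP.part.BW hu) hst hedge hf
    have hE := edges4 hP
    have hAB : ∑ h ∈ K, (A.filter (fun u => R h u ≠ u ∧ f h u = R h u)).card =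
      ∑ h ∈ K, (B.filter (fun u => R h u ≠ u ∧ f h u = R h u)).card := sum_congr rfl hbal
    have sp : ∀ X : Finset V, ((X ×ˢ X).filter (fun q => G q.1 q.2 ∧ used K f q.1 q.2)).card +
        ((X ×ˢ X).filter (fun q => G q.1 q.2 ∧ ¬ used K f q.1 q.2)).card =
        ((X ×ˢ X).filter (fun q => G q.1 q.2)).card := by
      intro X
      rw [← filter_filter, ← filter_filter]
      exact card_filter_add_card_filter_not _
    have h1 := sp A
    have h2 := sp B
    omega

/-- The two graphs. -/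
def G1 (c : V → ℕ) (G : V → V → Prop) (u v : V) : Prop :=
  G u v ∧ ((c u < 2 ∧ c v = c u) ∨ (2 ≤ c u ∧ 2 ≤ c v ∧ c v ≠ c u))

def G2 (c : V → ℕ) (G : V → V → Prop) (u v : V) : Prop :=
  G u v ∧ ((c u < 2 ∧ c v < 2 ∧ c v ≠ c u) ∨ (2 ≤ c u ∧ c v = c u))

instance (c : V → ℕ) (G : V → V → Prop) [DecidableRel G] : DecidableRel (G1 c G) := by
  intro u v; unfold G1; infer_instance

instance (c : V → ℕ) (G : V → V → Prop) [DecidableRel G] : DecidableRel (G2 c G) := by
  intro u v; unfold G2; infer_instance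

/-- degrees in `G1` -/
theorem deg1 (hP : Prob m c W A B G M) (v : V) :
    ((univ.filter (fun u => G1 c G v u)).card : ℝ) ≤ (1 / 4 + 1 / 10 ^ 13) * (W.card : ℝ) := by
  by_cases hv : v ∈ W
  · have : univ.filter (fun u => G1 c G v u) = ∅ := by
      apply filter_eq_empty_iff.2
      intro u _ h
      exact (hP.notin h.1).1 hv
    rw [this]
    simp
    positivity
  · have hc4 := hP.part.c4
    have key : ∀ i, i < 4 → (∀ u, G1 c G v u → c u = i) →
        ((univ.filter (fun u => G1 c G v u)).card : ℝ) ≤ (1 / 4 + 1 / 10 ^ 13) * (W.card : ℝ) := by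
      intro i hi h
      refine le_trans ?_ (cdeg' hP hv hi).2
      have : (univ.filter (fun u => G1 c G v u)).card ≤
          (univ.filter (fun u => G v u ∧ c u = i)).card := by
        apply card_le_card
        intro u hu
        rw [mem_filter] at hu ⊢
        exact ⟨hu.1, hu.2.1, h u hu.2⟩
      exact_mod_cast this
    have h4 := hc4 v
    have : c v = 0 ∨ c v = 1 ∨ c v = 2 ∨ c v = 3 := by omega
    rcases this with h | h | h | h
    · apply key 0 (by norm_num)
      rintro u ⟨-, h1⟩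
      have := hc4 u
      omega
    · apply key 1 (by norm_num)
      rintro u ⟨-, h1⟩
      have := hc4 u
      omega
    · apply key 3 (by norm_num)
      rintro u ⟨-, h1⟩
      have := hc4 u
      omega
    · apply key 2 (by norm_num)
      rintro u ⟨-, h1⟩
      have := hc4 u
      omega

/-- degrees in `G2` -/
theorem deg2 (hP : Prob m c W A B G M) (v : V) :
    ((univ.filter (fun u => G2 c G v u)).card : ℝ) ≤ (1 / 4 + 1 / 10 ^ 13) * (W.card : ℝ) := by
  by_cases hv : v ∈ W
  · have : univ.filter (fun u => G2 c G v u) = ∅ := by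
      apply filter_eq_empty_iff.2
      intro u _ h
      exact (hP.notin h.1).1 hv
    rw [this]
    simp
    positivity
  · have hc4 := hP.part.c4
    have key : ∀ i, i < 4 → (∀ u, G2 c G v u → c u = i) →
        ((univ.filter (fun u => G2 c G v u)).card : ℝ) ≤ (1 / 4 + 1 / 10 ^ 13) * (W.card : ℝ) := by
      intro i hi h
      refine le_trans ?_ (cdeg' hP hv hi).2
      have : (univ.filter (fun u => G2 c G v u)).card ≤
          (univ.filter (fun u => G v u ∧ c u = i)).card := by
        apply card_le_card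
        intro u hu
        rw [mem_filter] at hu ⊢
        exact ⟨hu.1, hu.2.1, h u hu.2⟩
      exact_mod_cast this
    have h4 := hc4 v
    have : c v = 0 ∨ c v = 1 ∨ c v = 2 ∨ c v = 3 := by omega
    rcases this with h | h | h | h
    · apply key 1 (by norm_num)
      rintro u ⟨-, h1⟩
      have := hc4 u
      omega
    · apply key 0 (by norm_num)
      rintro u ⟨-, h1⟩
      have := hc4 u
      omega
    · apply key 2 (by norm_num)
      rintro u ⟨-, h1⟩
      have := hc4 u
      omega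
    · apply key 3 (by norm_num)
      rintro u ⟨-, h1⟩
      have := hc4 u
      omega

end S1aux4

theorem s14 : ∃ r0 : ℕ, ∀ r ≥ r0, ∀ (V : Type) [Fintype V] [DecidableEq V] (m : SQ V)
    (c : V → ℕ) (W A B : Finset V) (G : V → V → Prop) [DecidableRel G] (M : V → Finset V),
    Sz c W r → Prob m c W A B G M → ∀ T1 T2 : Finset V, T1 ⊆ W → T2 ⊆ W →
    (∀ h ∈ T1, 2 ≤ c h) → (∀ h ∈ T2, c h < 2) → (251 / 1000) * (r : ℝ) ≤ T1.card →
    (251 / 1000) * (r : ℝ) ≤ T2.card →
    ∃ (H : Finset V) (f : V → V → V), Stage14 c W A B G M (T1 ∪ T2) H f := by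
  obtain ⟨r1, hr1⟩ := levels (1 / 10 ^ 13) (by norm_num)
  obtain ⟨r2, hr2⟩ := s1ind4
  refine ⟨max (max r1 r2) (10 ^ 14), ?_⟩
  intro r hr V _ _ m c W A B G _ M hS hP T1 T2 hT1 hT2 hc1 hc2 hT1c hT2c
  have hWr := hS.Wr
  have hn1 := hS.n1
  have hn2 := hS.n2
  have hra : r1 ≤ r := le_trans (le_trans (le_max_left _ _) (le_max_left _ _)) hr
  have hrb : r2 ≤ r := le_trans (le_trans (le_max_right _ _) (le_max_left _ _)) hr
  have hrc : 10 ^ 14 ≤ r := le_trans (le_max_right _ _) hr
  have hrR : (10 : ℝ) ^ 14 ≤ (r : ℝ) := by exact_mod_cast hrc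
  have hWR : (W.card : ℝ) = r := by rw [hWr]
  have hrW : (10 : ℝ) ^ 14 ≤ (W.card : ℝ) := by rw [hWR]; exact hrR
  have hr0 : (0 : ℝ) ≤ (r : ℝ) := by positivity
  have hWne : W.Nonempty := by
    rw [← card_pos, hWr]
    omega
  -- the sizes
  have hcAB := hP.part.card
  obtain ⟨hcA, hcB⟩ := hP.AB_close hWne
  have hr10 : 16 * 10 ^ 6 * r + 16 * r + 2 ≤ r ^ 10 := by
    have h1 : r ^ 2 ≤ r ^ 10 := Nat.pow_le_pow_right (by omega) (by norm_num)
    have h2 : 10 ^ 14 * r ≤ r ^ 2 := by nlinarith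
    omega
  have hAc : 6 * (W.card : ℝ) ≤ (1 / 10 ^ 6) * A.card := by
    have h1 : 6 * 10 ^ 6 * W.card ≤ A.card := by omega
    have h2 : (6 * 10 ^ 6 * W.card : ℝ) ≤ A.card := by exact_mod_cast h1
    linarith
  have hBc : 6 * (W.card : ℝ) ≤ (1 / 10 ^ 6) * B.card := by
    have h1 : 6 * 10 ^ 6 * W.card ≤ B.card := by omega
    have h2 : (6 * 10 ^ 6 * W.card : ℝ) ≤ B.card := by exact_mod_cast h1
    linarith
  have hne0 : ∃ v, v ∉ W := by
    by_contra hcon
    push Not at hcon
    have h1 : W = univ := eq_univ_iff_forall.2 hcon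
    have h2 : Fintype.card V = r := by rw [← hWr, h1, card_univ]
    omega
  -- the matchings of `levels`
  set Δ : ℕ := ⌊(1 / 4 + 1 / 10 ^ 13) * (r : ℝ)⌋₊ with hΔ
  have hΔr : (Δ : ℝ) ≤ (1 / 4 + 1 / 10 ^ 13) * (r : ℝ) := Nat.floor_le (by positivity)
  have hΔr' : Δ ≤ r := by
    have : (Δ : ℝ) ≤ r := by linarith
    exact_mod_cast this
  obtain ⟨q1, hq1, R1, a1, a2, a3, a4⟩ := hr1 r hra V hn2 (S1aux4.G1 c G)
    (by
      rintro u v ⟨h1, h2⟩
      refine ⟨hP.symm u v h1, ?_⟩
      omega)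
    (fun u h => hP.irrefl u h.1) Δ hΔr' (by
      intro v
      have h5 := S1aux4.deg1 hP v
      rw [hWR] at h5
      exact Nat.le_floor h5)
  obtain ⟨q2, hq2, R2, b1, b2, b3, b4⟩ := hr1 r hra V hn2 (S1aux4.G2 c G)
    (by
      rintro u v ⟨h1, h2⟩
      refine ⟨hP.symm u v h1, ?_⟩
      omega)
    (fun u h => hP.irrefl u h.1) Δ hΔr' (by
      intro v
      have h5 := S1aux4.deg2 hP v
      rw [hWR] at h5
      exact Nat.le_floor h5)
  have hq1r : (q1 : ℝ) ≤ (1 / 4 + 2 / 10 ^ 13) * r := by linarith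
  have hq2r : (q2 : ℝ) ≤ (1 / 4 + 2 / 10 ^ 13) * r := by linarith
  have hq1' : q1 ≤ T1.card := by
    have : (q1 : ℝ) ≤ T1.card := by linarith
    exact_mod_cast this
  have hq2' : q2 ≤ T2.card := by
    have : (q2 : ℝ) ≤ T2.card := by linarith
    exact_mod_cast this
  obtain ⟨col1, hcol1, hcolinj1⟩ : ∃ col : Fin q1 → V, (∀ i, col i ∈ T1) ∧
      Function.Injective col := by
    refine ⟨fun i => (T1.equivFin.symm (Fin.castLE hq1' i) : V), fun i => coe_mem _, ?_⟩
    intro i j h
    have h5 := T1.equivFin.symm.injective (Subtype.ext h)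
    exact Fin.castLE_injective hq1' h5
  obtain ⟨col2, hcol2, hcolinj2⟩ : ∃ col : Fin q2 → V, (∀ i, col i ∈ T2) ∧
      Function.Injective col := by
    refine ⟨fun i => (T2.equivFin.symm (Fin.castLE hq2' i) : V), fun i => coe_mem _, ?_⟩
    intro i j h
    have h5 := T2.equivFin.symm.injective (Subtype.ext h)
    exact Fin.castLE_injective hq2' h5
  let R0 : Fin q1 ⊕ Fin q2 → V → V := Sum.elim R1 R2
  let col : Fin q1 ⊕ Fin q2 → V := Sum.elim col1 col2
  have hG12 : ∀ u v, S1aux4.G1 c G u v → ¬ S1aux4.G2 c G u v := by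
    rintro u v ⟨-, h1⟩ ⟨-, h2⟩
    omega
  have hGin : ∀ u v, G u v → ¬ cross A B u v → S1aux4.G1 c G u v ∨ S1aux4.G2 c G u v := by
    intro u v h1 h2
    rw [S1aux4.noncross_iff hP h1] at h2
    by_cases h3 : c v = c u
    · rcases h2 with h2 | h2
      · exact Or.inl ⟨h1, by omega⟩
      · exact Or.inr ⟨h1, by omega⟩
    · rcases h2 with h2 | h2
      · exact Or.inr ⟨h1, by omega⟩
      · exact Or.inl ⟨h1, by omega⟩
  have D : S1aux4.Data c W A B G (T1 ∪ T2) R0 col := by
    refine ⟨?_, ?_, ?_, ?_, ?_, ?_, ?_, ?_, ?_⟩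
    · rintro (i | i) u
      · exact a1 i u
      · exact b1 i u
    · rintro (i | i) u hu
      · have h1 := a2 i u hu
        refine ⟨h1.1, ?_⟩
        show ¬ cross A B u (R1 i u)
        rw [S1aux4.noncross_iff hP h1.1]
        have := h1.2
        omega
      · have h1 := b2 i u hu
        refine ⟨h1.1, ?_⟩
        show ¬ cross A B u (R2 i u)
        rw [S1aux4.noncross_iff hP h1.1]
        have := h1.2
        omega
    · rintro (i | i) u hu
      · have h1 := a2 i u hu
        show ¬ (c (R1 i u) = c u ∧ c u = c (col1 i))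
        have h2 := hc1 _ (hcol1 i)
        have := h1.2
        omega
      · have h1 := b2 i u hu
        show ¬ (c (R2 i u) = c u ∧ c u = c (col2 i))
        have h2 := hc2 _ (hcol2 i)
        have := h1.2
        omega
    · rintro (i | i) (j | j) hij u hu
      · exact a3 i j (fun e => hij (by rw [e])) u hu
      · by_contra hne
        change R1 i u ≠ u at hne
        change R1 i u = R2 j u at hu
        have h1 := a2 i u hne
        have h2 := b2 j u (by rw [← hu]; exact hne)
        rw [← hu] at h2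
        exact hG12 _ _ h1 h2
      · by_contra hne
        change R2 i u ≠ u at hne
        change R2 i u = R1 j u at hu
        have h1 := b2 i u hne
        have h2 := a2 j u (by rw [← hu]; exact hne)
        rw [← hu] at h2
        exact hG12 _ _ h2 h1
      · exact b3 i j (fun e => hij (by rw [e])) u hu
    · intro v
      have h1 : univ.filter (fun u => (G v u ∧ ¬ cross A B v u) ∧ ∀ i, R0 i v ≠ u) ⊆
          univ.filter (fun u => S1aux4.G1 c G v u ∧ ∀ i, R1 i v ≠ u) ∪
          univ.filter (fun u => S1aux4.G2 c G v u ∧ ∀ i, R2 i v ≠ u) := by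
        intro u hu
        simp only [mem_filter, mem_union, mem_univ, true_and] at hu ⊢
        rcases hGin v u hu.1.1 hu.1.2 with h | h
        · exact Or.inl ⟨h, fun i => hu.2 (Sum.inl i)⟩
        · exact Or.inr ⟨h, fun i => hu.2 (Sum.inr i)⟩
      have h2 := le_trans (card_le_card h1) (card_union_le _ _)
      have h3 : ((univ.filter (fun u => (G v u ∧ ¬ cross A B v u) ∧ ∀ i, R0 i v ≠ u)).card : ℝ) ≤
          ((univ.filter (fun u => S1aux4.G1 c G v u ∧ ∀ i, R1 i v ≠ u)).card : ℝ) +
          ((univ.filter (fun u => S1aux4.G2 c G v u ∧ ∀ i, R2 i v ≠ u)).card : ℝ) := by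
        exact_mod_cast h2
      have h4 := a4 v
      have h5 := b4 v
      rw [hWR]
      linarith
    · rw [hWR, Fintype.card_sum, Fintype.card_fin, Fintype.card_fin]
      push_cast
      linarith
    · rintro (i | i)
      · exact hT1 (hcol1 i)
      · exact hT2 (hcol2 i)
    · rintro (i | i)
      · exact mem_union_left _ (hcol1 i)
      · exact mem_union_right _ (hcol2 i)
    · rintro (i | i) (j | j) h
      · rw [hcolinj1 h]
      · exfalso
        change col1 i = col2 j at h
        have h1 := hc1 _ (hcol1 i)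
        have h2 := hc2 _ (hcol2 j)
        rw [h] at h1
        omega
      · exfalso
        change col2 i = col1 j at h
        have h1 := hc1 _ (hcol1 j)
        have h2 := hc2 _ (hcol2 i)
        rw [h] at h2
        omega
      · rw [hcolinj2 h]
  obtain ⟨K, R, hK1, hKT, hK2, hK2', hK3, hK4, hK4', hK5, hK6, hK7, hK8, hK9⟩ :=
    S1aux4.prep hP D hrW hne0 hAc hBc
  obtain ⟨f, hf1, hf2, hf3, hf4⟩ := hr2 r hrb V m c W A B G M hS hP K hK1
    (by rw [← hWR]; exact hK2) R hK3 hK4 hK5 hK6 hK7 (by rw [← hWR]; exact hK8)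
  refine ⟨K, f, S1aux4.fin_step hP hrW hKT hK2' hK4 hK4' hK8 ?_ hf1 hf2 hf3
    (by rw [hWR]; exact hf4)⟩
  intro v hv
  have h5 := hK9 v hv
  convert h5 using 3

end Pool.Agent.CH4
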