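import Pool.Agent.CH4.Cmp

/-!
# CH4/S2b: completing the base matchings of stage 2 (as `CHS/S2b`)

Induction over the elements `h` of `H2` (over subsets `K ⊆ H2` of treated colours).  Invariant: a
family `f'` with `f' = f` on `H`, `State4 W G M (H ∪ K) f'`, `f' h u = b h u` whenever `h ∈ K` and
`b h u ≠ u`, and `cross A B u (f' h u)` whenever `h ∈ K`, `b h u = u` and `f' h u ≠ u`.
Step for `h ∈ H2 \ K`: the pool is
`P u v := G u v ∧ cross A B u v ∧ ¬ used (H ∪ K) f' u v` (symmetric, since the `f'` are involutions).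
For `v ∉ W` the number of `u` with `P v u` is at least
`(1/2 - 2·10⁻¹³) r - r/10000 - |K| ≥ 0.2546 r` (degree to the other side by `cdeg` for two colours,
pairs used by `H` by `Stage14.usage`, pairs used by `K`: at most one for each element of `K`,
`|K| ≤ |H2| ≤ 0.2452 r`).  Of these at most `r/300` have `b h u ≠ u` (`Base4.fair`) and at most 8 lie
in `M h` (`mdeg`), so `τ = 0.251 r` works in `complete4`, since `|B| ≤ (n + 3 r)/2` (`AB_close`,
`PartAB.card`) and `r |B| / (2 n) + 10⁻⁷ r ≤ r/4 + r²/n + 10⁻⁷ r < 0.251 r`.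
`complete4` gives `f' h`.  Disjointness from the earlier matchings: the pairs of `b h` are not used by
`H`, and are not used by `h' ∈ K`: the pairs of `f' h'` are those of `b h'` (disjoint by `Base4.disj`)
or cross pairs, while pairs of `b h` are inside pairs; the new pool pairs are unused by definition.
At the end (`K = H2`): `Stage24` holds for `H ∪ H2`: `good` by `Stage14.good` on `H` and by `Base4.good`,
respectively `cross_ne`, on `H2`; `rest`: an unused inside pair would be covered by some `b h`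
(`Base4.cover`).
-/

set_option autoImplicit false

namespace Pool.Agent.CH4
open Finset Pool.Agent.CHS

/-- the invariant of the induction -/
structure InvS4 {V : Type} [Fintype V] [DecidableEq V]
    (W A B : Finset V) (G : V → V → Prop) (M : V → Finset V) (H : Finset V) (f b : V → V → V)
    (K : Finset V) (f' : V → V → V) : Prop where
  i1 : ∀ x ∈ H, f' x = f x
  i2 : State4 W G M (H ∪ K) f'
  i3 : ∀ x ∈ K, ∀ u, b x u ≠ u → f' x u = b x u
  i4 : ∀ x ∈ K, ∀ u, b x u = u → f' x u ≠ u → cross A B u (f' x u)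

/-- the pool -/
def poolS4 {V : Type} [Fintype V] [DecidableEq V]
    (A B : Finset V) (G : V → V → Prop) (L : Finset V) (f' : V → V → V) (u v : V) : Prop :=
  G u v ∧ cross A B u v ∧ ¬ used L f' u v

instance instPoolS4 {V : Type} [Fintype V] [DecidableEq V]
    (A B : Finset V) (G : V → V → Prop) [DecidableRel G] (L : Finset V) (f' : V → V → V) :
    DecidableRel (poolS4 A B G L f') := by
  intro u v
  unfold poolS4
  infer_instance

section
variable {V : Type} [Fintype V] [DecidableEq V] {m : SQ V} {c : V → ℕ}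
  {W A B : Finset V} {G : V → V → Prop} [DecidableRel G] {M : V → Finset V}
  {T H : Finset V} {f : V → V → V} {H2 : Finset V} {b : V → V → V}

theorem crossdeg_s4 (hP : Prob m c W A B G M) (v : V) (hv : v ∉ W) :
    (W.card : ℝ) / 2 - (2 / 10 ^ 13) * W.card ≤
      ((univ.filter (fun u => G v u ∧ cross A B v u)).card : ℝ) := by
  have key : ∀ i j : ℕ, i < 4 → j < 4 → i ≠ j →
      (∀ u, G v u → (c u = i ∨ c u = j) → cross A B v u) →
      (W.card : ℝ) / 2 - (2 / 10 ^ 13) * W.card ≤
      ((univ.filter (fun u => G v u ∧ cross A B v u)).card : ℝ) := by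
    intro i j hi hj hij hc
    have h1 := (abs_le.mp (hP.cdeg v hv i hi)).1
    have h2 := (abs_le.mp (hP.cdeg v hv j hj)).1
    have hd : Disjoint (univ.filter (fun u => G v u ∧ c u = i))
        (univ.filter (fun u => G v u ∧ c u = j)) := by
      rw [Finset.disjoint_left]
      intro u h3 h4
      rw [mem_filter] at h3 h4
      exact hij (h3.2.2.symm.trans h4.2.2)
    have h3 : (univ.filter (fun u => G v u ∧ c u = i)).card +
        (univ.filter (fun u => G v u ∧ c u = j)).card ≤
        (univ.filter (fun u => G v u ∧ cross A B v u)).card := by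
      rw [← card_union_of_disjoint hd]
      refine card_le_card fun u hu => ?_
      rw [mem_union, mem_filter, mem_filter] at hu
      rw [mem_filter]
      rcases hu with hu | hu
      · exact ⟨mem_univ _, hu.2.1, hc u hu.2.1 (Or.inl hu.2.2)⟩
      · exact ⟨mem_univ _, hu.2.1, hc u hu.2.1 (Or.inr hu.2.2)⟩
    have h4 : ((univ.filter (fun u => G v u ∧ c u = i)).card : ℝ) +
        ((univ.filter (fun u => G v u ∧ c u = j)).card : ℝ) ≤
        ((univ.filter (fun u => G v u ∧ cross A B v u)).card : ℝ) := by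
      exact_mod_cast h3
    linarith
  rcases hP.part.AorB hv with h | h
  · refine key 2 3 (by norm_num) (by norm_num) (by norm_num) fun u hu hc => ?_
    refine Or.inl ⟨h, (hP.part.memB u).2 ⟨(hP.notin hu).2, ?_⟩⟩
    rcases hc with hc | hc <;> omega
  · refine key 0 1 (by norm_num) (by norm_num) (by norm_num) fun u hu hc => ?_
    refine Or.inr ⟨h, (hP.part.memA u).2 ⟨(hP.notin hu).2, ?_⟩⟩
    rcases hc with hc | hc <;> omega

theorem pooldeg_s4 (hr : 100000 ≤ W.card) (hP : Prob m c W A B G M)
    (hS : Stage14 c W A B G M T H f) (hH2 : H2 ⊆ W \ H)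
    (hH2c : (H2.card : ℝ) ≤ (2452 / 10000) * W.card)
    (hB : Base4 c W A B G M H f H2 b) {K : Finset V} (hK : K ⊆ H2)
    {f' : V → V → V} (hI : InvS4 W A B G M H f b K f') {h : V} (hh : h ∈ H2) (v : V)
    (hv : v ∉ W) :
    (251 / 1000 : ℝ) * W.card ≤ ((univ.filter (fun u => poolS4 A B G (H ∪ K) f' v u ∧
      b h u = u ∧ u ∉ M h)).card : ℝ) := by
  have hhW : h ∈ W := (mem_sdiff.mp (hH2 hh)).1
  set S := univ.filter (fun u => poolS4 A B G (H ∪ K) f' v u ∧ b h u = u ∧ u ∉ M h)
    with hSd
  set U := (H.filter (fun x => cross A B v (f x v))).image (fun x => f x v) with hU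
  set T' := K.image (fun x => f' x v) with hT
  set Fx := univ.filter (fun u => G v u ∧ b h u ≠ u) with hF
  set Z := univ.filter (fun u => G v u ∧ u ∈ W.biUnion M) with hZ
  have hsub : univ.filter (fun u => G v u ∧ cross A B v u) ⊆
      (((S ∪ U) ∪ T') ∪ Fx) ∪ Z := by
    intro u hu
    rw [mem_filter] at hu
    obtain ⟨-, h1, h2⟩ := hu
    by_cases h3 : u ∈ W.biUnion M
    · exact mem_union_right _ (by rw [hZ, mem_filter]; exact ⟨mem_univ _, h1, h3⟩)
    by_cases h4 : b h u ≠ u
    · refine mem_union_left _ (mem_union_right _ ?_)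
      rw [hF, mem_filter]; exact ⟨mem_univ _, h1, h4⟩
    push Not at h4
    by_cases h5 : ∃ x ∈ K, f' x v = u
    · obtain ⟨x, hx, hxu⟩ := h5
      refine mem_union_left _ (mem_union_left _ (mem_union_right _ ?_))
      rw [hT, mem_image]; exact ⟨x, hx, hxu⟩
    by_cases h6 : ∃ x ∈ H, f x v = u
    · obtain ⟨x, hx, hxu⟩ := h6
      refine mem_union_left _ (mem_union_left _ (mem_union_left _ (mem_union_right _ ?_)))
      rw [hU, mem_image]
      exact ⟨x, mem_filter.mpr ⟨hx, by rw [hxu]; exact h2⟩, hxu⟩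
    refine mem_union_left _ (mem_union_left _ (mem_union_left _ (mem_union_left _ ?_)))
    rw [hSd, mem_filter]
    refine ⟨mem_univ _, ⟨h1, h2, ?_⟩, h4, ?_⟩
    · rintro ⟨x, hx, hxu⟩
      rcases mem_union.mp hx with hx | hx
      · exact h6 ⟨x, hx, by rw [← hI.i1 x hx]; exact hxu⟩
      · exact h5 ⟨x, hx, hxu⟩
    · intro h8
      exact h3 (mem_biUnion.2 ⟨h, hhW, h8⟩)
  have hc1 := card_le_card hsub
  have hc2 : ((((S ∪ U) ∪ T') ∪ Fx) ∪ Z).card ≤
      S.card + U.card + T'.card + Fx.card + Z.card := by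
    have a1 := card_union_le (((S ∪ U) ∪ T') ∪ Fx) Z
    have a2 := card_union_le ((S ∪ U) ∪ T') Fx
    have a3 := card_union_le (S ∪ U) T'
    have a4 := card_union_le S U
    omega
  have hc3 : ((univ.filter (fun u => G v u ∧ cross A B v u)).card : ℝ) ≤
      S.card + U.card + T'.card + Fx.card + Z.card := by
    exact_mod_cast hc1.trans hc2
  have b1 := crossdeg_s4 hP v hv
  have b3 : (U.card : ℝ) ≤ (1 / 10000) * W.card := by
    refine le_trans ?_ (hS.usage v hv)
    exact_mod_cast card_image_le
  have b4 : (T'.card : ℝ) ≤ (2452 / 10000) * W.card := by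
    refine le_trans ?_ hH2c
    exact_mod_cast card_image_le.trans (card_le_card hK)
  have b5 : (Fx.card : ℝ) ≤ (W.card : ℝ) / 300 := hB.fair h hh v hv
  have b6 : (Z.card : ℝ) ≤ 8 := by exact_mod_cast hP.mdeg v hv
  have hr' : (100000 : ℝ) ≤ W.card := by exact_mod_cast hr
  linarith

theorem tau_s4 (hr : 100000 ≤ W.card) (hP : Prob m c W A B G M)
    (hn1 : W.card ^ 10 ≤ Fintype.card V) (h : V) :
    (W.card : ℝ) * (B.filter (fun u => b h u = u)).card / (2 * Fintype.card V)
      + (1 / 10 ^ 7) * W.card < (251 / 1000 : ℝ) * W.card := by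
  have h1 := hP.part.card
  have hne : W.Nonempty := by
    rw [← card_pos]
    omega
  have h2 := (hP.AB_close hne).2
  have h3 : (B.filter (fun u => b h u = u)).card ≤ B.card := card_filter_le _ _
  have h4 : 2 * (B.filter (fun u => b h u = u)).card ≤ Fintype.card V + 3 * W.card := by omega
  have h6 : 1000 * W.card ≤ Fintype.card V := by
    refine le_trans ?_ hn1
    have h7 : W.card ^ 10 = W.card ^ 8 * W.card * W.card := by ring
    rw [h7]
    have h8 : 1 ≤ W.card ^ 8 := Nat.one_le_pow _ _ (by omega)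
    have h9 : 1000 ≤ W.card ^ 8 * W.card := by nlinarith
    exact Nat.mul_le_mul_right _ h9
  have hn : 0 < Fintype.card V := by omega
  have hn' : (0 : ℝ) < Fintype.card V := by exact_mod_cast hn
  have hr' : (100000 : ℝ) ≤ W.card := by exact_mod_cast hr
  have h5 : 2 * ((B.filter (fun u => b h u = u)).card : ℝ) ≤ Fintype.card V + 3 * W.card := by
    exact_mod_cast h4
  have h6' : 1000 * (W.card : ℝ) ≤ Fintype.card V := by exact_mod_cast h6
  have h7 : (W.card : ℝ) * (B.filter (fun u => b h u = u)).card / (2 * Fintype.card V) ≤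
      (2508 / 10000 : ℝ) * W.card := by
    rw [div_le_iff₀ (by positivity)]
    nlinarith
  linarith

theorem step_s4 (hr : 100000 ≤ W.card) (hP : Prob m c W A B G M)
    (hn1 : W.card ^ 10 ≤ Fintype.card V)
    (hS : Stage14 c W A B G M T H f) (hH2 : H2 ⊆ W \ H)
    (hH2c : (H2.card : ℝ) ≤ (2452 / 10000) * W.card)
    (hB : Base4 c W A B G M H f H2 b) {K : Finset V} (hK : K ⊆ H2)
    {f' : V → V → V} (hI : InvS4 W A B G M H f b K f') {h : V} (hh : h ∈ H2) (hhK : h ∉ K) :
    ∃ f'' : V → V → V, InvS4 W A B G M H f b (insert h K) f'' := by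
  have hhW : h ∈ W := (mem_sdiff.mp (hH2 hh)).1
  have hhH : h ∉ H := (mem_sdiff.mp (hH2 hh)).2
  obtain ⟨f0, hf1, hf2, hf3⟩ := complete4 m c W A B G M hP h hhW (b h) (hB.inv h hh)
    (fun u hu => ⟨(hB.edge h hh u hu).1, (hB.edge h hh u hu).2.2.2⟩) (hB.bal h hh)
    (poolS4 A B G (H ∪ K) f')
    (by
      rintro u v ⟨h1, h2, h4⟩
      refine ⟨hP.symm u v h1, cross_symm A B u v h2, ?_⟩
      rintro ⟨x, hx, hxu⟩
      exact h4 ⟨x, hx, by rw [← hxu]; exact (hI.i2.mat x hx).inv v⟩)
    (fun u v huv => ⟨huv.1, huv.2.1⟩) ((251 / 1000 : ℝ) * W.card) (tau_s4 hr hP hn1 h)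
    (fun v hv _ _ => pooldeg_s4 hr hP hS hH2 hH2c hB hK hI hh v hv)
  have key : ∀ y ∈ H ∪ K, ∀ u, f0 u = f' y u → f0 u = u := by
    intro y hy u he
    by_contra hne
    by_cases hb : b h u = u
    · obtain ⟨-, -, h4⟩ := hf3 u hb hne
      exact h4 ⟨y, hy, he.symm⟩
    · have h1 := hf2 u hb
      obtain ⟨e1, e2, e3, e4⟩ := hB.edge h hh u hb
      rcases mem_union.mp hy with hy | hy
      · exact e2 ⟨y, hy, by rw [← hI.i1 y hy, ← he, h1]⟩
      · by_cases hby : b y u = u
        · have h2 : f' y u ≠ u := by rw [← he]; exact hne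
          have c1 := hI.i4 y hy u hby h2
          rw [← he, h1] at c1
          exact e3 c1
        · have h2 := hI.i3 y hy u hby
          have hyh : h ≠ y := fun e => hhK (e ▸ hy)
          exact hb (hB.disj h hh y (hK hy) hyh u (by rw [← h1, he, h2]))
  refine ⟨Function.update f' h f0, ?_, ⟨?_, ?_, ?_⟩, ?_, ?_⟩
  · intro x hx
    have hxh : x ≠ h := fun e => hhH (e ▸ hx)
    rw [Function.update_of_ne hxh]
    exact hI.i1 x hx
  · intro x hx
    rcases mem_union.mp hx with hx | hx
    · exact hI.i2.sub (mem_union_left _ hx)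
    · rcases mem_insert.mp hx with rfl | hx
      · exact hhW
      · exact hI.i2.sub (mem_union_right _ hx)
  · intro x hx
    by_cases hxh : x = h
    · subst hxh
      rw [Function.update_self]
      exact hf1
    · rw [Function.update_of_ne hxh]
      refine hI.i2.mat x ?_
      rcases mem_union.mp hx with hx | hx
      · exact mem_union_left _ hx
      · exact mem_union_right _ ((mem_insert.mp hx).resolve_left hxh)
  · intro x hx y hy hxy u he
    have hin : ∀ z ∈ H ∪ insert h K, z ≠ h → z ∈ H ∪ K := by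
      intro z hz hzh
      rcases mem_union.mp hz with hz | hz
      · exact mem_union_left _ hz
      · exact mem_union_right _ ((mem_insert.mp hz).resolve_left hzh)
    by_cases hxh : x = h
    · have hyh : y ≠ h := fun e => hxy (hxh.trans e.symm)
      subst hxh
      rw [Function.update_self, Function.update_of_ne hyh] at he
      rw [Function.update_self]
      exact key y (hin y hy hyh) u he
    · rw [Function.update_of_ne hxh] at he ⊢
      by_cases hyh : y = h
      · subst hyh
        rw [Function.update_self] at he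
        rw [he]
        exact key x (hin x hx hxh) u he.symm
      · rw [Function.update_of_ne hyh] at he
        exact hI.i2.disj x (hin x hx hxh) y (hin y hy hyh) hxy u he
  · intro x hx u hu
    by_cases hxh : x = h
    · subst hxh
      rw [Function.update_self]
      exact hf2 u hu
    · rw [Function.update_of_ne hxh]
      exact hI.i3 x ((mem_insert.mp hx).resolve_left hxh) u hu
  · intro x hx u hu hne
    by_cases hxh : x = h
    · subst hxh
      rw [Function.update_self] at hne ⊢
      obtain ⟨-, h2, -⟩ := hf3 u hu hne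
      exact h2
    · rw [Function.update_of_ne hxh] at hne ⊢
      exact hI.i4 x ((mem_insert.mp hx).resolve_left hxh) u hu hne

theorem ind_s4 (hr : 100000 ≤ W.card) (hP : Prob m c W A B G M)
    (hn1 : W.card ^ 10 ≤ Fintype.card V)
    (hS : Stage14 c W A B G M T H f) (hH2 : H2 ⊆ W \ H)
    (hH2c : (H2.card : ℝ) ≤ (2452 / 10000) * W.card)
    (hB : Base4 c W A B G M H f H2 b) (K : Finset V) :
    K ⊆ H2 → ∃ f' : V → V → V, InvS4 W A B G M H f b K f' := by
  induction K using Finset.induction_on with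
  | empty =>
    intro _
    refine ⟨f, fun _ _ => rfl, ?_, fun x hx => absurd hx (notMem_empty x),
      fun x hx => absurd hx (notMem_empty x)⟩
    rw [union_empty]
    exact hS.st
  | insert h K hhK ih =>
    intro hK
    obtain ⟨f', hf'⟩ := ih ((subset_insert h K).trans hK)
    exact step_s4 hr hP hn1 hS hH2 hH2c hB ((subset_insert h K).trans hK) hf'
      (hK (mem_insert_self h K)) hhK

end

theorem s2b4 : ∃ r0 : ℕ, ∀ r ≥ r0, ∀ (V : Type) [Fintype V] [DecidableEq V] (m : SQ V)
    (c : V → ℕ) (W A B : Finset V) (G : V → V → Prop) [DecidableRel G] (M : V → Finset V),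
    Sz c W r → Prob m c W A B G M → ∀ (T H : Finset V) (f : V → V → V),
    Stage14 c W A B G M T H f → ∀ (H2 : Finset V) (b : V → V → V), H2 ⊆ W \ H →
    (H2.card : ℝ) ≤ (2452 / 10000) * r → Base4 c W A B G M H f H2 b →
    ∃ f' : V → V → V, Stage24 c W A B G M (H ∪ H2) f' := by
  refine ⟨100000, ?_⟩
  intro r hr V _ _ m c W A B G _ M hSz hP T H f hS H2 b hH2 hH2c hB
  have hWr := hSz.Wr
  have hn1 := hSz.n1
  subst hWr
  obtain ⟨f', hI⟩ := ind_s4 hr hP hn1 hS hH2 hH2c hB H2 (Subset.refl _)
  refine ⟨f', hI.i2, ?_, ?_⟩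
  · intro h hh u hne
    rcases mem_union.mp hh with hh | hh
    · rw [hI.i1 h hh] at hne ⊢
      exact hS.good h hh u hne
    · by_cases hb : b h u = u
      · have h1 := hI.i4 h hh u hb hne
        exact fun h2 => hP.part.cross_ne h1 h2.1
      · rw [hI.i3 h hh u hb]
        exact hB.good h hh u hb
  · intro u v huv hnu
    by_contra hcon
    have h1 : ¬ used H f u v := by
      rintro ⟨x, hx, hxu⟩
      exact hnu ⟨x, mem_union_left _ hx, by rw [hI.i1 x hx]; exact hxu⟩
    obtain ⟨h, hh, hb⟩ := hB.cover u v huv h1 hcon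
    have hne : b h u ≠ u := by
      rw [hb]
      rintro rfl
      exact hP.irrefl _ huv
    exact hnu ⟨h, mem_union_right _ hh, by rw [hI.i3 h hh u hne]; exact hb⟩

end Pool.Agent.CH4
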