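import Pool.Agent.CHS.Assemble
import Pool.Agent.CHS.Chain
import Pool.Agent.CH4.ExW
import Pool.Agent.CH4.Lab
import Pool.Agent.CH4.ResEx
import Pool.Agent.CH4.ProbEx
import Pool.Agent.CH4.S1
import Pool.Agent.CH4.S2a
import Pool.Agent.CH4.S2b
import Pool.Agent.CH4.FinApp

/-!
# CH4/StepT: the step theorem for four classes
-/

set_option autoImplicit false

namespace Pool.Agent.CH4
open Finset Pool.Agent.CHS

/-- A chosen set of colours: sizes. -/
private theorem pickSets {V : Type} [DecidableEq V] (c : V → ℕ) (W : Finset V) (r κ : ℕ)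
    (hWr : W.card = r) (hc4 : ∀ v, c v < 4) (hr : 10 ^ 6 ≤ r) (hκ1 : 37 * r ≤ 100 * κ)
    (hκ2 : 100 * κ ≤ 38 * r)
    (own : ∀ i < 4, |((W.filter (fun w => c w = i)).card : ℝ) - (W.card : ℝ) / 4|
      ≤ (1 / 10 ^ 14) * W.card) :
    ∃ Q TB T1 T2 : Finset V, Q ⊆ W ∧ (∀ s ∈ Q, c s ≠ 1) ∧ (Q.card : ℝ) ≤ (256 / 1000) * r ∧
      (2549 / 10000) * (r : ℝ) ≤ Q.card ∧
      (24 / 100) * (r : ℝ) ≤ ((Q.filter (fun s => 2 ≤ c s)).card : ℝ) ∧
      TB ⊆ W \ Q ∧ (∀ t ∈ TB, c t = 1) ∧ (119 / 1000) * (r : ℝ) ≤ (TB.card : ℝ) ∧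
      (TB.card : ℝ) ≤ (131 / 1000) * r ∧
      TB.card + κ = (W.filter (fun w => c w < 2)).card ∧
      T1 ⊆ W \ Q ∧ T2 ⊆ W \ Q ∧ (∀ h ∈ T1, 2 ≤ c h) ∧ (∀ h ∈ T2, c h < 2) ∧
      (251 / 1000) * (r : ℝ) ≤ T1.card ∧ (251 / 1000) * (r : ℝ) ≤ T2.card ∧
      (r : ℝ) / 10 ≤ ((((W \ Q) \ (T1 ∪ T2)).filter (fun h => c h = 0)).card : ℝ) ∧
      (r : ℝ) / 10 ≤ ((((W \ Q) \ (T1 ∪ T2)).filter (fun h => c h = 1)).card : ℝ) := by
  set W0 := W.filter (fun w => c w = 0) with hW0
  set W1 := W.filter (fun w => c w = 1) with hW1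
  set W23 := W.filter (fun w => 2 ≤ c w) with hW23
  set W01 := W.filter (fun w => c w < 2) with hW01
  have hrR : (10 ^ 6 : ℝ) ≤ r := by exact_mod_cast hr
  -- cardinalities
  have e01 : W01.card = W0.card + W1.card := by
    rw [← card_union_of_disjoint]
    · congr 1
      ext v
      simp only [hW01, hW0, hW1, mem_union, mem_filter]
      constructor
      · rintro ⟨h1, h2⟩
        have : c v = 0 ∨ c v = 1 := by omega
        rcases this with h | h
        · exact Or.inl ⟨h1, h⟩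
        · exact Or.inr ⟨h1, h⟩
      · rintro (⟨h1, h2⟩ | ⟨h1, h2⟩) <;> exact ⟨h1, by omega⟩
    · rw [disjoint_left]
      intro v h1 h2
      rw [hW0, mem_filter] at h1
      rw [hW1, mem_filter] at h2
      omega
  have e23 : W01.card + W23.card = r := by
    rw [← hWr, ← card_filter_add_card_filter_not (s := W) (fun w => c w < 2)]
    congr 2
    ext v
    simp only [hW23, mem_filter, not_lt]
  have o0 := own 0 (by norm_num)
  have o1 := own 1 (by norm_num)
  rw [hWr, abs_le] at o0 o1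
  rw [← hW0] at o0
  rw [← hW1] at o1
  -- real sizes to natural ones
  have n0l : 2499 * r ≤ 10000 * W0.card := by
    have : (2499 : ℝ) * r ≤ 10000 * W0.card := by nlinarith [o0.1]
    exact_mod_cast this
  have n0u : 10000 * W0.card ≤ 2501 * r := by
    have : (10000 : ℝ) * W0.card ≤ 2501 * r := by nlinarith [o0.2]
    exact_mod_cast this
  have n1l : 2499 * r ≤ 10000 * W1.card := by
    have : (2499 : ℝ) * r ≤ 10000 * W1.card := by nlinarith [o1.1]
    exact_mod_cast this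
  have n1u : 10000 * W1.card ≤ 2501 * r := by
    have : (10000 : ℝ) * W1.card ≤ 2501 * r := by nlinarith [o1.2]
    exact_mod_cast this
  obtain ⟨Q0, hQ0s, hQ0c⟩ := exists_subset_card_eq (s := W0) (n := r / 100) (by omega)
  obtain ⟨X0, hX0s, hX0c⟩ := exists_subset_card_eq (s := W0 \ Q0) (n := 13 * r / 100) (by
    have := card_sdiff_add_card_eq_card hQ0s
    omega)
  obtain ⟨X1, hX1s, hX1c⟩ := exists_subset_card_eq (s := W1) (n := 13 * r / 100) (by omega)
  obtain ⟨Q2, hQ2s, hQ2c⟩ := exists_subset_card_eq (s := W23) (n := 245 * r / 1000) (by omega)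
  obtain ⟨TB, hTBs, hTBc⟩ := exists_subset_card_eq (s := W1) (n := W01.card - κ) (by omega)
  have mW0 : ∀ v, v ∈ W0 ↔ v ∈ W ∧ c v = 0 := fun v => by rw [hW0, mem_filter]
  have mW1 : ∀ v, v ∈ W1 ↔ v ∈ W ∧ c v = 1 := fun v => by rw [hW1, mem_filter]
  have mW23 : ∀ v, v ∈ W23 ↔ v ∈ W ∧ 2 ≤ c v := fun v => by rw [hW23, mem_filter]
  have mQ0 : ∀ v ∈ Q0, v ∈ W ∧ c v = 0 := fun v hv => (mW0 v).1 (hQ0s hv)
  have mQ2 : ∀ v ∈ Q2, v ∈ W ∧ 2 ≤ c v := fun v hv => (mW23 v).1 (hQ2s hv)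
  have mX0 : ∀ v ∈ X0, (v ∈ W ∧ c v = 0) ∧ v ∉ Q0 := fun v hv => by
    have := mem_sdiff.1 (hX0s hv)
    exact ⟨(mW0 v).1 this.1, this.2⟩
  have mX1 : ∀ v ∈ X1, v ∈ W ∧ c v = 1 := fun v hv => (mW1 v).1 (hX1s hv)
  have mTB : ∀ v ∈ TB, v ∈ W ∧ c v = 1 := fun v hv => (mW1 v).1 (hTBs hv)
  have hQd : Disjoint Q0 Q2 := by
    rw [disjoint_left]
    intro v h1 h2
    have := (mQ0 v h1).2
    have := (mQ2 v h2).2
    omega
  have hQc : (Q0 ∪ Q2).card = r / 100 + 245 * r / 1000 := by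
    rw [card_union_of_disjoint hQd, hQ0c, hQ2c]
  have hXd : Disjoint X0 X1 := by
    rw [disjoint_left]
    intro v h1 h2
    have := (mX0 v h1).1.2
    have := (mX1 v h2).2
    omega
  refine ⟨Q0 ∪ Q2, TB, W23 \ Q2, X0 ∪ X1, ?_, ?_, ?_, ?_, ?_, ?_, ?_, ?_, ?_, ?_, ?_, ?_, ?_, ?_,
    ?_, ?_, ?_, ?_⟩
  · intro v hv
    rcases mem_union.1 hv with h | h
    · exact (mQ0 v h).1
    · exact (mQ2 v h).1
  · intro s hs
    rcases mem_union.1 hs with h | h
    · have := (mQ0 s h).2; omega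
    · have := (mQ2 s h).2; omega
  · have : 1000 * (Q0 ∪ Q2).card ≤ 256 * r := by omega
    have h2 : (1000 : ℝ) * (Q0 ∪ Q2).card ≤ 256 * r := by exact_mod_cast this
    linarith
  · have : 2549 * r ≤ 10000 * (Q0 ∪ Q2).card := by omega
    have h2 : (2549 : ℝ) * r ≤ 10000 * (Q0 ∪ Q2).card := by exact_mod_cast this
    linarith
  · have h1 : Q2 ⊆ (Q0 ∪ Q2).filter (fun s => 2 ≤ c s) := by
      intro v hv
      rw [mem_filter]
      exact ⟨mem_union_right _ hv, (mQ2 v hv).2⟩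
    have h2 : 24 * r ≤ 100 * ((Q0 ∪ Q2).filter (fun s => 2 ≤ c s)).card := by
      have := card_le_card h1
      omega
    have h3 : (24 : ℝ) * r ≤ 100 * ((Q0 ∪ Q2).filter (fun s => 2 ≤ c s)).card := by
      exact_mod_cast h2
    linarith
  · intro v hv
    rw [mem_sdiff, mem_union]
    obtain ⟨h1, h2⟩ := mTB v hv
    refine ⟨h1, ?_⟩
    rintro (h | h)
    · have := (mQ0 v h).2; omega
    · have := (mQ2 v h).2; omega
  · exact fun t ht => (mTB t ht).2
  · have : 119 * r ≤ 1000 * TB.card := by omega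
    have h2 : (119 : ℝ) * r ≤ 1000 * TB.card := by exact_mod_cast this
    linarith
  · have : 1000 * TB.card ≤ 131 * r := by omega
    have h2 : (1000 : ℝ) * TB.card ≤ 131 * r := by exact_mod_cast this
    linarith
  · omega
  · intro v hv
    rw [mem_sdiff] at hv
    obtain ⟨h1, h2⟩ := hv
    have h3 := (mW23 v).1 h1
    rw [mem_sdiff, mem_union]
    refine ⟨h3.1, ?_⟩
    rintro (h | h)
    · have := (mQ0 v h).2; omega
    · exact h2 h
  · intro v hv
    rw [mem_sdiff, mem_union]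
    rcases mem_union.1 hv with h | h
    · obtain ⟨⟨h1, h2⟩, h3⟩ := mX0 v h
      refine ⟨h1, ?_⟩
      rintro (h | h)
      · exact h3 h
      · have := (mQ2 v h).2; omega
    · obtain ⟨h1, h2⟩ := mX1 v h
      refine ⟨h1, ?_⟩
      rintro (h | h)
      · have := (mQ0 v h).2; omega
      · have := (mQ2 v h).2; omega
  · intro h hh
    exact ((mW23 h).1 (mem_sdiff.1 hh).1).2
  · intro h hh
    rcases mem_union.1 hh with h1 | h1
    · have := (mX0 h h1).1.2; omega
    · have := (mX1 h h1).2; omega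
  · have h1 := card_sdiff_add_card_eq_card hQ2s
    have : 251 * r ≤ 1000 * (W23 \ Q2).card := by omega
    have h2 : (251 : ℝ) * r ≤ 1000 * (W23 \ Q2).card := by exact_mod_cast this
    linarith
  · have h1 : (X0 ∪ X1).card = 13 * r / 100 + 13 * r / 100 := by
      rw [card_union_of_disjoint hXd, hX0c, hX1c]
    have : 251 * r ≤ 1000 * (X0 ∪ X1).card := by omega
    have h2 : (251 : ℝ) * r ≤ 1000 * (X0 ∪ X1).card := by exact_mod_cast this
    linarith
  · have h1 : W0 \ (Q0 ∪ X0) ⊆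
        ((W \ (Q0 ∪ Q2)) \ (W23 \ Q2 ∪ (X0 ∪ X1))).filter (fun h => c h = 0) := by
      intro v hv
      rw [mem_sdiff, mem_union, not_or] at hv
      obtain ⟨h1, h2, h3⟩ := hv
      obtain ⟨h4, h5⟩ := (mW0 v).1 h1
      simp only [mem_filter, mem_sdiff, mem_union, not_or]
      refine ⟨⟨⟨h4, h2, ?_⟩, ?_, h3, ?_⟩, h5⟩
      · intro h; have := (mQ2 v h).2; omega
      · intro h; have := ((mW23 v).1 h.1).2; omega
      · intro h; have := (mX1 v h).2; omega
    have h2 := card_le_card h1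
    have h3 : (Q0 ∪ X0).card ≤ r / 100 + 13 * r / 100 := by
      rw [← hQ0c, ← hX0c]; exact card_union_le _ _
    have h4 : W0.card ≤ (W0 \ (Q0 ∪ X0)).card + (Q0 ∪ X0).card := by
      have := card_le_card (subset_union_left (s₁ := W0) (s₂ := Q0 ∪ X0))
      rw [← sdiff_union_self_eq_union] at this
      exact this.trans (card_union_le _ _)
    have h5 : r ≤ 10 * (((W \ (Q0 ∪ Q2)) \ (W23 \ Q2 ∪ (X0 ∪ X1))).filter
      (fun h => c h = 0)).card := by omega
    have h6 : (r : ℝ) ≤ 10 * (((W \ (Q0 ∪ Q2)) \ (W23 \ Q2 ∪ (X0 ∪ X1))).filter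
      (fun h => c h = 0)).card := by exact_mod_cast h5
    linarith
  · have h1 : W1 \ X1 ⊆
        ((W \ (Q0 ∪ Q2)) \ (W23 \ Q2 ∪ (X0 ∪ X1))).filter (fun h => c h = 1) := by
      intro v hv
      rw [mem_sdiff] at hv
      obtain ⟨h1, h3⟩ := hv
      obtain ⟨h4, h5⟩ := (mW1 v).1 h1
      simp only [mem_filter, mem_sdiff, mem_union, not_or]
      refine ⟨⟨⟨h4, ?_, ?_⟩, ?_, ?_, h3⟩, h5⟩
      · intro h; have := (mQ0 v h).2; omega
      · intro h; have := (mQ2 v h).2; omega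
      · intro h; have := ((mW23 v).1 h.1).2; omega
      · intro h; have := (mX0 v h).1.2; omega
    have h2 := card_le_card h1
    have h4 := card_sdiff_add_card_eq_card hX1s
    have h5 : r ≤ 10 * (((W \ (Q0 ∪ Q2)) \ (W23 \ Q2 ∪ (X0 ∪ X1))).filter
      (fun h => c h = 1)).card := by omega
    have h6 : (r : ℝ) ≤ 10 * (((W \ (Q0 ∪ Q2)) \ (W23 \ Q2 ∪ (X0 ∪ X1))).filter
      (fun h => c h = 1)).card := by exact_mod_cast h5
    linarith

theorem stepT4 : ∃ r0 : ℕ, ∀ r ≥ r0, ∀ (V : Type) [Fintype V] [DecidableEq V],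
    r ^ 10 ≤ Fintype.card V → Fintype.card V ≤ 2 * r ^ 10 → ∀ (c : V → ℕ), (∀ v, c v < 4) →
    (∀ i < 4, |((univ.filter (fun v => c v = i)).card : ℝ) - (Fintype.card V : ℝ) / 4| ≤ 4 * r) →
    ∀ κ : ℕ, 37 * r ≤ 100 * κ → 100 * κ ≤ 38 * r →
    (univ.filter (fun v => c v < 2)).card + 1 = (univ.filter (fun v => 2 ≤ c v)).card + 2 * κ →
    StepProp c := by
  obtain ⟨ra, ha⟩ := exW4
  obtain ⟨rb, hb⟩ := labEx
  obtain ⟨rc, hc⟩ := resEx
  obtain ⟨rd, hd⟩ := probEx
  obtain ⟨re, he⟩ := s14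
  obtain ⟨rf, hf⟩ := s2a4
  obtain ⟨rg, hg⟩ := s2b4
  refine ⟨ra + rb + rc + rd + re + rf + rg + 10 ^ 6, ?_⟩
  intro r hr V _ _ hV1 hV2 c hc4 hcl κ hκ1 hκ2 hκ m
  rintro ⟨a, b, hab, hcab, hcb⟩
  obtain ⟨W, haW, hS, hW⟩ := ha r (by omega) V hV1 hV2 m c hc4 hcl a
  have hWr := hS.Wr
  obtain ⟨Q, TB, T1, T2, hQW, hQ1, hQu, hQl, hQ2, hTBs, hTB1, hTBl, hTBu, hTBc, hT1s, hT2s, hT1c,
    hT2c, hT1l, hT2l, hl0, hl1⟩ := pickSets c W r κ hWr hc4 (by omega) hκ1 hκ2 hW.own
  obtain ⟨lam, hL⟩ := hb r (by omega) V m c W Q TB hS hW hQW hQ1 hQu hQ2 hTBs hTB1 hTBl hTBu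
  set A := univ.filter (fun v => v ∉ W ∧ c v < 2) with hA
  set B := univ.filter (fun v => v ∉ W ∧ 2 ≤ c v) with hB
  have hPart : PartAB c W A B := ⟨hc4, fun v => by rw [hA, mem_filter]; simp,
    fun v => by rw [hB, mem_filter]; simp⟩
  have hAB : A.card + 1 + 2 * TB.card = B.card + r := by
    have h1 : A.card + (W.filter (fun w => c w < 2)).card = (univ.filter (fun v => c v < 2)).card := by
      rw [← card_union_of_disjoint]
      · congr 1
        ext v
        simp only [hA, mem_union, mem_filter, mem_univ, true_and]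
        by_cases hv : v ∈ W <;> simp [hv]
      · rw [disjoint_left]
        intro v h1 h2
        rw [hA, mem_filter] at h1
        exact h1.2.1 (mem_filter.1 h2).1
    have h2 : B.card + (W.filter (fun w => 2 ≤ c w)).card = (univ.filter (fun v => 2 ≤ c v)).card := by
      rw [← card_union_of_disjoint]
      · congr 1
        ext v
        simp only [hB, mem_union, mem_filter, mem_univ, true_and]
        by_cases hv : v ∈ W <;> simp [hv]
      · rw [disjoint_left]
        intro v h1 h2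
        rw [hB, mem_filter] at h1
        exact h1.2.1 (mem_filter.1 h2).1
    have h3 : (W.filter (fun w => c w < 2)).card + (W.filter (fun w => 2 ≤ c w)).card = r := by
      rw [← hWr, ← card_filter_add_card_filter_not (s := W) (fun w => c w < 2)]
      congr 2
      ext v
      simp only [mem_filter, not_lt]
    omega
  obtain ⟨d, hR⟩ := hc r (by omega) V m c W Q TB A B lam hS hW hL hPart hAB
  have hP := hd r (by omega) V m c W Q TB A B lam d hS hW hL hPart hR
  obtain ⟨H, f, h1⟩ := he r (by omega) V m c W A B (gad m W d) (ms W lam d) hS hP T1 T2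
    (hT1s.trans sdiff_subset) (hT2s.trans sdiff_subset) hT1c hT2c hT1l hT2l
  have hHs : H ⊆ W \ Q := h1.sub.trans (union_subset hT1s hT2s)
  -- the colours of stage 2
  set H2 := (W \ Q) \ H with hH2
  have hH2s : H2 ⊆ W \ H := by
    intro v hv
    rw [hH2, mem_sdiff, mem_sdiff] at hv
    exact mem_sdiff.2 ⟨hv.1.1, hv.2⟩
  have hsubH2 : ∀ i, ((W \ Q) \ (T1 ∪ T2)).filter (fun h => c h = i) ⊆
      H2.filter (fun h => c h = i) := by
    intro i v hv
    rw [mem_filter, mem_sdiff] at hv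
    rw [mem_filter, hH2, mem_sdiff]
    exact ⟨⟨hv.1.1, fun h => hv.1.2 (h1.sub h)⟩, hv.2⟩
  obtain ⟨b2, h2⟩ := hf r (by omega) V m c W A B (gad m W d) (ms W lam d) hS hP (T1 ∪ T2) H f h1
    H2 hH2s
    (hl0.trans (by exact_mod_cast card_le_card (hsubH2 0)))
    (hl1.trans (by exact_mod_cast card_le_card (hsubH2 1)))
  have hH2c : (H2.card : ℝ) ≤ (2452 / 10000) * r := by
    have e1 := card_sdiff_add_card_eq_card hHs
    have e2 := card_sdiff_add_card_eq_card hQW
    rw [← hH2] at e1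
    have e3 : (H2.card : ℝ) + H.card + Q.card = r := by
      have : H2.card + H.card + Q.card = r := by omega
      exact_mod_cast this
    have e4 := h1.hcard
    rw [hWr] at e4
    linarith
  obtain ⟨f2, h3⟩ := hg r (by omega) V m c W A B (gad m W d) (ms W lam d) hS hP (T1 ∪ T2) H f h1
    H2 b2 hH2s hH2c h2
  have hHH : H ∪ H2 = W \ Q := by
    rw [hH2, union_sdiff_of_subset hHs]
  rw [hHH] at h3
  obtain ⟨f', z, hF, hmono, hlab⟩ := finApp4 m c W Q TB A B lam d f2 hW hL hR hP h3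
  obtain ⟨m', hm1, hm2, hm3, hm4⟩ := assemble m W f' z hF
  have hind' : ∀ x ∈ W, ∀ y ∈ W, x ≠ y → m'.mul x y ∉ W := by
    intro x hx y hy hxy
    rw [hm3 x hx y hy hxy]
    exact hF.zout x hx y hy hxy
  refine ⟨m', W, hW.indep, hind', ?_, hm2, ⟨a, haW, b, hab, hcab, hcb⟩, ?_⟩
  · intro x hx y hy hxy
    by_cases he : x = y
    · subst he; rw [m.idem, m'.idem]
    · have := (not_congr (hm1 x hx y hy he)).1 hxy
      exact (hm2 x hx y hy this).symm
  · -- a block with a point of `W` is not monochromatic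
    have key : ∀ w ∈ W, ∀ u, u ≠ w → ¬ (c w = c u ∧ c u = c (m'.mul w u)) := by
      rintro w hw u huw ⟨e1, e2⟩
      by_cases hu : u ∈ W
      · have h5 := hm3 w hw u hu (Ne.symm huw)
        rw [h5] at e2
        exact hlab w hw u hu (Ne.symm huw) ⟨by rw [← e2, e1], e1⟩
      by_cases hv : m'.mul w u ∈ W
      · have hne : w ≠ m'.mul w u := by
          intro h
          have h5 : m'.mul w (m'.mul w u) = u := m'.inv w u
          rw [← h, m'.idem] at h5
          exact huw h5.symm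
        have h5 := hm3 w hw _ hv hne
        rw [m'.inv] at h5
        exact hlab w hw _ hv hne ⟨by rw [← h5, e1], by rw [e1, e2]⟩
      have hfu : f' w u ≠ u := by
        intro hfix
        rcases (hF.fix w hw u).1 hfix with h6 | ⟨w', hw', hne, hz⟩
        · exact hu h6
        · apply hv
          have h7 := hm3 w hw w' hw' (Ne.symm hne)
          rw [hz] at h7
          have h8 := m'.inv w w'
          rw [h7] at h8
          rw [h8]; exact hw'
      have h9 := hm4 w hw u hfu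
      rw [h9] at e2
      exact hmono w hw u hfu ⟨e2.symm, e1.symm⟩
    intro x y hxy e1 e2
    refine ⟨fun hx => ?_, fun hy => ?_, fun hz => ?_⟩
    · exact key x hx y (Ne.symm hxy) ⟨e1, e2⟩
    · refine key y hy x hxy ⟨e1.symm, ?_⟩
      rw [m'.comm y x]; exact e1.trans e2
    · have hzx : m'.mul (m'.mul x y) x = y := by
        rw [m'.comm]; exact m'.inv x y
      refine key _ hz x ?_ ⟨?_, ?_⟩
      · intro h
        have := m'.inv x y
        rw [← h, m'.idem] at this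
        exact hxy this
      · exact (e1.trans e2).symm
      · rw [hzx]; exact e1

end Pool.Agent.CH4
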