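import Pool.Agent.CHS.Conv
import Pool.Agent.CH4.Low
import Pool.Agent.CH4.StepT

/-!
# CH4/Final: for large `n` the chromatic spectrum is an interval
-/

set_option autoImplicit false

namespace Pool.Agent.CH4
open Finset Pool.Agent.CHS

/-- intervals in `Fin n` -/
private theorem card_Ico_fin (n a b : ℕ) (hb : b ≤ n) :
    (univ.filter (fun v : Fin n => a ≤ (v : ℕ) ∧ (v : ℕ) < b)).card = b - a := by
  rw [← Nat.card_Ico a b, ← Finset.card_image_of_injective _ Fin.val_injective]
  congr 1
  ext t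
  simp only [mem_image, mem_filter, mem_univ, true_and, mem_Ico]
  constructor
  · rintro ⟨v, h, rfl⟩; exact h
  · intro h; exact ⟨⟨t, by omega⟩, h, rfl⟩

/-- the number of points of a Steiner triple system is odd -/
private theorem odd_card4 {V : Type} [Fintype V] [DecidableEq V] (m : SQ V) (x : V) :
    Fintype.card V % 2 = 1 := by
  let f : Function.End V := m.mul x
  have hf : f ^ 2 ^ 1 = 1 := by
    rw [pow_one, pow_two]
    funext y
    exact m.inv x y
  have : Fact (Nat.Prime 2) := ⟨Nat.prime_two⟩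
  have h1 := Equiv.Perm.card_fixedPoints_modEq hf
  have h2 : Fintype.card (Function.fixedPoints f) = 1 := by
    rw [Fintype.card_eq_one_iff]
    refine ⟨⟨x, m.idem x⟩, ?_⟩
    rintro ⟨y, hy⟩
    apply Subtype.ext
    have h3 : m.mul x y = y := hy
    have h4 := m.inv y x
    rw [m.comm y x, h3, m.idem] at h4
    exact h4
  rw [h2] at h1
  exact h1

theorem final4 : ∃ n0 : ℕ, ∀ n ≥ n0, ∀ k ∈ Cn n, ∀ q : ℕ, 4 ≤ q → q ≤ k → q ∈ Cn n := by
  obtain ⟨r0, h0⟩ := stepT4
  refine ⟨(r0 + 200) ^ 10, fun n hn k hk q hq hqk => ?_⟩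
  -- the largest `r` with `r ^ 10 ≤ n`
  have hex : ∃ r : ℕ, r ^ 10 ≤ n ∧ n < (r + 1) ^ 10 := by
    have hfin : ∃ r, n < (r + 1) ^ 10 := ⟨n, by
      calc n < n + 1 := Nat.lt_succ_self n
        _ ≤ (n + 1) ^ 10 := Nat.le_self_pow (by norm_num) _⟩
    classical
    refine ⟨Nat.find hfin, ?_, Nat.find_spec hfin⟩
    rcases Nat.eq_zero_or_pos (Nat.find hfin) with h | h
    · rw [h]; simp
    · have := Nat.find_min hfin (m := Nat.find hfin - 1) (by omega)
      rw [Nat.sub_add_cancel h] at this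
      omega
  obtain ⟨r, hr1, hr2⟩ := hex
  have hr3 : r0 + 200 ≤ r := by
    by_contra hcon
    push Not at hcon
    have : (r + 1) ^ 10 ≤ (r0 + 200) ^ 10 := Nat.pow_le_pow_left (by omega) _
    omega
  have hr4 : n ≤ 2 * r ^ 10 := by
    have h5 : (r + 1) ^ 10 ≤ 2 * r ^ 10 := by
      have h20 : 20 ≤ r := by omega
      have h6 : ((r : ℝ) + 1) ^ 10 ≤ 2 * (r : ℝ) ^ 10 := by
        have hr20 : (20 : ℝ) ≤ r := by exact_mod_cast h20
        have h7 : (r : ℝ) + 1 ≤ (21 / 20) * r := by linarith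
        have h8 : ((r : ℝ) + 1) ^ 10 ≤ ((21 / 20) * (r : ℝ)) ^ 10 :=
          pow_le_pow_left₀ (by positivity) h7 10
        rw [mul_pow] at h8
        have h9 : ((21 : ℝ) / 20) ^ 10 ≤ 2 := by norm_num
        nlinarith [pow_nonneg (by positivity : (0 : ℝ) ≤ r) 10]
      exact_mod_cast h6
    omega
  have hrn : 200 * r ≤ n := by
    calc 200 * r ≤ r * r := Nat.mul_le_mul_right _ (by omega)
      _ = r ^ 2 := by ring
      _ ≤ r ^ 10 := Nat.pow_le_pow_right (by omega) (by norm_num)
      _ ≤ n := hr1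
  obtain ⟨m, hm⟩ := (conv n k).1 hk
  have hodd : n % 2 = 1 := by
    have := odd_card4 m ⟨0, by omega⟩
    rwa [Fintype.card_fin] at this
  -- the target colouring
  obtain ⟨κ, hκ⟩ : ∃ κ, κ = 3 * r / 8 := ⟨_, rfl⟩
  obtain ⟨t, ht⟩ : ∃ t, n = 2 * t + 1 := ⟨n / 2, by omega⟩
  obtain ⟨a0, ha0⟩ : ∃ a0, a0 = (t + κ) / 2 := ⟨_, rfl⟩
  obtain ⟨a2, ha2⟩ : ∃ a2, a2 = t + κ + (t + 1 - κ) / 2 := ⟨_, rfl⟩
  let c : Fin n → ℕ := fun v =>
    if (v : ℕ) < a0 then 0 else if (v : ℕ) < t + κ then 1 else if (v : ℕ) < a2 then 2 else 3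
  have hc4 : ∀ v, c v < 4 := by
    intro v
    show (if (v : ℕ) < a0 then 0 else if (v : ℕ) < t + κ then 1 else if (v : ℕ) < a2 then 2 else 3)
      < 4
    split_ifs <;> norm_num
  have e0 : (univ.filter (fun v => c v = 0)).card = a0 := by
    have := card_Ico_fin n 0 a0 (by omega)
    rw [Nat.sub_zero] at this
    refine Eq.trans ?_ this
    congr 1
    ext v
    simp only [mem_filter, mem_univ, true_and, c]
    split_ifs <;> first | omega | (rw [false_iff]; omega)
  have e1 : (univ.filter (fun v => c v = 1)).card = t + κ - a0 := by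
    rw [← card_Ico_fin n a0 (t + κ) (by omega)]
    congr 1
    ext v
    simp only [mem_filter, mem_univ, true_and, c]
    split_ifs <;> first | omega | (rw [false_iff]; omega)
  have e2 : (univ.filter (fun v => c v = 2)).card = a2 - (t + κ) := by
    rw [← card_Ico_fin n (t + κ) a2 (by omega)]
    congr 1
    ext v
    simp only [mem_filter, mem_univ, true_and, c]
    split_ifs <;> first | omega | (rw [false_iff]; omega)
  have e3 : (univ.filter (fun v => c v = 3)).card = n - a2 := by
    rw [← card_Ico_fin n a2 n le_rfl]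
    congr 1
    ext v
    have hv := v.2
    simp only [mem_filter, mem_univ, true_and, c]
    split_ifs <;> first | omega | (rw [false_iff]; omega)
  have e01 : (univ.filter (fun v => c v < 2)).card = t + κ := by
    have := card_Ico_fin n 0 (t + κ) (by omega)
    rw [Nat.sub_zero] at this
    refine Eq.trans ?_ this
    congr 1
    ext v
    simp only [mem_filter, mem_univ, true_and, c]
    split_ifs <;> first | omega | (rw [false_iff]; omega)
  have e23 : (univ.filter (fun v => 2 ≤ c v)).card = n - (t + κ) := by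
    rw [← card_Ico_fin n (t + κ) n le_rfl]
    congr 1
    ext v
    have hv := v.2
    simp only [mem_filter, mem_univ, true_and, c]
    split_ifs <;> first | omega | (rw [false_iff]; omega)
  have hcls : ∀ i < 4, |((univ.filter (fun v => c v = i)).card : ℝ) -
      (Fintype.card (Fin n) : ℝ) / 4| ≤ 4 * r := by
    have key : ∀ a : ℕ, n ≤ 4 * a + 16 * r → 4 * a ≤ n + 16 * r →
        |(a : ℝ) - (n : ℝ) / 4| ≤ 4 * r := by
      intro a h1 h2
      have h1' : (n : ℝ) ≤ 4 * a + 16 * r := by exact_mod_cast h1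
      have h2' : 4 * (a : ℝ) ≤ n + 16 * r := by exact_mod_cast h2
      rw [abs_le]
      constructor <;> linarith
    rw [Fintype.card_fin]
    intro i hi
    interval_cases i
    · rw [e0]; exact key _ (by omega) (by omega)
    · rw [e1]; exact key _ (by omega) (by omega)
    · rw [e2]; exact key _ (by omega) (by omega)
    · rw [e3]; exact key _ (by omega) (by omega)
  have hstep : StepProp c := h0 r (by omega) (Fin n) (by rw [Fintype.card_fin]; exact hr1)
    (by rw [Fintype.card_fin]; exact hr4) c hc4 hcls κ (by omega) (by omega)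
    (by rw [e01, e23]; omega)
  obtain ⟨m', hm'⟩ := chain c 4 hc4 hstep m q hq (by rw [hm]; exact hqk)
  exact (conv n q).2 ⟨m', hm'⟩

/-- **Main theorem**: for all large `n` the chromatic spectrum `C(n)` is an interval. -/
theorem main4 : ∃ n0 : ℕ, ∀ n ≥ n0, Set.OrdConnected (Cn n) := by
  obtain ⟨n0, h0⟩ := final4
  refine ⟨n0 + 5, fun n hn => ⟨fun a ha b hb q hq => ?_⟩⟩
  obtain ⟨hq1, hq2⟩ := hq
  rcases lt_or_ge q 4 with h | h
  · -- `q = a = 3`
    obtain ⟨m, hm⟩ := (conv n a).1 ha
    have h3 := low m (by rw [Fintype.card_fin]; omega)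
    rw [hm] at h3
    have : q = a := by omega
    rw [this]; exact ha
  · exact h0 n (by omega) b hb q h hq2

end Pool.Agent.CH4
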