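import Pool.Agent.CH4.Cmp
import Pool.Agent.CHS.Sel

/-!
# CH4/Step1: one step of stage 1 (as `CHS/Step1`)

`R` is a matching (involution) of inside edges avoiding `M h`, covering almost all points of `A`
and of `B`; `p = 10⁻⁵`.  Let `a`, `b` be the numbers of its pairs inside `A` and inside `B`:
`2a ≥ (1 - 2·10⁻⁶)|A|`, `2b ≥ (1 - 2·10⁻⁶)|B|`, `2a ≤ |A|`, `2b ≤ |B|`, `||A| - |B|| ≤ 3 r` (`AB_close`),
`|A| + |B| = n - r`, `n ≥ r^10`.  Put `j₀ = min a b`.  On the side with more pairs drop the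
`|a - b|` pairs with the smallest weights `wt u + wt (R u)`: their total weight is at most
`|a - b| / max a b` times the total weight; `|a - b| ≤ 2·10⁻⁶ n/4 + 2 r ≤ 3·10⁻⁶ n/4 `, `max a b ≥ 0.9 n/4`,
so at most `(1/100000) * ∑ wt`.  Match the remaining `A`-pairs and `B`-pairs: `J` = these `j₀` couples,
`T j` = the 4 points.  Apply `sel` with `N v` = the `u` with `P v u` (at most `r`; for `v ∈ W` it is
empty) and let `b₀ u = R u` if `u` lies in a pair of a couple `j ∉ S`, `b₀ u = u` otherwise.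
Then `b₀` covers `2 (j₀ - |S|)` points on each side.  Apply `complete4` with `b₀`, `P`,
`τ = p (0.46 r - 8 - r/100)`: for `v ∉ W` the points `u` with `P v u`, `u ∉ M h` are at least
`0.46 r - 8` (`mdeg`), those outside all `T j` have `b₀ u = u`, and of the others at least
`p (their number - r/100)` are in `⋃_{j ∈ S} T j` and also have `b₀ u = u` (points of `T j` are not in
`M h`, as they are covered by `R`); altogether at least `p (0.46 r - 8 - r/100) ≥ 0.44 p r`
(for large `r`).  On the other hand `#{u ∈ B : b₀ u = u} = |B| - 2 (j₀ - |S|)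
≤ |B| - (1 - 1.1 p) 2 j₀ ≤ (1.1 p + 2·10⁻⁶)|B| + 3 r ≤ 1.35 p n/2`
(`2 j₀ ≥ (1 - 2·10⁻⁶) min |A| |B| ≥ (1 - 2·10⁻⁶)|B| - 3 r`), so
`r D/(2n) + 10⁻⁷ r ≤ 0.34 p r + 0.01 p r < 0.44 p r`.
The matching `f` of `complete4`: `f u = R u` for the kept pairs, otherwise `P u (f u)`, and `P`-pairs are
cross pairs, so `f u = R u ≠ u` holds exactly for the kept pairs: `2 (j₀ - |S|)` points in `A` and in
`B`.  The points with `R u ≠ u`, `f u ≠ R u` are those of the dropped pairs and those of the `T j`,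
`j ∈ S`: total weight at most `(1 + 4) / 100000 * ∑ wt`.
-/

set_option autoImplicit false

namespace Pool.Agent.CH4
open Finset Pool.Agent.CHS

/-- the `k` heaviest elements -/
private theorem st1_top {ι : Type} [DecidableEq ι] (s : Finset ι) (w : ι → ℝ) :
    ∀ d : ℕ, d ≤ s.card → ∃ t ⊆ s, t.card + d = s.card ∧
      (t.card : ℝ) * ∑ i ∈ s, w i ≤ s.card * ∑ i ∈ t, w i := by
  intro d
  induction d with
  | zero => intro _; exact ⟨s, Subset.refl s, by simp, le_refl _⟩
  | succ d ih =>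
    intro hd
    obtain ⟨t, hts, htc, hle⟩ := ih (by omega)
    have hne : t.Nonempty := by
      rw [← Finset.card_pos]; omega
    obtain ⟨x, hx, hmin⟩ := t.exists_min_image w hne
    refine ⟨t.erase x, (Finset.erase_subset x t).trans hts, ?_, ?_⟩
    · rw [Finset.card_erase_of_mem hx]
      have := Finset.card_pos.mpr hne
      omega
    · have h1 : (t.card : ℝ) * w x ≤ ∑ i ∈ t, w i := by
        rw [← nsmul_eq_mul]
        exact Finset.card_nsmul_le_sum t w (w x) hmin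
      have h2 : ∑ i ∈ t.erase x, w i = ∑ i ∈ t, w i - w x := by
        rw [← Finset.add_sum_erase t w hx]; ring
      have hcp : 0 < t.card := Finset.card_pos.mpr hne
      have h3 : ((t.erase x).card : ℝ) = t.card - 1 := by
        rw [Finset.card_erase_of_mem hx, Nat.cast_sub hcp]; simp
      rw [h2, h3]
      have ht0 : (0 : ℝ) < t.card := by exact_mod_cast hcp
      have ht1 : (1 : ℝ) ≤ t.card := by exact_mod_cast hcp
      have hs0 : (0 : ℝ) ≤ s.card := Nat.cast_nonneg _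
      refine le_of_mul_le_mul_left ?_ ht0
      calc (t.card : ℝ) * ((t.card - 1) * ∑ i ∈ s, w i)
          = (t.card - 1) * ((t.card : ℝ) * ∑ i ∈ s, w i) := by ring
        _ ≤ (t.card - 1) * (s.card * ∑ i ∈ t, w i) :=
            mul_le_mul_of_nonneg_left hle (by linarith)
        _ = s.card * ((t.card : ℝ) * ∑ i ∈ t, w i - ∑ i ∈ t, w i) := by ring
        _ ≤ s.card * ((t.card : ℝ) * ∑ i ∈ t, w i - (t.card : ℝ) * w x) :=
            mul_le_mul_of_nonneg_left (by linarith) hs0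
        _ = (t.card : ℝ) * (s.card * (∑ i ∈ t, w i - w x)) := by ring

/-- representatives of the pairs of an involution -/
private theorem st1_rep {V : Type} [Fintype V] [DecidableEq V] (R : V → V)
    (hR : ∀ u, R (R u) = u) (M : Finset V) (hM : ∀ u ∈ M, R u ∈ M ∧ R u ≠ u) :
    ∃ M0 ⊆ M, (∀ u ∈ M0, R u ∉ M0) ∧ (∀ u ∈ M, u ∈ M0 ∨ R u ∈ M0) := by
  classical
  let e := Fintype.equivFin V
  refine ⟨M.filter (fun u => e u < e (R u)), Finset.filter_subset _ _, ?_, ?_⟩
  · intro u hu hu2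
    rw [Finset.mem_filter] at hu hu2
    rw [hR] at hu2
    exact absurd hu2.2 (not_lt.mpr hu.2.le)
  · intro u hu
    have hne : e u ≠ e (R u) := fun h => (hM u hu).2 (e.injective h).symm
    rcases lt_or_gt_of_ne hne with h | h
    · left; rw [Finset.mem_filter]; exact ⟨hu, h⟩
    · right; rw [Finset.mem_filter, hR]; exact ⟨(hM u hu).1, h⟩

private theorem st1_inj {V : Type} (R : V → V) (hR : ∀ u, R (R u) = u) : Function.Injective R :=
  fun x y h => by rw [← hR x, ← hR y, h]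

/-- sums over unions of pairs -/
private theorem st1_sum {V : Type} [Fintype V] [DecidableEq V] (R : V → V)
    (hR : ∀ u, R (R u) = u) (M0 : Finset V) (hM : ∀ u ∈ M0, R u ∉ M0) (g : V → ℝ) :
    ∑ u ∈ M0 ∪ M0.image R, g u = ∑ u ∈ M0, (g u + g (R u)) := by
  have hd : Disjoint M0 (M0.image R) := by
    rw [Finset.disjoint_left]
    intro u hu hu2
    obtain ⟨v, hv, rfl⟩ := Finset.mem_image.mp hu2
    exact hM v hv hu
  rw [Finset.sum_union hd, Finset.sum_image (fun x _ y _ h => st1_inj R hR h),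
    Finset.sum_add_distrib]

private theorem st1_rep_eq {V : Type} [Fintype V] [DecidableEq V] (R : V → V)
    (hR : ∀ u, R (R u) = u) (M M0 : Finset V) (hM : ∀ u ∈ M, R u ∈ M ∧ R u ≠ u) (h0 : M0 ⊆ M)
    (h2 : ∀ u ∈ M, u ∈ M0 ∨ R u ∈ M0) : M = M0 ∪ M0.image R := by
  ext u
  rw [Finset.mem_union, Finset.mem_image]
  constructor
  · intro hu
    rcases h2 u hu with h | h
    · exact Or.inl h
    · exact Or.inr ⟨R u, h, hR u⟩
  · rintro (h | ⟨v, hv, rfl⟩)
    · exact h0 h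
    · exact (hM v (h0 hv)).1

private theorem st1_rep_card {V : Type} [Fintype V] [DecidableEq V] (R : V → V)
    (hR : ∀ u, R (R u) = u) (M M0 : Finset V) (hM : ∀ u ∈ M, R u ∈ M ∧ R u ≠ u) (h0 : M0 ⊆ M)
    (h1 : ∀ u ∈ M0, R u ∉ M0) (h2 : ∀ u ∈ M, u ∈ M0 ∨ R u ∈ M0) : M.card = 2 * M0.card := by
  rw [st1_rep_eq R hR M M0 hM h0 h2, Finset.card_union_of_disjoint,
    Finset.card_image_of_injective _ (st1_inj R hR)]
  · ring
  · rw [Finset.disjoint_left]
    intro u hu hu2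
    obtain ⟨v, hv, rfl⟩ := Finset.mem_image.mp hu2
    exact h1 v hv hu

/-- one side: the chosen pairs `q j`, `j : Fin k`, and the dropped weight -/
private theorem st1_side {V : Type} [Fintype V] [DecidableEq V] (R : V → V)
    (hR : ∀ u, R (R u) = u) (M : Finset V) (hM : ∀ u ∈ M, R u ∈ M ∧ R u ≠ u) (wt : V → ℝ)
    (hwt : ∀ u, 0 ≤ wt u) (a k : ℕ) (ha : M.card = 2 * a) (hk : k ≤ a)
    (hka : (a : ℝ) - k ≤ (1 / 100000) * a) :
    ∃ q : Fin k → V, Function.Injective q ∧ (∀ j, q j ∈ M) ∧ (∀ i j, q i ≠ R (q j)) ∧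
      ∑ u ∈ M.filter (fun u => ∀ j, u ≠ q j ∧ u ≠ R (q j)), wt u ≤
        (1 / 100000) * ∑ u ∈ M, wt u := by
  obtain ⟨M0, h0, h1, h2⟩ := st1_rep R hR M hM
  have hMe := st1_rep_eq R hR M M0 hM h0 h2
  have hc := st1_rep_card R hR M M0 hM h0 h1 h2
  have hca : M0.card = a := by omega
  obtain ⟨t, hts, htc, hle⟩ := st1_top M0 (fun u => wt u + wt (R u)) (a - k) (by omega)
  have htk : t.card = k := by omega
  let e := t.equivFinOfCardEq htk
  have hq : ∀ j, (e.symm j : V) ∈ t := fun j => (e.symm j).2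
  refine ⟨fun j => (e.symm j : V), ?_, fun j => h0 (hts (hq j)), ?_, ?_⟩
  · intro i j hij
    exact e.symm.injective (Subtype.ext hij)
  · intro i j hij
    have h5 := hts (hq i)
    have h6 := h1 _ (hts (hq j))
    simp only at hij
    rw [hij] at h5
    exact h6 h5
  · have hsub : M.filter (fun u => ∀ j, u ≠ (e.symm j : V) ∧ u ≠ R (e.symm j : V)) ⊆
        (M0 \ t) ∪ (M0 \ t).image R := by
      intro u hu
      rw [Finset.mem_filter] at hu
      obtain ⟨huM, huj⟩ := hu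
      rw [Finset.mem_union, Finset.mem_image]
      rcases h2 u huM with h | h
      · left
        rw [Finset.mem_sdiff]
        refine ⟨h, fun ht => ?_⟩
        have := (huj (e ⟨u, ht⟩)).1
        rw [Equiv.symm_apply_apply] at this
        exact this rfl
      · right
        refine ⟨R u, ?_, hR u⟩
        rw [Finset.mem_sdiff]
        refine ⟨h, fun ht => ?_⟩
        have := (huj (e ⟨R u, ht⟩)).2
        rw [Equiv.symm_apply_apply] at this
        exact this (hR u).symm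
    have h3 : ∑ u ∈ M.filter (fun u => ∀ j, u ≠ (e.symm j : V) ∧ u ≠ R (e.symm j : V)), wt u ≤
        ∑ u ∈ M0 \ t, (wt u + wt (R u)) := by
      refine (Finset.sum_le_sum_of_subset_of_nonneg hsub (fun u _ _ => hwt u)).trans (le_of_eq ?_)
      apply st1_sum R hR
      intro u hu hu2
      rw [Finset.mem_sdiff] at hu hu2
      exact h1 u hu.1 hu2.1
    have h4 : ∑ u ∈ M0 \ t, (wt u + wt (R u)) =
        ∑ u ∈ M0, (wt u + wt (R u)) - ∑ u ∈ t, (wt u + wt (R u)) := by
      rw [← Finset.sum_sdiff hts]; ring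
    have h5 : ∑ u ∈ M, wt u = ∑ u ∈ M0, (wt u + wt (R u)) := by
      rw [hMe]; exact st1_sum R hR M0 h1 wt
    rw [h4] at h3
    rw [h5]
    refine h3.trans ?_
    rw [htk, hca] at hle
    have hS0 : 0 ≤ ∑ u ∈ M0, (wt u + wt (R u)) :=
      Finset.sum_nonneg (fun u _ => add_nonneg (hwt u) (hwt _))
    rcases Nat.eq_zero_or_pos a with h | h
    · have hM0 : M0 = ∅ := by rw [← Finset.card_eq_zero]; omega
      have ht : t = ∅ := by rw [← Finset.card_eq_zero]; omega
      rw [hM0, ht]; simp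
    · have ha0 : (0 : ℝ) < a := by exact_mod_cast h
      refine le_of_mul_le_mul_left ?_ ha0
      calc (a : ℝ) * (∑ u ∈ M0, (wt u + wt (R u)) - ∑ u ∈ t, (wt u + wt (R u)))
          = a * ∑ u ∈ M0, (wt u + wt (R u)) - a * ∑ u ∈ t, (wt u + wt (R u)) := by ring
        _ ≤ a * ∑ u ∈ M0, (wt u + wt (R u)) - k * ∑ u ∈ M0, (wt u + wt (R u)) := by linarith
        _ = (a - k) * ∑ u ∈ M0, (wt u + wt (R u)) := by ring
        _ ≤ ((1 / 100000) * a) * ∑ u ∈ M0, (wt u + wt (R u)) :=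
            mul_le_mul_of_nonneg_right hka hS0
        _ = a * ((1 / 100000) * ∑ u ∈ M0, (wt u + wt (R u))) := by ring

/-- counting the kept points on one side -/
private theorem st1_count {V : Type} [Fintype V] [DecidableEq V] (R : V → V)
    (hR : ∀ u, R (R u) = u) {k : ℕ} (q : Fin k → V) (hqi : Function.Injective q)
    (hqR : ∀ i j, q i ≠ R (q j)) (S : Finset (Fin k)) (X : Finset V) (hX : ∀ j, q j ∈ X)
    (hX' : ∀ j, R (q j) ∈ X) (K : V → Prop) [DecidablePred K]
    (hK : ∀ u ∈ X, K u ↔ ∃ j, j ∉ S ∧ (u = q j ∨ u = R (q j))) :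
    (X.filter K).card = 2 * (k - S.card) := by
  have h1 : X.filter K = Sᶜ.image q ∪ Sᶜ.image (fun j => R (q j)) := by
    ext u
    rw [Finset.mem_filter, Finset.mem_union, Finset.mem_image, Finset.mem_image]
    constructor
    · rintro ⟨hu, hKu⟩
      obtain ⟨j, hj, hj2 | hj2⟩ := (hK u hu).mp hKu
      · left; exact ⟨j, Finset.mem_compl.mpr hj, hj2.symm⟩
      · right; exact ⟨j, Finset.mem_compl.mpr hj, hj2.symm⟩
    · rintro (⟨j, hj, rfl⟩ | ⟨j, hj, rfl⟩)
      · exact ⟨hX j, (hK _ (hX j)).mpr ⟨j, Finset.mem_compl.mp hj, Or.inl rfl⟩⟩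
      · exact ⟨hX' j, (hK _ (hX' j)).mpr ⟨j, Finset.mem_compl.mp hj, Or.inr rfl⟩⟩
  have hinj2 : Function.Injective (fun j => R (q j)) := (st1_inj R hR).comp hqi
  rw [h1, Finset.card_union_of_disjoint, Finset.card_image_of_injective _ hqi,
    Finset.card_image_of_injective _ hinj2, Finset.card_compl, Fintype.card_fin]
  · ring
  · rw [Finset.disjoint_left]
    intro u hu hu2
    obtain ⟨i, _, rfl⟩ := Finset.mem_image.mp hu
    obtain ⟨j, _, hj⟩ := Finset.mem_image.mp hu2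
    exact hqR i j hj.symm

private theorem st1_uniq {V : Type} (R : V → V)
    (hR : ∀ u, R (R u) = u) {k : ℕ} (q : Fin k → V) (hqi : Function.Injective q)
    (hqR : ∀ i j, q i ≠ R (q j)) (u : V) (i j : Fin k) (hi : u = q i ∨ u = R (q i))
    (hj : u = q j ∨ u = R (q j)) : i = j := by
  rcases hi with hi | hi <;> rcases hj with hj | hj
  · exact hqi (hi.symm.trans hj)
  · exact absurd (hi.symm.trans hj) (hqR i j)
  · exact absurd (hj.symm.trans hi) (hqR j i)
  · exact hqi (st1_inj R hR (hi.symm.trans hj))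

private theorem st1_num {α β ρ n a b : ℝ} (hρ : 100 ≤ ρ) (hn : ρ * 10 ^ 9 ≤ n)
    (h1 : α + β + ρ = n) (h2 : α ≤ β + 3 * ρ) (h2' : β ≤ α + 3 * ρ) (ha1 : 2 * a ≤ α)
    (ha2 : (1 - 2 / 10 ^ 6) * α ≤ 2 * a) (hb1 : 2 * b ≤ β) (hb2 : (1 - 2 / 10 ^ 6) * β ≤ 2 * b) :
    a - b ≤ (1 / 100000) * a ∧ b - a ≤ (1 / 100000) * b ∧ ρ ≤ a ∧ ρ ≤ b ∧
      (1 - 2 / 10 ^ 6) * β - 3 * ρ ≤ 2 * min a b ∧ 0 ≤ β ∧ β ≤ n / 2 + ρ := by
  refine ⟨by linarith, by linarith, by linarith, by linarith, ?_, by linarith, by linarith⟩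
  rcases le_total a b with h | h
  · rw [min_eq_left h]; linarith
  · rw [min_eq_right h]; linarith

theorem step14 : ∃ r0 : ℕ, ∀ r ≥ r0, ∀ (V : Type) [Fintype V] [DecidableEq V] (m : SQ V)
    (c : V → ℕ) (W A B : Finset V) (G : V → V → Prop) [DecidableRel G] (M : V → Finset V),
    Sz c W r → Prob m c W A B G M → ∀ h ∈ W, ∀ (R : V → V), (∀ u, R (R u) = u) →
    (∀ u, R u ≠ u → G u (R u) ∧ ¬ cross A B u (R u) ∧ u ∉ M h) →
    (1 - 2 / 10 ^ 6) * (A.card : ℝ) ≤ ((A.filter (fun u => R u ≠ u)).card : ℝ) →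
    (1 - 2 / 10 ^ 6) * (B.card : ℝ) ≤ ((B.filter (fun u => R u ≠ u)).card : ℝ) →
    ∀ (P : V → V → Prop) [DecidableRel P], (∀ u v, P u v → P v u) →
    (∀ u v, P u v → G u v ∧ cross A B u v) →
    (∀ v ∉ W, (46 / 100) * (r : ℝ) ≤ ((univ.filter (fun u => P v u)).card : ℝ)) →
    ∀ (wt : V → ℝ), (∀ u, 0 ≤ wt u) →
    ∃ f : V → V, Mat4 W G M h f ∧ (∀ u, f u ≠ u → f u = R u ∨ P u (f u)) ∧
      (A.filter (fun u => R u ≠ u ∧ f u = R u)).card =
        (B.filter (fun u => R u ≠ u ∧ f u = R u)).card ∧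
      (∑ u ∈ univ.filter (fun u => R u ≠ u ∧ f u ≠ R u), wt u) ≤ (5 / 100000) * ∑ u, wt u := by
  classical
  obtain ⟨r0, hsel⟩ := sel
  refine ⟨max r0 100, ?_⟩
  intro r hr V _ _ m c W A B G _ M hS hP h hh R hRR hRp hA hB P _ hPs hPc hPd wt hwt
  have hWr := hS.Wr
  have hn1 := hS.n1
  have hn2 := hS.n2
  have hr1 : r0 ≤ r := (le_max_left _ _).trans hr
  have hr2 : 100 ≤ r := (le_max_right _ _).trans hr
  have hAB : ∀ v, v ∉ W → v ∈ A ∨ v ∈ B := fun v hv => hP.part.AorB hv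
  have hdis : ∀ v, v ∈ A → v ∈ B → False := fun v h1 h2 =>
    (Finset.disjoint_left.mp hP.part.disj) h1 h2
  set MA := A.filter (fun u => R u ≠ u) with hMAdef
  set MB := B.filter (fun u => R u ≠ u) with hMBdef
  have hMA : ∀ u ∈ MA, R u ∈ MA ∧ R u ≠ u := by
    intro u hu
    rw [hMAdef, Finset.mem_filter] at hu
    obtain ⟨huA, huR⟩ := hu
    obtain ⟨h1, h2, -⟩ := hRp u huR
    refine ⟨?_, huR⟩
    rw [hMAdef, Finset.mem_filter, hRR]
    refine ⟨?_, fun h3 => huR h3.symm⟩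
    rcases hAB (R u) (hP.notin h1).2 with h4 | h4
    · exact h4
    · exact absurd (Or.inl ⟨huA, h4⟩) h2
  have hMB : ∀ u ∈ MB, R u ∈ MB ∧ R u ≠ u := by
    intro u hu
    rw [hMBdef, Finset.mem_filter] at hu
    obtain ⟨huB, huR⟩ := hu
    obtain ⟨h1, h2, -⟩ := hRp u huR
    refine ⟨?_, huR⟩
    rw [hMBdef, Finset.mem_filter, hRR]
    refine ⟨?_, fun h3 => huR h3.symm⟩
    rcases hAB (R u) (hP.notin h1).2 with h4 | h4
    · exact absurd (Or.inr ⟨huB, h4⟩) h2
    · exact h4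
  obtain ⟨a, ha⟩ : ∃ a, MA.card = 2 * a := by
    obtain ⟨M0, h0, h1, h2⟩ := st1_rep R hRR MA hMA
    exact ⟨M0.card, st1_rep_card R hRR MA M0 hMA h0 h1 h2⟩
  obtain ⟨b, hb⟩ : ∃ b, MB.card = 2 * b := by
    obtain ⟨M0, h0, h1, h2⟩ := st1_rep R hRR MB hMB
    exact ⟨M0.card, st1_rep_card R hRR MB M0 hMB h0 h1 h2⟩
  have haA : 2 * a ≤ A.card := by rw [← ha]; exact Finset.card_filter_le _ _
  have hbB : 2 * b ≤ B.card := by rw [← hb]; exact Finset.card_filter_le _ _
  have hnum := st1_num (α := A.card) (β := B.card) (ρ := r) (n := Fintype.card V) (a := a) (b := b)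
    (by exact_mod_cast hr2)
    (by
      have h1 : r * 10 ^ 9 ≤ r ^ 10 := by
        calc r * 10 ^ 9 ≤ r * r ^ 9 := Nat.mul_le_mul_left _ (Nat.pow_le_pow_left (by omega) 9)
          _ = r ^ 10 := by ring
      exact_mod_cast h1.trans hn1)
    (by rw [← hWr]; exact_mod_cast hP.part.card)
    (by rw [← hWr]; exact_mod_cast (hP.AB_close ⟨h, hh⟩).1)
    (by rw [← hWr]; exact_mod_cast (hP.AB_close ⟨h, hh⟩).2)
    (by exact_mod_cast haA)
    (by rw [ha] at hA; push_cast at hA; exact hA)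
    (by exact_mod_cast hbB)
    (by rw [hb] at hB; push_cast at hB; exact hB)
  obtain ⟨hab, hba, hra, hrb, hmin, hB0, hBn⟩ := hnum
  have hrn : (r : ℝ) * 10 ^ 9 ≤ Fintype.card V := by
    have h1 : r * 10 ^ 9 ≤ r ^ 10 := by
      calc r * 10 ^ 9 ≤ r * r ^ 9 := Nat.mul_le_mul_left _ (Nat.pow_le_pow_left (by omega) 9)
        _ = r ^ 10 := by ring
    exact_mod_cast h1.trans hn1
  set k := min a b with hk
  have hka : (a : ℝ) - k ≤ (1 / 100000) * a := by
    rcases le_total a b with h1 | h1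
    · rw [hk, min_eq_left h1]; simp
    · rw [hk, min_eq_right h1]; exact hab
  have hkb : (b : ℝ) - k ≤ (1 / 100000) * b := by
    rcases le_total a b with h1 | h1
    · rw [hk, min_eq_left h1]; exact hba
    · rw [hk, min_eq_right h1]; simp
  have hrk : r ≤ k := by
    rw [hk]
    exact le_min (by exact_mod_cast hra) (by exact_mod_cast hrb)
  have hmin' : (1 - 2 / 10 ^ 6) * (B.card : ℝ) - 3 * r ≤ 2 * (k : ℝ) := by
    rw [hk, Nat.cast_min]; exact hmin
  obtain ⟨qA, hqAi, hqAM, hqAR, hqAw⟩ :=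
    st1_side R hRR MA hMA wt hwt a k ha (min_le_left _ _) hka
  obtain ⟨qB, hqBi, hqBM, hqBR, hqBw⟩ :=
    st1_side R hRR MB hMB wt hwt b k hb (min_le_right _ _) hkb
  clear_value k
  have hqA1 : ∀ j, qA j ∈ A := fun j => (Finset.mem_filter.mp (hqAM j)).1
  have hqA2 : ∀ j, R (qA j) ∈ A := fun j => (Finset.mem_filter.mp (hMA _ (hqAM j)).1).1
  have hqB1 : ∀ j, qB j ∈ B := fun j => (Finset.mem_filter.mp (hqBM j)).1
  have hqB2 : ∀ j, R (qB j) ∈ B := fun j => (Finset.mem_filter.mp (hMB _ (hqBM j)).1).1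
  let T : Fin k → Finset V := fun j => {qA j, R (qA j), qB j, R (qB j)}
  have hT : ∀ j u, u ∈ T j ↔ (u = qA j ∨ u = R (qA j)) ∨ (u = qB j ∨ u = R (qB j)) := by
    intro j u
    simp only [T, Finset.mem_insert, Finset.mem_singleton]
    tauto
  have hTA : ∀ j, ∀ u ∈ A, (u ∈ T j ↔ (u = qA j ∨ u = R (qA j))) := by
    intro j u hu
    rw [hT]
    constructor
    · rintro (h1 | h1 | h1)
      · exact h1
      · exact absurd (h1 ▸ hqB1 j) (fun h2 => hdis u hu h2)
      · exact absurd (h1 ▸ hqB2 j) (fun h2 => hdis u hu h2)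
    · exact Or.inl
  have hTB : ∀ j, ∀ u ∈ B, (u ∈ T j ↔ (u = qB j ∨ u = R (qB j))) := by
    intro j u hu
    rw [hT]
    constructor
    · rintro ((h1 | h1) | h1)
      · exact absurd (h1 ▸ hqA1 j) (fun h2 => hdis u h2 hu)
      · exact absurd (h1 ▸ hqA2 j) (fun h2 => hdis u h2 hu)
      · exact h1
    · exact Or.inr
  have hTAB : ∀ j, ∀ u ∈ T j, u ∈ A ∨ u ∈ B := by
    intro j u hu
    rcases (hT j u).mp hu with (h1 | h1) | (h1 | h1)
    · exact Or.inl (h1 ▸ hqA1 j)
    · exact Or.inl (h1 ▸ hqA2 j)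
    · exact Or.inr (h1 ▸ hqB1 j)
    · exact Or.inr (h1 ▸ hqB2 j)
  have hTu : ∀ i j u, u ∈ T i → u ∈ T j → i = j := by
    intro i j u hi hj
    rcases hTAB i u hi with h1 | h1
    · exact st1_uniq R hRR qA hqAi hqAR u i j ((hTA i u h1).mp hi) ((hTA j u h1).mp hj)
    · exact st1_uniq R hRR qB hqBi hqBR u i j ((hTB i u h1).mp hi) ((hTB j u h1).mp hj)
  have hTR : ∀ j, ∀ u ∈ T j, R u ∈ T j := by
    intro j u hu
    rw [hT] at hu ⊢
    rcases hu with (h1 | h1) | (h1 | h1)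
    · left; right; rw [h1]
    · left; left; rw [h1, hRR]
    · right; right; rw [h1]
    · right; left; rw [h1, hRR]
  have hTm : ∀ j, ∀ u ∈ T j, R u ≠ u := by
    intro j u hu
    rcases hTAB j u hu with h0 | h0
    · rcases (hTA j u h0).mp hu with h1 | h1
      · rw [h1]; exact (hMA _ (hqAM j)).2
      · rw [h1, hRR]; exact fun h2 => (hMA _ (hqAM j)).2 h2.symm
    · rcases (hTB j u h0).mp hu with h1 | h1
      · rw [h1]; exact (hMB _ (hqBM j)).2
      · rw [h1, hRR]; exact fun h2 => (hMB _ (hqBM j)).2 h2.symm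
  have hTd : ∀ i j, i ≠ j → Disjoint (T i) (T j) := by
    intro i j hij
    rw [Finset.disjoint_left]
    exact fun u hi hj => hij (hTu i j u hi hj)
  have hTc : ∀ j, (T j).card ≤ 4 := fun j => Finset.card_le_four
  have hN : ∀ v, (univ.filter (fun u => P v u)).card ≤ r := by
    intro v
    rw [← hWr]
    refine (Finset.card_le_card ?_).trans (hP.deg_le v)
    intro u hu
    rw [Finset.mem_filter] at hu ⊢
    exact ⟨hu.1, (hPc v u hu.2).1⟩
  obtain ⟨S, hS1, hS2, hS3⟩ := hsel r hr1 V hn2 (Fin k) (by rw [Fintype.card_fin]; exact hrk) T hTd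
    hTc (fun v => univ.filter (fun u => P v u)) hN wt hwt
  rw [Fintype.card_fin] at hS1
  -- the kept points
  set K : Finset V := Sᶜ.biUnion T with hKdef
  have hKm : ∀ u, u ∈ K ↔ ∃ j, j ∉ S ∧ u ∈ T j := by
    intro u
    rw [hKdef, Finset.mem_biUnion]
    constructor
    · rintro ⟨j, hj, hju⟩; exact ⟨j, Finset.mem_compl.mp hj, hju⟩
    · rintro ⟨j, hj, hju⟩; exact ⟨j, Finset.mem_compl.mpr hj, hju⟩
  let b0 : V → V := fun u => if u ∈ K then R u else u
  have hb0K : ∀ u ∈ K, b0 u = R u := fun u hu => if_pos hu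
  have hb0n : ∀ u, u ∉ K → b0 u = u := fun u hu => if_neg hu
  have hKR : ∀ u ∈ K, R u ∈ K := by
    intro u hu
    rw [hKm] at hu ⊢
    obtain ⟨j, hj, hju⟩ := hu
    exact ⟨j, hj, hTR j u hju⟩
  have hKne : ∀ u ∈ K, R u ≠ u := by
    intro u hu
    obtain ⟨j, hj, hju⟩ := (hKm u).mp hu
    exact hTm j u hju
  have hb0iff : ∀ u, b0 u ≠ u ↔ u ∈ K := by
    intro u
    constructor
    · intro h1
      by_contra h2
      exact h1 (hb0n u h2)
    · intro h1
      rw [hb0K u h1]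
      exact hKne u h1
  have hb1 : ∀ u, b0 (b0 u) = u := by
    intro u
    by_cases hu : u ∈ K
    · rw [hb0K u hu, hb0K _ (hKR u hu), hRR]
    · rw [hb0n u hu, hb0n u hu]
  have hb2 : ∀ u, b0 u ≠ u → G u (b0 u) ∧ u ∉ M h := by
    intro u hu
    have h1 := (hb0iff u).mp hu
    rw [hb0K u h1]
    obtain ⟨h2, -, h3⟩ := hRp u (hKne u h1)
    exact ⟨h2, h3⟩
  have hcA : (A.filter (fun u => b0 u ≠ u)).card = 2 * (k - S.card) := by
    apply st1_count R hRR qA hqAi hqAR S A hqA1 hqA2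
    intro u hu
    rw [hb0iff, hKm]
    constructor
    · rintro ⟨j, hj, hju⟩; exact ⟨j, hj, (hTA j u hu).mp hju⟩
    · rintro ⟨j, hj, hju⟩; exact ⟨j, hj, (hTA j u hu).mpr hju⟩
  have hcB : (B.filter (fun u => b0 u ≠ u)).card = 2 * (k - S.card) := by
    apply st1_count R hRR qB hqBi hqBR S B hqB1 hqB2
    intro u hu
    rw [hb0iff, hKm]
    constructor
    · rintro ⟨j, hj, hju⟩; exact ⟨j, hj, (hTB j u hu).mp hju⟩
    · rintro ⟨j, hj, hju⟩; exact ⟨j, hj, (hTB j u hu).mpr hju⟩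
  have hr2' : (100 : ℝ) ≤ r := by exact_mod_cast hr2
  have hSk : S.card ≤ k := by
    have := Finset.card_le_univ S
    rwa [Fintype.card_fin] at this
  have hτ : (W.card : ℝ) * (B.filter (fun u => b0 u = u)).card / (2 * Fintype.card V)
      + (1 / 10 ^ 7) * W.card < 1 / 100000 * (45 / 100 * r - 8) := by
    have h1 : (B.filter (fun u => b0 u = u)).card + (B.filter (fun u => b0 u ≠ u)).card = B.card :=
      Finset.card_filter_add_card_filter_not _
    rw [hcB] at h1
    have h2 : ((B.filter (fun u => b0 u = u)).card : ℝ) + 2 * ((k : ℝ) - S.card) = B.card := by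
      rw [← Nat.cast_sub hSk]
      exact_mod_cast h1
    have h3 : ((B.filter (fun u => b0 u = u)).card : ℝ) ≤ 13 / 1000000 * B.card + 3 * r := by
      have hk0 : (0 : ℝ) ≤ k := Nat.cast_nonneg k
      linarith
    rw [hWr]
    have hn0 : (0 : ℝ) < Fintype.card V := by
      have : 0 < r ^ 10 := by positivity
      exact_mod_cast this.trans_le hn1
    have h4 : (r : ℝ) * (B.filter (fun u => b0 u = u)).card / (2 * Fintype.card V) ≤
        27 / 8000000 * r := by
      rw [div_le_iff₀ (by positivity)]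
      have h5 : ((B.filter (fun u => b0 u = u)).card : ℝ) ≤ 27 / 4000000 * Fintype.card V := by
        linarith
      have hr0' : (0 : ℝ) ≤ r := by linarith
      calc (r : ℝ) * (B.filter (fun u => b0 u = u)).card
          ≤ r * (27 / 4000000 * Fintype.card V) := mul_le_mul_of_nonneg_left h5 hr0'
        _ = 27 / 8000000 * r * (2 * Fintype.card V) := by ring
    linarith
  have hdeg : ∀ v ∉ W, v ∉ M h → b0 v = v →
      1 / 100000 * (45 / 100 * (r : ℝ) - 8) ≤
        ((univ.filter (fun u => P v u ∧ b0 u = u ∧ u ∉ M h)).card : ℝ) := by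
    intro v hv _ _
    -- points of the `T j` are not in `Zs`
    have hTZ : ∀ j, ∀ u ∈ T j, u ∉ M h := fun j u hu => (hRp u (hTm j u hu)).2.2
    set Nv := univ.filter (fun u => P v u) with hNv
    have h1 : (46 / 100) * (r : ℝ) ≤ (Nv.card : ℝ) := hPd v hv
    -- split
    have h2 : Nv ⊆ (Nv.filter (fun u => u ∈ M h)) ∪
        ((Nv.filter (fun u => u ∉ M h)) \ univ.biUnion T) ∪ (Nv ∩ univ.biUnion T) := by
      intro u hu
      by_cases h3 : u ∈ M h
      · exact Finset.mem_union_left _ (Finset.mem_union_left _ (Finset.mem_filter.mpr ⟨hu, h3⟩))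
      · by_cases h4 : u ∈ univ.biUnion T
        · exact Finset.mem_union_right _ (Finset.mem_inter.mpr ⟨hu, h4⟩)
        · exact Finset.mem_union_left _ (Finset.mem_union_right _ (Finset.mem_sdiff.mpr
            ⟨Finset.mem_filter.mpr ⟨hu, h3⟩, h4⟩))
    have h3 := (Finset.card_le_card h2).trans ((Finset.card_union_le _ _).trans
      (Nat.add_le_add_right (Finset.card_union_le _ _) _))
    have h4 : (Nv.filter (fun u => u ∈ M h)).card ≤ 8 := by
      refine (Finset.card_le_card ?_).trans (hP.mdeg v hv)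
      intro u hu
      rw [Finset.mem_filter, hNv, Finset.mem_filter] at hu
      rw [Finset.mem_filter]
      refine ⟨Finset.mem_univ u, (hPc v u hu.1.2).1, ?_⟩
      exact Finset.mem_biUnion.mpr ⟨h, hh, hu.2⟩
    have h5 := hS3 v
    have h6 : ((Nv.filter (fun u => u ∉ M h)) \ univ.biUnion T) ∪ (Nv ∩ S.biUnion T) ⊆
        univ.filter (fun u => P v u ∧ b0 u = u ∧ u ∉ M h) := by
      intro u hu
      rw [Finset.mem_union] at hu
      rw [Finset.mem_filter]
      refine ⟨Finset.mem_univ u, ?_⟩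
      rcases hu with hu | hu
      · rw [Finset.mem_sdiff, Finset.mem_filter, hNv, Finset.mem_filter] at hu
        refine ⟨hu.1.1.2, hb0n u (fun hK => ?_), hu.1.2⟩
        obtain ⟨j, -, hju⟩ := (hKm u).mp hK
        exact hu.2 (Finset.mem_biUnion.mpr ⟨j, Finset.mem_univ j, hju⟩)
      · rw [Finset.mem_inter, hNv, Finset.mem_filter, Finset.mem_biUnion] at hu
        obtain ⟨⟨-, hPu⟩, j, hjS, hju⟩ := hu
        refine ⟨hPu, hb0n u (fun hK => ?_), hTZ j u hju⟩
        obtain ⟨i, hi, hiu⟩ := (hKm u).mp hK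
        exact hi (hTu i j u hiu hju ▸ hjS)
    have h7 := Finset.card_le_card h6
    rw [Finset.card_union_of_disjoint (by
      rw [Finset.disjoint_left]
      intro u hu hu2
      rw [Finset.mem_inter, Finset.mem_biUnion] at hu2
      obtain ⟨-, j, -, hju⟩ := hu2
      exact (Finset.mem_sdiff.mp hu).2 (Finset.mem_biUnion.mpr ⟨j, Finset.mem_univ j, hju⟩))] at h7
    have h3' : (Nv.card : ℝ) ≤ (Nv.filter (fun u => u ∈ M h)).card +
        ((Nv.filter (fun u => u ∉ M h)) \ univ.biUnion T).card +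
        (Nv ∩ univ.biUnion T).card := by exact_mod_cast h3
    have h4' : ((Nv.filter (fun u => u ∈ M h)).card : ℝ) ≤ 8 := by exact_mod_cast h4
    have h7' : (((Nv.filter (fun u => u ∉ M h)) \ univ.biUnion T).card : ℝ) +
        (Nv ∩ S.biUnion T).card ≤
        (univ.filter (fun u => P v u ∧ b0 u = u ∧ u ∉ M h)).card := by exact_mod_cast h7
    have h8 : (0 : ℝ) ≤ (((Nv.filter (fun u => u ∉ M h)) \ univ.biUnion T).card : ℝ) :=
      Nat.cast_nonneg _
    simp only [← hNv] at h5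
    linarith
  obtain ⟨f, hf1, hf2, hf3⟩ := complete4 m c W A B G M hP h hh b0 hb1 hb2 (hcA.trans hcB.symm) P
    hPs hPc _ hτ hdeg
  -- the kept pairs
  have hfK : ∀ u, (R u ≠ u ∧ f u = R u) ↔ b0 u ≠ u := by
    intro u
    constructor
    · rintro ⟨h1, h2⟩
      intro h3
      have h4 : f u ≠ u := by rw [h2]; exact h1
      have h5 := hf3 u h3 h4
      rw [h2] at h5
      exact (hRp u h1).2.1 (hPc u (R u) h5).2
    · intro h1
      have h2 := (hb0iff u).mp h1
      refine ⟨hKne u h2, ?_⟩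
      rw [hf2 u h1, hb0K u h2]
  refine ⟨f, hf1, ?_, ?_, ?_⟩
  · intro u hu
    by_cases h1 : b0 u = u
    · exact Or.inr (hf3 u h1 hu)
    · left
      rw [hf2 u h1, hb0K u ((hb0iff u).mp h1)]
  · rw [Finset.filter_congr (fun u _ => hfK u), Finset.filter_congr (fun u _ => hfK u), hcA, hcB]
  · have hsub : univ.filter (fun u => R u ≠ u ∧ f u ≠ R u) ⊆
        (S.biUnion T) ∪ (MA.filter (fun u => ∀ j, u ≠ qA j ∧ u ≠ R (qA j)) ∪
          MB.filter (fun u => ∀ j, u ≠ qB j ∧ u ≠ R (qB j))) := by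
      intro u hu
      rw [Finset.mem_filter] at hu
      obtain ⟨-, h1, h2⟩ := hu
      have h3 : u ∉ K := fun hK => h2 ((hfK u).mpr ((hb0iff u).mpr hK)).2
      rw [Finset.mem_union, Finset.mem_union, Finset.mem_biUnion]
      by_cases h4 : ∃ j, u ∈ T j
      · obtain ⟨j, hj⟩ := h4
        left
        refine ⟨j, ?_, hj⟩
        by_contra h5
        exact h3 ((hKm u).mpr ⟨j, h5, hj⟩)
      · push Not at h4
        right
        obtain ⟨hadj, -, -⟩ := hRp u h1
        rcases hAB u (hP.notin hadj).1 with h5 | h5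
        · left
          refine Finset.mem_filter.mpr ⟨Finset.mem_filter.mpr ⟨h5, h1⟩, fun j => ?_⟩
          have := h4 j
          rw [hTA j u h5] at this
          exact not_or.mp this
        · right
          refine Finset.mem_filter.mpr ⟨Finset.mem_filter.mpr ⟨h5, h1⟩, fun j => ?_⟩
          have := h4 j
          rw [hTB j u h5] at this
          exact not_or.mp this
    have h1 := Finset.sum_le_sum_of_subset_of_nonneg (f := wt) hsub (fun u _ _ => hwt u)
    have h2 : ∀ X Y : Finset V, ∑ u ∈ X ∪ Y, wt u ≤ ∑ u ∈ X, wt u + ∑ u ∈ Y, wt u := by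
      intro X Y
      rw [← Finset.sum_union_inter]
      have := Finset.sum_nonneg (fun u (_ : u ∈ X ∩ Y) => hwt u)
      linarith
    have h3 := h2 (S.biUnion T) (MA.filter (fun u => ∀ j, u ≠ qA j ∧ u ≠ R (qA j)) ∪
          MB.filter (fun u => ∀ j, u ≠ qB j ∧ u ≠ R (qB j)))
    have h4 := h2 (MA.filter (fun u => ∀ j, u ≠ qA j ∧ u ≠ R (qA j)))
          (MB.filter (fun u => ∀ j, u ≠ qB j ∧ u ≠ R (qB j)))
    have h5 : ∑ u ∈ S.biUnion T, wt u = ∑ j ∈ S, ∑ u ∈ T j, wt u :=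
      Finset.sum_biUnion (fun i _ j _ hij => hTd i j hij)
    have h6 : ∑ u ∈ MA, wt u + ∑ u ∈ MB, wt u ≤ ∑ u, wt u := by
      rw [← Finset.sum_union]
      · exact Finset.sum_le_sum_of_subset_of_nonneg (Finset.subset_univ _) (fun u _ _ => hwt u)
      · rw [Finset.disjoint_left]
        intro u hu hu2
        exact hdis u (Finset.mem_filter.mp hu).1 (Finset.mem_filter.mp hu2).1
    linarith

end Pool.Agent.CH4
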