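import Pool.Agent.CH4.Basic

/-!
# CH4/ZCard: the numbers of third points of each colour

Double counting of the pairs `(h, v)`, `v ∈ Zs m W h`, `c v = i` (as `Zall_card` in `CHS/Basic`):
every `v ∈ Zall` lies in exactly two `Zs m W h` (`two_of_mem4`), and
`#{v ∈ Zs m W h : c v = i} = #{w ∈ W \ {h} : c (m.mul h w) = i}`, which differs from
`#{w ∈ W : c (m.mul h w) = i} = r/4 ± 10⁻¹⁴ r` (`hit`) by at most 1 (for `w = h`, `m h h = h`).  So
`2 |Z_i| = r (r/4 ± (10⁻¹⁴ r + 1))`, and `r ≤ 10⁻⁶ r²/4` for `r ≥ 4·10⁶`.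
`Zall_card4`: as `Zall_card` in `CHS/Basic`.
-/

set_option autoImplicit false

namespace Pool.Agent.CH4
open Finset Pool.Agent.CHS

variable {V : Type} [Fintype V] [DecidableEq V] {m : SQ V} {c : V → ℕ} {W : Finset V}

/-- Double counting of the pairs `(h, v)` with `v ∈ Zs m W h` and `P v`. -/
theorem dcount4MN (hW : Good4 m c W) (P : V → Prop) [DecidablePred P] :
    ∑ h ∈ W, ((Zs m W h).filter P).card = 2 * ((Zall m W).filter P).card := by
  have h2 : ∀ h ∈ W, ((Zs m W h).filter P).card =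
      ∑ v ∈ (Zall m W).filter P, if v ∈ Zs m W h then 1 else 0 := by
    intro h hh
    rw [← Finset.sum_filter, Finset.sum_const, smul_eq_mul, mul_one]
    congr 1
    ext v
    simp only [Finset.mem_filter]
    exact ⟨fun hv => ⟨⟨Finset.mem_biUnion.2 ⟨h, hh, hv.1⟩, hv.2⟩, hv.1⟩,
      fun hv => ⟨hv.2, hv.1.2⟩⟩
  rw [Finset.sum_congr rfl h2, Finset.sum_comm]
  have h3 : ∀ v ∈ (Zall m W).filter P, (∑ h ∈ W, if v ∈ Zs m W h then 1 else 0) = 2 := by
    intro v hv
    rw [← Finset.card_filter]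
    exact two_of_mem4 hW v (Finset.mem_filter.1 hv).1
  rw [Finset.sum_congr rfl h3, Finset.sum_const, smul_eq_mul, mul_comm]

theorem Zall_card4 (hW : Good4 m c W) : 2 * (Zall m W).card + W.card = W.card * W.card := by
  have h1 := dcount4MN hW (fun _ => True)
  simp only [Finset.filter_true] at h1
  rw [← h1]
  have h4 : ∑ h ∈ W, (Zs m W h).card + W.card = ∑ h ∈ W, ((Zs m W h).card + 1) := by
    rw [Finset.sum_add_distrib]; simp
  rw [h4, Finset.sum_congr rfl (fun h hh => Zs_card m W h hh), Finset.sum_const, smul_eq_mul]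

theorem Zi_card4 (hW : Good4 m c W) (hr : 4 * 10 ^ 6 ≤ W.card) (i : ℕ) (hi : i < 4) :
    |((((Zall m W).filter (fun v => c v = i)).card : ℝ)) - (W.card : ℝ) ^ 2 / 8|
      ≤ (1 / 10 ^ 6) * (W.card : ℝ) ^ 2 := by
  have h1 := dcount4MN hW (fun v => c v = i)
  have hr' : (4 * 10 ^ 6 : ℝ) ≤ (W.card : ℝ) := by exact_mod_cast hr
  have h2 : ∀ h ∈ W, ((Zs m W h).filter (fun v => c v = i)).card =
      ((W.erase h).filter (fun w => c (m.mul h w) = i)).card := by
    intro h _
    unfold Zs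
    rw [Finset.filter_image, Finset.card_image_of_injective _ (mul_inj m h)]
  have h3 : ∀ h ∈ W, |(((Zs m W h).filter (fun v => c v = i)).card : ℝ) - (W.card : ℝ) / 4| ≤
      (1 / 10 ^ 14) * W.card + 1 := by
    intro h hh
    rw [h2 h hh]
    have h5 := hW.hit h i hi
    have h6 : ((W.erase h).filter (fun w => c (m.mul h w) = i)).card ≤
        (W.filter (fun w => c (m.mul h w) = i)).card :=
      Finset.card_le_card (Finset.filter_subset_filter _ (Finset.erase_subset _ _))
    have h7 : (W.filter (fun w => c (m.mul h w) = i)).card ≤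
        ((W.erase h).filter (fun w => c (m.mul h w) = i)).card + 1 := by
      rw [Finset.filter_erase]
      have := Finset.pred_card_le_card_erase
        (s := W.filter (fun w => c (m.mul h w) = i)) (a := h)
      omega
    have h6' : (((W.erase h).filter (fun w => c (m.mul h w) = i)).card : ℝ) ≤
        ((W.filter (fun w => c (m.mul h w) = i)).card : ℝ) := by exact_mod_cast h6
    have h7' : ((W.filter (fun w => c (m.mul h w) = i)).card : ℝ) ≤
        (((W.erase h).filter (fun w => c (m.mul h w) = i)).card : ℝ) + 1 := by exact_mod_cast h7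
    rw [abs_le] at h5 ⊢
    constructor <;> linarith [h5.1, h5.2]
  have h4 : ((∑ h ∈ W, ((Zs m W h).filter (fun v => c v = i)).card : ℕ) : ℝ) =
      2 * (((Zall m W).filter (fun v => c v = i)).card : ℝ) := by
    rw [h1]
    push_cast
    ring
  have h5 : |(∑ h ∈ W, (((Zs m W h).filter (fun v => c v = i)).card : ℝ)) -
      (W.card : ℝ) * ((W.card : ℝ) / 4)| ≤ (W.card : ℝ) * ((1 / 10 ^ 14) * W.card + 1) := by
    have e1 : (∑ h ∈ W, (((Zs m W h).filter (fun v => c v = i)).card : ℝ)) -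
        (W.card : ℝ) * ((W.card : ℝ) / 4) =
        ∑ h ∈ W, ((((Zs m W h).filter (fun v => c v = i)).card : ℝ) - (W.card : ℝ) / 4) := by
      rw [Finset.sum_sub_distrib, Finset.sum_const, nsmul_eq_mul]
    rw [e1]
    refine (Finset.abs_sum_le_sum_abs _ _).trans ?_
    refine (Finset.sum_le_sum h3).trans ?_
    rw [Finset.sum_const, nsmul_eq_mul]
  push_cast at h4
  rw [h4] at h5
  rw [abs_le] at h5 ⊢
  have h6 : (W.card : ℝ) * ((1 / 10 ^ 14) * W.card + 1) ≤ 2 * ((1 / 10 ^ 6) * (W.card : ℝ) ^ 2) := by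
    nlinarith
  constructor
  · nlinarith [h5.1]
  · nlinarith [h5.2]

end Pool.Agent.CH4
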